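import Pool.Agent.T2h22.HolderK

set_option autoImplicit false

open MeasureTheory Set Filter Topology Metric

namespace Pool.Agent.T2h22

/-- The growth theorem on the ellipse. -/
theorem growth_ellipse {a b : ℝ} (ha : 0 < a) (hb : 0 < b) {ω ψ : ℝ → ℂ → ℝ} {Φ : ℝ → ℂ → ℂ}
    (h : IsEulerSolution (Ellipse a b) ω ψ Φ) {c : ℝ}
    (hc : ∫ z in ball (0 : ℂ) 1, (ω 0 (diag a b z) - c) = 0)
    (he : DiscSol.energy (1 / a ^ 2) (1 / b ^ 2) (fun t z => a * fderiv ℝ (ψ t) (diag a b z) 1)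
      (fun t z => b * fderiv ℝ (ψ t) (diag a b z) Complex.I) 0 ≠
      c ^ 2 * tor (1 / a ^ 2) (1 / b ^ 2)) :
    ∃ C1 : ℝ, 0 < C1 ∧ ∀ t, 0 ≤ t → ∀ K : ℝ,
      (∀ x ∈ Ellipse a b, ‖fderiv ℝ (Φ t) x‖ ≤ K) → t ≤ C1 * (K ^ 2 + 1) := by
  obtain ⟨C1, hC1, hg⟩ := (IsEulerSolution.toDisc ha hb h).growth (by positivity) (by positivity)
    (by positivity) hc he
  have hM := isOpen_ellipse ha hb
  have hcv := convex_ellipse ha hb
  set k0 : ℝ := ‖diag (1 / a) (1 / b)‖ * ‖diag a b‖ with hk0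
  refine ⟨C1 * (k0 ^ 2 + 1), by positivity, fun t ht K hK => ?_⟩
  have hKnn : 0 ≤ K := (norm_nonneg _).trans (hK (diag a b 0)
    ((mem_ellipse_iff ha hb).2 (mem_ball_self one_pos)))
  have h1 := hg t ht (‖diag (1 / a) (1 / b)‖ * K * ‖diag a b‖) (by
    intro x hx
    have hx' : diag a b x ∈ Ellipse a b := (mem_ellipse_iff ha hb).2 hx
    have h2 := (h.flowData hM hcv).dphi hx' ht
    have h3 : HasFDerivAt (fun z => diag (1 / a) (1 / b) (Φ t (diag a b z)))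
        ((diag (1 / a) (1 / b)).comp ((fderiv ℝ (Φ t) (diag a b x)).comp (diag a b))) x :=
      (diag (1 / a) (1 / b)).hasFDerivAt.comp x (h2.comp x (diag a b).hasFDerivAt)
    rw [h3.fderiv]
    refine (ContinuousLinearMap.opNorm_comp_le _ _).trans ?_
    rw [mul_assoc]
    refine mul_le_mul_of_nonneg_left ?_ (norm_nonneg _)
    refine (ContinuousLinearMap.opNorm_comp_le _ _).trans ?_
    exact mul_le_mul_of_nonneg_right (hK _ hx') (norm_nonneg _))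
  have e : (‖diag (1 / a) (1 / b)‖ * K * ‖diag a b‖) ^ 2 = k0 ^ 2 * K ^ 2 := by rw [hk0]; ring
  rw [e] at h1
  refine h1.trans ?_
  rw [mul_assoc]
  refine mul_le_mul_of_nonneg_left ?_ hC1.le
  nlinarith [sq_nonneg k0, sq_nonneg K]

/-- From a bound on times to a power law. -/
theorem pow_growth {β C1 c : ℝ} (hβ : 0 < β) (hC1 : 0 < C1) (hc : 0 < c) {F : ℝ → ENNReal}
    (h : ∀ t, 0 ≤ t → ∀ N, 0 < N → F t ≤ ENNReal.ofReal N →
      t ≤ C1 * (((N / c) ^ (1 / β)) ^ 2 + 1)) :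
    ∃ c' : ℝ, 0 < c' ∧ ∀ᶠ t in atTop, ENNReal.ofReal (c' * t ^ (β / 2)) ≤ F t := by
  set L : ℝ := (2 * C1) ^ (β / 2) with hL
  have hL0 : 0 < L := by positivity
  refine ⟨c / 2 / L, by positivity, ?_⟩
  filter_upwards [eventually_ge_atTop (2 * C1)] with t ht
  have ht0 : 0 < t := by linarith
  by_contra hlt
  push Not at hlt
  have htβ : 0 < t ^ (β / 2) := by positivity
  have hN : 0 < c / 2 / L * t ^ (β / 2) := by positivity
  have h1 := h t ht0.le _ hN hlt.le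
  set X : ℝ := c / 2 / L * t ^ (β / 2) / c with hX
  have hX0 : 0 < X := by positivity
  have h2 : t / (2 * C1) ≤ (X ^ (1 / β)) ^ 2 := by
    rw [div_le_iff₀ (by positivity)]
    nlinarith
  have h3 : (X ^ (1 / β)) ^ 2 = X ^ (2 / β) := by
    rw [← Real.rpow_natCast, ← Real.rpow_mul hX0.le]
    congr 1
    push_cast
    ring
  rw [h3] at h2
  have h4 : (t / (2 * C1)) ^ (β / 2) ≤ X := by
    calc (t / (2 * C1)) ^ (β / 2) ≤ (X ^ (2 / β)) ^ (β / 2) :=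
          Real.rpow_le_rpow (by positivity) h2 (by positivity)
      _ = X := by
          rw [← Real.rpow_mul hX0.le]
          have : 2 / β * (β / 2) = 1 := by field_simp
          rw [this, Real.rpow_one]
  rw [Real.div_rpow ht0.le (by positivity), ← hL] at h4
  have h5 : X = 1 / 2 * (t ^ (β / 2) / L) := by rw [hX]; field_simp
  have h6 : 0 < t ^ (β / 2) / L := by positivity
  linarith

/-- Smooth functions are Hölder continuous on bounded sets. -/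
theorem holder_of_contDiff {E : Type} [NormedAddCommGroup E] [NormedSpace ℝ E] {F : ℂ → E}
    (hF : ContDiff ℝ 1 F) {M : Set ℂ} (hM : Bornology.IsBounded M) {α : ℝ} (hα : 0 < α)
    (hα1 : α < 1) : ∃ K : ℝ, 0 ≤ K ∧ (∀ z ∈ M, ‖F z‖ ≤ K) ∧
      ∀ z ∈ M, ∀ w ∈ M, ‖F z - F w‖ ≤ K * ‖z - w‖ ^ α := by
  obtain ⟨R, hR⟩ := hM.subset_closedBall (0 : ℂ)
  set R' : ℝ := max R 1 with hR'
  have hR'1 : 1 ≤ R' := le_max_right _ _
  have hMR : M ⊆ closedBall (0 : ℂ) R' := hR.trans (closedBall_subset_closedBall (le_max_left _ _))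
  obtain ⟨K1, hK1⟩ := (isCompact_closedBall (0 : ℂ) R').exists_bound_of_continuousOn
    hF.continuous.continuousOn
  obtain ⟨K2, hK2⟩ := (isCompact_closedBall (0 : ℂ) R').exists_bound_of_continuousOn
    (hF.continuous_fderiv (by norm_num)).continuousOn
  have h0 : (0 : ℂ) ∈ closedBall (0 : ℂ) R' := mem_closedBall_self (by linarith)
  have hK1' : 0 ≤ K1 := (norm_nonneg _).trans (hK1 0 h0)
  have hK2' : 0 ≤ K2 := (norm_nonneg _).trans (hK2 0 h0)
  refine ⟨K1 + K2 * (2 * R'), by positivity, fun z hz => ?_, fun z hz w hw => ?_⟩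
  · have := hK1 z (hMR hz)
    have : 0 ≤ K2 * (2 * R') := by positivity
    linarith
  · have h1 : ‖F z - F w‖ ≤ K2 * ‖z - w‖ :=
      (convex_closedBall (0 : ℂ) R').norm_image_sub_le_of_norm_fderiv_le
        (fun x _ => (hF.differentiable (by norm_num)) x) (fun x hx => hK2 x hx) (hMR hw) (hMR hz)
    rcases eq_or_ne z w with rfl | hzw
    · simp only [sub_self, norm_zero]; positivity
    have hp : 0 < ‖z - w‖ := norm_pos_iff.2 (sub_ne_zero.2 hzw)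
    have h2 : ‖z - w‖ = ‖z - w‖ ^ (1 - α) * ‖z - w‖ ^ α := by
      rw [← Real.rpow_add hp]; simp
    have h3 : ‖z - w‖ ≤ 2 * R' := by
      have a1 := mem_closedBall_zero_iff.1 (hMR hz)
      have a2 := mem_closedBall_zero_iff.1 (hMR hw)
      linarith [norm_sub_le z w]
    have h4 : ‖z - w‖ ^ (1 - α) ≤ 2 * R' := by
      calc ‖z - w‖ ^ (1 - α) ≤ (2 * R') ^ (1 - α) :=
            Real.rpow_le_rpow hp.le h3 (by linarith)
        _ ≤ (2 * R') ^ (1 : ℝ) := Real.rpow_le_rpow_of_exponent_le (by linarith) (by linarith)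
        _ = 2 * R' := Real.rpow_one _
    have hpα : 0 ≤ ‖z - w‖ ^ α := by positivity
    calc ‖F z - F w‖ ≤ K2 * ‖z - w‖ := h1
      _ = K2 * (‖z - w‖ ^ (1 - α) * ‖z - w‖ ^ α) := by rw [← h2]
      _ ≤ K2 * (2 * R' * ‖z - w‖ ^ α) := by gcongr
      _ ≤ (K1 + K2 * (2 * R')) * ‖z - w‖ ^ α := by nlinarith

/-- A cusp remains after the addition of a differentiable function. -/
theorem rough_add {E : Type} [NormedAddCommGroup E] [NormedSpace ℝ E] {ℓ : E →L[ℝ] ℝ}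
    (hℓ : ‖ℓ‖ ≤ 1) {F H : ℂ → E} {x e : ℂ} (he : ‖e‖ = 1) (hH : DifferentiableAt ℝ H x)
    {α c : ℝ} (hα1 : α < 1) (hc : 0 < c)
    (hr : ∀ δ > 0, ∃ h : ℝ, 0 < h ∧ h < δ ∧ c * h ^ α ≤ |ℓ (F (x + h * e) - F x)|) :
    ∀ δ > 0, ∃ h : ℝ, 0 < h ∧ h < δ ∧
      c / 2 * h ^ α ≤ |ℓ ((F (x + h * e) + H (x + h * e)) - (F x + H x))| := by
  intro δ hδ
  obtain ⟨L, hL⟩ := (hH.hasFDerivAt.isBigO_sub).bound
  obtain ⟨δ1, hδ1, hδ1'⟩ := Metric.eventually_nhds_iff.1 hL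
  set L' : ℝ := max L 0 + 1 with hL'
  have hL'0 : 0 < L' := by have := le_max_right L 0; positivity
  have t2 : Tendsto (fun q : ℝ => q ^ (1 - α)) (𝓝[>] 0) (𝓝 0) := by
    have := (Real.continuousAt_rpow_const 0 (1 - α) (Or.inr (by linarith))).tendsto
    rw [Real.zero_rpow (by linarith)] at this
    exact this.mono_left nhdsWithin_le_nhds
  have e3 := t2.eventually (ge_mem_nhds (show (0:ℝ) < c / (2 * L') by positivity))
  obtain ⟨δ2, hδ2, hδ2'⟩ := mem_nhdsGT_iff_exists_Ioo_subset.1 e3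
  have hδ20 : 0 < δ2 := hδ2
  obtain ⟨h, h0, hlt, hle⟩ := hr (min δ (min δ1 δ2)) (lt_min hδ (lt_min hδ1 hδ20))
  have l1 : h < δ := hlt.trans_le (min_le_left _ _)
  have l2 : h < δ1 := hlt.trans_le ((min_le_right _ _).trans (min_le_left _ _))
  have l3 : h < δ2 := hlt.trans_le ((min_le_right _ _).trans (min_le_right _ _))
  refine ⟨h, h0, l1, ?_⟩
  have hn : ‖(h : ℂ) * e‖ = h := by
    rw [norm_mul, he, mul_one, Complex.norm_real, Real.norm_of_nonneg h0.le]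
  have h1 : ‖H (x + h * e) - H x‖ ≤ L * ‖x + h * e - x‖ := hδ1' (by
    rw [dist_eq_norm, add_sub_cancel_left, hn]; exact l2)
  rw [add_sub_cancel_left, hn] at h1
  have h2 : ‖H (x + h * e) - H x‖ ≤ L' * h := by
    refine h1.trans (mul_le_mul_of_nonneg_right ?_ h0.le)
    have := le_max_left L 0
    linarith
  have h3 : h ^ (1 - α) ≤ c / (2 * L') := hδ2' ⟨h0, l3⟩
  have h4 : h = h ^ (1 - α) * h ^ α := by rw [← Real.rpow_add h0]; simp
  have h5 : L' * h ≤ c / 2 * h ^ α := by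
    calc L' * h = L' * (h ^ (1 - α) * h ^ α) := by rw [← h4]
      _ ≤ L' * (c / (2 * L') * h ^ α) := by gcongr
      _ = _ := by field_simp
  have h6 : |ℓ (H (x + h * e) - H x)| ≤ c / 2 * h ^ α := by
    have := ℓ.le_opNorm (H (x + h * e) - H x)
    rw [Real.norm_eq_abs] at this
    refine this.trans ((mul_le_mul hℓ h2 (norm_nonneg _) zero_le_one).trans ?_)
    rw [one_mul]; exact h5
  have h7 : ℓ ((F (x + h * e) + H (x + h * e)) - (F x + H x)) =
      ℓ (F (x + h * e) - F x) - (-ℓ (H (x + h * e) - H x)) := by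
    rw [sub_neg_eq_add, ← map_add]; congr 1; abel
  rw [h7]
  have h8 := abs_sub_abs_le_abs_sub (ℓ (F (x + h * e) - F x)) (-ℓ (H (x + h * e) - H x))
  rw [abs_neg] at h8
  have h9 : c * h ^ α = c / 2 * h ^ α + c / 2 * h ^ α := by ring
  linarith

/-- the smooth perturbation on the ellipse -/
noncomputable def PP (a b k : ℝ) (z : ℂ) : ℝ :=
  LL (1 / a ^ 2) (1 / b ^ 2) k (diag (1 / a) (1 / b) z)

theorem PP_smul (a b k : ℝ) (z : ℂ) : PP a b k z = k * PP a b 1 z := LL_smul _ _ _ _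

theorem PP_contDiff (a b k : ℝ) : ContDiff ℝ 2 (PP a b k) := by
  have h1 : ContDiff ℝ 2 (LL (1 / a ^ 2) (1 / b ^ 2) k) := by
    have r : ContDiff ℝ 2 (fun z : ℂ => z.re) := Complex.reCLM.contDiff
    have i : ContDiff ℝ 2 (fun z : ℂ => z.im) := Complex.imCLM.contDiff
    have w : ContDiff ℝ 2 w0 := (contDiff_const.sub (r.pow 2)).sub (i.pow 2)
    have xx : ContDiff ℝ 2 (χxx k) :=
      contDiff_const.mul ((contDiff_const.mul w).add (contDiff_const.mul (r.pow 2)))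
    have yy : ContDiff ℝ 2 (χyy k) :=
      contDiff_const.mul ((contDiff_const.mul w).add (contDiff_const.mul (i.pow 2)))
    exact (contDiff_const.mul xx).add (contDiff_const.mul yy)
  exact h1.comp (diag (1 / a) (1 / b)).contDiff

theorem isBounded_ellipse {a b : ℝ} (ha : 0 < a) (hb : 0 < b) :
    Bornology.IsBounded (Ellipse a b) := by
  rw [← image_ellipse ha hb]
  exact (diagE ha hb).toContinuousLinearMap.lipschitz.isBounded_image isBounded_ball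

/-- Among three data, one has no solution with the exceptional energy. -/
theorem exists_good {a b : ℝ} (ha : 0 < a) (hb : 0 < b) {k : ℝ} (hk : k ≠ 0) (g : ℂ → ℝ) :
    ∃ s : ℝ, |s| ≤ 1 ∧ ∀ (ω ψ : ℝ → ℂ → ℝ) (Φ : ℝ → ℂ → ℂ), IsEulerSolution (Ellipse a b) ω ψ Φ →
      (∀ z ∈ Ellipse a b, ω 0 z = g z + PP a b (s * k) z) →
      ∃ C1 : ℝ, 0 < C1 ∧ ∀ t, 0 ≤ t → ∀ K : ℝ,
        (∀ x ∈ Ellipse a b, ‖fderiv ℝ (Φ t) x‖ ≤ K) → t ≤ C1 * (K ^ 2 + 1) := by
  have hm : ∀ z ∈ ball (0 : ℂ) 1, diag a b z ∈ Ellipse a b := fun z hz => (mem_ellipse_iff ha hb).2 hz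
  set c : ℝ := (∫ z in ball (0 : ℂ) 1, g (diag a b z)) / volume.real (ball (0 : ℂ) 1) with hc
  have hV : 0 < volume.real (ball (0 : ℂ) 1) :=
    ENNReal.toReal_pos (measure_ball_pos volume _ one_pos).ne' measure_ball_lt_top.ne
  -- the mean
  have hmean : ∀ {s : ℝ} {ω ψ : ℝ → ℂ → ℝ} {Φ : ℝ → ℂ → ℂ}, IsEulerSolution (Ellipse a b) ω ψ Φ →
      (∀ z ∈ Ellipse a b, ω 0 z = g z + PP a b (s * k) z) →
      ∫ z in ball (0 : ℂ) 1, (ω 0 (diag a b z) - c) = 0 := by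
    intro s ω ψ Φ h hω
    have hd := IsEulerSolution.toDisc ha hb h
    obtain ⟨B, _, hB⟩ := hd.bd_ω
    have i0 : IntegrableOn (fun z => ω 0 (diag a b z)) (ball (0 : ℂ) 1) :=
      integrableOn_ball (hd.contω le_rfl) (hB 0 le_rfl)
    have i1 := integrableOn_LL (1 / a ^ 2) (1 / b ^ 2) (s * k)
    have ic : IntegrableOn (fun _ : ℂ => c) (ball (0 : ℂ) 1) :=
      integrableOn_const measure_ball_lt_top.ne
    have e1 : ∫ z in ball (0 : ℂ) 1, g (diag a b z) =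
        ∫ z in ball (0 : ℂ) 1, (ω 0 (diag a b z) - LL (1 / a ^ 2) (1 / b ^ 2) (s * k) z) := by
      refine setIntegral_congr_fun measurableSet_ball fun z hz => ?_
      rw [hω _ (hm z hz), PP, diag_inv ha hb]
      ring
    rw [integral_sub i0 i1, LL_mean, sub_zero] at e1
    rw [integral_sub i0 ic, ← e1, setIntegral_const, smul_eq_mul, hc]
    field_simp
    ring
  by_contra hcon
  push Not at hcon
  have key : ∀ s : ℝ, |s| ≤ 1 → ∃ (ω ψ : ℝ → ℂ → ℝ) (Φ : ℝ → ℂ → ℂ),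
      IsEulerSolution (Ellipse a b) ω ψ Φ ∧
      (∀ z ∈ Ellipse a b, ω 0 z = g z + PP a b (s * k) z) ∧
      DiscSol.energy (1 / a ^ 2) (1 / b ^ 2) (fun t z => a * fderiv ℝ (ψ t) (diag a b z) 1)
        (fun t z => b * fderiv ℝ (ψ t) (diag a b z) Complex.I) 0 =
        c ^ 2 * tor (1 / a ^ 2) (1 / b ^ 2) := by
    intro s hs
    obtain ⟨ω, ψ, Φ, h, hω, hbad⟩ := hcon s hs
    refine ⟨ω, ψ, Φ, h, hω, ?_⟩
    by_contra hne
    obtain ⟨C1, hC1, hC1'⟩ := growth_ellipse ha hb h (hmean h hω) hne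
    obtain ⟨t, ht, K, hK, hlt⟩ := hbad C1 hC1
    exact absurd (hC1' t ht K hK) (not_le.2 hlt)
  obtain ⟨ω0, ψ0, Φ0, h0, g0, e0⟩ := key 0 (by simp)
  obtain ⟨ω1, ψ1, Φ1, h1, g1, e1⟩ := key 1 (by simp)
  obtain ⟨ω2, ψ2, Φ2, h2, g2, e2⟩ := key (-1) (by simp)
  have d0 := IsEulerSolution.toDisc ha hb h0
  have d1 := IsEulerSolution.toDisc ha hb h1
  have d2 := IsEulerSolution.toDisc ha hb h2
  obtain ⟨C0, _, c0⟩ := d0.c2 0
  obtain ⟨C1, _, c1⟩ := d1.c2 0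
  obtain ⟨C2', _, c2⟩ := d2.c2 0
  refine three_energies (A := 1 / a ^ 2) (B := 1 / b ^ 2) (by positivity) (by positivity) hk
    (c0 0 ⟨le_rfl, le_rfl⟩).1 (c1 0 ⟨le_rfl, le_rfl⟩).1 (c2 0 ⟨le_rfl, le_rfl⟩).1 ?_ ?_
    e0 e1 e2
  · intro z hz
    rw [← d1.vort 0 le_rfl z hz, ← d0.vort 0 le_rfl z hz, g1 _ (hm z hz), g0 _ (hm z hz), PP, PP,
      diag_inv ha hb, zero_mul, one_mul, LL_smul _ _ 0]
    ring
  · intro z hz
    rw [← d2.vort 0 le_rfl z hz, ← d0.vort 0 le_rfl z hz, g2 _ (hm z hz), g0 _ (hm z hz), PP, PP,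
      diag_inv ha hb, zero_mul, LL_smul _ _ 0, LL_smul _ _ (-1 * k), LL_smul _ _ k]
    ring

end Pool.Agent.T2h22
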