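import Pool.Agent.T2h22.Sol

set_option autoImplicit false

open MeasureTheory Set Filter Topology Metric

namespace Pool.Agent.T2h22

namespace DiscSol

variable {A B κ : ℝ} {Ψ p q pxx pxy pyy ω : ℝ → ℂ → ℝ} {φ : ℝ → ℂ → ℂ}

/-- The mean angular velocity of the pairs containing the point `z`. -/
noncomputable def S (κ : ℝ) (Ψ p q : ℝ → ℂ → ℝ) (t : ℝ) (z : ℂ) : ℝ :=
  κ * (Real.pi * (z.re * p t z + z.im * q t z) - 2 * Real.pi * Ψ t z)

/-- The angular velocity of a pair of particles. -/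
noncomputable def W (κ : ℝ) (p q : ℝ → ℂ → ℝ) (φ : ℝ → ℂ → ℂ) (s : ℝ) (x y : ℂ) : ℂ :=
  (UU κ (p s) (q s) (φ s x) - UU κ (p s) (q s) (φ s y)) / (φ s x - φ s y)

theorem S_cont (h : DiscSol A B κ Ψ p q pxx pxy pyy ω φ) :
    ContinuousOn (fun x : ℝ × ℂ => S κ Ψ p q x.1 x.2) (Ici (0:ℝ) ×ˢ ball (0 : ℂ) 1) := by
  unfold S
  have cr : ContinuousOn (fun x : ℝ × ℂ => x.2.re) (Ici (0:ℝ) ×ˢ ball (0 : ℂ) 1) := by fun_prop
  have ci : ContinuousOn (fun x : ℝ × ℂ => x.2.im) (Ici (0:ℝ) ×ˢ ball (0 : ℂ) 1) := by fun_prop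
  exact continuousOn_const.mul ((continuousOn_const.mul ((cr.mul h.cp).add (ci.mul h.cq))).sub
    (continuousOn_const.mul h.cΨ))

/-- continuity along trajectories -/
theorem S_cont_traj (h : DiscSol A B κ Ψ p q pxx pxy pyy ω φ) :
    ContinuousOn (fun x : ℝ × ℂ => S κ Ψ p q x.1 (φ x.1 x.2)) (Ici (0:ℝ) ×ˢ ball (0 : ℂ) 1) :=
  h.S_cont.comp (continuousOn_fst.prodMk h.flow.phi_cont) fun _ hx =>
    ⟨hx.1, h.flow.mem _ hx.1 _ hx.2⟩

theorem S_bd (h : DiscSol A B κ Ψ p q pxx pxy pyy ω φ) (T : ℝ) : ∃ M : ℝ, 0 ≤ M ∧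
    ∀ t ∈ Icc 0 T, ∀ z ∈ ball (0 : ℂ) 1, |S κ Ψ p q t z| ≤ M := by
  obtain ⟨C, hC0, hC⟩ := h.c2 T
  have hpi := Real.pi_pos
  refine ⟨|κ| * (Real.pi * (C + C) + 2 * Real.pi * (2 * C)), by positivity, fun t ht z hz => ?_⟩
  rw [S, abs_mul]
  refine mul_le_mul_of_nonneg_left ?_ (abs_nonneg _)
  have c := (hC t ht).1
  have hre : |z.re| ≤ 1 := (Complex.abs_re_le_norm z).trans (mem_ball_zero_iff.1 hz).le
  have him : |z.im| ≤ 1 := (Complex.abs_im_le_norm z).trans (mem_ball_zero_iff.1 hz).le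
  have h1 := abs_mul_le' hre (c.bx z hz)
  have h2 := abs_mul_le' him (c.by' z hz)
  have h3 := c.bd hz
  refine (abs_sub _ _).trans (add_le_add ?_ ?_)
  · rw [abs_mul, abs_of_pos hpi]
    refine mul_le_mul_of_nonneg_left ?_ hpi.le
    exact (abs_add_le _ _).trans (by linarith)
  · rw [abs_mul, abs_of_pos (by positivity : (0:ℝ) < 2 * Real.pi)]
    exact mul_le_mul_of_nonneg_left h3 (by positivity)

theorem int_W (h : DiscSol A B κ Ψ p q pxx pxy pyy ω φ) {s : ℝ} (hs : 0 ≤ s) {x : ℂ}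
    (hx : x ∈ ball (0 : ℂ) 1) :
    ∫ y in ball (0 : ℂ) 1, (W κ p q φ s x y).im = S κ Ψ p q s (φ s x) := by
  obtain ⟨C, hC0, hC⟩ := h.c2 s
  have c := (hC s ⟨hs, le_rfl⟩).1
  have h1 := pair_formula (κ := κ) c.d0 c.contx c.conty c.bx c.by' c.bc (h.flow.mem s hs x hx)
  rw [S, ← h1, ← h.cov hs (fun w => ((UU κ (p s) (q s) w - UU κ (p s) (q s) (φ s x)) /
    (w - φ s x)).im)]
  refine setIntegral_congr_fun measurableSet_ball fun y _ => ?_
  simp only [W]
  rw [← neg_div_neg_eq, neg_sub, neg_sub]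

theorem osc (h : DiscSol A B κ Ψ p q pxx pxy pyy ω φ) {t : ℝ} (ht : 0 ≤ t) {K : ℝ}
    (hK : ∀ x ∈ ball (0 : ℂ) 1, ‖fderiv ℝ (φ t) x‖ ≤ K) {x x' : ℂ} (hx : x ∈ ball (0 : ℂ) 1)
    (hx' : x' ∈ ball (0 : ℂ) 1) :
    |(∫ s in (0:ℝ)..t, S κ Ψ p q s (φ s x')) - ∫ s in (0:ℝ)..t, S κ Ψ p q s (φ s x)| ≤
      (K ^ 2 + 1) * ‖x' - x‖ * (4 * Real.pi) := by
  have hfl := h.flow
  set E : Set ℂ := ball (0 : ℂ) 1 \ Seg x x' with hE
  have mE : MeasurableSet E := measurableSet_ball.diff (isClosed_Seg x x').measurableSet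
  have hxS : x ∈ Seg x x' := ⟨0, ⟨le_rfl, zero_le_one⟩, by simp⟩
  have hx'S : x' ∈ Seg x x' := ⟨1, ⟨zero_le_one, le_rfl⟩, by simp⟩
  have hEae : (volume : Measure ℂ).restrict (ball (0 : ℂ) 1) = volume.restrict E := by
    refine Measure.restrict_congr_set ?_
    rw [hE]
    exact (sdiff_null_ae_eq_self (volume_Seg x x')).symm
  have hEball : E ⊆ ball (0 : ℂ) 1 := sdiff_subset
  -- the pair function
  set g : ℝ → ℂ → ℂ := fun s y => W κ p q φ s x' y - W κ p q φ s x y with hg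
  obtain ⟨L, hL0, hL⟩ := hfl.bD t
  have hWb : ∀ s ∈ Icc 0 t, ∀ a ∈ ball (0 : ℂ) 1, ∀ b ∈ ball (0 : ℂ) 1, ‖W κ p q φ s a b‖ ≤ L := by
    intro s hs a ha b hb
    rw [W, norm_div]
    refine div_le_of_le_mul₀ (norm_nonneg _) hL0 ?_
    exact hfl.lipu hL hs (hfl.mem s hs.1 b hb) (hfl.mem s hs.1 a ha)
  have hgc : ContinuousOn (fun z : ℝ × ℂ => g z.1 z.2) (Icc 0 t ×ˢ E) := by
    have key : ∀ a ∈ ball (0 : ℂ) 1, a ∈ Seg x x' →
        ContinuousOn (fun z : ℝ × ℂ => W κ p q φ z.1 a z.2) (Icc 0 t ×ˢ E) := by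
      intro a ha haS
      have ca : ContinuousOn (fun z : ℝ × ℂ => φ z.1 a) (Icc 0 t ×ˢ E) :=
        (hfl.contt ha).comp continuousOn_fst fun z hz => hz.1.1
      have cy : ContinuousOn (fun z : ℝ × ℂ => φ z.1 z.2) (Icc 0 t ×ˢ E) :=
        hfl.phi_cont.mono (prod_mono Icc_subset_Ici_self hEball)
      have cua : ContinuousOn (fun z : ℝ × ℂ => UU κ (p z.1) (q z.1) (φ z.1 a)) (Icc 0 t ×ˢ E) :=
        hfl.cu.comp (continuousOn_fst.prodMk ca) fun z hz => ⟨hz.1.1, hfl.mem _ hz.1.1 _ ha⟩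
      have cuy : ContinuousOn (fun z : ℝ × ℂ => UU κ (p z.1) (q z.1) (φ z.1 z.2)) (Icc 0 t ×ˢ E) :=
        hfl.cu.comp (continuousOn_fst.prodMk cy) fun z hz =>
          ⟨hz.1.1, hfl.mem _ hz.1.1 _ (hEball hz.2)⟩
      unfold W
      refine (cua.sub cuy).div (ca.sub cy) fun z hz => ?_
      intro h0
      have := (h.bij z.1 hz.1.1).injOn ha (hEball hz.2) (sub_eq_zero.1 h0)
      exact hz.2.2 (this ▸ haS)
    exact (key x' hx' hx'S).sub (key x hx hxS)
  -- integrability on the product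
  have hfin : IsFiniteMeasure ((volume.restrict (Ioc (0:ℝ) t)).prod (volume.restrict E)) := by
    have f1 : IsFiniteMeasure (volume.restrict (Ioc (0:ℝ) t)) :=
      ⟨by rw [Measure.restrict_apply_univ]; exact measure_Ioc_lt_top⟩
    have f2 : IsFiniteMeasure ((volume : Measure ℂ).restrict E) :=
      ⟨by rw [Measure.restrict_apply_univ]
          exact (measure_mono hEball).trans_lt measure_ball_lt_top⟩
    infer_instance
  have hgi : Integrable (Function.uncurry fun s y => (g s y).im)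
      ((volume.restrict (Ioc (0:ℝ) t)).prod (volume.restrict E)) := by
    rw [Measure.prod_restrict] at hfin ⊢
    refine Integrable.of_bound (C := L + L) ?_ ?_
    · refine ContinuousOn.aestronglyMeasurable ?_ (measurableSet_Ioc.prod mE)
      exact Complex.continuous_im.comp_continuousOn
        (hgc.mono (prod_mono Ioc_subset_Icc_self subset_rfl))
    · rw [ae_restrict_iff' (measurableSet_Ioc.prod mE)]
      refine Eventually.of_forall fun z hz => ?_
      have hz1 := Ioc_subset_Icc_self hz.1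
      refine (Complex.abs_im_le_norm _).trans ((norm_sub_le _ _).trans (add_le_add ?_ ?_))
      · exact hWb _ hz1 _ hx' _ (hEball hz.2)
      · exact hWb _ hz1 _ hx _ (hEball hz.2)
  -- each fixed time
  have hslice : ∀ s ∈ Icc 0 t, ∫ y in E, (g s y).im =
      S κ Ψ p q s (φ s x') - S κ Ψ p q s (φ s x) := by
    intro s hs
    have hi : ∀ a ∈ ball (0 : ℂ) 1, a ∈ Seg x x' →
        Integrable (fun y => (W κ p q φ s a y).im) (volume.restrict E) := by
      intro a ha haS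
      have f2 : IsFiniteMeasure ((volume : Measure ℂ).restrict E) :=
        ⟨by rw [Measure.restrict_apply_univ]
            exact (measure_mono hEball).trans_lt measure_ball_lt_top⟩
      refine Integrable.of_bound (C := L) ?_ ?_
      · refine ContinuousOn.aestronglyMeasurable ?_ mE
        refine Complex.continuous_im.comp_continuousOn ?_
        have cφ : ContinuousOn (φ s) E := fun z hz =>
          (hfl.dphi (hEball hz) hs.1).continuousAt.continuousWithinAt
        have cu : ContinuousOn (UU κ (p s) (q s)) (ball (0 : ℂ) 1) := fun z hz =>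
          (hfl.du s hs.1 z hz).continuousAt.continuousWithinAt
        unfold W
        refine (continuousOn_const.sub (cu.comp cφ fun z hz => hfl.mem s hs.1 z (hEball hz))).div
          (continuousOn_const.sub cφ) fun z hz => ?_
        intro h0
        have := (h.bij s hs.1).injOn ha (hEball hz) (sub_eq_zero.1 h0)
        exact hz.2 (this ▸ haS)
      · rw [ae_restrict_iff' mE]
        exact Eventually.of_forall fun y hy =>
          (Complex.abs_im_le_norm _).trans (hWb s hs a ha y (hEball hy))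
    simp only [hg, Complex.sub_im]
    rw [integral_sub (hi x' hx' hx'S) (hi x hx hxS), ← hEae, h.int_W hs.1 hx', h.int_W hs.1 hx]
  -- rewrite the difference
  have hci : ∀ a ∈ ball (0 : ℂ) 1, IntervalIntegrable (fun s => S κ Ψ p q s (φ s a)) volume 0 t := by
    intro a ha
    refine ContinuousOn.intervalIntegrable ?_
    rw [uIcc_of_le ht]
    exact h.S_cont_traj.comp (f := fun s => (s, a)) (by fun_prop) fun s hs => ⟨hs.1, ha⟩
  have e1 : (∫ s in (0:ℝ)..t, S κ Ψ p q s (φ s x')) - ∫ s in (0:ℝ)..t, S κ Ψ p q s (φ s x) =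
      ∫ y in E, ∫ s in Ioc (0:ℝ) t, (g s y).im := by
    rw [← intervalIntegral.integral_sub (hci x' hx') (hci x hx),
      intervalIntegral.integral_of_le ht, ← integral_integral_swap hgi]
    refine setIntegral_congr_fun measurableSet_Ioc fun s hs => ?_
    exact (hslice s (Ioc_subset_Icc_self hs)).symm
  -- pointwise bound
  set c : ℝ := (K ^ 2 + 1) * ‖x' - x‖ with hc
  have hc0 : 0 ≤ c := by positivity
  have hpt : ∀ y ∈ E, ‖∫ s in Ioc (0:ℝ) t, (g s y).im‖ₑ ≤
      ∫⁻ τ in Ioc (0:ℝ) 1, ENNReal.ofReal (c * ‖x + (τ : ℂ) * (x' - x) - y‖⁻¹) := by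
    intro y hy
    have hne : ∀ τ ∈ Icc (0:ℝ) 1, x + (τ : ℂ) * (x' - x) ≠ y := fun τ hτ h0 => hy.2 ⟨τ, hτ, h0⟩
    have hb := hfl.winding_bound h.trace h.bij ht hK hx hx' (hEball hy) hne
    have hgy : IntervalIntegrable (fun s => g s y) volume 0 t := by
      refine ContinuousOn.intervalIntegrable ?_
      rw [uIcc_of_le ht]
      exact hgc.comp (f := fun s => (s, y)) (by fun_prop) fun s hs => ⟨hs, hy⟩
    have e2 : ∫ s in Ioc (0:ℝ) t, (g s y).im = (∫ s in (0:ℝ)..t, g s y).im := by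
      rw [← intervalIntegral.integral_of_le ht]
      exact (Complex.imCLM.intervalIntegral_comp_comm hgy)
    have hcont : ContinuousOn (fun τ : ℝ => c * ‖x + (τ : ℂ) * (x' - x) - y‖⁻¹) (Icc 0 1) := by
      refine ContinuousOn.mul continuousOn_const (ContinuousOn.inv₀ (by fun_prop) ?_)
      intro τ hτ
      exact norm_ne_zero_iff.2 (sub_ne_zero.2 (hne τ hτ))
    have hint : IntegrableOn (fun τ : ℝ => c * ‖x + (τ : ℂ) * (x' - x) - y‖⁻¹) (Ioc 0 1) :=
      (hcont.integrableOn_Icc).mono_set Ioc_subset_Icc_self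
    rw [e2, Real.enorm_eq_ofReal_abs]
    calc ENNReal.ofReal |(∫ s in (0:ℝ)..t, g s y).im|
        ≤ ENNReal.ofReal (∫ τ in (0:ℝ)..1, c * ‖x + (τ : ℂ) * (x' - x) - y‖⁻¹) :=
          ENNReal.ofReal_le_ofReal ((Complex.abs_im_le_norm _).trans hb)
      _ = ∫⁻ τ in Ioc (0:ℝ) 1, ENNReal.ofReal (c * ‖x + (τ : ℂ) * (x' - x) - y‖⁻¹) := by
          rw [intervalIntegral.integral_of_le zero_le_one,
            ofReal_integral_eq_lintegral_ofReal hint
              (Eventually.of_forall fun τ => by positivity)]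
  -- conclusion
  have hfinal : ‖∫ y in E, ∫ s in Ioc (0:ℝ) t, (g s y).im‖ₑ ≤ ENNReal.ofReal (c * (4 * Real.pi)) := by
    calc ‖∫ y in E, ∫ s in Ioc (0:ℝ) t, (g s y).im‖ₑ
        ≤ ∫⁻ y in E, ‖∫ s in Ioc (0:ℝ) t, (g s y).im‖ₑ := enorm_integral_le_lintegral_enorm _
      _ ≤ ∫⁻ y in E, ∫⁻ τ in Ioc (0:ℝ) 1, ENNReal.ofReal (c * ‖x + (τ : ℂ) * (x' - x) - y‖⁻¹) :=
          setLIntegral_mono' mE hpt
      _ = ∫⁻ τ in Ioc (0:ℝ) 1, ∫⁻ y in E, ENNReal.ofReal (c * ‖x + (τ : ℂ) * (x' - x) - y‖⁻¹) := by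
          refine lintegral_lintegral_swap ?_
          refine Measurable.aemeasurable ?_
          simp only [Function.uncurry_def]
          fun_prop
      _ ≤ ∫⁻ τ in Ioc (0:ℝ) 1, ENNReal.ofReal (c * (4 * Real.pi)) := by
          refine setLIntegral_mono' measurableSet_Ioc fun τ hτ => ?_
          have hm : x + (τ : ℂ) * (x' - x) ∈ ball (0 : ℂ) 1 := by
            have := (convex_ball (0 : ℂ) 1) hx hx' (a := 1 - τ) (b := τ) (by linarith [hτ.2])
              hτ.1.le (by ring)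
            have e : (1 - τ) • x + τ • x' = x + (τ : ℂ) * (x' - x) := by
              simp only [Complex.real_smul]; push_cast; ring
            rwa [e] at this
          calc ∫⁻ y in E, ENNReal.ofReal (c * ‖x + (τ : ℂ) * (x' - x) - y‖⁻¹)
              = ENNReal.ofReal c * ∫⁻ y in ball (0 : ℂ) 1,
                ENNReal.ofReal (‖x + (τ : ℂ) * (x' - x) - y‖⁻¹) := by
                rw [hEae, ← lintegral_const_mul' _ _ ENNReal.ofReal_ne_top]
                refine lintegral_congr fun y => ?_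
                rw [ENNReal.ofReal_mul hc0]
            _ ≤ ENNReal.ofReal c * ENNReal.ofReal (4 * Real.pi) :=
                mul_le_mul_right (riesz_bound hm) _
            _ = _ := by rw [ENNReal.ofReal_mul hc0]
      _ = ENNReal.ofReal (c * (4 * Real.pi)) := by
          rw [setLIntegral_const, Real.volume_Ioc]; simp
  rw [e1]
  rw [Real.enorm_eq_ofReal_abs] at hfinal
  exact (ENNReal.ofReal_le_ofReal_iff (by positivity)).1 hfinal

/-- The growth of the derivative of the flow, for data with mismatched energy. -/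
theorem growth (h : DiscSol A B κ Ψ p q pxx pxy pyy ω φ) (hA : 0 < A) (hB : 0 < B) (hκ : 0 < κ)
    {c : ℝ} (hc : ∫ z in ball (0 : ℂ) 1, (ω 0 z - c) = 0)
    (he : energy A B p q 0 ≠ c ^ 2 * tor A B) :
    ∃ C1 : ℝ, 0 < C1 ∧ ∀ t, 0 ≤ t → ∀ K : ℝ,
      (∀ x ∈ ball (0 : ℂ) 1, ‖fderiv ℝ (φ t) x‖ ≤ K) → t ≤ C1 * (K ^ 2 + 1) := by
  have hfl := h.flow
  have he0 : 0 ≤ energy A B p q 0 :=
    setIntegral_nonneg measurableSet_ball fun z _ => by positivity
  obtain ⟨m, hm, hmm⟩ := mismatch hA hB he0 he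
  obtain ⟨M, hM0, hM⟩ := h.bd_ω
  set V : ℝ := volume.real (ball (0 : ℂ) 1) with hV
  have hV0 : 0 ≤ V := measureReal_nonneg
  have hpi := Real.pi_pos
  -- the lower bound at each time
  have hJ : ∀ s, 0 ≤ s → κ * (2 * Real.pi * m) ≤
      ∫ x in ball (0 : ℂ) 1, (ω 0 x - c) * S κ Ψ p q s (φ s x) := by
    intro s hs
    obtain ⟨C, hC0, hC⟩ := h.c2 s
    have cc := (hC s ⟨hs, le_rfl⟩).1
    have hzero : ∫ z in ball (0 : ℂ) 1, (A * pxx s z + B * pyy s z - c) = 0 := by
      rw [← hc, ← h.cov hs (fun z => A * pxx s z + B * pyy s z - c)]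
      refine setIntegral_congr_fun measurableSet_ball fun z hz => ?_
      rw [← h.vort s hs _ (hfl.mem s hs z hz), h.trans s hs z hz]
    have h1 := J_lower cc hA hB hzero
    have h2 := hmm cc.contx cc.conty cc.bx cc.by' (h.energy_const hs)
    have h3 : ∫ x in ball (0 : ℂ) 1, (ω 0 x - c) * S κ Ψ p q s (φ s x) =
        κ * ∫ z in ball (0 : ℂ) 1, (A * pxx s z + B * pyy s z - c) *
        (Real.pi * (z.re * p s z + z.im * q s z) - 2 * Real.pi * Ψ s z) := by
      rw [← integral_const_mul, ← h.cov hs (fun z => κ * ((A * pxx s z + B * pyy s z - c) *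
        (Real.pi * (z.re * p s z + z.im * q s z) - 2 * Real.pi * Ψ s z)))]
      refine setIntegral_congr_fun measurableSet_ball fun z hz => ?_
      simp only [S]
      rw [← h.vort s hs _ (hfl.mem s hs z hz), h.trans s hs z hz]
      ring
    rw [h3]
    refine mul_le_mul_of_nonneg_left ?_ hκ.le
    refine le_trans ?_ h1
    exact mul_le_mul_of_nonneg_left h2 (by positivity)
  refine ⟨(M + |c|) * (4 * Real.pi) * V / (κ * (2 * Real.pi * m)) + 1, by positivity, ?_⟩
  intro t ht K hK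
  have h0m : (0 : ℂ) ∈ ball (0 : ℂ) 1 := mem_ball_self one_pos
  have hK0 : 0 ≤ K := (norm_nonneg _).trans (hK 0 h0m)
  -- the integral of the winding
  set Q : ℂ → ℝ := fun x => ∫ s in (0:ℝ)..t, S κ Ψ p q s (φ s x) with hQ
  obtain ⟨N, hN0, hN⟩ := h.S_bd t
  have hprod : Integrable (Function.uncurry fun (x : ℂ) (s : ℝ) => (ω 0 x - c) * S κ Ψ p q s (φ s x))
      ((volume.restrict (ball (0 : ℂ) 1)).prod (volume.restrict (Ioc (0:ℝ) t))) := by
    have f1 : IsFiniteMeasure (volume.restrict (Ioc (0:ℝ) t)) :=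
      ⟨by rw [Measure.restrict_apply_univ]; exact measure_Ioc_lt_top⟩
    have f2 : IsFiniteMeasure ((volume : Measure ℂ).restrict (ball (0 : ℂ) 1)) :=
      ⟨by rw [Measure.restrict_apply_univ]; exact measure_ball_lt_top⟩
    have f3 : IsFiniteMeasure ((volume.restrict (ball (0 : ℂ) 1)).prod
      (volume.restrict (Ioc (0:ℝ) t))) := by infer_instance
    rw [Measure.prod_restrict] at f3 ⊢
    refine Integrable.of_bound (C := (M + |c|) * N) ?_ ?_
    · refine ContinuousOn.aestronglyMeasurable ?_ (measurableSet_ball.prod measurableSet_Ioc)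
      have c1 : ContinuousOn (fun z : ℂ × ℝ => ω 0 z.1 - c) (ball (0 : ℂ) 1 ×ˢ Ioc (0:ℝ) t) :=
        ((h.contω le_rfl).comp continuousOn_fst fun z hz => hz.1).sub continuousOn_const
      have c2 : ContinuousOn (fun z : ℂ × ℝ => S κ Ψ p q z.2 (φ z.2 z.1))
          (ball (0 : ℂ) 1 ×ˢ Ioc (0:ℝ) t) :=
        h.S_cont_traj.comp (f := fun z : ℂ × ℝ => (z.2, z.1)) (by fun_prop)
          fun z hz => ⟨hz.2.1.le, hz.1⟩
      exact c1.mul c2
    · rw [ae_restrict_iff' (measurableSet_ball.prod measurableSet_Ioc)]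
      refine Eventually.of_forall fun z hz => ?_
      refine abs_mul_le' ((abs_sub _ _).trans (add_le_add (hM 0 le_rfl _ hz.1) le_rfl)) ?_
      exact hN _ (Ioc_subset_Icc_self hz.2) _ (hfl.mem _ hz.2.1.le _ hz.1)
  have e1 : ∫ x in ball (0 : ℂ) 1, (ω 0 x - c) * Q x =
      ∫ s in (0:ℝ)..t, ∫ x in ball (0 : ℂ) 1, (ω 0 x - c) * S κ Ψ p q s (φ s x) := by
    rw [intervalIntegral.integral_of_le ht, ← integral_integral_swap hprod]
    refine setIntegral_congr_fun measurableSet_ball fun x _ => ?_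
    simp only [hQ]
    rw [intervalIntegral.integral_of_le ht, ← integral_const_mul]
  have lower : κ * (2 * Real.pi * m) * t ≤ ∫ x in ball (0 : ℂ) 1, (ω 0 x - c) * Q x := by
    rw [e1]
    have hii : IntervalIntegrable (fun s => ∫ x in ball (0 : ℂ) 1, (ω 0 x - c) * S κ Ψ p q s (φ s x))
        volume 0 t := by
      rw [intervalIntegrable_iff_integrableOn_Ioc_of_le ht]
      exact hprod.integral_prod_right
    have := intervalIntegral.integral_mono_on ht (intervalIntegrable_const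
      (c := κ * (2 * Real.pi * m))) hii fun s hs => hJ s hs.1
    rw [intervalIntegral.integral_const, sub_zero, smul_eq_mul] at this
    linarith
  -- the upper bound
  have hQo : ∀ x ∈ ball (0 : ℂ) 1, |Q x - Q 0| ≤ (K ^ 2 + 1) * (4 * Real.pi) := by
    intro x hx
    refine (h.osc ht hK h0m hx).trans ?_
    have : ‖x - 0‖ ≤ 1 := by rw [sub_zero]; exact (mem_ball_zero_iff.1 hx).le
    have h4 : (K ^ 2 + 1) * ‖x - 0‖ ≤ K ^ 2 + 1 := by nlinarith [sq_nonneg K]
    exact mul_le_mul_of_nonneg_right h4 (by positivity)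
  have cωc : IntegrableOn (fun x => ω 0 x - c) (ball (0 : ℂ) 1) :=
    integrableOn_ball ((h.contω le_rfl).sub continuousOn_const) (C := M + |c|)
      fun x hx => (abs_sub _ _).trans (add_le_add (hM 0 le_rfl _ hx) le_rfl)
  have iQ : IntegrableOn (fun x => (ω 0 x - c) * Q x) (ball (0 : ℂ) 1) := by
    have := hprod.integral_prod_left
    refine this.congr ?_
    refine Eventually.of_forall fun x => ?_
    simp only [hQ, Function.uncurry]
    rw [intervalIntegral.integral_of_le ht, ← integral_const_mul]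
  have e2 : ∫ x in ball (0 : ℂ) 1, (ω 0 x - c) * Q x =
      ∫ x in ball (0 : ℂ) 1, (ω 0 x - c) * (Q x - Q 0) := by
    have e3 : ∫ x in ball (0 : ℂ) 1, (ω 0 x - c) * (Q x - Q 0) =
        (∫ x in ball (0 : ℂ) 1, (ω 0 x - c) * Q x) - ∫ x in ball (0 : ℂ) 1, (ω 0 x - c) * Q 0 := by
      rw [← integral_sub iQ (cωc.mul_const _)]
      congr 1; funext x; ring
    rw [e3, integral_mul_const, hc]; ring
  have upper : ∫ x in ball (0 : ℂ) 1, (ω 0 x - c) * Q x ≤
      (M + |c|) * ((K ^ 2 + 1) * (4 * Real.pi)) * V := by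
    rw [e2]
    refine (le_abs_self _).trans ?_
    exact norm_setIntegral_le_of_norm_le_const (μ := (volume : Measure ℂ)) (s := ball (0 : ℂ) 1)
      (f := fun x => (ω 0 x - c) * (Q x - Q 0)) measure_ball_lt_top
      (fun x hx => abs_mul_le' ((abs_sub _ _).trans (add_le_add (hM 0 le_rfl _ hx) le_rfl))
        (hQo x hx))
  have hpos : 0 < κ * (2 * Real.pi * m) := by positivity
  have h5 : t ≤ (M + |c|) * (4 * Real.pi) * V / (κ * (2 * Real.pi * m)) * (K ^ 2 + 1) := by
    rw [div_mul_eq_mul_div, le_div_iff₀ hpos]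
    calc t * (κ * (2 * Real.pi * m)) = κ * (2 * Real.pi * m) * t := by ring
      _ ≤ _ := lower
      _ ≤ _ := upper
      _ = _ := by ring
  nlinarith [sq_nonneg K]

end DiscSol

end Pool.Agent.T2h22
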