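import Mathlib

set_option autoImplicit false

open Set Filter Topology Metric

namespace Pool.Agent.T2h22

/-- Rescaled copy of a profile `G`, of size `r ^ α`, around the point `x`. -/
noncomputable def bump {E : Type} [NormedAddCommGroup E] [NormedSpace ℝ E] (α : ℝ) (G : ℂ → E)
    (r : ℝ) (x z : ℂ) : E := (r ^ α) • G ((z - x) / r)

/-- Separation function of an injective sequence. -/
theorem exists_sep {x : ℕ → ℂ} (hx : Function.Injective x) : ∃ m : ℕ → ℝ, (∀ j, 0 < m j) ∧
    (∀ j, m j ≤ 1) ∧ (∀ j, m (j + 1) ≤ m j) ∧ ∀ i j, i < j → m j ≤ ‖x i - x j‖ := by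
  refine ⟨fun j => ∏ k ∈ Finset.range (j + 1), ∏ i ∈ Finset.range k, min 1 ‖x i - x k‖, ?_, ?_, ?_, ?_⟩
  · intro j
    refine Finset.prod_pos fun k _ => Finset.prod_pos fun i hi => ?_
    refine lt_min one_pos (norm_pos_iff.2 (sub_ne_zero.2 fun h => ?_))
    have := hx h
    rw [Finset.mem_range] at hi
    omega
  · intro j
    exact Finset.prod_le_one (fun k _ => Finset.prod_nonneg fun i _ => le_min zero_le_one (norm_nonneg _))
      fun k _ => Finset.prod_le_one (fun i _ => le_min zero_le_one (norm_nonneg _))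
        fun i _ => min_le_left _ _
  · intro j
    simp only
    rw [Finset.prod_range_succ _ (j + 1)]
    have h1 : 0 ≤ ∏ k ∈ Finset.range (j + 1), ∏ i ∈ Finset.range k, min 1 ‖x i - x k‖ :=
      Finset.prod_nonneg fun k _ => Finset.prod_nonneg fun i _ => le_min zero_le_one (norm_nonneg _)
    have h2 : ∏ i ∈ Finset.range (j + 1), min 1 ‖x i - x (j + 1)‖ ≤ 1 :=
      Finset.prod_le_one (fun i _ => le_min zero_le_one (norm_nonneg _)) fun i _ => min_le_left _ _
    exact mul_le_of_le_one_right h1 h2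
  · intro i j hij
    simp only
    rw [Finset.prod_range_succ]
    have h1 : 0 ≤ ∏ k ∈ Finset.range j, ∏ i ∈ Finset.range k, min 1 ‖x i - x k‖ :=
      Finset.prod_nonneg fun k _ => Finset.prod_nonneg fun i _ => le_min zero_le_one (norm_nonneg _)
    have h1' : ∏ k ∈ Finset.range j, ∏ i ∈ Finset.range k, min 1 ‖x i - x k‖ ≤ 1 :=
      Finset.prod_le_one (fun k _ => Finset.prod_nonneg fun i _ => le_min zero_le_one (norm_nonneg _))
        fun k _ => Finset.prod_le_one (fun i _ => le_min zero_le_one (norm_nonneg _))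
          fun i _ => min_le_left _ _
    have h2 : ∏ l ∈ Finset.range j, min 1 ‖x l - x j‖ ≤ ‖x i - x j‖ := by
      rw [← Finset.mul_prod_erase (Finset.range j) _ (Finset.mem_range.2 hij)]
      have h3 : ∏ l ∈ (Finset.range j).erase i, min 1 ‖x l - x j‖ ≤ 1 :=
        Finset.prod_le_one (fun i _ => le_min zero_le_one (norm_nonneg _))
          fun i _ => min_le_left _ _
      exact (mul_le_of_le_one_right (le_min zero_le_one (norm_nonneg _)) h3).trans (min_le_right _ _)
    have h4 : 0 ≤ ∏ l ∈ Finset.range j, min 1 ‖x l - x j‖ :=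
      Finset.prod_nonneg fun i _ => le_min zero_le_one (norm_nonneg _)
    exact (mul_le_of_le_one_left h4 h1').trans h2

theorem sum_half_le (s : Finset ℕ) (i0 : ℕ) (hs : ∀ i ∈ s, i0 ≤ i) :
    ∑ i ∈ s, (1 / 2 : ℝ) ^ (i - i0) ≤ 2 := by
  obtain ⟨N, hN⟩ : ∃ N, ∀ i ∈ s, i < N := ⟨s.sup id + 1, fun i hi =>
    Nat.lt_succ_of_le (Finset.le_sup (f := id) hi)⟩
  have hsub : s ⊆ Finset.Ico i0 N := fun i hi => Finset.mem_Ico.2 ⟨hs i hi, hN i hi⟩
  calc ∑ i ∈ s, (1 / 2 : ℝ) ^ (i - i0) ≤ ∑ i ∈ Finset.Ico i0 N, (1 / 2 : ℝ) ^ (i - i0) :=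
        Finset.sum_le_sum_of_subset_of_nonneg hsub fun _ _ _ => by positivity
    _ = ∑ k ∈ Finset.range (N - i0), (1 / 2 : ℝ) ^ k := by
        rw [Finset.sum_Ico_eq_sum_range]
        refine Finset.sum_congr rfl fun k _ => ?_
        rw [Nat.add_sub_cancel_left]
    _ ≤ 2 := sum_geometric_two_le _

section
variable {E : Type} [NormedAddCommGroup E] [NormedSpace ℝ E] {α C : ℝ} {G : ℂ → E}

theorem bump_zero (hsupp : ∀ y, 1 ≤ ‖y‖ → G y = 0) {r : ℝ} (hr : 0 < r) {x z : ℂ}
    (h : r ≤ ‖z - x‖) : bump α G r x z = 0 := by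
  rw [bump, hsupp, smul_zero]
  rw [norm_div, Complex.norm_real, Real.norm_of_nonneg hr.le, one_le_div hr]
  exact h

theorem bump_bd (hb : ∀ y, ‖G y‖ ≤ C) {r : ℝ} (hr : 0 < r) (x z : ℂ) :
    ‖bump α G r x z‖ ≤ C * r ^ α := by
  rw [bump, norm_smul, Real.norm_of_nonneg (by positivity), mul_comm]
  exact mul_le_mul_of_nonneg_right (hb _) (by positivity)

theorem bump_holder (hh : ∀ y w, ‖G y - G w‖ ≤ C * ‖y - w‖ ^ α) {r : ℝ}
    (hr : 0 < r) (x z w : ℂ) : ‖bump α G r x z - bump α G r x w‖ ≤ C * ‖z - w‖ ^ α := by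
  rw [bump, bump, ← smul_sub, norm_smul, Real.norm_of_nonneg (by positivity)]
  have h1 := hh ((z - x) / r) ((w - x) / r)
  have h2 : (z - x) / (r : ℂ) - (w - x) / r = (z - w) / r := by ring
  rw [h2, norm_div, Complex.norm_real, Real.norm_of_nonneg hr.le,
    Real.div_rpow (norm_nonneg _) hr.le] at h1
  calc r ^ α * ‖G ((z - x) / r) - G ((w - x) / r)‖ ≤ r ^ α * (C * (‖z - w‖ ^ α / r ^ α)) :=
        mul_le_mul_of_nonneg_left h1 (by positivity)
    _ = _ := by
        have : r ^ α ≠ 0 := by positivity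
        field_simp

theorem bump_lip (hl : ∀ d, 0 < d → ∀ y w, d ≤ ‖y‖ → d ≤ ‖w‖ → ‖G y - G w‖ ≤ C * d ^ (α - 1) * ‖y - w‖)
    {r : ℝ} (hr : 0 < r) {x z w : ℂ} {D : ℝ} (hD : 0 < D) (hz : D ≤ ‖z - x‖) (hw : D ≤ ‖w - x‖) :
    ‖bump α G r x z - bump α G r x w‖ ≤ C * D ^ (α - 1) * ‖z - w‖ := by
  rw [bump, bump, ← smul_sub, norm_smul, Real.norm_of_nonneg (by positivity)]
  have hn : ∀ y : ℂ, ‖y / (r : ℂ)‖ = ‖y‖ / r := fun y => by
    rw [norm_div, Complex.norm_real, Real.norm_of_nonneg hr.le]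
  have h1 := hl (D / r) (by positivity) ((z - x) / r) ((w - x) / r)
    (by rw [hn]; exact div_le_div_of_nonneg_right hz hr.le)
    (by rw [hn]; exact div_le_div_of_nonneg_right hw hr.le)
  have h2 : (z - x) / (r : ℂ) - (w - x) / r = (z - w) / r := by ring
  rw [h2, hn, Real.div_rpow hD.le hr.le] at h1
  calc r ^ α * ‖G ((z - x) / r) - G ((w - x) / r)‖ ≤
        r ^ α * (C * (D ^ (α - 1) / r ^ (α - 1)) * (‖z - w‖ / r)) :=
        mul_le_mul_of_nonneg_left h1 (by positivity)
    _ = _ := by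
        have e : r ^ α = r ^ (α - 1) * r := by
          rw [← Real.rpow_add_one hr.ne', sub_add_cancel]
        rw [e]
        have : r ^ (α - 1) ≠ 0 := by positivity
        field_simp

/-- Choice of the radii of a family of rescaled profiles around the points of an injective
sequence: the sum is uniformly Hölder continuous, and near each centre only the profile of that
centre matters. -/
theorem exists_radii (hα : 0 < α) (hα1 : α < 1) (hC : 0 < C) (hsupp : ∀ y, 1 ≤ ‖y‖ → G y = 0)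
    (hb : ∀ y, ‖G y‖ ≤ C) (hh : ∀ y w, ‖G y - G w‖ ≤ C * ‖y - w‖ ^ α)
    (hl : ∀ d, 0 < d → ∀ y w, d ≤ ‖y‖ → d ≤ ‖w‖ → ‖G y - G w‖ ≤ C * d ^ (α - 1) * ‖y - w‖)
    {x : ℕ → ℂ} (hx : Function.Injective x) {η : ℝ} (hη : 0 < η) :
    ∃ r : ℕ → ℝ, (∀ j, 0 < r j) ∧ (∀ j, r j ≤ 1) ∧ (∀ j, (r j) ^ α ≤ (1 / 2) ^ (j + 1)) ∧
      (∀ (s : Finset ℕ) (z w : ℂ),
        ∑ i ∈ s, ‖bump α G (r i) (x i) z - bump α G (r i) (x i) w‖ ≤ 6 * C * ‖z - w‖ ^ α) ∧
      ∀ j, ∃ δ > 0, ∀ v : ℂ, v ≠ 0 → ‖v‖ < δ → ∀ s : Finset ℕ, j ∉ s →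
        ∑ i ∈ s, ‖bump α G (r i) (x i) (x j + v) - bump α G (r i) (x i) (x j)‖ ≤ η * ‖v‖ ^ α := by
  obtain ⟨m, hm0, hm1, hmA, hms⟩ := exists_sep hx
  have hα1' : 0 < 1 - α := by linarith
  -- the ratio
  obtain ⟨q, hq0, hq4, hqα, hqα', hqβ⟩ : ∃ q : ℝ, 0 < q ∧ q ≤ 1 / 4 ∧ q ^ α ≤ 1 / 2 ∧
      q ^ α ≤ η / (8 * C) ∧ q ^ (1 - α) ≤ 1 / 4 := by
    have t1 : Tendsto (fun q : ℝ => q ^ α) (𝓝[>] 0) (𝓝 0) := by
      have := (Real.continuousAt_rpow_const 0 α (Or.inr hα.le)).tendsto
      rw [Real.zero_rpow hα.ne'] at this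
      exact this.mono_left nhdsWithin_le_nhds
    have t2 : Tendsto (fun q : ℝ => q ^ (1 - α)) (𝓝[>] 0) (𝓝 0) := by
      have := (Real.continuousAt_rpow_const 0 (1 - α) (Or.inr hα1'.le)).tendsto
      rw [Real.zero_rpow hα1'.ne'] at this
      exact this.mono_left nhdsWithin_le_nhds
    have e1 := t1.eventually (ge_mem_nhds (show (0:ℝ) < 1 / 2 by norm_num))
    have e2 := t1.eventually (ge_mem_nhds (show (0:ℝ) < η / (8 * C) by positivity))
    have e3 := t2.eventually (ge_mem_nhds (show (0:ℝ) < 1 / 4 by norm_num))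
    have e4 : ∀ᶠ q : ℝ in 𝓝[>] 0, q ∈ Ioo 0 (1 / 4) := Ioo_mem_nhdsGT (by norm_num)
    obtain ⟨q, h1, h2, h3, h4⟩ := (e1.and (e2.and (e3.and e4))).exists
    exact ⟨q, h4.1, h4.2.le, h1, h2, h3⟩
  set Q : ℝ := q ^ α with hQ
  have hQ0 : 0 < Q := by positivity
  set r : ℕ → ℝ := fun i => m i * q ^ (i + 1) with hr
  have hr0 : ∀ i, 0 < r i := fun i => mul_pos (hm0 i) (by positivity)
  have hrs : ∀ i, r (i + 1) ≤ q * r i := fun i => by
    simp only [hr]
    have h1 := hmA i
    have h2 : 0 < q ^ (i + 1) := by positivity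
    calc m (i + 1) * q ^ (i + 1 + 1) ≤ m i * q ^ (i + 1 + 1) :=
          mul_le_mul_of_nonneg_right h1 (by positivity)
      _ = _ := by ring
  have hrm : ∀ i, r i ≤ m i * q := fun i => by
    simp only [hr]
    refine mul_le_mul_of_nonneg_left ?_ (hm0 i).le
    rw [pow_succ]
    exact mul_le_of_le_one_left hq0.le (pow_le_one₀ hq0.le (by linarith))
  have hr1 : ∀ i, r i ≤ 1 := fun i => by
    have := hrm i
    nlinarith [hm0 i, hm1 i]
  have hR : ∀ i, (r (i + 1)) ^ α ≤ Q * (r i) ^ α := fun i => by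
    rw [hQ, ← Real.mul_rpow hq0.le (hr0 i).le]
    exact Real.rpow_le_rpow (hr0 _).le (hrs i) hα.le
  have hRk : ∀ i k, (r (i + k)) ^ α ≤ (1 / 2) ^ k * (r i) ^ α := by
    intro i k
    induction k with
    | zero => simp
    | succ k ih =>
      have h1 := hR (i + k)
      have h2 : 0 ≤ (r (i + k)) ^ α := Real.rpow_nonneg (hr0 _).le _
      calc (r (i + (k + 1))) ^ α ≤ Q * (r (i + k)) ^ α := h1
        _ ≤ 1 / 2 * (r (i + k)) ^ α := mul_le_mul_of_nonneg_right hqα h2
        _ ≤ 1 / 2 * ((1 / 2) ^ k * (r i) ^ α) := mul_le_mul_of_nonneg_left ih (by norm_num)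
        _ = _ := by ring
  have hRm : ∀ i, (r i) ^ α ≤ (m i) ^ α * Q ^ (i + 1) := fun i => by
    simp only [hr]
    rw [Real.mul_rpow (hm0 i).le (by positivity), hQ, ← Real.rpow_natCast (q ^ α) (i + 1),
      ← Real.rpow_natCast q (i + 1), ← Real.rpow_mul hq0.le, ← Real.rpow_mul hq0.le,
      mul_comm ((i + 1 : ℕ) : ℝ) α]
  have hRhalf : ∀ j, (r j) ^ α ≤ (1 / 2) ^ (j + 1) := fun j => by
    refine (hRm j).trans ?_
    have h1 : (m j) ^ α ≤ 1 := Real.rpow_le_one (hm0 j).le (hm1 j) hα.le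
    have h2 : Q ^ (j + 1) ≤ (1 / 2) ^ (j + 1) := pow_le_pow_left₀ hQ0.le hqα _
    calc (m j) ^ α * Q ^ (j + 1) ≤ 1 * (1 / 2) ^ (j + 1) :=
          mul_le_mul h1 h2 (by positivity) zero_le_one
      _ = _ := one_mul _
  have hanti : ∀ i j, i ≤ j → r j ≤ r i := by
    intro i j hij
    induction hij with
    | refl => exact le_rfl
    | step _ ih =>
      refine ((hrs _).trans ?_).trans ih
      exact mul_le_of_le_one_left (hr0 _).le (by linarith)
  refine ⟨r, hr0, hr1, hRhalf, ?_, ?_⟩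
  · -- uniform Hölder bound
    intro s z w
    rcases eq_or_ne z w with rfl | hzw
    · simp only [sub_self, norm_zero, Finset.sum_const_zero]
      positivity
    set h : ℝ := ‖z - w‖ with hh'
    have hh0 : 0 < h := norm_pos_iff.2 (sub_ne_zero.2 hzw)
    have hhα : 0 < h ^ α := by positivity
    set T : ℕ → ℝ := fun i => ‖bump α G (r i) (x i) z - bump α G (r i) (x i) w‖ with hT
    have hT2 : ∀ i, T i ≤ 2 * C * (r i) ^ α := fun i => by
      have h1 := bump_bd (α := α) hb (hr0 i) (x i) z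
      have h2 := bump_bd (α := α) hb (hr0 i) (x i) w
      have := norm_sub_le (bump α G (r i) (x i) z) (bump α G (r i) (x i) w)
      simp only [hT]; linarith
    have hTh : ∀ i, T i ≤ C * h ^ α := fun i => bump_holder hh (hr0 i) (x i) z w
    have hT0 : ∀ i, r i ≤ ‖z - x i‖ → r i ≤ ‖w - x i‖ → T i = 0 := fun i h1 h2 => by
      simp only [hT]
      rw [bump_zero hsupp (hr0 i) h1, bump_zero hsupp (hr0 i) h2, sub_self, norm_zero]
    -- small radii
    have small : ∀ s' : Finset ℕ, (∀ i ∈ s', r i < h) → ∑ i ∈ s', T i ≤ 4 * C * h ^ α := by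
      intro s' hs'
      rcases s'.eq_empty_or_nonempty with rfl | hne
      · simp only [Finset.sum_empty]; positivity
      · set i0 := s'.min' hne with hi0
        have hi0m : i0 ∈ s' := s'.min'_mem hne
        have h1 : ∀ i ∈ s', T i ≤ 2 * C * h ^ α * (1 / 2) ^ (i - i0) := by
          intro i hi
          have hle : i0 ≤ i := s'.min'_le i hi
          have h2 := hRk i0 (i - i0)
          rw [Nat.add_sub_cancel' hle] at h2
          have h3 : (r i0) ^ α ≤ h ^ α := Real.rpow_le_rpow (hr0 _).le (hs' i0 hi0m).le hα.le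
          calc T i ≤ 2 * C * (r i) ^ α := hT2 i
            _ ≤ 2 * C * ((1 / 2) ^ (i - i0) * (r i0) ^ α) :=
              mul_le_mul_of_nonneg_left h2 (by positivity)
            _ ≤ 2 * C * ((1 / 2) ^ (i - i0) * h ^ α) := by gcongr
            _ = _ := by ring
        calc ∑ i ∈ s', T i ≤ ∑ i ∈ s', 2 * C * h ^ α * (1 / 2) ^ (i - i0) :=
              Finset.sum_le_sum h1
          _ = 2 * C * h ^ α * ∑ i ∈ s', (1 / 2 : ℝ) ^ (i - i0) := by rw [Finset.mul_sum]
          _ ≤ 2 * C * h ^ α * 2 := mul_le_mul_of_nonneg_left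
              (sum_half_le s' i0 fun i hi => s'.min'_le i hi) (by positivity)
          _ = _ := by ring
    classical
    set s1 := s.filter fun i => r i < h with hs1
    set s2 := s.filter fun i => ¬ r i < h with hs2
    set J := s2.filter fun i => ‖z - x i‖ < r i ∨ ‖w - x i‖ < r i with hJ
    set J' := s2.filter fun i => ¬ (‖z - x i‖ < r i ∨ ‖w - x i‖ < r i) with hJ'
    have e1 : ∑ i ∈ s, T i = ∑ i ∈ s1, T i + ∑ i ∈ s2, T i := by
      rw [hs1, hs2, Finset.sum_filter_add_sum_filter_not]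
    have e2 : ∑ i ∈ s2, T i = ∑ i ∈ J, T i + ∑ i ∈ J', T i := by
      rw [hJ, hJ', Finset.sum_filter_add_sum_filter_not]
    have e3 : ∑ i ∈ J', T i = 0 := Finset.sum_eq_zero fun i hi => by
      have h1 := (Finset.mem_filter.1 hi).2
      push Not at h1
      exact hT0 i h1.1 h1.2
    have e4 : ∑ i ∈ s1, T i ≤ 4 * C * h ^ α := small s1 fun i hi => (Finset.mem_filter.1 hi).2
    have e5 : ∑ i ∈ J, T i ≤ 2 * C * h ^ α := by
      rcases J.eq_empty_or_nonempty with hJe | hne
      · rw [hJe]; simp only [Finset.sum_empty]; positivity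
      · set j := J.max' hne with hj
        have hjm : j ∈ J := J.max'_mem hne
        rw [← Finset.add_sum_erase J T hjm]
        have hjm' := Finset.mem_filter.1 hjm
        have hrj : h ≤ r j := not_lt.1 (Finset.mem_filter.1 hjm'.1).2
        have hzj : ‖z - x j‖ ≤ 2 * r j ∧ ‖w - x j‖ ≤ 2 * r j := by
          rcases hjm'.2 with h1 | h1
          · refine ⟨by linarith [hr0 j], ?_⟩
            have : ‖w - x j‖ ≤ ‖w - z‖ + ‖z - x j‖ := norm_sub_le_norm_sub_add_norm_sub _ _ _
            rw [norm_sub_rev w z] at this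
            linarith
          · refine ⟨?_, by linarith [hr0 j]⟩
            have : ‖z - x j‖ ≤ ‖z - w‖ + ‖w - x j‖ := norm_sub_le_norm_sub_add_norm_sub _ _ _
            linarith
        have hmj := hm0 j
        have hrmj : r j ≤ m j / 4 := (hrm j).trans (by nlinarith)
        have h2 : ∀ i ∈ J.erase j, T i ≤ C * h ^ α * (2 * (1 / 4) ^ (j + 1)) := by
          intro i hi
          have hij : i < j := lt_of_le_of_ne (J.le_max' i (Finset.mem_of_mem_erase hi))
            (Finset.ne_of_mem_erase hi)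
          have hsep := hms i j hij
          have d1 : m j / 2 ≤ ‖z - x i‖ := by
            have h3 : ‖x i - x j‖ ≤ ‖z - x i‖ + ‖z - x j‖ := by
              have := norm_sub_le_norm_sub_add_norm_sub (x i) z (x j)
              rw [norm_sub_rev (x i) z] at this
              exact this
            linarith [hzj.1]
          have d2 : m j / 2 ≤ ‖w - x i‖ := by
            have h3 : ‖x i - x j‖ ≤ ‖w - x i‖ + ‖w - x j‖ := by
              have := norm_sub_le_norm_sub_add_norm_sub (x i) w (x j)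
              rw [norm_sub_rev (x i) w] at this
              exact this
            linarith [hzj.2]
          have h4 : T i ≤ C * (m j / 2) ^ (α - 1) * h :=
            bump_lip hl (hr0 i) (by positivity) d1 d2
          have h5 : (m j / 2) ^ (α - 1) * h ≤ h ^ α * (2 * (1 / 4) ^ (j + 1)) := by
            have h6 : h = h ^ α * h ^ (1 - α) := by
              rw [← Real.rpow_add hh0]; simp
            have h7 : h ^ (1 - α) ≤ (r j) ^ (1 - α) := Real.rpow_le_rpow hh0.le hrj hα1'.le
            have h8 : (r j) ^ (1 - α) = (m j) ^ (1 - α) * (q ^ (1 - α)) ^ (j + 1) := by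
              simp only [hr]
              rw [Real.mul_rpow (hm0 j).le (by positivity),
                ← Real.rpow_natCast (q ^ (1 - α)) (j + 1),
                ← Real.rpow_natCast q (j + 1), ← Real.rpow_mul hq0.le, ← Real.rpow_mul hq0.le,
                mul_comm ((j + 1 : ℕ) : ℝ) (1 - α)]
            have h9 : (m j / 2) ^ (α - 1) = 2 ^ (1 - α) / (m j) ^ (1 - α) := by
              rw [show α - 1 = -(1 - α) by ring, Real.rpow_neg (by positivity),
                Real.div_rpow hmj.le (by norm_num)]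
              field_simp
            have h10 : (2:ℝ) ^ (1 - α) ≤ 2 := by
              calc (2:ℝ) ^ (1 - α) ≤ 2 ^ (1:ℝ) :=
                    Real.rpow_le_rpow_of_exponent_le (by norm_num) (by linarith)
                _ = 2 := Real.rpow_one 2
            have h11 : (q ^ (1 - α)) ^ (j + 1) ≤ (1 / 4 : ℝ) ^ (j + 1) :=
              pow_le_pow_left₀ (by positivity) hqβ _
            have hmjp : 0 < (m j) ^ (1 - α) := by positivity
            calc (m j / 2) ^ (α - 1) * h = (m j / 2) ^ (α - 1) * (h ^ α * h ^ (1 - α)) := by rw [← h6]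
              _ ≤ (m j / 2) ^ (α - 1) * (h ^ α * ((m j) ^ (1 - α) * (q ^ (1 - α)) ^ (j + 1))) := by
                  rw [← h8]; gcongr
              _ = h ^ α * (2 ^ (1 - α) * (q ^ (1 - α)) ^ (j + 1)) := by
                  rw [h9]; field_simp
              _ ≤ h ^ α * (2 * (1 / 4) ^ (j + 1)) := by gcongr
          calc T i ≤ C * ((m j / 2) ^ (α - 1) * h) := by rw [← mul_assoc]; exact h4
            _ ≤ C * (h ^ α * (2 * (1 / 4) ^ (j + 1))) := mul_le_mul_of_nonneg_left h5 hC.le
            _ = _ := by ring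
        have h3 : ∑ i ∈ J.erase j, T i ≤ C * h ^ α := by
          have hcard : (J.erase j).card ≤ j := by
            have : J.erase j ⊆ Finset.range j := fun i hi =>
              Finset.mem_range.2 (lt_of_le_of_ne (J.le_max' i (Finset.mem_of_mem_erase hi))
                (Finset.ne_of_mem_erase hi))
            simpa using Finset.card_le_card this
          have h4 := Finset.sum_le_card_nsmul (J.erase j) T _ h2
          rw [nsmul_eq_mul] at h4
          have h5 : ((J.erase j).card : ℝ) ≤ j := by exact_mod_cast hcard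
          have h6 : (j : ℝ) ≤ 4 ^ j := by
            have : j < 4 ^ j := Nat.lt_pow_self (by norm_num)
            exact_mod_cast this.le
          have h7 : ((J.erase j).card : ℝ) * (2 * (1 / 4) ^ (j + 1)) ≤ 1 := by
            have h8 : (4:ℝ) ^ j * (2 * (1 / 4) ^ (j + 1)) = 1 / 2 := by
              rw [pow_succ, one_div, inv_pow]; field_simp; norm_num
            have h9 : ((J.erase j).card : ℝ) * (2 * (1 / 4) ^ (j + 1)) ≤
                (4:ℝ) ^ j * (2 * (1 / 4) ^ (j + 1)) :=
              mul_le_mul_of_nonneg_right (h5.trans h6) (by positivity)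
            linarith
          calc ∑ i ∈ J.erase j, T i ≤ ((J.erase j).card : ℝ) * (C * h ^ α * (2 * (1 / 4) ^ (j + 1))) := h4
            _ = (C * h ^ α) * (((J.erase j).card : ℝ) * (2 * (1 / 4) ^ (j + 1))) := by ring
            _ ≤ (C * h ^ α) * 1 := mul_le_mul_of_nonneg_left h7 (by positivity)
            _ = _ := mul_one _
        have := hTh j
        linarith
    rw [e1, e2, e3]
    linarith
  · -- behaviour near a centre
    intro j
    have hmj := hm0 j
    set D : ℝ := m j / 2 with hD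
    have hD0 : 0 < D := by positivity
    set K : ℝ := (j + 1) * (C * D ^ (α - 1)) with hK
    have hK0 : 0 < K := by positivity
    have t2 : Tendsto (fun q : ℝ => q ^ (1 - α)) (𝓝[>] 0) (𝓝 0) := by
      have := (Real.continuousAt_rpow_const 0 (1 - α) (Or.inr hα1'.le)).tendsto
      rw [Real.zero_rpow hα1'.ne'] at this
      exact this.mono_left nhdsWithin_le_nhds
    have e3 := t2.eventually (ge_mem_nhds (show (0:ℝ) < η / (2 * K) by positivity))
    obtain ⟨δ', hδ', hδ''⟩ := (mem_nhdsGT_iff_exists_Ioo_subset.1 e3)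
    have hδ'0 : 0 < δ' := hδ'
    refine ⟨min D δ', lt_min hD0 hδ'0, fun v hv0 hv s hjs => ?_⟩
    have hvpos : 0 < ‖v‖ := norm_pos_iff.2 hv0
    have hvα : 0 < ‖v‖ ^ α := by positivity
    have hvD : ‖v‖ < D := hv.trans_le (min_le_left _ _)
    have hvs : ‖v‖ ^ (1 - α) ≤ η / (2 * K) := hδ'' ⟨hvpos, hv.trans_le (min_le_right _ _)⟩
    have hKv : K * ‖v‖ ≤ η / 2 * ‖v‖ ^ α := by
      have h6 : ‖v‖ = ‖v‖ ^ (1 - α) * ‖v‖ ^ α := by
        rw [← Real.rpow_add hvpos]; simp
      calc K * ‖v‖ = K * (‖v‖ ^ (1 - α) * ‖v‖ ^ α) := by rw [← h6]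
        _ ≤ K * (η / (2 * K) * ‖v‖ ^ α) := by gcongr
        _ = _ := by field_simp
    set T : ℕ → ℝ := fun i => ‖bump α G (r i) (x i) (x j + v) - bump α G (r i) (x i) (x j)‖ with hT
    have hlow : ∀ i, i < j → T i ≤ C * D ^ (α - 1) * ‖v‖ := by
      intro i hij
      have hsep := hms i j hij
      have d1 : D ≤ ‖x j + v - x i‖ := by
        have h3 : ‖x i - x j‖ ≤ ‖x j + v - x i‖ + ‖v‖ := by
          have : x i - x j = -(x j + v - x i) + v := by ring
          rw [this]
          refine (norm_add_le _ _).trans ?_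
          rw [norm_neg]
        linarith
      have d2 : D ≤ ‖x j - x i‖ := by
        rw [norm_sub_rev]; linarith
      have := bump_lip (G := G) (C := C) hl (hr0 i) hD0 d1 d2
      rwa [add_sub_cancel_left] at this
    have hhigh : ∀ i, j < i → T i ≤ η / 4 * ‖v‖ ^ α * (1 / 2) ^ (i - 0) := by
      intro i hij
      have hsep : m i ≤ ‖x j - x i‖ := hms j i hij
      have hri : r i ≤ m i / 4 := (hrm i).trans (by nlinarith [hm0 i])
      have hz1 : bump α G (r i) (x i) (x j) = 0 :=
        bump_zero hsupp (hr0 i) (by linarith [hm0 i])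
      rcases le_or_gt (r i) ‖x j + v - x i‖ with h1 | h1
      · have : T i = 0 := by
          simp only [hT]
          rw [hz1, bump_zero hsupp (hr0 i) h1, sub_self, norm_zero]
        rw [this]; positivity
      · have h3 : ‖x j - x i‖ ≤ ‖x j + v - x i‖ + ‖v‖ := by
          have : x j - x i = (x j + v - x i) - v := by ring
          rw [this]
          exact norm_sub_le _ _
        have hmi : m i ≤ 2 * ‖v‖ := by linarith [hm0 i]
        have h4 : (m i) ^ α ≤ 2 * ‖v‖ ^ α := by
          calc (m i) ^ α ≤ (2 * ‖v‖) ^ α := Real.rpow_le_rpow (hm0 i).le hmi hα.le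
            _ = 2 ^ α * ‖v‖ ^ α := Real.mul_rpow (by norm_num) hvpos.le
            _ ≤ 2 * ‖v‖ ^ α := by
              gcongr
              calc (2:ℝ) ^ α ≤ 2 ^ (1:ℝ) :=
                    Real.rpow_le_rpow_of_exponent_le (by norm_num) hα1.le
                _ = 2 := Real.rpow_one 2
        have h5 : Q ^ (i + 1) ≤ η / (8 * C) * (1 / 2) ^ i := by
          rw [pow_succ, mul_comm]
          exact mul_le_mul hqα' (pow_le_pow_left₀ hQ0.le hqα _) (by positivity) (by positivity)
        calc T i = ‖bump α G (r i) (x i) (x j + v)‖ := by simp only [hT]; rw [hz1, sub_zero]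
          _ ≤ C * (r i) ^ α := bump_bd (α := α) hb (hr0 i) (x i) _
          _ ≤ C * ((m i) ^ α * Q ^ (i + 1)) := mul_le_mul_of_nonneg_left (hRm i) hC.le
          _ ≤ C * (2 * ‖v‖ ^ α * (η / (8 * C) * (1 / 2) ^ i)) := by gcongr
          _ = _ := by rw [Nat.sub_zero]; field_simp; ring
    classical
    rw [← Finset.sum_filter_add_sum_filter_not s (fun i => i < j)]
    have s1 : ∑ i ∈ s.filter (fun i => i < j), T i ≤ K * ‖v‖ := by
      have hcard : (s.filter (fun i => i < j)).card ≤ j := by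
        have : s.filter (fun i => i < j) ⊆ Finset.range j := fun i hi =>
          Finset.mem_range.2 (Finset.mem_filter.1 hi).2
        simpa using Finset.card_le_card this
      have h4 := Finset.sum_le_card_nsmul (s.filter (fun i => i < j)) T _
        (fun i hi => hlow i (Finset.mem_filter.1 hi).2)
      rw [nsmul_eq_mul] at h4
      refine h4.trans ?_
      have h5 : ((s.filter (fun i => i < j)).card : ℝ) ≤ j + 1 := by
        have : ((s.filter (fun i => i < j)).card : ℝ) ≤ j := by exact_mod_cast hcard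
        linarith
      calc ((s.filter (fun i => i < j)).card : ℝ) * (C * D ^ (α - 1) * ‖v‖) ≤
            (j + 1) * (C * D ^ (α - 1) * ‖v‖) := mul_le_mul_of_nonneg_right h5 (by positivity)
        _ = _ := by rw [hK]; ring
    have s2 : ∑ i ∈ s.filter (fun i => ¬ i < j), T i ≤ η / 2 * ‖v‖ ^ α := by
      have h1 : ∀ i ∈ s.filter (fun i => ¬ i < j), T i ≤ η / 4 * ‖v‖ ^ α * (1 / 2) ^ (i - 0) := by
        intro i hi
        have hi' := Finset.mem_filter.1 hi
        refine hhigh i (lt_of_le_of_ne (not_lt.1 hi'.2) ?_)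
        rintro rfl
        exact hjs hi'.1
      calc ∑ i ∈ s.filter (fun i => ¬ i < j), T i ≤
            ∑ i ∈ s.filter (fun i => ¬ i < j), η / 4 * ‖v‖ ^ α * (1 / 2) ^ (i - 0) :=
              Finset.sum_le_sum h1
        _ = η / 4 * ‖v‖ ^ α * ∑ i ∈ s.filter (fun i => ¬ i < j), (1 / 2 : ℝ) ^ (i - 0) := by
            rw [Finset.mul_sum]
        _ ≤ η / 4 * ‖v‖ ^ α * 2 := mul_le_mul_of_nonneg_left
            (sum_half_le _ 0 fun i _ => Nat.zero_le _) (by positivity)
        _ = _ := by ring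
    linarith

end

end Pool.Agent.T2h22
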