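import Mathlib

set_option autoImplicit false

open MeasureTheory Set Filter Topology Metric

namespace Pool.Agent.T2h22

/-- The open ellipse with semi-axes `a` and `b` in the plane `ℂ = ℝ²` (a disc when `a = b`). -/
def Ellipse (a b : ℝ) : Set ℂ := {z | (z.re / a) ^ 2 + (z.im / b) ^ 2 < 1}

/-- The Hölder norm `sup |f| + sup |f x - f y| / |x - y| ^ α` on the set `M`, with value `⊤` when
`f` is not a bounded Hölder continuous function on `M`. -/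
noncomputable def holderNorm {E : Type} [NormedAddCommGroup E] (M : Set ℂ) (α : ℝ) (f : ℂ → E) :
    ENNReal :=
  (⨆ x ∈ M, ‖f x‖ₑ) + ⨆ x ∈ M, ⨆ y ∈ M, ‖f x - f y‖ₑ / ‖x - y‖ₑ ^ α

/-- The `C^{1,α}` norm `sup |f| + sup |∇ f| + sup |∇ f x - ∇ f y| / |x - y| ^ α` on `M`. -/
noncomputable def holderNorm1 (M : Set ℂ) (α : ℝ) (f : ℂ → ℝ) : ENNReal :=
  (⨆ x ∈ M, ‖f x‖ₑ) + holderNorm M α (fderiv ℝ f)

/-- The velocity `∇^⊥ ψ = (-∂_y ψ, ∂_x ψ)` of the stream function `ψ`. -/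
noncomputable def perpGrad (ψ : ℂ → ℝ) (z : ℂ) : ℂ :=
  ⟨-(fderiv ℝ ψ z Complex.I), fderiv ℝ ψ z 1⟩

/-- `ω` (vorticity), `ψ` (stream function) and `Φ` (particle trajectories) form a global classical
solution of the two-dimensional incompressible Euler equations on the domain `M`:
the stream function is of class `C²` in space, with first and second derivatives continuous in
space-time and bounded on `[0, T] × M` for each `T`; it solves `Δ ψ = ω` in `M` and `ψ = 0` on the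
boundary; `Φ t` is a bijection of `M` onto itself, `Φ 0` is the identity and
`∂_t Φ = ∇^⊥ ψ (t, Φ)`; and the vorticity is transported, `ω (t, Φ (t, z)) = ω (0, z)`. -/
structure IsEulerSolution (M : Set ℂ) (ω ψ : ℝ → ℂ → ℝ) (Φ : ℝ → ℂ → ℂ) : Prop where
  smooth : ∀ t, 0 ≤ t → ContDiffOn ℝ 2 (ψ t) M
  cont0 : ContinuousOn (fun x : ℝ × ℂ => ψ x.1 x.2) (Ici (0 : ℝ) ×ˢ M)
  cont1 : ContinuousOn (fun x : ℝ × ℂ => fderiv ℝ (ψ x.1) x.2) (Ici (0 : ℝ) ×ˢ M)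
  cont2 : ContinuousOn (fun x : ℝ × ℂ => fderiv ℝ (fderiv ℝ (ψ x.1)) x.2) (Ici (0 : ℝ) ×ˢ M)
  bounded : ∀ T : ℝ, ∃ C : ℝ, ∀ t ∈ Icc 0 T, ∀ z ∈ M,
    ‖fderiv ℝ (ψ t) z‖ ≤ C ∧ ‖fderiv ℝ (fderiv ℝ (ψ t)) z‖ ≤ C
  boundary : ∀ t, 0 ≤ t → ∀ b ∈ frontier M, Tendsto (ψ t) (𝓝[M] b) (𝓝 0)
  poisson : ∀ t, 0 ≤ t → ∀ z ∈ M, Laplacian.laplacian (ψ t) z = ω t z
  start : ∀ z ∈ M, Φ 0 z = z
  bij : ∀ t, 0 ≤ t → BijOn (Φ t) M M
  flow : ∀ z ∈ M, ∀ t, 0 ≤ t →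
    HasDerivWithinAt (fun s => Φ s z) (perpGrad (ψ t) (Φ t z)) (Ici 0) t
  transport : ∀ t, 0 ≤ t → ∀ z ∈ M, ω t (Φ t z) = ω 0 z

end Pool.Agent.T2h22
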