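import Pool.Agent.T2h22.Defs

set_option autoImplicit false

open MeasureTheory Set Filter Topology Metric

namespace Pool.Agent.T2h22

/-- A classical solution (`IsEulerSolution`) whose stream function is of class `C³` in space, with
second derivatives Lipschitz continuous on `M`, uniformly for `t` in `[0, T]`, for each `T`. -/
structure IsEulerSolution3 (M : Set ℂ) (ω ψ : ℝ → ℂ → ℝ) (Φ : ℝ → ℂ → ℂ) : Prop extends
    IsEulerSolution M ω ψ Φ where
  smooth3 : ∀ t, 0 ≤ t → ContDiffOn ℝ 3 (ψ t) M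
  lip2 : ∀ T : ℝ, ∃ C : ℝ, ∀ t ∈ Icc 0 T, ∀ z ∈ M, ∀ w ∈ M,
    ‖fderiv ℝ (fderiv ℝ (ψ t)) z - fderiv ℝ (fderiv ℝ (ψ t)) w‖ ≤ C * ‖z - w‖

end Pool.Agent.T2h22
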