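import Pool.Agent.T2h22.Static

set_option autoImplicit false

open MeasureTheory Set Filter Topology Metric
open scoped Pointwise

namespace Pool.Agent.T2h22

section
variable {C : ℝ} {F Fx Fy Fxx Fxy Fyy : ℂ → ℝ}

theorem mem_smul_ball {l : ℝ} (h0 : 0 < l) (z : ℂ) :
    (l : ℂ) * z ∈ ball (0 : ℂ) 1 ↔ z ∈ ball (0 : ℂ) l⁻¹ := by
  rw [mem_ball_zero_iff, mem_ball_zero_iff, norm_mul, Complex.norm_real, Real.norm_of_nonneg h0.le,
    inv_eq_one_div, lt_div_iff₀' h0]

/-- change of variables for a dilation -/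
theorem dil_cov {l : ℝ} (h0 : 0 < l) (f : ℂ → ℝ) :
    ∫ z in ball (0 : ℂ) l⁻¹, l ^ 2 * f (l * z) = ∫ z in ball (0 : ℂ) 1, f z := by
  have h1 := Measure.setIntegral_comp_smul_of_pos (volume : Measure ℂ) f (ball (0 : ℂ) l⁻¹) h0
  rw [integral_const_mul]
  simp only [Complex.real_smul, Complex.finrank_real_complex, smul_eq_mul] at h1
  rw [h1, ← mul_assoc, mul_inv_cancel₀ (by positivity), one_mul]
  congr 2
  rw [_root_.smul_ball h0.ne', smul_zero, Real.norm_of_nonneg h0.le, mul_inv_cancel₀ h0.ne']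

theorem ball_inv_subset {l : ℝ} (hl : 1 < l) : ball (0 : ℂ) l⁻¹ ⊆ ball (0 : ℂ) 1 :=
  ball_subset_ball (inv_le_one_of_one_le₀ hl.le)

theorem hasFDerivAt_comp_mul {H : ℂ → ℝ} {a b l : ℝ} {z : ℂ}
    (h : HasFDerivAt H (lin a b) ((l : ℂ) * z)) :
    HasFDerivAt (fun z : ℂ => H (l * z)) (lin (l * a) (l * b)) z := by
  have h1 : HasFDerivAt (fun z : ℂ => (l : ℂ) * z) (l • ContinuousLinearMap.id ℝ ℂ) z := by
    have := (hasFDerivAt_id (𝕜 := ℝ) z).const_smul l
    refine this.congr_of_eventuallyEq (Eventually.of_forall fun w => ?_)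
    simp
  have h2 := HasFDerivAt.comp (g := H) (f := fun z : ℂ => (l : ℂ) * z) z h h1
  refine (h2.congr_fderiv ?_).congr_of_eventuallyEq (Eventually.of_forall fun w => rfl)
  ext w
  simp
  ring

theorem hasFDerivAt_const_mul_lin {c a b : ℝ} {z : ℂ} {H : ℂ → ℝ} (hH : HasFDerivAt H (lin a b) z) :
    HasFDerivAt (fun z => c * H z) (lin (c * a) (c * b)) z := by
  rw [← smul_lin]
  exact hH.const_mul c

theorem abs_mul_le' {a b c d : ℝ} (ha : |a| ≤ c) (hb : |b| ≤ d) : |a * b| ≤ c * d := by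
  rw [abs_mul]; exact mul_le_mul ha hb (abs_nonneg _) ((abs_nonneg _).trans ha)

/-- The comparison of a function with its dilation. -/
theorem C2.dil_step (h : C2 C F Fx Fy Fxx Fxy Fyy) {A B : ℝ} (hA : 0 ≤ A) (hB : 0 ≤ B)
    {l : ℝ} (hl : 1 < l) :
    0 ≤ ∫ z in ball (0 : ℂ) 1, (A * Fxx z + B * Fyy z) *
      ((ball (0 : ℂ) 1).indicator F (l * z) - F z) := by
  have h0 : 0 < l := by linarith
  have hr : 0 < l⁻¹ := inv_pos.2 h0
  have hC := h.nonneg
  have hsub := ball_inv_subset hl
  have hmem : ∀ z ∈ ball (0 : ℂ) l⁻¹, (l : ℂ) * z ∈ ball (0 : ℂ) 1 := fun z hz =>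
    (mem_smul_ball h0 z).2 hz
  have hmap : MapsTo (fun z : ℂ => (l : ℂ) * z) (ball (0 : ℂ) l⁻¹) (ball (0 : ℂ) 1) := hmem
  have hcm : ContinuousOn (fun z : ℂ => (l : ℂ) * z) (ball (0 : ℂ) l⁻¹) := by fun_prop
  set K := max (2 * C) (max (l * C) ((A + B) * C)) with hK
  have k1 : 2 * C ≤ K := le_max_left _ _
  have k2 : l * C ≤ K := (le_max_left _ _).trans (le_max_right _ _)
  have k3 : (A + B) * C ≤ K := (le_max_right _ _).trans (le_max_right _ _)
  have kl : ∀ {x : ℝ}, |x| ≤ C → |l * x| ≤ K := fun {x} hx => by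
    rw [abs_mul, abs_of_pos h0]; exact (mul_le_mul_of_nonneg_left hx h0.le).trans k2
  have kA : ∀ {x : ℝ}, |x| ≤ C → |A * x| ≤ K := fun {x} hx => by
    rw [abs_mul, abs_of_nonneg hA]
    refine le_trans ?_ k3
    nlinarith [mul_le_mul_of_nonneg_left hx hA]
  have kB : ∀ {x : ℝ}, |x| ≤ C → |B * x| ≤ K := fun {x} hx => by
    rw [abs_mul, abs_of_nonneg hB]
    refine le_trans ?_ k3
    nlinarith [mul_le_mul_of_nonneg_left hx hB]
  have hd : ∀ z ∈ ball (0 : ℂ) l⁻¹, HasFDerivAt (fun z : ℂ => F (l * z))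
      (lin (l * Fx (l * z)) (l * Fy (l * z))) z := by
    intro z hz
    exact hasFDerivAt_comp_mul (h.d0 _ (hmem z hz))
  have G := T2h22.green (r := l⁻¹) (C := K) hr hd
    (G1 := fun z => A * Fx z) (G1x := fun z => A * Fxx z) (G1y := fun z => A * Fxy z)
    (G2 := fun z => B * Fy z) (G2x := fun z => B * Fxy z) (G2y := fun z => B * Fyy z)
    (fun z hz => hasFDerivAt_const_mul_lin (h.d1 z (hsub hz))) (fun z hz => hasFDerivAt_const_mul_lin (h.d2 z (hsub hz)))
    (continuousOn_const.mul (h.contx.comp hcm hmap))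
    (continuousOn_const.mul (h.conty.comp hcm hmap))
    (continuousOn_const.mul (h.cxx.mono hsub)) (continuousOn_const.mul (h.cyy.mono hsub))
    (fun z hz => (h.bd (hmem z hz)).trans k1) (fun z hz => kl (h.bx _ (hmem z hz)))
    (fun z hz => kl (h.by' _ (hmem z hz))) (fun z hz => kA (h.bx z (hsub hz)))
    (fun z hz => kB (h.by' z (hsub hz))) (fun z hz => kA (h.bxx z (hsub hz)))
    (fun z hz => kB (h.byy z (hsub hz))) (by
      intro b hb
      refine (h.bc (l * b) ?_).comp ?_
      · rw [mem_sphere_zero_iff_norm] at hb ⊢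
        rw [norm_mul, Complex.norm_real, Real.norm_of_nonneg h0.le, hb, mul_inv_cancel₀ h0.ne']
      · rw [tendsto_nhdsWithin_iff]
        refine ⟨(Continuous.tendsto (by fun_prop) b).mono_left nhdsWithin_le_nhds, ?_⟩
        filter_upwards [self_mem_nhdsWithin] with z hz using hmem z hz)
  set D := ∫ z in ball (0 : ℂ) 1, (A * (Fx z * Fx z) + B * (Fy z * Fy z)) with hD
  have hG0 := h.green h A B
  -- integrability
  have bq : ∀ {x y x' y' : ℝ}, |x| ≤ C → |y| ≤ C → |x'| ≤ C → |y'| ≤ C →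
      |A * (x * x') + B * (y * y')| ≤ A * (C * C) + B * (C * C) :=
    fun {x y x' y'} hx hy hx' hy' => by
      refine (abs_add_le _ _).trans ?_
      rw [abs_mul A, abs_mul B, abs_of_nonneg hA, abs_of_nonneg hB]
      exact add_le_add (mul_le_mul_of_nonneg_left (abs_mul_le' hx hx') hA)
        (mul_le_mul_of_nonneg_left (abs_mul_le' hy hy') hB)
  have cD : ContinuousOn (fun z => A * (Fx z * Fx z) + B * (Fy z * Fy z)) (ball (0 : ℂ) 1) :=
    (continuousOn_const.mul (h.contx.mul h.contx)).add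
      (continuousOn_const.mul (h.conty.mul h.conty))
  have iD : IntegrableOn (fun z => A * (Fx z * Fx z) + B * (Fy z * Fy z)) (ball (0 : ℂ) 1) :=
    integrableOn_ball cD fun z hz => bq (h.bx z hz) (h.by' z hz) (h.bx z hz) (h.by' z hz)
  have cDl : ContinuousOn (fun z : ℂ => A * (Fx (l * z) * Fx (l * z)) + B * (Fy (l * z) * Fy (l * z)))
      (ball (0 : ℂ) l⁻¹) := cD.comp hcm hmap
  have iDl : IntegrableOn (fun z : ℂ => l ^ 2 * (A * (Fx (l * z) * Fx (l * z)) +
      B * (Fy (l * z) * Fy (l * z)))) (ball (0 : ℂ) l⁻¹) := by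
    refine integrableOn_ball (C := l ^ 2 * (A * (C * C) + B * (C * C)))
      (continuousOn_const.mul cDl) fun z hz => ?_
    rw [abs_mul, abs_of_pos (by positivity : (0:ℝ) < l ^ 2)]
    have hz' := hmem z hz
    exact mul_le_mul_of_nonneg_left
      (bq (h.bx _ hz') (h.by' _ hz') (h.bx _ hz') (h.by' _ hz')) (by positivity)
  have cg : ContinuousOn (fun z => A * Fxx z + B * Fyy z) (ball (0 : ℂ) 1) :=
    (continuousOn_const.mul h.cxx).add (continuousOn_const.mul h.cyy)
  have bg : ∀ z ∈ ball (0 : ℂ) 1, |A * Fxx z + B * Fyy z| ≤ A * C + B * C := fun z hz => by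
    refine (abs_add_le _ _).trans ?_
    rw [abs_mul, abs_mul, abs_of_nonneg hA, abs_of_nonneg hB]
    exact add_le_add (mul_le_mul_of_nonneg_left (h.bxx z hz) hA)
      (mul_le_mul_of_nonneg_left (h.byy z hz) hB)
  have igF : IntegrableOn (fun z => F z * (A * Fxx z + B * Fyy z)) (ball (0 : ℂ) 1) :=
    integrableOn_ball (h.cont.mul cg) fun z hz => abs_mul_le' (h.bd hz) (bg z hz)
  have igFl : IntegrableOn (fun z : ℂ => F (l * z) * (A * Fxx z + B * Fyy z)) (ball (0 : ℂ) l⁻¹) :=
    integrableOn_ball ((h.cont.comp hcm hmap).mul (cg.mono hsub)) fun z hz =>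
      abs_mul_le' (h.bd (hmem z hz)) (bg z (hsub hz))
  -- the quadratic bound
  have hle : ∫ z in ball (0 : ℂ) l⁻¹, (l * Fx (l * z) * (A * Fx z) + l * Fy (l * z) * (B * Fy z)) ≤ D := by
    have e1 : ∫ z in ball (0 : ℂ) l⁻¹, (l * Fx (l * z) * (A * Fx z) + l * Fy (l * z) * (B * Fy z)) ≤
        ∫ z in ball (0 : ℂ) l⁻¹, (1 / 2 * (l ^ 2 * (A * (Fx (l * z) * Fx (l * z)) +
          B * (Fy (l * z) * Fy (l * z)))) + 1 / 2 * (A * (Fx z * Fx z) + B * (Fy z * Fy z))) := by
      refine setIntegral_mono_on ?_ ((iDl.const_mul _).add ((iD.mono_set hsub).const_mul _))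
        measurableSet_ball ?_
      · refine integrableOn_ball (C := l * C * (A * C) + l * C * (B * C)) ?_ fun z hz => ?_
        · exact ((continuousOn_const.mul (h.contx.comp hcm hmap)).mul
            (continuousOn_const.mul (h.contx.mono hsub))).add
            ((continuousOn_const.mul (h.conty.comp hcm hmap)).mul
            (continuousOn_const.mul (h.conty.mono hsub)))
        · refine (abs_add_le _ _).trans (add_le_add (abs_mul_le' ?_ ?_) (abs_mul_le' ?_ ?_))
          · rw [abs_mul, abs_of_pos h0]; exact mul_le_mul_of_nonneg_left (h.bx _ (hmem z hz)) h0.le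
          · rw [abs_mul, abs_of_nonneg hA]; exact mul_le_mul_of_nonneg_left (h.bx _ (hsub hz)) hA
          · rw [abs_mul, abs_of_pos h0]; exact mul_le_mul_of_nonneg_left (h.by' _ (hmem z hz)) h0.le
          · rw [abs_mul, abs_of_nonneg hB]; exact mul_le_mul_of_nonneg_left (h.by' _ (hsub hz)) hB
      · intro z _
        nlinarith [mul_nonneg hA (sq_nonneg (l * Fx (l * z) - Fx z)),
          mul_nonneg hB (sq_nonneg (l * Fy (l * z) - Fy z))]
    have e2 : ∫ z in ball (0 : ℂ) l⁻¹, (1 / 2 * (l ^ 2 * (A * (Fx (l * z) * Fx (l * z)) +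
          B * (Fy (l * z) * Fy (l * z)))) + 1 / 2 * (A * (Fx z * Fx z) + B * (Fy z * Fy z))) =
        1 / 2 * D + 1 / 2 * ∫ z in ball (0 : ℂ) l⁻¹, (A * (Fx z * Fx z) + B * (Fy z * Fy z)) := by
      have a1 : ∫ z in ball (0 : ℂ) l⁻¹, 1 / 2 * (l ^ 2 * (A * (Fx (l * z) * Fx (l * z)) +
          B * (Fy (l * z) * Fy (l * z)))) = 1 / 2 * D := by
        rw [integral_const_mul, dil_cov h0 (fun z => A * (Fx z * Fx z) + B * (Fy z * Fy z))]
      rw [integral_add (iDl.const_mul _) ((iD.mono_set hsub).const_mul _), a1,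
        integral_const_mul]
    have e3 : ∫ z in ball (0 : ℂ) l⁻¹, (A * (Fx z * Fx z) + B * (Fy z * Fy z)) ≤ D := by
      refine setIntegral_mono_set iD ?_ (Eventually.of_forall hsub)
      refine Eventually.of_forall fun z => ?_
      simp only [Pi.zero_apply]
      nlinarith [mul_nonneg hA (mul_self_nonneg (Fx z)), mul_nonneg hB (mul_self_nonneg (Fy z))]
    linarith
  -- the integral against the dilation
  have e4 : ∫ z in ball (0 : ℂ) 1, (A * Fxx z + B * Fyy z) *
      ((ball (0 : ℂ) 1).indicator F (l * z)) =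
      ∫ z in ball (0 : ℂ) l⁻¹, F (l * z) * (A * Fxx z + B * Fyy z) := by
    rw [← integral_indicator measurableSet_ball, ← integral_indicator measurableSet_ball]
    congr 1
    funext z
    by_cases hz : z ∈ ball (0 : ℂ) l⁻¹
    · rw [indicator_of_mem (hsub hz), indicator_of_mem hz, indicator_of_mem (hmem z hz), mul_comm]
    · rw [indicator_of_notMem hz]
      by_cases hz1 : z ∈ ball (0 : ℂ) 1
      · rw [indicator_of_mem hz1, indicator_of_notMem (fun h => hz ((mem_smul_ball h0 z).1 h)),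
          mul_zero]
      · rw [indicator_of_notMem hz1]
  have i4 : IntegrableOn (fun z : ℂ => (A * Fxx z + B * Fyy z) *
      ((ball (0 : ℂ) 1).indicator F (l * z))) (ball (0 : ℂ) 1) := by
    have : IntegrableOn ((ball (0 : ℂ) l⁻¹).indicator
      (fun z : ℂ => F (l * z) * (A * Fxx z + B * Fyy z))) (ball (0 : ℂ) 1) :=
      (igFl.integrable_indicator measurableSet_ball).integrableOn
    refine this.congr_fun (fun z _ => ?_) measurableSet_ball
    by_cases hz : z ∈ ball (0 : ℂ) l⁻¹
    · simp only [indicator_of_mem hz, indicator_of_mem (hmem z hz)]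
      ring
    · simp only [indicator_of_notMem hz, indicator_of_notMem (fun h => hz ((mem_smul_ball h0 z).1 h)),
          mul_zero]
  have e5 : ∫ z in ball (0 : ℂ) 1, (A * Fxx z + B * Fyy z) *
      ((ball (0 : ℂ) 1).indicator F (l * z) - F z) =
      (∫ z in ball (0 : ℂ) 1, (A * Fxx z + B * Fyy z) * ((ball (0 : ℂ) 1).indicator F (l * z))) -
      ∫ z in ball (0 : ℂ) 1, F z * (A * Fxx z + B * Fyy z) := by
    rw [← integral_sub i4 igF]
    congr 1
    funext z
    ring
  rw [e5, e4]
  linarith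

/-- Testing the elliptic operator against the dilation field. -/
theorem C2.dilation (h : C2 C F Fx Fy Fxx Fxy Fyy) {A B : ℝ} (hA : 0 ≤ A) (hB : 0 ≤ B) :
    0 ≤ ∫ z in ball (0 : ℂ) 1, (A * Fxx z + B * Fyy z) * (z.re * Fx z + z.im * Fy z) := by
  have hC := h.nonneg
  set L : ℕ → ℝ := fun n => 1 + 1 / ((n : ℝ) + 1) with hL
  have hL1 : ∀ n, 1 < L n := fun n => by
    have : (0:ℝ) < 1 / ((n : ℝ) + 1) := by positivity
    simp only [hL]; linarith
  have hLm : ∀ n : ℕ, ((n : ℝ) + 1) * (L n - 1) = 1 := fun n => by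
    simp only [hL]; field_simp; ring
  have cg : ContinuousOn (fun z => A * Fxx z + B * Fyy z) (ball (0 : ℂ) 1) :=
    (continuousOn_const.mul h.cxx).add (continuousOn_const.mul h.cyy)
  have bg : ∀ z ∈ ball (0 : ℂ) 1, |A * Fxx z + B * Fyy z| ≤ A * C + B * C := fun z hz => by
    refine (abs_add_le _ _).trans ?_
    rw [abs_mul, abs_mul, abs_of_nonneg hA, abs_of_nonneg hB]
    exact add_le_add (mul_le_mul_of_nonneg_left (h.bxx z hz) hA)
      (mul_le_mul_of_nonneg_left (h.byy z hz) hB)
  have mF : Measurable ((ball (0 : ℂ) 1).indicator F) := by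
    refine measurable_of_isOpen fun s hs => ?_
    by_cases h0 : (0 : ℝ) ∈ s
    · have : (ball (0 : ℂ) 1).indicator F ⁻¹' s = (ball (0 : ℂ) 1 ∩ F ⁻¹' s) ∪ (ball (0 : ℂ) 1)ᶜ := by
        ext z
        by_cases hz : z ∈ ball (0 : ℂ) 1
        · simp only [mem_preimage, indicator_of_mem hz, mem_union, mem_inter_iff, mem_compl_iff, hz,
            true_and, not_true_eq_false, or_false]
        · simp only [mem_preimage, indicator_of_notMem hz, mem_union, mem_inter_iff, mem_compl_iff,
            hz, false_and, not_false_eq_true, or_true, h0]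
      rw [this]
      exact (h.cont.isOpen_inter_preimage isOpen_ball hs).measurableSet.union
        measurableSet_ball.compl
    · have : (ball (0 : ℂ) 1).indicator F ⁻¹' s = (ball (0 : ℂ) 1 ∩ F ⁻¹' s) := by
        ext z
        by_cases hz : z ∈ ball (0 : ℂ) 1
        · simp only [mem_preimage, indicator_of_mem hz, mem_inter_iff, hz, true_and]
        · simp only [mem_preimage, indicator_of_notMem hz, mem_inter_iff, hz, false_and, h0]
      rw [this]
      exact (h.cont.isOpen_inter_preimage isOpen_ball hs).measurableSet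
  -- the difference quotient bound
  have key : ∀ n : ℕ, ∀ z ∈ ball (0 : ℂ) 1,
      |((n : ℝ) + 1) * ((ball (0 : ℂ) 1).indicator F (L n * z) - F z)| ≤ 2 * C := by
    intro n z hz
    have h1 : |(ball (0 : ℂ) 1).indicator F (L n * z) - F z| ≤ 2 * C * ((L n - 1) * ‖z‖) := by
      by_cases hz' : (L n : ℂ) * z ∈ ball (0 : ℂ) 1
      · rw [indicator_of_mem hz']
        refine (h.lip hz hz').trans (le_of_eq ?_)
        have : (L n : ℂ) * z - z = ((L n - 1 : ℝ) : ℂ) * z := by push_cast; ring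
        rw [this, norm_mul, Complex.norm_real, Real.norm_of_nonneg (by linarith [hL1 n])]
      · rw [indicator_of_notMem hz', zero_sub, abs_neg]
        refine (h.bd_dist hz).trans ?_
        refine mul_le_mul_of_nonneg_left ?_ (by positivity)
        rw [mem_ball_zero_iff, not_lt, norm_mul, Complex.norm_real,
          Real.norm_of_nonneg (by linarith [hL1 n])] at hz'
        linarith
    rw [abs_mul, abs_of_pos (by positivity : (0:ℝ) < (n : ℝ) + 1)]
    have hz1 : ‖z‖ ≤ 1 := (mem_ball_zero_iff.1 hz).le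
    calc ((n : ℝ) + 1) * |(ball (0 : ℂ) 1).indicator F (L n * z) - F z|
        ≤ ((n : ℝ) + 1) * (2 * C * ((L n - 1) * ‖z‖)) :=
          mul_le_mul_of_nonneg_left h1 (by positivity)
      _ = 2 * C * ((((n : ℝ) + 1) * (L n - 1)) * ‖z‖) := by ring
      _ = 2 * C * ‖z‖ := by rw [hLm, one_mul]
      _ ≤ 2 * C := by nlinarith
  have hlim : Tendsto (fun n : ℕ => ∫ z in ball (0 : ℂ) 1, (A * Fxx z + B * Fyy z) *
      (((n : ℝ) + 1) * ((ball (0 : ℂ) 1).indicator F (L n * z) - F z))) atTop
      (𝓝 (∫ z in ball (0 : ℂ) 1, (A * Fxx z + B * Fyy z) * (z.re * Fx z + z.im * Fy z))) := by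
    refine tendsto_integral_of_dominated_convergence (fun _ => (A * C + B * C) * (2 * C)) ?_ ?_ ?_ ?_
    · intro n
      refine (cg.aestronglyMeasurable measurableSet_ball).mul ?_
      refine AEStronglyMeasurable.const_mul ?_ _
      refine AEStronglyMeasurable.sub ?_ (h.cont.aestronglyMeasurable measurableSet_ball)
      exact (mF.comp (measurable_const.mul measurable_id)).aestronglyMeasurable
    · exact integrableOn_const (by exact measure_ball_lt_top.ne) 
    · intro n
      rw [ae_restrict_iff' measurableSet_ball]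
      exact Eventually.of_forall fun z hz => abs_mul_le' (bg z hz) (key n z hz)
    · rw [ae_restrict_iff' measurableSet_ball]
      refine Eventually.of_forall fun z hz => ?_
      refine Tendsto.const_mul _ ?_
      have hder : HasDerivAt (fun s : ℝ => F (z + s * z)) (z.re * Fx z + z.im * Fy z) 0 := by
        have h1 : HasDerivAt (fun s : ℝ => z + (s : ℂ) * z) z 0 := by
          simpa using ((Complex.ofRealCLM.hasDerivAt (x := (0 : ℝ))).mul_const z).const_add z
        have h2 : HasFDerivAt F (lin (Fx z) (Fy z)) (z + ((0 : ℝ) : ℂ) * z) := by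
          simpa using h.d0 z hz
        have := h2.comp_hasDerivAt (0 : ℝ) h1
        simpa [Function.comp_def, mul_comm] using this
      have hsl := hder.tendsto_slope_zero_right
      have ht : Tendsto (fun n : ℕ => 1 / ((n : ℝ) + 1)) atTop (𝓝[>] 0) := by
        rw [tendsto_nhdsWithin_iff]
        exact ⟨tendsto_one_div_add_atTop_nhds_zero_nat, Eventually.of_forall fun n => by
          simp only [mem_Ioi]; positivity⟩
      have h3 := hsl.comp ht
      refine h3.congr' ?_
      have hev : ∀ᶠ n : ℕ in atTop, (L n : ℂ) * z ∈ ball (0 : ℂ) 1 := by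
        have hc : Tendsto (fun n : ℕ => (L n : ℂ) * z) atTop (𝓝 (((1 + 0 : ℝ) : ℂ) * z)) := by
          refine Tendsto.mul_const _ ?_
          exact (Complex.continuous_ofReal.tendsto _).comp
            (tendsto_const_nhds.add tendsto_one_div_add_atTop_nhds_zero_nat)
        rw [add_zero, Complex.ofReal_one, one_mul] at hc
        exact hc.eventually (isOpen_ball.mem_nhds hz)
      filter_upwards [hev] with n hn
      simp only [Function.comp, indicator_of_mem hn, zero_add, smul_eq_mul, Complex.ofReal_zero,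
        zero_mul, add_zero]
      rw [inv_div, div_one]
      congr 3
      simp only [hL]
      push_cast
      ring
  refine ge_of_tendsto' hlim fun n => ?_
  have h2 := h.dil_step hA hB (hL1 n)
  have h3 : ∫ z in ball (0 : ℂ) 1, (A * Fxx z + B * Fyy z) *
      (((n : ℝ) + 1) * ((ball (0 : ℂ) 1).indicator F (L n * z) - F z)) =
      ((n : ℝ) + 1) * ∫ z in ball (0 : ℂ) 1, (A * Fxx z + B * Fyy z) *
      ((ball (0 : ℂ) 1).indicator F (L n * z) - F z) := by
    rw [← integral_const_mul]
    congr 1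
    funext z
    ring
  rw [h3]
  positivity

end

end Pool.Agent.T2h22
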