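import Pool.Agent.T2h22.LinOde

set_option autoImplicit false

open MeasureTheory Set Filter Topology Metric

namespace Pool.Agent.T2h22

/-- A time dependent velocity field on an open convex set, differentiable in space, and its flow. -/
structure FlowData (Ω : Set ℂ) (u : ℝ → ℂ → ℂ) (Du : ℝ → ℂ → (ℂ →L[ℝ] ℂ)) (φ : ℝ → ℂ → ℂ) :
    Prop where
  opn : IsOpen Ω
  cvx : Convex ℝ Ω
  du : ∀ t, 0 ≤ t → ∀ z ∈ Ω, HasFDerivAt (u t) (Du t z) z
  cu : ContinuousOn (fun x : ℝ × ℂ => u x.1 x.2) (Ici (0:ℝ) ×ˢ Ω)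
  cD : ContinuousOn (fun x : ℝ × ℂ => Du x.1 x.2) (Ici (0:ℝ) ×ˢ Ω)
  bD : ∀ T : ℝ, ∃ L : ℝ, 0 ≤ L ∧ ∀ t ∈ Icc 0 T, ∀ z ∈ Ω, ‖Du t z‖ ≤ L
  init : ∀ z ∈ Ω, φ 0 z = z
  mem : ∀ t, 0 ≤ t → ∀ z ∈ Ω, φ t z ∈ Ω
  ode : ∀ z ∈ Ω, ∀ t, 0 ≤ t → HasDerivWithinAt (fun s => φ s z) (u t (φ t z)) (Ici 0) t

namespace FlowData

variable {Ω : Set ℂ} {u : ℝ → ℂ → ℂ} {Du : ℝ → ℂ → (ℂ →L[ℝ] ℂ)} {φ : ℝ → ℂ → ℂ}
  (h : FlowData Ω u Du φ)

include h

theorem ode' {z : ℂ} (hz : z ∈ Ω) {t : ℝ} (ht : 0 ≤ t) :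
    HasDerivWithinAt (fun s => φ s z) (u t (φ t z)) (Ici t) t :=
  (h.ode z hz t ht).mono (Ici_subset_Ici.2 ht)

theorem contt {z : ℂ} (hz : z ∈ Ω) : ContinuousOn (fun s => φ s z) (Ici 0) :=
  fun t ht => (h.ode z hz t ht).continuousWithinAt

theorem lipu {L T : ℝ} (hL : ∀ t ∈ Icc 0 T, ∀ z ∈ Ω, ‖Du t z‖ ≤ L) {t : ℝ} (ht : t ∈ Icc 0 T)
    {z w : ℂ} (hz : z ∈ Ω) (hw : w ∈ Ω) : ‖u t w - u t z‖ ≤ L * ‖w - z‖ :=
  h.cvx.norm_image_sub_le_of_norm_hasFDerivWithin_le (f := u t) (f' := Du t)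
    (fun x hx => (h.du t ht.1 x hx).hasFDerivWithinAt) (fun x hx => hL t ht x hx) hz hw

theorem lip {L T : ℝ} (hL0 : 0 ≤ L) (hL : ∀ t ∈ Icc 0 T, ∀ z ∈ Ω, ‖Du t z‖ ≤ L) {x y : ℂ}
    (hx : x ∈ Ω) (hy : y ∈ Ω) {t : ℝ} (ht : t ∈ Icc 0 T) :
    ‖φ t x - φ t y‖ ≤ Real.exp (L * t) * ‖x - y‖ := by
  have := dist_le_of_trajectories_ODE_of_mem (v := u) (s := fun _ => Ω) (K := ⟨L, hL0⟩)
    (f := fun s => φ s x) (g := fun s => φ s y) (a := 0) (b := T) (δ := ‖x - y‖)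
    (fun s hs => LipschitzOnWith.of_dist_le_mul fun a ha b hb => by
      rw [dist_eq_norm, dist_eq_norm]
      exact h.lipu hL (Ico_subset_Icc_self hs) hb ha)
    ((h.contt hx).mono Icc_subset_Ici_self) (fun s hs => h.ode' hx hs.1)
    (fun s hs => h.mem s hs.1 x hx)
    ((h.contt hy).mono Icc_subset_Ici_self) (fun s hs => h.ode' hy hs.1)
    (fun s hs => h.mem s hs.1 y hy)
    (by rw [h.init x hx, h.init y hy, dist_eq_norm]) t ht
  rw [dist_eq_norm, sub_zero] at this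
  calc ‖φ t x - φ t y‖ ≤ ‖x - y‖ * Real.exp (L * t) := this
    _ = _ := mul_comm _ _

/-- The gradient along a trajectory. -/
theorem cont_A {x : ℂ} (hx : x ∈ Ω) : Continuous fun s : ℝ => Du (max s 0) (φ (max s 0) x) := by
  have h1 : ContinuousOn (fun s : ℝ => Du s (φ s x)) (Ici 0) := by
    refine ContinuousOn.comp (g := fun x : ℝ × ℂ => Du x.1 x.2) h.cD
      (continuousOn_id.prodMk (h.contt hx)) fun s hs => ⟨hs, h.mem s hs x hx⟩
  exact h1.comp_continuous (by fun_prop) fun s => mem_Ici.2 (le_max_right _ _)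

theorem exists_fund {x : ℂ} (hx : x ∈ Ω) : ∃ D : ℝ → (ℂ →L[ℝ] ℂ), D 0 = ContinuousLinearMap.id ℝ ℂ ∧
    ∀ t, HasDerivAt D ((Du (max t 0) (φ (max t 0) x)).comp (D t)) t := by
  let A : ℝ → (ℂ →L[ℝ] ℂ) →L[ℝ] (ℂ →L[ℝ] ℂ) := fun s =>
    ContinuousLinearMap.compL ℝ ℂ ℂ ℂ (Du (max s 0) (φ (max s 0) x))
  have hA : Continuous A := (ContinuousLinearMap.compL ℝ ℂ ℂ ℂ).continuous.comp (h.cont_A hx)
  obtain ⟨y, h0, h1⟩ := lin_ode_gen A hA (ContinuousLinearMap.id ℝ ℂ)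
  exact ⟨y, h0, fun t => by simpa [A] using h1 t⟩

/-- uniform closeness of the gradient near a compact piece of trajectory -/
theorem tube {x : ℂ} (hx : x ∈ Ω) {T : ℝ} {ε : ℝ} (hε : 0 < ε) :
    ∃ η > 0, ∀ s ∈ Icc 0 T, ∀ z, ‖z - φ s x‖ < η → z ∈ Ω ∧ ‖Du s z - Du s (φ s x)‖ < ε := by
  set Kc : Set ℂ := (fun s => φ s x) '' Icc 0 T with hKc
  have hKcomp : IsCompact Kc := isCompact_Icc.image_of_continuousOn
    ((h.contt hx).mono Icc_subset_Ici_self)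
  have hKsub : Kc ⊆ Ω := by
    rintro _ ⟨s, hs, rfl⟩; exact h.mem s hs.1 x hx
  obtain ⟨δ, hδ, hδs⟩ := hKcomp.exists_cthickening_subset_open h.opn hKsub
  have hcomp2 : IsCompact (Icc 0 T ×ˢ cthickening δ Kc) := isCompact_Icc.prod hKcomp.cthickening
  have huc := hcomp2.uniformContinuousOn_of_continuous
    (h.cD.mono (prod_mono Icc_subset_Ici_self hδs))
  rw [Metric.uniformContinuousOn_iff] at huc
  obtain ⟨η, hη, hη'⟩ := huc ε hε
  refine ⟨min δ η, lt_min hδ hη, fun s hs z hz => ?_⟩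
  have hx' : φ s x ∈ Kc := mem_image_of_mem _ hs
  have hz1 : z ∈ cthickening δ Kc :=
    mem_cthickening_of_dist_le z (φ s x) δ Kc hx' (by
      rw [dist_eq_norm]; exact (hz.trans_le (min_le_left _ _)).le)
  refine ⟨hδs hz1, ?_⟩
  have := hη' (s, z) ⟨hs, hz1⟩ (s, φ s x) ⟨hs, self_subset_cthickening _ hx'⟩ (by
    rw [Prod.dist_eq, dist_self, dist_eq_norm, max_eq_right (norm_nonneg _)]
    exact hz.trans_le (min_le_right _ _))
  rwa [dist_eq_norm] at this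

/-- The flow is differentiable, with derivative the fundamental solution. -/
theorem hasFDerivAt {x : ℂ} (hx : x ∈ Ω) {D : ℝ → (ℂ →L[ℝ] ℂ)} (hD0 : D 0 = ContinuousLinearMap.id ℝ ℂ)
    (hD : ∀ t, HasDerivAt D ((Du (max t 0) (φ (max t 0) x)).comp (D t)) t) {t : ℝ} (ht : 0 ≤ t) :
    HasFDerivAt (φ t) (D t) x := by
  obtain ⟨L, hL0, hL⟩ := h.bD t
  set K : ℝ := L + 1 with hK
  have hK0 : 0 < K := by linarith
  have hKL : ∀ s ∈ Icc 0 t, ∀ z ∈ Ω, ‖Du s z‖ ≤ K := fun s hs z hz => (hL s hs z hz).trans (by linarith)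
  set M : ℝ := Real.exp (K * t) / K * Real.exp (K * t) with hM
  have hM0 : 0 < M := by positivity
  rw [hasFDerivAt_iff_isLittleO_nhds_zero, Asymptotics.isLittleO_iff]
  intro c hc
  set ε : ℝ := c / M with hε
  have hε0 : 0 < ε := by positivity
  obtain ⟨η, hη, htube⟩ := h.tube hx (T := t) hε0
  have hδ : 0 < η * Real.exp (-(K * t)) := by positivity
  filter_upwards [ball_mem_nhds (0 : ℂ) hδ] with v hv
  rw [mem_ball_zero_iff] at hv
  have hv' : Real.exp (K * t) * ‖v‖ < η := by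
    have := mul_lt_mul_of_pos_left hv (Real.exp_pos (K * t))
    calc _ < _ := this
      _ = η * (Real.exp (K * t) * Real.exp (-(K * t))) := by ring
      _ = η := by rw [← Real.exp_add, add_neg_cancel, Real.exp_zero, mul_one]
  have he1 : ∀ s ∈ Icc 0 t, Real.exp (K * s) ≤ Real.exp (K * t) := fun s hs =>
    Real.exp_le_exp.2 (mul_le_mul_of_nonneg_left hs.2 hK0.le)
  have hy : x + v ∈ Ω := by
    have := htube 0 ⟨le_rfl, ht⟩ (x + v) (by
      rw [h.init x hx, add_sub_cancel_left]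
      refine lt_of_le_of_lt ?_ hv'
      have : (1:ℝ) ≤ Real.exp (K * t) := Real.one_le_exp (by positivity)
      nlinarith [norm_nonneg v])
    exact this.1
  have hdist : ∀ s ∈ Icc 0 t, ‖φ s (x + v) - φ s x‖ ≤ Real.exp (K * t) * ‖v‖ := by
    intro s hs
    have := h.lip hK0.le hKL hy hx hs
    rw [add_sub_cancel_left] at this
    exact this.trans (mul_le_mul_of_nonneg_right (he1 s hs) (norm_nonneg _))
  set w : ℝ → ℂ := fun s => φ s (x + v) - φ s x - D s v with hw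
  set w' : ℝ → ℂ := fun s => u s (φ s (x + v)) - u s (φ s x) - Du s (φ s x) (D s v) with hw'
  have hder : ∀ s ∈ Ico 0 t, HasDerivWithinAt w (w' s) (Ici s) s := by
    intro s hs
    have h1 := (hD s).clm_apply (hasDerivAt_const s v)
    simp only [ContinuousLinearMap.comp_apply, map_zero, add_zero, max_eq_left hs.1] at h1
    exact ((h.ode' hy hs.1).sub (h.ode' hx hs.1)).sub h1.hasDerivWithinAt
  have hcont : ContinuousOn w (Icc 0 t) := by
    have hDc : Continuous D := continuous_iff_continuousAt.2 fun s => (hD s).continuousAt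
    exact ((((h.contt hy).mono Icc_subset_Ici_self).sub
      ((h.contt hx).mono Icc_subset_Ici_self))).sub
      ((hDc.clm_apply continuous_const).continuousOn)
  have hbound : ∀ s ∈ Ico 0 t, ‖w' s‖ ≤ K * ‖w s‖ + ε * (Real.exp (K * t) * ‖v‖) := by
    intro s hs
    have hs' := Ico_subset_Icc_self hs
    have hbm : φ s (x + v) ∈ ball (φ s x) η := by
      rw [mem_ball, dist_eq_norm]; exact (hdist s hs').trans_lt hv'
    have h1 : ‖u s (φ s (x + v)) - u s (φ s x) - Du s (φ s x) (φ s (x + v) - φ s x)‖ ≤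
        ε * ‖φ s (x + v) - φ s x‖ := by
      refine (convex_ball (φ s x) η).norm_image_sub_le_of_norm_hasFDerivWithin_le'
        (f := u s) (f' := Du s) ?_ ?_ (mem_ball_self hη) hbm
      · intro z hz
        exact (h.du s hs.1 z (htube s hs' z (by rwa [mem_ball, dist_eq_norm] at hz)).1).hasFDerivWithinAt
      · intro z hz
        exact (htube s hs' z (by rwa [mem_ball, dist_eq_norm] at hz)).2.le
    have h2 : w' s = (u s (φ s (x + v)) - u s (φ s x) - Du s (φ s x) (φ s (x + v) - φ s x)) +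
        Du s (φ s x) (w s) := by
      simp only [hw', hw, map_sub]; ring
    rw [h2]
    refine (norm_add_le _ _).trans ?_
    have h3 : ‖Du s (φ s x) (w s)‖ ≤ K * ‖w s‖ :=
      (ContinuousLinearMap.le_opNorm _ _).trans
        (mul_le_mul_of_nonneg_right (hKL s hs' _ (h.mem s hs.1 x hx)) (norm_nonneg _))
    have h4 : ε * ‖φ s (x + v) - φ s x‖ ≤ ε * (Real.exp (K * t) * ‖v‖) :=
      mul_le_mul_of_nonneg_left (hdist s hs') hε0.le
    linarith
  have hw0 : ‖w 0‖ ≤ 0 := by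
    simp only [hw, h.init _ hx, h.init _ hy, hD0, ContinuousLinearMap.id_apply,
      add_sub_cancel_left, sub_self, norm_zero, le_refl]
  have hgr := norm_le_gronwallBound_of_norm_deriv_right_le hcont hder hw0 hbound t ⟨ht, le_rfl⟩
  rw [gronwallBound_of_K_ne_0 hK0.ne'] at hgr
  simp only [zero_mul, zero_add, sub_zero] at hgr
  refine hgr.trans ?_
  have h5 : ε * (Real.exp (K * t) * ‖v‖) / K * (Real.exp (K * t) - 1) ≤
      ε * (Real.exp (K * t) * ‖v‖) / K * Real.exp (K * t) :=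
    mul_le_mul_of_nonneg_left (by linarith) (by positivity)
  refine h5.trans (le_of_eq ?_)
  rw [hε, hM]
  field_simp

theorem fund {x : ℂ} (hx : x ∈ Ω) : ∃ D : ℝ → (ℂ →L[ℝ] ℂ), D 0 = ContinuousLinearMap.id ℝ ℂ ∧
    (∀ t, HasDerivAt D ((Du (max t 0) (φ (max t 0) x)).comp (D t)) t) ∧
    (∀ t, 0 ≤ t → fderiv ℝ (φ t) x = D t) := by
  obtain ⟨D, h0, h1⟩ := h.exists_fund hx
  exact ⟨D, h0, h1, fun t ht => (h.hasFDerivAt hx h0 h1 ht).fderiv⟩

theorem dphi {x : ℂ} (hx : x ∈ Ω) {t : ℝ} (ht : 0 ≤ t) :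
    HasFDerivAt (φ t) (fderiv ℝ (φ t) x) x := by
  obtain ⟨D, h0, h1⟩ := h.exists_fund hx
  have := h.hasFDerivAt hx h0 h1 ht
  rwa [← this.fderiv] at this

theorem dphi_zero {x : ℂ} (hx : x ∈ Ω) : fderiv ℝ (φ 0) x = ContinuousLinearMap.id ℝ ℂ := by
  obtain ⟨D, h0, _, h2⟩ := h.fund hx
  rw [h2 0 le_rfl, h0]

theorem dphi_ode {x : ℂ} (hx : x ∈ Ω) {t : ℝ} (ht : 0 ≤ t) :
    HasDerivWithinAt (fun s => fderiv ℝ (φ s) x)
      ((Du t (φ t x)).comp (fderiv ℝ (φ t) x)) (Ici 0) t := by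
  obtain ⟨D, _, h1, h2⟩ := h.fund hx
  have := (h1 t).hasDerivWithinAt (s := Ici 0)
  rw [max_eq_left ht, ← h2 t ht] at this
  exact this.congr (fun s hs => h2 s hs) (h2 t ht)

theorem dphi_contt {x : ℂ} (hx : x ∈ Ω) : ContinuousOn (fun s => fderiv ℝ (φ s) x) (Ici 0) :=
  fun _ ht => (h.dphi_ode hx ht).continuousWithinAt

/-- Joint continuity of the flow. -/
theorem phi_cont : ContinuousOn (fun p : ℝ × ℂ => φ p.1 p.2) (Ici (0:ℝ) ×ˢ Ω) := by
  rintro ⟨t, x⟩ ⟨ht, hx⟩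
  simp only [mem_Ici] at ht
  simp only at hx
  obtain ⟨L, hL0, hL⟩ := h.bD (t + 1)
  rw [ContinuousWithinAt, tendsto_iff_norm_sub_tendsto_zero]
  have hl : Tendsto (fun p : ℝ × ℂ => Real.exp (L * (t + 1)) * ‖p.2 - x‖ + ‖φ p.1 x - φ t x‖)
      (𝓝[Ici (0:ℝ) ×ˢ Ω] (t, x)) (𝓝 (Real.exp (L * (t + 1)) * ‖x - x‖ + ‖φ t x - φ t x‖)) := by
    refine Tendsto.add ?_ ?_
    · exact (Continuous.tendsto (by fun_prop : Continuous fun p : ℝ × ℂ =>
        Real.exp (L * (t + 1)) * ‖p.2 - x‖) (t, x)).mono_left nhdsWithin_le_nhds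
    · refine ((Tendsto.comp (y := 𝓝[Ici 0] t) (h.contt hx t ht) ?_).sub_const (φ t x)).norm
      rw [nhdsWithin_prod_eq]
      exact tendsto_fst
  rw [sub_self, norm_zero, mul_zero, sub_self, norm_zero, add_zero] at hl
  refine squeeze_zero' (Eventually.of_forall fun _ => norm_nonneg _) ?_ hl
  have hev : ∀ᶠ p : ℝ × ℂ in 𝓝[Ici (0:ℝ) ×ˢ Ω] (t, x), p.1 < t + 1 :=
    ((continuous_fst.tendsto (t, x)).mono_left nhdsWithin_le_nhds).eventually
      (gt_mem_nhds (by simp))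
  filter_upwards [hev, self_mem_nhdsWithin] with p hp hp2
  have h1 := h.lip hL0 hL hp2.2 hx (t := p.1) ⟨hp2.1, hp.le⟩
  have h2 : Real.exp (L * p.1) ≤ Real.exp (L * (t + 1)) :=
    Real.exp_le_exp.2 (mul_le_mul_of_nonneg_left hp.le hL0)
  calc ‖φ p.1 p.2 - φ t x‖ = ‖(φ p.1 p.2 - φ p.1 x) + (φ p.1 x - φ t x)‖ := by
        rw [sub_add_sub_cancel]
    _ ≤ ‖φ p.1 p.2 - φ p.1 x‖ + ‖φ p.1 x - φ t x‖ := norm_add_le _ _
    _ ≤ Real.exp (L * (t + 1)) * ‖p.2 - x‖ + ‖φ p.1 x - φ t x‖ := by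
        have := mul_le_mul_of_nonneg_right h2 (norm_nonneg (p.2 - x))
        linarith

/-- Closeness of the derivatives of the flow at nearby points, uniformly on compact time
intervals. -/
theorem dphi_close {x : ℂ} (hx : x ∈ Ω) {T : ℝ} (hT : 0 ≤ T) {ε : ℝ} (hε : 0 < ε) :
    ∀ᶠ y in 𝓝 x, y ∈ Ω ∧ ∀ t ∈ Icc 0 T, ‖fderiv ℝ (φ t) y - fderiv ℝ (φ t) x‖ ≤ ε := by
  obtain ⟨L, hL0, hL⟩ := h.bD T
  set K : ℝ := L + 1 with hK
  have hK0 : 0 < K := by linarith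
  have hKL : ∀ s ∈ Icc 0 T, ∀ z ∈ Ω, ‖Du s z‖ ≤ K := fun s hs z hz =>
    (hL s hs z hz).trans (by linarith)
  obtain ⟨B, hB⟩ := (isCompact_Icc (a := (0:ℝ)) (b := T)).exists_bound_of_continuousOn
    ((h.dphi_contt hx).mono Icc_subset_Ici_self)
  have hB0 : 0 ≤ B := (norm_nonneg _).trans (hB 0 ⟨le_rfl, hT⟩)
  set M : ℝ := (B + 1) / K * Real.exp (K * T) with hM
  have hM0 : 0 < M := by positivity
  set ε' : ℝ := ε / M with hε'
  have hε0 : 0 < ε' := by positivity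
  obtain ⟨η, hη, htube⟩ := h.tube hx (T := T) hε0
  have hδ : 0 < η * Real.exp (-(K * T)) := by positivity
  filter_upwards [ball_mem_nhds x hδ, h.opn.mem_nhds hx] with y hy hyΩ
  refine ⟨hyΩ, fun t ht => ?_⟩
  rw [mem_ball, dist_eq_norm] at hy
  have hdist : ∀ s ∈ Icc 0 T, ‖φ s y - φ s x‖ < η := by
    intro s hs
    have h1 := h.lip hK0.le hKL hyΩ hx hs
    have h2 : Real.exp (K * s) ≤ Real.exp (K * T) :=
      Real.exp_le_exp.2 (mul_le_mul_of_nonneg_left hs.2 hK0.le)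
    have h3 := mul_lt_mul_of_pos_left hy (Real.exp_pos (K * T))
    calc ‖φ s y - φ s x‖ ≤ Real.exp (K * T) * ‖y - x‖ :=
          h1.trans (mul_le_mul_of_nonneg_right h2 (norm_nonneg _))
      _ < _ := h3
      _ = η * (Real.exp (K * T) * Real.exp (-(K * T))) := by ring
      _ = η := by rw [← Real.exp_add, add_neg_cancel, Real.exp_zero, mul_one]
  have hgr := norm_le_gronwallBound_of_norm_deriv_right_le (δ := 0) (K := K) (ε := ε' * (B + 1))
    (a := 0) (b := T)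
    (f := fun s => fderiv ℝ (φ s) y - fderiv ℝ (φ s) x)
    (f' := fun s => (Du s (φ s y)).comp (fderiv ℝ (φ s) y) - (Du s (φ s x)).comp (fderiv ℝ (φ s) x))
    (((h.dphi_contt hyΩ).mono Icc_subset_Ici_self).sub ((h.dphi_contt hx).mono Icc_subset_Ici_self))
    (fun s hs => (((h.dphi_ode hyΩ hs.1).mono (Ici_subset_Ici.2 hs.1)).sub
      ((h.dphi_ode hx hs.1).mono (Ici_subset_Ici.2 hs.1))))
    (by simp only [h.dphi_zero hyΩ, h.dphi_zero hx, sub_self, norm_zero, le_refl])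
    (by
      intro s hs
      have hs' := Ico_subset_Icc_self hs
      have e : (Du s (φ s y)).comp (fderiv ℝ (φ s) y) - (Du s (φ s x)).comp (fderiv ℝ (φ s) x) =
          (Du s (φ s y)).comp (fderiv ℝ (φ s) y - fderiv ℝ (φ s) x) +
          (Du s (φ s y) - Du s (φ s x)).comp (fderiv ℝ (φ s) x) := by
        ext v; simp
      rw [e]
      refine (norm_add_le _ _).trans (add_le_add ?_ ?_)
      · refine (ContinuousLinearMap.opNorm_comp_le _ _).trans ?_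
        exact mul_le_mul_of_nonneg_right (hKL s hs' _ (h.mem s hs.1 y hyΩ)) (norm_nonneg _)
      · refine (ContinuousLinearMap.opNorm_comp_le _ _).trans ?_
        have h1 := (htube s hs' _ (hdist s hs')).2
        have h2 := hB s hs'
        exact mul_le_mul h1.le (h2.trans (by linarith)) (norm_nonneg _) hε0.le) t ht
  rw [gronwallBound_of_K_ne_0 hK0.ne'] at hgr
  simp only [zero_mul, zero_add, sub_zero] at hgr
  refine hgr.trans ?_
  have h5 : ε' * (B + 1) / K * (Real.exp (K * t) - 1) ≤ ε' * (B + 1) / K * Real.exp (K * T) := by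
    refine mul_le_mul_of_nonneg_left ?_ (by positivity)
    have : Real.exp (K * t) ≤ Real.exp (K * T) :=
      Real.exp_le_exp.2 (mul_le_mul_of_nonneg_left ht.2 hK0.le)
    linarith
  refine h5.trans (le_of_eq ?_)
  rw [hε', hM]
  field_simp

/-- Joint continuity of the derivative of the flow. -/
theorem dphi_cont : ContinuousOn (fun p : ℝ × ℂ => fderiv ℝ (φ p.1) p.2) (Ici (0:ℝ) ×ˢ Ω) := by
  rintro ⟨t, x⟩ ⟨ht, hx⟩
  simp only [mem_Ici] at ht
  simp only at hx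
  rw [ContinuousWithinAt, Metric.tendsto_nhds]
  intro ε hε
  have h1 := h.dphi_close hx (T := t + 1) (by linarith) (half_pos hε)
  have h2 := (Metric.tendsto_nhds.1 (h.dphi_contt hx t ht)) (ε / 2) (half_pos hε)
  have h1' : ∀ᶠ p : ℝ × ℂ in 𝓝[Ici (0:ℝ) ×ˢ Ω] (t, x), p.2 ∈ Ω ∧
      ∀ s ∈ Icc 0 (t + 1), ‖fderiv ℝ (φ s) p.2 - fderiv ℝ (φ s) x‖ ≤ ε / 2 :=
    ((continuous_snd.tendsto (t, x)).mono_left nhdsWithin_le_nhds).eventually h1
  have h2' : ∀ᶠ p : ℝ × ℂ in 𝓝[Ici (0:ℝ) ×ˢ Ω] (t, x),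
      dist (fderiv ℝ (φ p.1) x) (fderiv ℝ (φ t) x) < ε / 2 := by
    have : Tendsto (Prod.fst : ℝ × ℂ → ℝ) (𝓝[Ici (0:ℝ) ×ˢ Ω] (t, x)) (𝓝[Ici 0] t) := by
      rw [nhdsWithin_prod_eq]; exact tendsto_fst
    exact this.eventually h2
  have hev : ∀ᶠ p : ℝ × ℂ in 𝓝[Ici (0:ℝ) ×ˢ Ω] (t, x), p.1 < t + 1 :=
    ((continuous_fst.tendsto (t, x)).mono_left nhdsWithin_le_nhds).eventually
      (gt_mem_nhds (by simp))
  filter_upwards [h1', h2', hev, self_mem_nhdsWithin] with p hp1 hp2 hp3 hp4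
  have h3 := hp1.2 p.1 ⟨hp4.1, hp3.le⟩
  rw [← dist_eq_norm] at h3
  calc dist (fderiv ℝ (φ p.1) p.2) (fderiv ℝ (φ t) x) ≤
        dist (fderiv ℝ (φ p.1) p.2) (fderiv ℝ (φ p.1) x) +
        dist (fderiv ℝ (φ p.1) x) (fderiv ℝ (φ t) x) := dist_triangle _ _ _
    _ < ε / 2 + ε / 2 := by linarith
    _ = ε := by ring

end FlowData

end Pool.Agent.T2h22
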