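import Pool.Agent.T2h22.Flow

set_option autoImplicit false

open MeasureTheory Set Filter Topology Metric

namespace Pool.Agent.T2h22

/-- the Jacobian determinant of a real linear map of the plane -/
noncomputable def jac (D : ℂ →L[ℝ] ℂ) : ℝ :=
  (D 1).re * (D Complex.I).im - (D 1).im * (D Complex.I).re

theorem det_eq_jac (D : ℂ →L[ℝ] ℂ) : D.det = jac D := by
  rw [ContinuousLinearMap.det, ← LinearMap.det_toMatrix Complex.basisOneI, Matrix.det_fin_two]
  simp [LinearMap.toMatrix_apply, Complex.coe_basisOneI_repr, Complex.coe_basisOneI, jac]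
  ring

theorem clm_apply_eq (D : ℂ →L[ℝ] ℂ) (v : ℂ) : D v = v.re • D 1 + v.im • D Complex.I := by
  rw [← map_smul, ← map_smul, ← map_add]
  congr 1
  apply Complex.ext <;> simp

theorem jac_comp (B D : ℂ →L[ℝ] ℂ) :
    (B (D 1)).re * (D Complex.I).im + (D 1).re * (B (D Complex.I)).im -
      ((B (D 1)).im * (D Complex.I).re + (D 1).im * (B (D Complex.I)).re) =
      ((B 1).re + (B Complex.I).im) * jac D := by
  rw [clm_apply_eq B (D 1), clm_apply_eq B (D Complex.I), jac]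
  simp only [Complex.add_re, Complex.add_im, Complex.real_smul, Complex.mul_re, Complex.mul_im,
    Complex.ofReal_re, Complex.ofReal_im, zero_mul, sub_zero, add_zero]
  ring

theorem normSq_mk'' (z : ℂ) : z.re ^ 2 + z.im ^ 2 = ‖z‖ ^ 2 := by
  rw [← Complex.normSq_eq_norm_sq, Complex.normSq_apply]; ring

theorem jac_id : jac (ContinuousLinearMap.id ℝ ℂ) = 1 := by simp [jac]

theorem norm_le_of_jac {D : ℂ →L[ℝ] ℂ} (hj : jac D = 1) {K : ℝ} (hK : ‖D‖ ≤ K) (v : ℂ) :
    ‖v‖ ≤ K * ‖D v‖ := by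
  have h1 : (D v).re * (D (Complex.I * v)).im - (D v).im * (D (Complex.I * v)).re = ‖v‖ ^ 2 := by
    rw [clm_apply_eq D v, clm_apply_eq D (Complex.I * v)]
    have h2 : (v.re ^ 2 + v.im ^ 2) * jac D = ‖v‖ ^ 2 := by
      rw [hj, mul_one, ← normSq_mk'']
    rw [← h2, jac]
    simp only [Complex.add_re, Complex.add_im, Complex.real_smul, Complex.mul_re, Complex.mul_im,
      Complex.ofReal_re, Complex.ofReal_im, zero_mul, sub_zero, add_zero, Complex.I_re, Complex.I_im,
      one_mul, zero_sub, zero_add]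
    ring
  have h2 : (D v).re * (D (Complex.I * v)).im - (D v).im * (D (Complex.I * v)).re ≤
      ‖D v‖ * ‖D (Complex.I * v)‖ := by
    have h3 : (D v).re * (D (Complex.I * v)).im - (D v).im * (D (Complex.I * v)).re =
        (starRingEnd ℂ (D v) * D (Complex.I * v)).im := by
      simp [Complex.mul_im]; ring
    rw [h3]
    calc _ ≤ |(starRingEnd ℂ (D v) * D (Complex.I * v)).im| := le_abs_self _
      _ ≤ ‖starRingEnd ℂ (D v) * D (Complex.I * v)‖ := Complex.abs_im_le_norm _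
      _ = _ := by rw [norm_mul, Complex.norm_conj]
  have h3 : ‖D (Complex.I * v)‖ ≤ K * ‖v‖ := by
    refine (D.le_opNorm _).trans ?_
    rw [norm_mul, Complex.norm_I, one_mul]
    exact mul_le_mul_of_nonneg_right hK (norm_nonneg _)
  rcases (norm_nonneg v).eq_or_lt with h0 | h0
  · rw [← h0]
    exact mul_nonneg ((norm_nonneg _).trans hK) (norm_nonneg _)
  · have h4 : ‖v‖ ^ 2 ≤ (K * ‖D v‖) * ‖v‖ := by
      calc ‖v‖ ^ 2 ≤ ‖D v‖ * ‖D (Complex.I * v)‖ := h1 ▸ h2
        _ ≤ ‖D v‖ * (K * ‖v‖) := mul_le_mul_of_nonneg_left h3 (norm_nonneg _)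
        _ = _ := by ring
    rw [sq] at h4
    exact le_of_mul_le_mul_right h4 h0

namespace FlowData

variable {Ω : Set ℂ} {u : ℝ → ℂ → ℂ} {Du : ℝ → ℂ → (ℂ →L[ℝ] ℂ)} {φ : ℝ → ℂ → ℂ}
  (h : FlowData Ω u Du φ)

include h

/-- The flow of a divergence free field preserves area. -/
theorem jac_one (htr : ∀ t, 0 ≤ t → ∀ z ∈ Ω, (Du t z 1).re + (Du t z Complex.I).im = 0)
    {x : ℂ} (hx : x ∈ Ω) {t : ℝ} (ht : 0 ≤ t) : jac (fderiv ℝ (φ t) x) = 1 := by
  have hder : ∀ s ∈ Ico 0 t, HasDerivWithinAt (fun s => jac (fderiv ℝ (φ s) x)) 0 (Ici s) s := by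
    intro s hs
    have h0 := (h.dphi_ode hx hs.1).mono (Ici_subset_Ici.2 hs.1)
    have h1 := h0.clm_apply (hasDerivWithinAt_const s (Ici s) (1 : ℂ))
    have h2 := h0.clm_apply (hasDerivWithinAt_const s (Ici s) Complex.I)
    simp only [ContinuousLinearMap.comp_apply, map_zero, add_zero] at h1 h2
    have r1 := (Complex.reCLM.hasFDerivAt.comp_hasDerivWithinAt s h1)
    have i1 := (Complex.imCLM.hasFDerivAt.comp_hasDerivWithinAt s h1)
    have r2 := (Complex.reCLM.hasFDerivAt.comp_hasDerivWithinAt s h2)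
    have i2 := (Complex.imCLM.hasFDerivAt.comp_hasDerivWithinAt s h2)
    have h3 := (r1.mul i2).sub (i1.mul r2)
    simp only [Function.comp_apply, Complex.reCLM_apply, Complex.imCLM_apply] at h3
    rw [jac_comp, htr s hs.1 _ (h.mem s hs.1 x hx), zero_mul] at h3
    exact h3
  have hc : ContinuousOn (fun s => jac (fderiv ℝ (φ s) x)) (Icc 0 t) := by
    have h1 : ContinuousOn (fun s => fderiv ℝ (φ s) x) (Icc 0 t) :=
      (h.dphi_contt hx).mono Icc_subset_Ici_self
    have c1 : ContinuousOn (fun s => fderiv ℝ (φ s) x 1) (Icc 0 t) :=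
      h1.clm_apply continuousOn_const
    have c2 : ContinuousOn (fun s => fderiv ℝ (φ s) x Complex.I) (Icc 0 t) :=
      h1.clm_apply continuousOn_const
    exact ((Complex.continuous_re.comp_continuousOn c1).mul
      (Complex.continuous_im.comp_continuousOn c2)).sub
      ((Complex.continuous_im.comp_continuousOn c1).mul (Complex.continuous_re.comp_continuousOn c2))
  have := constant_of_has_deriv_right_zero hc hder t ⟨ht, le_rfl⟩
  rw [this, h.dphi_zero hx, jac_id]

/-- change of variables -/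
theorem integral_comp (htr : ∀ t, 0 ≤ t → ∀ z ∈ Ω, (Du t z 1).re + (Du t z Complex.I).im = 0)
    {t : ℝ} (ht : 0 ≤ t) (hb : BijOn (φ t) Ω Ω) (f : ℂ → ℝ) :
    ∫ x in Ω, f (φ t x) = ∫ x in Ω, f x := by
  have := integral_image_eq_integral_abs_det_fderiv_smul (volume : Measure ℂ) h.opn.measurableSet
    (f := φ t) (f' := fun x => fderiv ℝ (φ t) x)
    (fun x hx => (h.dphi hx ht).hasFDerivWithinAt) hb.injOn f
  rw [hb.image_eq] at this
  rw [this]
  refine setIntegral_congr_fun h.opn.measurableSet fun x hx => ?_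
  rw [det_eq_jac, h.jac_one htr hx ht, abs_one, one_smul]

/-- The inverse of the flow is Lipschitz, with the norm of the derivative of the flow as constant. -/
theorem inv_lip (htr : ∀ t, 0 ≤ t → ∀ z ∈ Ω, (Du t z 1).re + (Du t z Complex.I).im = 0)
    {t : ℝ} (ht : 0 ≤ t) (hb : BijOn (φ t) Ω Ω) {K : ℝ}
    (hK : ∀ x ∈ Ω, ‖fderiv ℝ (φ t) x‖ ≤ K) {x y : ℂ} (hx : x ∈ Ω) (hy : y ∈ Ω) :
    ‖x - y‖ ≤ K * ‖φ t x - φ t y‖ := by
  set g := Function.invFunOn (φ t) Ω with hg
  have hgl : ∀ z ∈ Ω, g (φ t z) = z := fun z hz => hb.injOn.leftInvOn_invFunOn hz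
  have hgr : ∀ z ∈ Ω, φ t (g z) = z := fun z hz => hb.surjOn.rightInvOn_invFunOn hz
  have hgm : ∀ z ∈ Ω, g z ∈ Ω := fun z hz => by
    obtain ⟨w, hw, rfl⟩ := hb.surjOn hz
    rw [hgl w hw]; exact hw
  have hder : ∀ z ∈ Ω, ∃ G : ℂ →L[ℝ] ℂ, ‖G‖ ≤ K ∧ HasFDerivAt g G (φ t z) := by
    intro z hz
    have hdet : (fderiv ℝ (φ t) z).det ≠ 0 := by
      rw [det_eq_jac, h.jac_one htr hz ht]; exact one_ne_zero
    set e := (fderiv ℝ (φ t) z).toContinuousLinearEquivOfDetNeZero hdet with he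
    have hee : (e : ℂ →L[ℝ] ℂ) = fderiv ℝ (φ t) z := by ext v; simp [he]
    have hc : ContinuousAt (fun w => fderiv ℝ (φ t) w) z := by
      have h1 : ContinuousOn (fun w => fderiv ℝ (φ t) w) Ω :=
        ContinuousOn.comp (g := fun p : ℝ × ℂ => fderiv ℝ (φ p.1) p.2) h.dphi_cont
          (continuousOn_const.prodMk continuousOn_id) fun w hw => ⟨ht, hw⟩
      exact h1.continuousAt (h.opn.mem_nhds hz)
    have hs : HasStrictFDerivAt (φ t) (e : ℂ →L[ℝ] ℂ) z := by
      rw [hee]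
      refine hasStrictFDerivAt_of_hasFDerivAt_of_continuousAt
        (f' := fun w => fderiv ℝ (φ t) w) ?_ hc
      filter_upwards [h.opn.mem_nhds hz] with w hw using h.dphi hw ht
    have hmap := hs.map_nhds_eq_of_equiv
    have hgc : ContinuousAt g (φ t z) := by
      rw [ContinuousAt, ← hmap, hgl z hz, tendsto_map'_iff]
      refine tendsto_id.congr' ?_
      filter_upwards [h.opn.mem_nhds hz] with w hw
      simp only [Function.comp, id, hgl w hw]
    have hder : HasFDerivAt g (e.symm : ℂ →L[ℝ] ℂ) (φ t z) := by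
      refine HasFDerivAt.of_local_left_inverse (f := φ t) hgc ?_ ?_
      · rw [hgl z hz, hee]; exact h.dphi hz ht
      · filter_upwards [h.opn.mem_nhds (h.mem t ht z hz)] with w hw using hgr w hw
    refine ⟨_, ?_, hder⟩
    refine ContinuousLinearMap.opNorm_le_bound _ ((norm_nonneg _).trans (hK z hz)) fun w => ?_
    have := norm_le_of_jac (h.jac_one htr hz ht) (hK z hz) (e.symm w)
    rw [← hee] at this
    simpa using this
  have hder' : ∀ z ∈ Ω, ∃ G : ℂ →L[ℝ] ℂ, ‖G‖ ≤ K ∧ HasFDerivAt g G z := by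
    intro z hz
    obtain ⟨w, hw, rfl⟩ := hb.surjOn hz
    exact hder w hw
  choose! G hG1 hG2 using hder'
  have := h.cvx.norm_image_sub_le_of_norm_hasFDerivWithin_le (f := g) (f' := G)
    (fun z hz => (hG2 z hz).hasFDerivWithinAt) hG1 (h.mem t ht y hy) (h.mem t ht x hx)
  rwa [hgl x hx, hgl y hy] at this

end FlowData

end Pool.Agent.T2h22
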