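import Pool.Agent.T2h22.Slice

set_option autoImplicit false

open MeasureTheory Set Filter Topology Metric

namespace Pool.Agent.T2h22

/-- the real linear form `x ↦ a * re x + b * im x` -/
noncomputable def lin (a b : ℝ) : ℂ →L[ℝ] ℝ := a • Complex.reCLM + b • Complex.imCLM

@[simp] theorem lin_apply (a b : ℝ) (z : ℂ) : lin a b z = a * z.re + b * z.im := by
  simp [lin]

theorem lin_one (a b : ℝ) : lin a b 1 = a := by simp
theorem lin_I (a b : ℝ) : lin a b Complex.I = b := by simp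

theorem dx_of {F : ℂ → ℝ} {a b : ℝ} {z : ℂ} (h : HasFDerivAt F (lin a b) z) :
    HasDerivAt (fun s : ℝ => F (z + s)) a 0 := by
  have h1 : HasDerivAt (fun s : ℝ => z + (s : ℂ)) 1 0 := by
    simpa using (Complex.ofRealCLM.hasDerivAt (x := (0 : ℝ))).const_add z
  have h2 : HasFDerivAt F (lin a b) (z + ((0 : ℝ) : ℂ)) := by simpa using h
  have := h2.comp_hasDerivAt (0 : ℝ) h1
  simpa [Function.comp_def] using this

theorem dy_of {F : ℂ → ℝ} {a b : ℝ} {z : ℂ} (h : HasFDerivAt F (lin a b) z) :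
    HasDerivAt (fun s : ℝ => F (z + s * Complex.I)) b 0 := by
  have h1 : HasDerivAt (fun s : ℝ => z + (s : ℂ) * Complex.I) Complex.I 0 := by
    simpa using ((Complex.ofRealCLM.hasDerivAt (x := (0 : ℝ))).mul_const Complex.I).const_add z
  have h2 : HasFDerivAt F (lin a b) (z + ((0 : ℝ) : ℂ) * Complex.I) := by simpa using h
  have := h2.comp_hasDerivAt (0 : ℝ) h1
  simpa [Function.comp_def] using this

theorem integrableOn_ball {r C : ℝ} {f : ℂ → ℝ} (hf : ContinuousOn f (ball (0 : ℂ) r))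
    (hb : ∀ z ∈ ball (0 : ℂ) r, |f z| ≤ C) : IntegrableOn f (ball (0 : ℂ) r) := by
  have : IsFiniteMeasure (volume.restrict (ball (0 : ℂ) r)) :=
    ⟨by rw [Measure.restrict_apply_univ]; exact measure_ball_lt_top⟩
  refine Integrable.of_bound (hf.aestronglyMeasurable measurableSet_ball) C ?_
  rw [ae_restrict_iff' measurableSet_ball]
  exact Eventually.of_forall fun z hz => hb z hz

theorem tendsto_zero_mul_bdd {r C : ℝ} {F G : ℂ → ℝ} {b : ℂ}
    (hF : Tendsto F (𝓝[ball (0 : ℂ) r] b) (𝓝 0)) (hG : ∀ z ∈ ball (0 : ℂ) r, |G z| ≤ C) :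
    Tendsto (fun z => F z * G z) (𝓝[ball (0 : ℂ) r] b) (𝓝 0) := by
  refine squeeze_zero_norm' (a := fun z => |F z| * C) ?_ ?_
  · filter_upwards [self_mem_nhdsWithin] with z hz
    rw [Real.norm_eq_abs, abs_mul]
    exact mul_le_mul_of_nonneg_left (hG z hz) (abs_nonneg _)
  · simpa using hF.abs.mul_const C

/-- Green's identity on a disc, for a function vanishing on the boundary. -/
theorem green {r C : ℝ} (hr : 0 < r) {F Fx Fy G1 G1x G1y G2 G2x G2y : ℂ → ℝ}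
    (hF : ∀ z ∈ ball (0 : ℂ) r, HasFDerivAt F (lin (Fx z) (Fy z)) z)
    (hG1 : ∀ z ∈ ball (0 : ℂ) r, HasFDerivAt G1 (lin (G1x z) (G1y z)) z)
    (hG2 : ∀ z ∈ ball (0 : ℂ) r, HasFDerivAt G2 (lin (G2x z) (G2y z)) z)
    (cFx : ContinuousOn Fx (ball (0 : ℂ) r)) (cFy : ContinuousOn Fy (ball (0 : ℂ) r))
    (cG1 : ContinuousOn G1x (ball (0 : ℂ) r)) (cG2 : ContinuousOn G2y (ball (0 : ℂ) r))
    (bF : ∀ z ∈ ball (0 : ℂ) r, |F z| ≤ C) (bFx : ∀ z ∈ ball (0 : ℂ) r, |Fx z| ≤ C)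
    (bFy : ∀ z ∈ ball (0 : ℂ) r, |Fy z| ≤ C)
    (bG1 : ∀ z ∈ ball (0 : ℂ) r, |G1 z| ≤ C) (bG2 : ∀ z ∈ ball (0 : ℂ) r, |G2 z| ≤ C)
    (bG1x : ∀ z ∈ ball (0 : ℂ) r, |G1x z| ≤ C) (bG2y : ∀ z ∈ ball (0 : ℂ) r, |G2y z| ≤ C)
    (bc : ∀ b ∈ sphere (0 : ℂ) r, Tendsto F (𝓝[ball (0 : ℂ) r] b) (𝓝 0)) :
    ∫ z in ball (0 : ℂ) r, (Fx z * G1 z + Fy z * G2 z) =
      -∫ z in ball (0 : ℂ) r, F z * (G1x z + G2y z) := by
  have hC : 0 ≤ C := (abs_nonneg _).trans (bF 0 (mem_ball_self hr))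
  have cF : ContinuousOn F (ball (0 : ℂ) r) := fun z hz => (hF z hz).continuousAt.continuousWithinAt
  have cG1' : ContinuousOn G1 (ball (0 : ℂ) r) :=
    fun z hz => (hG1 z hz).continuousAt.continuousWithinAt
  have cG2' : ContinuousOn G2 (ball (0 : ℂ) r) :=
    fun z hz => (hG2 z hz).continuousAt.continuousWithinAt
  have bm : ∀ {a b : ℝ}, |a| ≤ C → |b| ≤ C → |a * b| ≤ C * C := fun ha hb => by
    rw [abs_mul]; exact mul_le_mul ha hb (abs_nonneg _) hC
  have i1 : IntegrableOn (fun z => Fx z * G1 z) (ball (0 : ℂ) r) :=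
    integrableOn_ball (cFx.mul cG1') (C := C * C) fun z hz => bm (bFx z hz) (bG1 z hz)
  have i2 : IntegrableOn (fun z => Fy z * G2 z) (ball (0 : ℂ) r) :=
    integrableOn_ball (cFy.mul cG2') (C := C * C) fun z hz => bm (bFy z hz) (bG2 z hz)
  have i3 : IntegrableOn (fun z => F z * G1x z) (ball (0 : ℂ) r) :=
    integrableOn_ball (cF.mul cG1) (C := C * C) fun z hz => bm (bF z hz) (bG1x z hz)
  have i4 : IntegrableOn (fun z => F z * G2y z) (ball (0 : ℂ) r) :=
    integrableOn_ball (cF.mul cG2) (C := C * C) fun z hz => bm (bF z hz) (bG2y z hz)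
  have e1 : ∫ z in ball (0 : ℂ) r, (Fx z * G1 z + F z * G1x z) = 0 := by
    refine integral_ball_dx hr (h := fun z => F z * G1 z) ?_ (i1.add i3) ?_
    · intro z hz
      have := (dx_of (hF z hz)).fun_mul (dx_of (hG1 z hz))
      simpa using this
    · intro b hb
      exact tendsto_zero_mul_bdd (bc b hb) bG1
  have e2 : ∫ z in ball (0 : ℂ) r, (Fy z * G2 z + F z * G2y z) = 0 := by
    refine integral_ball_dy hr (h := fun z => F z * G2 z) ?_ (i2.add i4) ?_
    · intro z hz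
      have := (dy_of (hF z hz)).fun_mul (dy_of (hG2 z hz))
      simpa using this
    · intro b hb
      exact tendsto_zero_mul_bdd (bc b hb) bG2
  rw [integral_add i1 i3] at e1
  rw [integral_add i2 i4] at e2
  rw [integral_add i1 i2]
  simp only [mul_add]
  rw [integral_add i3 i4]
  linarith

end Pool.Agent.T2h22
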