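import Pool.Agent.T2h22.Rough

set_option autoImplicit false

open Set Filter Topology Metric

namespace Pool.Agent.T2h22

/-- A dense sequence of pairs (point, direction) with pairwise distinct points. -/
theorem exists_dense_pairs : ∃ x e : ℕ → ℂ, Function.Injective x ∧ (∀ j, ‖e j‖ = 1) ∧
    ∀ z u : ℂ, ‖u‖ = 1 → ∀ ε > 0, ∃ j, ‖x j - z‖ < ε ∧ ‖e j - u‖ < ε := by
  have : Nonempty (sphere (0 : ℂ) 1) := ⟨⟨1, by simp⟩⟩
  set d : ℕ → ℂ × sphere (0 : ℂ) 1 := TopologicalSpace.denseSeq (ℂ × sphere (0 : ℂ) 1) with hd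
  set a : ℕ → ℂ := fun j => (d (Nat.unpair j).1).1 with ha
  set bad : Set ℝ := ⋃ (i : ℕ) (j : ℕ), {s : ℝ | i ≠ j ∧
    a i + ((s / (i + 1) : ℝ) : ℂ) = a j + ((s / (j + 1) : ℝ) : ℂ)} with hbad
  have hcount : bad.Countable := by
    refine countable_iUnion fun i => countable_iUnion fun j => Set.Subsingleton.countable ?_
    rintro s ⟨hij, hs⟩ s' ⟨_, hs'⟩
    have h1 : ((s / (i + 1) : ℝ) : ℂ) - ((s / (j + 1) : ℝ) : ℂ) =
        ((s' / (i + 1) : ℝ) : ℂ) - ((s' / (j + 1) : ℝ) : ℂ) := by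
      linear_combination hs - hs'
    have h2 : s / (i + 1) - s / (j + 1) = s' / (i + 1) - s' / (j + 1) := by exact_mod_cast h1
    have hi : (0:ℝ) < i + 1 := by positivity
    have hj : (0:ℝ) < j + 1 := by positivity
    have h3 : (s - s') * ((j : ℝ) - i) = 0 := by
      field_simp at h2
      linear_combination h2
    rcases mul_eq_zero.1 h3 with h4 | h4
    · linarith
    · exfalso
      apply hij
      have : (j : ℝ) = i := by linarith
      exact_mod_cast this.symm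
  obtain ⟨s, hs1, hs2⟩ := (hcount.dense_compl ℝ).inter_open_nonempty (Ioo (0:ℝ) 1) isOpen_Ioo
    ⟨1 / 2, by norm_num, by norm_num⟩
  refine ⟨fun j => a j + ((s / (j + 1) : ℝ) : ℂ), fun j => ((d (Nat.unpair j).1).2 : ℂ), ?_, ?_, ?_⟩
  · intro i j hij
    by_contra hne
    apply hs2
    simp only [hbad, mem_iUnion, mem_ofPred_eq]
    exact ⟨i, j, hne, hij⟩
  · intro j
    exact mem_sphere_zero_iff_norm.1 (d (Nat.unpair j).1).2.2
  · intro z u hu ε hε
    have hdense : DenseRange d := TopologicalSpace.denseRange_denseSeq _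
    obtain ⟨n, hn⟩ := hdense.exists_dist_lt (z, (⟨u, mem_sphere_zero_iff_norm.2 hu⟩ :
      sphere (0 : ℂ) 1)) (show 0 < ε / 2 by positivity)
    rw [Prod.dist_eq, max_lt_iff] at hn
    obtain ⟨k, hk⟩ := exists_nat_gt (2 / ε)
    refine ⟨Nat.pair n k, ?_, ?_⟩
    · simp only [ha, Nat.unpair_pair]
      have h1 : ‖(d n).1 - z‖ < ε / 2 := by
        rw [← dist_eq_norm, dist_comm]; exact hn.1
      have h2 : ‖((s / ((Nat.pair n k : ℕ) + 1) : ℝ) : ℂ)‖ < ε / 2 := by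
        rw [Complex.norm_real, Real.norm_of_nonneg (by have := hs1.1; positivity)]
        have h3 : (k : ℝ) ≤ (Nat.pair n k : ℕ) := by exact_mod_cast Nat.right_le_pair n k
        rw [div_lt_iff₀ (by positivity)]
        have h4 : 2 < k * ε := by rwa [div_lt_iff₀ hε] at hk
        nlinarith [hs1.2]
      calc _ = ‖((d n).1 - z) + ((s / ((Nat.pair n k : ℕ) + 1) : ℝ) : ℂ)‖ := by congr 1; ring
        _ < ε := lt_of_le_of_lt (norm_add_le _ _) (by linarith)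
    · simp only [Nat.unpair_pair]
      have h1 : ‖((d n).2 : ℂ) - u‖ < ε / 2 := by
        rw [← dist_eq_norm, dist_comm]; exact hn.2
      linarith

/-! ### the scalar profile -/

/-- `max 0 (1 - |y| ^ α)` -/
noncomputable def prof0 (α : ℝ) (y : ℂ) : ℝ := max 0 (1 - ‖y‖ ^ α)

theorem rpow_sub_le {α : ℝ} (hα : 0 < α) (hα1 : α < 1) {a b : ℝ} (ha : 0 ≤ a) (hab : a ≤ b) :
    b ^ α - a ^ α ≤ (b - a) ^ α := by
  have := Real.rpow_add_le_add_rpow ha (sub_nonneg.2 hab) hα.le hα1.le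
  rw [add_sub_cancel] at this
  linarith

theorem abs_rpow_sub_le {α : ℝ} (hα : 0 < α) (hα1 : α < 1) {a b : ℝ} (ha : 0 ≤ a) (hb : 0 ≤ b) :
    |a ^ α - b ^ α| ≤ |a - b| ^ α := by
  rcases le_total a b with h | h
  · rw [abs_sub_comm, abs_sub_comm a b, abs_of_nonneg (sub_nonneg.2 h),
      abs_of_nonneg (sub_nonneg.2 (Real.rpow_le_rpow ha h hα.le))]
    exact rpow_sub_le hα hα1 ha h
  · rw [abs_of_nonneg (sub_nonneg.2 h),
      abs_of_nonneg (sub_nonneg.2 (Real.rpow_le_rpow hb h hα.le))]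
    exact rpow_sub_le hα hα1 hb h

theorem rpow_sub_le_lip {α : ℝ} (hα1 : α < 1) {a b d : ℝ} (hd : 0 < d) (ha : d ≤ a)
    (hab : a ≤ b) : b ^ α - a ^ α ≤ d ^ (α - 1) * (b - a) := by
  have ha0 : 0 < a := hd.trans_le ha
  have h1 : b ^ α = a ^ α * (b / a) ^ α := by
    rw [← Real.mul_rpow ha0.le (div_nonneg (ha0.le.trans hab) ha0.le)]; congr 1; field_simp
  have h2 : (b / a) ^ α ≤ b / a := by
    calc (b / a) ^ α ≤ (b / a) ^ (1 : ℝ) :=
          Real.rpow_le_rpow_of_exponent_le (by rw [one_le_div ha0]; exact hab) hα1.le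
      _ = _ := Real.rpow_one _
  have h3 : a ^ α = a ^ (α - 1) * a := by rw [← Real.rpow_add_one ha0.ne', sub_add_cancel]
  have h4 : a ^ (α - 1) ≤ d ^ (α - 1) :=
    Real.rpow_le_rpow_of_nonpos hd ha (by linarith)
  have h5 : 0 ≤ a ^ α := by positivity
  calc b ^ α - a ^ α ≤ a ^ α * (b / a) - a ^ α := by
        rw [h1]; exact sub_le_sub_right (mul_le_mul_of_nonneg_left h2 h5) _
    _ = a ^ (α - 1) * (b - a) := by rw [h3]; field_simp
    _ ≤ _ := mul_le_mul_of_nonneg_right h4 (sub_nonneg.2 hab)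

theorem abs_rpow_sub_le_lip {α : ℝ} (hα : 0 < α) (hα1 : α < 1) {a b d : ℝ} (hd : 0 < d)
    (ha : d ≤ a) (hb : d ≤ b) : |a ^ α - b ^ α| ≤ d ^ (α - 1) * |a - b| := by
  rcases le_total a b with h | h
  · rw [abs_sub_comm, abs_sub_comm a b, abs_of_nonneg (sub_nonneg.2 h),
      abs_of_nonneg (sub_nonneg.2 (Real.rpow_le_rpow (hd.le.trans ha) h hα.le))]
    exact rpow_sub_le_lip hα1 hd ha h
  · rw [abs_of_nonneg (sub_nonneg.2 h),
      abs_of_nonneg (sub_nonneg.2 (Real.rpow_le_rpow (hd.le.trans hb) h hα.le))]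
    exact rpow_sub_le_lip hα1 hd hb h

theorem abs_max_zero_sub (a b : ℝ) : |max 0 a - max 0 b| ≤ |a - b| := by
  have := abs_max_sub_max_le_max 0 a 0 b
  simpa using this

theorem prof0_supp {α : ℝ} (hα : 0 < α) (y : ℂ) (hy : 1 ≤ ‖y‖) : prof0 α y = 0 := by
  have := Real.one_le_rpow hy hα.le
  exact max_eq_left (by linarith)

theorem prof0_bd {α : ℝ} (y : ℂ) : ‖prof0 α y‖ ≤ 1 := by
  have h := Real.rpow_nonneg (norm_nonneg y) α
  rw [prof0, Real.norm_eq_abs, abs_of_nonneg (le_max_left _ _)]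
  exact max_le zero_le_one (by linarith)

theorem prof0_sub_le {α : ℝ} (y w : ℂ) : ‖prof0 α y - prof0 α w‖ ≤ |‖y‖ ^ α - ‖w‖ ^ α| := by
  rw [Real.norm_eq_abs]
  refine (abs_max_zero_sub _ _).trans (le_of_eq ?_)
  rw [show 1 - ‖y‖ ^ α - (1 - ‖w‖ ^ α) = -(‖y‖ ^ α - ‖w‖ ^ α) by ring, abs_neg]

theorem prof0_holder {α : ℝ} (hα : 0 < α) (hα1 : α < 1) (y w : ℂ) :
    ‖prof0 α y - prof0 α w‖ ≤ 1 * ‖y - w‖ ^ α := by
  rw [one_mul]
  refine (prof0_sub_le y w).trans ((abs_rpow_sub_le hα hα1 (norm_nonneg _) (norm_nonneg _)).trans ?_)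
  exact Real.rpow_le_rpow (abs_nonneg _) (abs_norm_sub_norm_le y w) hα.le

theorem prof0_lip {α : ℝ} (hα : 0 < α) (hα1 : α < 1) (d : ℝ) (hd : 0 < d) (y w : ℂ)
    (hy : d ≤ ‖y‖) (hw : d ≤ ‖w‖) : ‖prof0 α y - prof0 α w‖ ≤ 1 * d ^ (α - 1) * ‖y - w‖ := by
  rw [one_mul]
  refine (prof0_sub_le y w).trans ((abs_rpow_sub_le_lip hα hα1 hd hy hw).trans ?_)
  exact mul_le_mul_of_nonneg_left (abs_norm_sub_norm_le y w) (by positivity)

theorem prof0_cusp {α : ℝ} (hα : 0 < α) (e : ℂ) (he : ‖e‖ = 1) (h : ℝ) (h0 : 0 < h)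
    (h1 : h < 1) : prof0 α (h * e) - prof0 α 0 = (-1) * h ^ α := by
  have h2 : ‖(h : ℂ) * e‖ = h := by
    rw [norm_mul, he, mul_one, Complex.norm_real, Real.norm_of_nonneg h0.le]
  have h3 : h ^ α ≤ 1 := Real.rpow_le_one h0.le h1.le hα.le
  rw [prof0, prof0, h2, norm_zero, Real.zero_rpow hα.ne', max_eq_right (by linarith),
    max_eq_right (by norm_num)]
  ring

end Pool.Agent.T2h22
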