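import Pool.Agent.T2h22.Pert
import Pool.Agent.T2h22.Profile

set_option autoImplicit false

open MeasureTheory Set Filter Topology Metric

namespace Pool.Agent.T2h22

/-! ### Hölder norms -/

theorem holder_of_norm_le {E : Type} [NormedAddCommGroup E] {M : Set ℂ} {α N : ℝ}
    (hN : 0 ≤ N) {f : ℂ → E} (h : holderNorm M α f ≤ ENNReal.ofReal N) :
    (∀ z ∈ M, ‖f z‖ ≤ N) ∧ ∀ z ∈ M, ∀ w ∈ M, ‖f z - f w‖ ≤ N * ‖z - w‖ ^ α := by
  constructor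
  · intro z hz
    have h1 : ‖f z‖ₑ ≤ ENNReal.ofReal N :=
      (le_iSup₂ (f := fun x (_ : x ∈ M) => ‖f x‖ₑ) z hz).trans (le_self_add.trans h)
    rwa [← ofReal_norm, ENNReal.ofReal_le_ofReal_iff hN] at h1
  · intro z hz w hw
    rcases eq_or_ne z w with rfl | hzw
    · simp only [sub_self, norm_zero]; positivity
    have h2 : ‖f z - f w‖ₑ / ‖z - w‖ₑ ^ α ≤ ENNReal.ofReal N := by
      refine le_trans ?_ (le_add_self.trans h)
      refine le_trans ?_ (le_iSup₂ (f := fun x (_ : x ∈ M) => ⨆ y ∈ M, ‖f x - f y‖ₑ / ‖x - y‖ₑ ^ α) z hz)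
      exact le_iSup₂ (f := fun y (_ : y ∈ M) => ‖f z - f y‖ₑ / ‖z - y‖ₑ ^ α) w hw
    have hp : 0 < ‖z - w‖ := norm_pos_iff.2 (sub_ne_zero.2 hzw)
    have e1 : ‖z - w‖ₑ ^ α = ENNReal.ofReal (‖z - w‖ ^ α) := by
      rw [← ofReal_norm, ENNReal.ofReal_rpow_of_pos hp]
    have hpα : 0 < ‖z - w‖ ^ α := by positivity
    rw [e1, ENNReal.div_le_iff (by simpa using hpα) ENNReal.ofReal_ne_top, ← ofReal_norm,
      ← ENNReal.ofReal_mul hN, ENNReal.ofReal_le_ofReal_iff (by positivity)] at h2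
    exact h2

theorem norm_le_of_holder {E : Type} [NormedAddCommGroup E] {M : Set ℂ} {α N0 N1 : ℝ}
    (hN0 : 0 ≤ N0) (hN1 : 0 ≤ N1)
    {f : ℂ → E} (h0 : ∀ z ∈ M, ‖f z‖ ≤ N0) (h1 : ∀ z ∈ M, ∀ w ∈ M, ‖f z - f w‖ ≤ N1 * ‖z - w‖ ^ α) :
    holderNorm M α f ≤ ENNReal.ofReal (N0 + N1) := by
  rw [ENNReal.ofReal_add hN0 hN1]
  refine add_le_add (iSup₂_le fun z hz => ?_) (iSup₂_le fun z hz => iSup₂_le fun w hw => ?_)
  · rw [← ofReal_norm]
    exact ENNReal.ofReal_le_ofReal (h0 z hz)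
  · rcases eq_or_ne z w with rfl | hzw
    · simp
    have hp : 0 < ‖z - w‖ := norm_pos_iff.2 (sub_ne_zero.2 hzw)
    have e1 : ‖z - w‖ₑ ^ α = ENNReal.ofReal (‖z - w‖ ^ α) := by
      rw [← ofReal_norm, ENNReal.ofReal_rpow_of_pos hp]
    have hpα : 0 < ‖z - w‖ ^ α := by positivity
    rw [e1, ENNReal.div_le_iff (by simpa using hpα) ENNReal.ofReal_ne_top, ← ofReal_norm,
      ← ENNReal.ofReal_mul hN1]
    exact ENNReal.ofReal_le_ofReal (h1 z hz w hw)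

/-! ### from vectors of a dense family to the norm of the derivative -/

theorem norm_le_of_lower {D : ℂ →L[ℝ] ℂ} (hj : jac D = 1) {m : ℝ} (hm : 0 < m)
    (h : ∀ u : ℂ, ‖u‖ = 1 → m ≤ ‖D u‖) : ‖D‖ ≤ 1 / m := by
  have h' : ∀ v : ℂ, m * ‖v‖ ≤ ‖D v‖ := by
    intro v
    rcases eq_or_ne v 0 with rfl | hv
    · simp
    have hv0 : 0 < ‖v‖ := norm_pos_iff.2 hv
    have h1 := h ((‖v‖⁻¹ : ℝ) • v) (by
      rw [norm_smul, norm_inv, norm_norm, inv_mul_cancel₀ hv0.ne'])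
    rw [map_smul, norm_smul, norm_inv, norm_norm, ← div_eq_inv_mul, le_div_iff₀ hv0] at h1
    exact h1
  refine D.opNorm_le_bound (by positivity) fun v => ?_
  set A := D v with hA
  set B := D (Complex.I * v) with hB
  have hcross : (starRingEnd ℂ A * B).im = ‖v‖ ^ 2 := by
    have h2 : (v.re ^ 2 + v.im ^ 2) * jac D = ‖v‖ ^ 2 := by
      rw [hj, mul_one, ← normSq_mk'']
    rw [hA, hB, clm_apply_eq D v, clm_apply_eq D (Complex.I * v), ← h2, jac]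
    simp only [Complex.add_re, Complex.add_im, Complex.real_smul, Complex.mul_re, Complex.mul_im,
      Complex.ofReal_re, Complex.ofReal_im, zero_mul, sub_zero, add_zero, Complex.I_re, Complex.I_im,
      one_mul, zero_sub, zero_add, Complex.conj_re, Complex.conj_im]
    ring
  rcases eq_or_ne v 0 with hv | hv
  · rw [hA, hv]; simp
  have hv0 : 0 < ‖v‖ := norm_pos_iff.2 hv
  have hA0 : 0 < ‖A‖ := lt_of_lt_of_le (by positivity) (h' v)
  have hAsq : 0 < ‖A‖ ^ 2 := by positivity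
  set t : ℝ := (starRingEnd ℂ A * B).re / ‖A‖ ^ 2 with ht
  set w : ℂ := Complex.I * v - t • v with hw
  have hDw : D w = B - t • A := by rw [hw, map_sub, map_smul]
  have hnw : ‖v‖ ≤ ‖w‖ := by
    have : w = (Complex.I - t) * v := by
      rw [hw, Complex.real_smul]; ring
    rw [this, norm_mul]
    have h1 : 1 ≤ ‖Complex.I - (t : ℂ)‖ := by
      have := Complex.abs_im_le_norm (Complex.I - (t : ℂ))
      simpa using this
    nlinarith
  have hprod : ‖A‖ * ‖D w‖ = ‖v‖ ^ 2 := by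
    have h1 : starRingEnd ℂ A * D w = ((‖v‖ ^ 2 : ℝ) : ℂ) * Complex.I := by
      have hc : starRingEnd ℂ A * A = ((‖A‖ ^ 2 : ℝ) : ℂ) := by
        rw [mul_comm, Complex.mul_conj, Complex.normSq_eq_norm_sq]
      have h3 : starRingEnd ℂ A * D w = starRingEnd ℂ A * B - (t : ℂ) * ((‖A‖ ^ 2 : ℝ) : ℂ) := by
        rw [hDw, Complex.real_smul, ← hc]; ring
      rw [h3]
      apply Complex.ext
      · rw [Complex.sub_re, ← Complex.ofReal_mul, Complex.ofReal_re, ht]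
        rw [Complex.re_ofReal_mul, Complex.I_re, mul_zero]
        field_simp
        ring
      · rw [Complex.sub_im, ← Complex.ofReal_mul, Complex.ofReal_im, hcross]
        rw [Complex.im_ofReal_mul, Complex.I_im, mul_one, sub_zero]
    have h2 : ‖starRingEnd ℂ A * D w‖ = ‖v‖ ^ 2 := by
      rw [h1, norm_mul, Complex.norm_I, mul_one, Complex.norm_real, Real.norm_of_nonneg (by positivity)]
    rwa [norm_mul, Complex.norm_conj] at h2
  have h5 : ‖A‖ * (m * ‖v‖) ≤ ‖v‖ ^ 2 := by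
    rw [← hprod]
    refine mul_le_mul_of_nonneg_left ?_ hA0.le
    exact (mul_le_mul_of_nonneg_left hnw hm.le).trans (h' w)
  rw [one_div, ← div_eq_inv_mul, le_div_iff₀ hm]
  have h6 : ‖v‖ * (‖A‖ * m) ≤ ‖v‖ * ‖v‖ := by nlinarith
  exact le_of_mul_le_mul_left h6 hv0

theorem bound_of_dense {Ω : Set ℂ} (hΩ : IsOpen Ω) {D : ℂ → (ℂ →L[ℝ] ℂ)} (hD : ContinuousOn D Ω)
    (hj : ∀ x ∈ Ω, jac (D x) = 1) {x e : ℕ → ℂ}
    (hd : ∀ z u : ℂ, ‖u‖ = 1 → ∀ ε > 0, ∃ j, ‖x j - z‖ < ε ∧ ‖e j - u‖ < ε) {m : ℝ} (hm : 0 < m)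
    (h : ∀ j, x j ∈ Ω → m ≤ ‖D (x j) (e j)‖) : ∀ z ∈ Ω, ‖D z‖ ≤ 1 / m := by
  intro z hz
  refine norm_le_of_lower (hj z hz) hm fun u hu => ?_
  by_contra hlt
  push Not at hlt
  have hcont : ContinuousAt (fun p : ℂ × ℂ => ‖D p.1 p.2‖) (z, u) := by
    have h1 : ContinuousAt (fun p : ℂ × ℂ => D p.1) (z, u) :=
      ContinuousAt.comp (f := Prod.fst) (hD.continuousAt (hΩ.mem_nhds hz)) continuous_fst.continuousAt
    exact (h1.clm_apply continuous_snd.continuousAt).norm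
  have h1 : ∀ᶠ p : ℂ × ℂ in 𝓝 (z, u), ‖D p.1 p.2‖ < m :=
    hcont.eventually (gt_mem_nhds hlt)
  have h2 : ∀ᶠ p : ℂ × ℂ in 𝓝 (z, u), p.1 ∈ Ω :=
    continuous_fst.continuousAt.eventually (hΩ.mem_nhds hz)
  obtain ⟨ε, hε, hball⟩ := Metric.eventually_nhds_iff.1 (h1.and h2)
  obtain ⟨j, hj1, hj2⟩ := hd z u hu ε hε
  have h3 := hball (y := (x j, e j)) (by
    rw [Prod.dist_eq, max_lt_iff, dist_eq_norm, dist_eq_norm]
    exact ⟨hj1, hj2⟩)
  exact absurd (h j h3.2) (not_le.2 h3.1)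

/-- The Hölder argument along a direction. -/
theorem lower_of_holder {φ : ℂ → ℂ} {D : ℂ →L[ℝ] ℂ} {x e : ℂ} (hφ : HasFDerivAt φ D x)
    {α N c : ℝ} (hα : 0 < α) {r : ℝ → ℝ} (hr : Tendsto r (𝓝[>] 0) (𝓝 0))
    (hf : ∀ δ > 0, ∃ h : ℝ, 0 < h ∧ h < δ ∧ c * h ^ α ≤ N * ‖φ (x + h * e) - φ x‖ ^ α + r h * h ^ α) :
    c ≤ N * ‖D e‖ ^ α := by
  have hline : HasDerivAt (fun h : ℝ => x + (h : ℂ) * e) e 0 := by
    simpa using ((Complex.ofRealCLM.hasDerivAt (x := (0 : ℝ))).mul_const e).const_add x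
  have h1 : HasDerivAt (fun h : ℝ => φ (x + (h : ℂ) * e)) (D e) 0 := by
    refine HasFDerivAt.comp_hasDerivAt (0 : ℝ) (f := fun h : ℝ => x + (h : ℂ) * e) ?_ hline
    simpa using hφ
  have h2 := h1.tendsto_slope_zero_right
  have h3 : Tendsto (fun t : ℝ => N * ‖t⁻¹ • (φ (x + ((0 + t : ℝ) : ℂ) * e) -
      φ (x + ((0 : ℝ) : ℂ) * e))‖ ^ α + r t) (𝓝[>] 0) (𝓝 (N * ‖D e‖ ^ α + 0)) :=
    ((h2.norm.rpow_const (Or.inr hα.le)).const_mul N).add hr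
  rw [add_zero] at h3
  by_contra hlt
  push Not at hlt
  have h4 := h3.eventually (gt_mem_nhds hlt)
  obtain ⟨δ, hδ, hδ'⟩ := mem_nhdsGT_iff_exists_Ioo_subset.1 h4
  obtain ⟨h, h0, hhδ, hle⟩ := hf δ hδ
  have h5 : N * ‖h⁻¹ • (φ (x + ((0 + h : ℝ) : ℂ) * e) - φ (x + ((0 : ℝ) : ℂ) * e))‖ ^ α + r h < c :=
    hδ' ⟨h0, hhδ⟩
  rw [zero_add, Complex.ofReal_zero, zero_mul, add_zero, norm_smul, norm_inv,
    Real.norm_of_nonneg h0.le, Real.mul_rpow (by positivity) (norm_nonneg _),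
    Real.inv_rpow h0.le] at h5
  have hhα : 0 < h ^ α := by positivity
  have h6 : c * h ^ α < c * h ^ α := by
    calc c * h ^ α ≤ N * ‖φ (x + h * e) - φ x‖ ^ α + r h * h ^ α := hle
      _ = (N * ((h ^ α)⁻¹ * ‖φ (x + h * e) - φ x‖ ^ α) + r h) * h ^ α := by field_simp
      _ < c * h ^ α := mul_lt_mul_of_pos_right h5 hhα
  exact lt_irrefl _ h6

end Pool.Agent.T2h22
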