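import Pool.Agent.T2h22.Dil

set_option autoImplicit false

open MeasureTheory Set Filter Topology Metric

namespace Pool.Agent.T2h22

theorem quad_deriv (k : ℝ) (z : ℂ) :
    HasFDerivAt (fun z : ℂ => k * ((z.re ^ 2 + z.im ^ 2 - 1) / 2)) (lin (k * z.re) (k * z.im)) z := by
  have h1 : HasFDerivAt (fun z : ℂ => z.re) Complex.reCLM z := Complex.reCLM.hasFDerivAt
  have h2 : HasFDerivAt (fun z : ℂ => z.im) Complex.imCLM z := Complex.imCLM.hasFDerivAt
  have h3 := (((h1.pow 2).add (h2.pow 2)).sub_const 1).mul_const (1 / 2 : ℝ)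
  have h4 := h3.const_mul k
  refine (h4.congr_fderiv ?_).congr_of_eventuallyEq (Eventually.of_forall fun w => ?_)
  · ext w
    simp
    ring
  · simp only [Pi.add_apply]
    ring

theorem lin_deriv_re (k : ℝ) (z : ℂ) : HasFDerivAt (fun z : ℂ => k * z.re) (lin k 0) z := by
  have h1 : HasFDerivAt (fun z : ℂ => z.re) Complex.reCLM z := Complex.reCLM.hasFDerivAt
  refine (h1.const_mul k).congr_fderiv ?_
  ext w; simp

theorem lin_deriv_im (k : ℝ) (z : ℂ) : HasFDerivAt (fun z : ℂ => k * z.im) (lin 0 k) z := by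
  have h1 : HasFDerivAt (fun z : ℂ => z.im) Complex.imCLM z := Complex.imCLM.hasFDerivAt
  refine (h1.const_mul k).congr_fderiv ?_
  ext w; simp

theorem lin_sub (a b a' b' : ℝ) : lin a b - lin a' b' = lin (a - a') (b - b') := by
  ext w; simp; ring

section
variable {C : ℝ} {F Fx Fy Fxx Fxy Fyy : ℂ → ℝ}

/-- subtracting a multiple of the torsion function -/
theorem C2.sub_quad (h : C2 C F Fx Fy Fxx Fxy Fyy) (k : ℝ) :
    C2 (C + |k|) (fun z => F z - k * ((z.re ^ 2 + z.im ^ 2 - 1) / 2)) (fun z => Fx z - k * z.re)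
      (fun z => Fy z - k * z.im) (fun z => Fxx z - k) Fxy (fun z => Fyy z - k) where
  d0 z hz := by rw [← lin_sub]; exact (h.d0 z hz).sub (quad_deriv k z)
  d1 z hz := by
    have := (h.d1 z hz).sub (lin_deriv_re k z)
    rwa [lin_sub, sub_zero] at this
  d2 z hz := by
    have := (h.d2 z hz).sub (lin_deriv_im k z)
    rwa [lin_sub, sub_zero] at this
  cxx := h.cxx.sub continuousOn_const
  cyy := h.cyy.sub continuousOn_const
  bx z hz := by
    refine (abs_sub _ _).trans (add_le_add (h.bx z hz) ?_)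
    rw [abs_mul]
    have := (Complex.abs_re_le_norm z).trans (mem_ball_zero_iff.1 hz).le
    nlinarith [abs_nonneg k]
  by' z hz := by
    refine (abs_sub _ _).trans (add_le_add (h.by' z hz) ?_)
    rw [abs_mul]
    have := (Complex.abs_im_le_norm z).trans (mem_ball_zero_iff.1 hz).le
    nlinarith [abs_nonneg k]
  bxx z hz := (abs_sub _ _).trans (add_le_add (h.bxx z hz) le_rfl)
  byy z hz := (abs_sub _ _).trans (add_le_add (h.byy z hz) le_rfl)
  bc b hb := by
    have h1 : Tendsto (fun z : ℂ => k * ((z.re ^ 2 + z.im ^ 2 - 1) / 2)) (𝓝[ball (0 : ℂ) 1] b)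
        (𝓝 (k * ((b.re ^ 2 + b.im ^ 2 - 1) / 2))) :=
      (Continuous.tendsto (by fun_prop) b).mono_left nhdsWithin_le_nhds
    have h2 : b.re ^ 2 + b.im ^ 2 = 1 := by
      have h3 := normSq_mk' b.re b.im
      have h4 : ‖b‖ = 1 := mem_sphere_zero_iff_norm.1 hb
      have h5 : (⟨b.re, b.im⟩ : ℂ) = b := rfl
      rw [h5, h4] at h3
      linarith
    rw [h2, sub_self, zero_div, mul_zero] at h1
    simpa using (h.bc b hb).sub h1

theorem J_lower (h : C2 C F Fx Fy Fxx Fxy Fyy) {A B : ℝ} (hA : 0 < A) (hB : 0 < B) {c : ℝ}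
    (hc : ∫ z in ball (0 : ℂ) 1, (A * Fxx z + B * Fyy z - c) = 0) :
    2 * Real.pi * ∫ z in ball (0 : ℂ) 1, (A * (Fx z - c / (A + B) * z.re) ^ 2 +
        B * (Fy z - c / (A + B) * z.im) ^ 2) ≤
      ∫ z in ball (0 : ℂ) 1, (A * Fxx z + B * Fyy z - c) *
        (Real.pi * (z.re * Fx z + z.im * Fy z) - 2 * Real.pi * F z) := by
  set k := c / (A + B) with hk
  have hAB : A + B ≠ 0 := by positivity
  have hkc : A * k + B * k = c := by rw [hk]; field_simp
  have g := h.sub_quad k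
  have h1 := g.dilation hA.le hB.le
  have h2 := g.green g A B
  have hg : ∀ z, A * (Fxx z - k) + B * (Fyy z - k) = A * Fxx z + B * Fyy z - c := fun z => by
    rw [← hkc]; ring
  simp only [hg] at h1 h2
  set G : ℂ → ℝ := fun z => F z - k * ((z.re ^ 2 + z.im ^ 2 - 1) / 2) with hG
  have cw : ContinuousOn (fun z => A * Fxx z + B * Fyy z - c) (ball (0 : ℂ) 1) :=
    ((continuousOn_const.mul h.cxx).add (continuousOn_const.mul h.cyy)).sub continuousOn_const
  have bw : ∀ z ∈ ball (0 : ℂ) 1, |A * Fxx z + B * Fyy z - c| ≤ A * C + B * C + |c| := fun z hz => by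
    refine (abs_sub _ _).trans (add_le_add ?_ le_rfl)
    refine (abs_add_le _ _).trans ?_
    rw [abs_mul, abs_mul, abs_of_pos hA, abs_of_pos hB]
    exact add_le_add (mul_le_mul_of_nonneg_left (h.bxx z hz) hA.le)
      (mul_le_mul_of_nonneg_left (h.byy z hz) hB.le)
  have hre : ∀ z ∈ ball (0 : ℂ) 1, |z.re| ≤ 1 := fun z hz =>
    (Complex.abs_re_le_norm z).trans (mem_ball_zero_iff.1 hz).le
  have him : ∀ z ∈ ball (0 : ℂ) 1, |z.im| ≤ 1 := fun z hz =>
    (Complex.abs_im_le_norm z).trans (mem_ball_zero_iff.1 hz).le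
  have i1 : IntegrableOn (fun z => (A * Fxx z + B * Fyy z - c) *
      (z.re * (Fx z - k * z.re) + z.im * (Fy z - k * z.im))) (ball (0 : ℂ) 1) := by
    refine integrableOn_ball (cw.mul ?_) fun z hz => abs_mul_le' (bw z hz)
      ((abs_add_le _ _).trans (add_le_add (abs_mul_le' (hre z hz) (g.bx z hz))
        (abs_mul_le' (him z hz) (g.by' z hz))))
    exact (Complex.continuous_re.continuousOn.mul g.contx).add
      (Complex.continuous_im.continuousOn.mul g.conty)
  have i2 : IntegrableOn (fun z => G z * (A * Fxx z + B * Fyy z - c)) (ball (0 : ℂ) 1) :=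
    integrableOn_ball (g.cont.mul cw) fun z hz => abs_mul_le' (g.bd hz) (bw z hz)
  have i3 : IntegrableOn (fun z => (A * Fxx z + B * Fyy z - c)) (ball (0 : ℂ) 1) :=
    integrableOn_ball cw bw
  have e1 : ∫ z in ball (0 : ℂ) 1, (A * Fxx z + B * Fyy z - c) *
        (Real.pi * (z.re * Fx z + z.im * Fy z) - 2 * Real.pi * F z) =
      Real.pi * (∫ z in ball (0 : ℂ) 1, (A * Fxx z + B * Fyy z - c) *
        (z.re * (Fx z - k * z.re) + z.im * (Fy z - k * z.im))) -
      2 * Real.pi * (∫ z in ball (0 : ℂ) 1, G z * (A * Fxx z + B * Fyy z - c)) +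
      Real.pi * k * ∫ z in ball (0 : ℂ) 1, (A * Fxx z + B * Fyy z - c) := by
    have i12 : IntegrableOn (fun z => Real.pi * ((A * Fxx z + B * Fyy z - c) *
      (z.re * (Fx z - k * z.re) + z.im * (Fy z - k * z.im))) -
      2 * Real.pi * (G z * (A * Fxx z + B * Fyy z - c))) (ball (0 : ℂ) 1) :=
      (i1.const_mul _).sub (i2.const_mul _)
    rw [← integral_const_mul, ← integral_const_mul, ← integral_const_mul,
      ← integral_sub (i1.const_mul _) (i2.const_mul _),
      ← integral_add i12 (i3.const_mul _)]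
    congr 1
    funext z
    simp only [hG]
    ring
  have e2 : ∫ z in ball (0 : ℂ) 1, (A * (Fx z - k * z.re) ^ 2 + B * (Fy z - k * z.im) ^ 2) =
      -∫ z in ball (0 : ℂ) 1, G z * (A * Fxx z + B * Fyy z - c) := by
    rw [← h2]
    congr 1
    funext z
    ring
  rw [e1, hc, e2]
  nlinarith [Real.pi_pos, mul_nonneg Real.pi_pos.le h1]

/-- The torsional energy. -/
noncomputable def tor (A B : ℝ) : ℝ :=
  ∫ z in ball (0 : ℂ) 1, (A * (z.re / (A + B)) ^ 2 + B * (z.im / (A + B)) ^ 2)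

/-- lower bound by energy mismatch -/
theorem mismatch {A B c e : ℝ} (hA : 0 < A) (hB : 0 < B) (he0 : 0 ≤ e) (he : e ≠ c ^ 2 * tor A B) :
    ∃ m : ℝ, 0 < m ∧ ∀ {C : ℝ} {Fx Fy : ℂ → ℝ}, ContinuousOn Fx (ball (0 : ℂ) 1) →
      ContinuousOn Fy (ball (0 : ℂ) 1) → (∀ z ∈ ball (0 : ℂ) 1, |Fx z| ≤ C) →
      (∀ z ∈ ball (0 : ℂ) 1, |Fy z| ≤ C) →
      ∫ z in ball (0 : ℂ) 1, (A * (Fx z) ^ 2 + B * (Fy z) ^ 2) = e →
      m ≤ ∫ z in ball (0 : ℂ) 1, (A * (Fx z - c / (A + B) * z.re) ^ 2 +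
        B * (Fy z - c / (A + B) * z.im) ^ 2) := by
  have hAB : A + B ≠ 0 := by positivity
  set τ := tor A B with hτ
  have hτ0 : 0 ≤ τ := by
    rw [hτ, tor]
    exact setIntegral_nonneg measurableSet_ball fun z _ => by positivity
  -- both inequalities, for a parameter s
  have main : ∀ s : ℝ, 0 < s → ∀ {C : ℝ} {Fx Fy : ℂ → ℝ}, ContinuousOn Fx (ball (0 : ℂ) 1) →
      ContinuousOn Fy (ball (0 : ℂ) 1) → (∀ z ∈ ball (0 : ℂ) 1, |Fx z| ≤ C) →
      (∀ z ∈ ball (0 : ℂ) 1, |Fy z| ≤ C) →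
      ∫ z in ball (0 : ℂ) 1, (A * (Fx z) ^ 2 + B * (Fy z) ^ 2) = e →
      e ≤ (1 + 1 / s) * (∫ z in ball (0 : ℂ) 1, (A * (Fx z - c / (A + B) * z.re) ^ 2 +
        B * (Fy z - c / (A + B) * z.im) ^ 2)) + (1 + s) * (c ^ 2 * τ) ∧
      c ^ 2 * τ ≤ (1 + 1 / s) * (∫ z in ball (0 : ℂ) 1, (A * (Fx z - c / (A + B) * z.re) ^ 2 +
        B * (Fy z - c / (A + B) * z.im) ^ 2)) + (1 + s) * e := by
    intro s hs C Fx Fy cx cy bx by' hE
    have hre : ∀ z ∈ ball (0 : ℂ) 1, |z.re| ≤ 1 := fun z hz =>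
      (Complex.abs_re_le_norm z).trans (mem_ball_zero_iff.1 hz).le
    have him : ∀ z ∈ ball (0 : ℂ) 1, |z.im| ≤ 1 := fun z hz =>
      (Complex.abs_im_le_norm z).trans (mem_ball_zero_iff.1 hz).le
    have cont_int : ∀ {f : ℂ → ℝ} {M : ℝ}, ContinuousOn f (ball (0 : ℂ) 1) →
      (∀ z ∈ ball (0 : ℂ) 1, |f z| ≤ M) → IntegrableOn f (ball (0 : ℂ) 1) :=
      fun h1 h2 => integrableOn_ball h1 h2
    have bq : ∀ {x y M : ℝ}, |x| ≤ M → |y| ≤ M → |A * x ^ 2 + B * y ^ 2| ≤ A * (M * M) + B * (M * M) :=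
      fun {x y M} hx hy => by
        refine (abs_add_le _ _).trans ?_
        rw [abs_mul A, abs_mul B, abs_of_pos hA, abs_of_pos hB, sq, sq]
        exact add_le_add (mul_le_mul_of_nonneg_left (abs_mul_le' hx hx) hA.le)
          (mul_le_mul_of_nonneg_left (abs_mul_le' hy hy) hB.le)
    have i1 : IntegrableOn (fun z => A * (Fx z) ^ 2 + B * (Fy z) ^ 2) (ball (0 : ℂ) 1) :=
      cont_int ((continuousOn_const.mul (cx.pow 2)).add (continuousOn_const.mul (cy.pow 2)))
        fun z hz => bq (bx z hz) (by' z hz)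
    have i2 : IntegrableOn (fun z : ℂ => A * (z.re / (A + B)) ^ 2 + B * (z.im / (A + B)) ^ 2)
        (ball (0 : ℂ) 1) := by
      refine cont_int (M := A * (|1 / (A + B)| * |1 / (A + B)|) + B * (|1 / (A + B)| * |1 / (A + B)|))
        (by fun_prop) fun z hz => bq ?_ ?_
      · rw [abs_div, abs_div, abs_one]
        exact div_le_div_of_nonneg_right (hre z hz) (abs_nonneg _)
      · rw [abs_div, abs_div, abs_one]
        exact div_le_div_of_nonneg_right (him z hz) (abs_nonneg _)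
    have i3 : IntegrableOn (fun z => A * (Fx z - c / (A + B) * z.re) ^ 2 +
        B * (Fy z - c / (A + B) * z.im) ^ 2) (ball (0 : ℂ) 1) := by
      refine cont_int (M := A * ((C + |c / (A + B)|) * (C + |c / (A + B)|)) +
        B * ((C + |c / (A + B)|) * (C + |c / (A + B)|))) ?_ fun z hz => bq ?_ ?_
      · have h1 : ContinuousOn (fun z : ℂ => c / (A + B) * z.re) (ball (0 : ℂ) 1) := by fun_prop
        have h2 : ContinuousOn (fun z : ℂ => c / (A + B) * z.im) (ball (0 : ℂ) 1) := by fun_prop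
        exact (continuousOn_const.mul ((cx.sub h1).pow 2)).add
          (continuousOn_const.mul ((cy.sub h2).pow 2))
      · refine (abs_sub _ _).trans (add_le_add (bx z hz) ?_)
        rw [abs_mul]; nlinarith [hre z hz, abs_nonneg (c / (A + B))]
      · refine (abs_sub _ _).trans (add_le_add (by' z hz) ?_)
        rw [abs_mul]; nlinarith [him z hz, abs_nonneg (c / (A + B))]
    have pt : ∀ a b : ℝ, (a + b) ^ 2 ≤ (1 + 1 / s) * a ^ 2 + (1 + s) * b ^ 2 := by
      intro a b
      have h1 : (1 + 1 / s) * a ^ 2 + (1 + s) * b ^ 2 - (a + b) ^ 2 = (a - s * b) ^ 2 / s := by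
        field_simp; ring
      have h2 : 0 ≤ (a - s * b) ^ 2 / s := by positivity
      linarith
    constructor
    · rw [← hE, hτ, tor, ← integral_const_mul, ← integral_const_mul, ← integral_const_mul,
        ← integral_add (i3.const_mul _) ((i2.const_mul _).const_mul _)]
      refine setIntegral_mono_on i1 ((i3.const_mul _).add ((i2.const_mul _).const_mul _))
        measurableSet_ball fun z _ => ?_
      have p1 := pt (Fx z - c / (A + B) * z.re) (c / (A + B) * z.re)
      have p2 := pt (Fy z - c / (A + B) * z.im) (c / (A + B) * z.im)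
      rw [sub_add_cancel] at p1 p2
      have q1 := mul_le_mul_of_nonneg_left p1 hA.le
      have q2 := mul_le_mul_of_nonneg_left p2 hB.le
      refine (add_le_add q1 q2).trans (le_of_eq ?_)
      ring
    · rw [← hE, hτ, tor, ← integral_const_mul, ← integral_const_mul, ← integral_const_mul,
        ← integral_add (i3.const_mul _) (i1.const_mul _)]
      refine setIntegral_mono_on (i2.const_mul _) ((i3.const_mul _).add (i1.const_mul _))
        measurableSet_ball fun z _ => ?_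
      have p1 := pt (-(Fx z - c / (A + B) * z.re)) (Fx z)
      have p2 := pt (-(Fy z - c / (A + B) * z.im)) (Fy z)
      have q1 := mul_le_mul_of_nonneg_left p1 hA.le
      have q2 := mul_le_mul_of_nonneg_left p2 hB.le
      have := add_le_add q1 q2
      calc c ^ 2 * (A * (z.re / (A + B)) ^ 2 + B * (z.im / (A + B)) ^ 2)
          = A * (-(Fx z - c / (A + B) * z.re) + Fx z) ^ 2 +
            B * (-(Fy z - c / (A + B) * z.im) + Fy z) ^ 2 := by ring
        _ ≤ _ := this
        _ = _ := by ring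
  rcases lt_or_gt_of_ne he with h | h
  · -- e < c² τ
    obtain ⟨s, hs, hs2⟩ : ∃ s : ℝ, 0 < s ∧ (1 + s) * e < c ^ 2 * τ := by
      refine ⟨(c ^ 2 * τ - e) / (2 * (e + 1)), by
        apply div_pos <;> linarith, ?_⟩
      have h1 : (c ^ 2 * τ - e) / (2 * (e + 1)) * e ≤ (c ^ 2 * τ - e) / 2 := by
        rw [div_mul_eq_mul_div, div_le_div_iff₀ (by positivity) (by positivity)]
        nlinarith
      nlinarith
    refine ⟨(c ^ 2 * τ - (1 + s) * e) / (1 + 1 / s), div_pos (by linarith) (by positivity), ?_⟩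
    intro C Fx Fy cx cy bx by' hE
    have := (main s hs cx cy bx by' hE).2
    rw [div_le_iff₀ (by positivity)]
    linarith
  · obtain ⟨s, hs, hs2⟩ : ∃ s : ℝ, 0 < s ∧ (1 + s) * (c ^ 2 * τ) < e := by
      have h0 : 0 ≤ c ^ 2 * τ := by positivity
      refine ⟨(e - c ^ 2 * τ) / (2 * (c ^ 2 * τ + 1)), by
        apply div_pos <;> linarith, ?_⟩
      have h1 : (e - c ^ 2 * τ) / (2 * (c ^ 2 * τ + 1)) * (c ^ 2 * τ) ≤ (e - c ^ 2 * τ) / 2 := by
        rw [div_mul_eq_mul_div, div_le_div_iff₀ (by positivity) (by positivity)]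
        nlinarith
      nlinarith
    refine ⟨(e - (1 + s) * (c ^ 2 * τ)) / (1 + 1 / s), div_pos (by linarith) (by positivity), ?_⟩
    intro C Fx Fy cx cy bx by' hE
    have := (main s hs cx cy bx by' hE).1
    rw [div_le_iff₀ (by positivity)]
    linarith

end

end Pool.Agent.T2h22
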