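import Mathlib

set_option autoImplicit false

open MeasureTheory Filter Topology

/-!
Global solutions of linear differential equations in a Banach space (taken from
`Pool.Agent.H631.KR.B24`).
-/

namespace Pool.Agent.T2h22

noncomputable section

/-- iterates -/
def lin_ode_y {E : Type*} [NormedAddCommGroup E] [NormedSpace ℝ E] (A : ℝ → E →L[ℝ] E)
    (x0 : E) : ℕ → ℝ → E
  | 0 => fun _ => x0
  | n + 1 => fun t => ∫ s in (0 : ℝ)..t, A s (lin_ode_y A x0 n s)

theorem lin_ode_cont {E : Type*} [NormedAddCommGroup E] [NormedSpace ℝ E] [CompleteSpace E]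
    (A : ℝ → E →L[ℝ] E) (hA : Continuous A) (x0 : E) (n : ℕ) : Continuous (lin_ode_y A x0 n) := by
  induction n with
  | zero => exact continuous_const
  | succ n ih =>
    have h1 : Continuous fun s => A s (lin_ode_y A x0 n s) := hA.clm_apply ih
    exact intervalIntegral.continuous_primitive (fun a b => h1.intervalIntegrable a b) 0

theorem lin_ode_der {E : Type*} [NormedAddCommGroup E] [NormedSpace ℝ E] [CompleteSpace E]
    (A : ℝ → E →L[ℝ] E) (hA : Continuous A) (x0 : E) (n : ℕ) (t : ℝ) :
    HasDerivAt (lin_ode_y A x0 (n + 1)) (A t (lin_ode_y A x0 n t)) t := by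
  have h1 : Continuous fun s => A s (lin_ode_y A x0 n s) :=
    hA.clm_apply (lin_ode_cont A hA x0 n)
  exact intervalIntegral.integral_hasDerivAt_right (h1.intervalIntegrable _ _)
    (h1.stronglyMeasurableAtFilter _ _) h1.continuousAt

theorem lin_ode_bd {E : Type*} [NormedAddCommGroup E] [NormedSpace ℝ E] [CompleteSpace E]
    (A : ℝ → E →L[ℝ] E) (hA : Continuous A) (x0 : E) (T M : ℝ) (hM : 0 ≤ M)
    (hAM : ∀ s, |s| ≤ T → ‖A s‖ ≤ M) (n : ℕ) (t : ℝ) (ht : |t| ≤ T) :
    ‖lin_ode_y A x0 n t‖ ≤ (M * |t|) ^ n / (n.factorial : ℝ) * ‖x0‖ := by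
  induction n generalizing t with
  | zero => simp [lin_ode_y]
  | succ n ih =>
    show ‖∫ s in (0 : ℝ)..t, A s (lin_ode_y A x0 n s)‖ ≤ _
    have h1 : Continuous fun s => A s (lin_ode_y A x0 n s) :=
      hA.clm_apply (lin_ode_cont A hA x0 n)
    have hsub : ∀ s ∈ Set.uIoc 0 t, |s| ≤ |t| := by
      intro s hs
      rcases le_total 0 t with h | h
      · rw [Set.uIoc_of_le h] at hs
        rw [abs_of_pos hs.1, abs_of_nonneg h]; exact hs.2
      · rw [Set.uIoc_of_ge h] at hs
        rw [abs_of_nonpos hs.2, abs_of_nonpos h]; linarith [hs.1]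
    refine (intervalIntegral.norm_integral_le_integral_norm_uIoc).trans ?_
    have h2 : ∫ s in Set.uIoc 0 t, ‖A s (lin_ode_y A x0 n s)‖ ≤
        ∫ s in Set.uIoc 0 t, (M * (M ^ n / (n.factorial : ℝ) * ‖x0‖)) * |s - 0| ^ n := by
      refine setIntegral_mono_on ?_ ?_ measurableSet_uIoc ?_
      · exact ((h1.norm).intervalIntegrable 0 t).def'
      · have h3 : Continuous fun s : ℝ => (M * (M ^ n / (n.factorial : ℝ) * ‖x0‖)) * |s - 0| ^ n := by
          fun_prop
        exact (h3.intervalIntegrable 0 t).def'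
      · intro s hs
        have h4 := ih s ((hsub s hs).trans ht)
        calc ‖A s (lin_ode_y A x0 n s)‖ ≤ ‖A s‖ * ‖lin_ode_y A x0 n s‖ := (A s).le_opNorm _
          _ ≤ M * ((M * |s|) ^ n / (n.factorial : ℝ) * ‖x0‖) :=
            mul_le_mul (hAM s ((hsub s hs).trans ht)) h4 (norm_nonneg _) hM
          _ = _ := by rw [sub_zero, mul_pow]; ring
    refine h2.trans (le_of_eq ?_)
    rw [integral_const_mul, integral_pow_abs_sub_uIoc, sub_zero, Nat.factorial_succ, mul_pow]
    push_cast
    have hn : (n.factorial : ℝ) ≠ 0 := by exact_mod_cast n.factorial_ne_zero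
    have hn1 : (n : ℝ) + 1 ≠ 0 := by positivity
    field_simp
    ring

theorem lin_ode_gen {E : Type*} [NormedAddCommGroup E] [NormedSpace ℝ E] [CompleteSpace E]
    (A : ℝ → E →L[ℝ] E) (hA : Continuous A) (x0 : E) :
    ∃ y : ℝ → E, y 0 = x0 ∧ ∀ t, HasDerivAt y (A t (y t)) t := by
  refine ⟨fun t => ∑' n, lin_ode_y A x0 n t, ?_, ?_⟩
  · show ∑' n, lin_ode_y A x0 n 0 = x0
    rw [tsum_eq_single 0]
    · rfl
    · intro n hn
      obtain ⟨m, rfl⟩ := Nat.exists_eq_succ_of_ne_zero hn
      show ∫ s in (0 : ℝ)..0, A s (lin_ode_y A x0 m s) = 0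
      exact intervalIntegral.integral_same
  · intro t
    -- radius
    set T : ℝ := |t| + 1 with hT
    have hT0 : 0 < T := by positivity
    obtain ⟨M, hM⟩ := (isCompact_Icc (a := -T) (b := T)).exists_bound_of_continuousOn
      (f := fun s => ‖A s‖) hA.norm.continuousOn
    have hM' : ∀ s, |s| ≤ T → ‖A s‖ ≤ max M 0 := by
      intro s hs
      have := hM s (abs_le.1 hs)
      rw [norm_norm] at this
      exact this.trans (le_max_left _ _)
    have hM0 : 0 ≤ max M 0 := le_max_right _ _
    set K := max M 0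
    have hb := lin_ode_bd A hA x0 T K hM0 hM'
    have hb' : ∀ n s, |s| ≤ T → ‖lin_ode_y A x0 n s‖ ≤ (K * T) ^ n / (n.factorial : ℝ) * ‖x0‖ := by
      intro n s hs
      refine (hb n s hs).trans ?_
      gcongr
    have hsum : Summable fun n : ℕ => (K * T) ^ n / (n.factorial : ℝ) * ‖x0‖ :=
      (Real.summable_pow_div_factorial (K * T)).mul_right _
    have hysum : ∀ s, |s| ≤ T → Summable fun n => lin_ode_y A x0 n s := fun s hs =>
      Summable.of_norm_bounded hsum fun n => hb' n s hs
    let g' : ℕ → ℝ → E := fun n => match n with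
      | 0 => fun _ => 0
      | n + 1 => fun s => A s (lin_ode_y A x0 n s)
    let b : ℕ → ℝ := fun n => match n with
      | 0 => 0
      | n + 1 => K * ((K * T) ^ n / (n.factorial : ℝ) * ‖x0‖)
    have hbsum : Summable b := (summable_nat_add_iff 1).1 (hsum.mul_left K)
    have hder := hasDerivAt_tsum_of_isPreconnected (g := lin_ode_y A x0) (g' := g')
      (t := Metric.ball (0 : ℝ) T) (y₀ := 0) (y := t) hbsum Metric.isOpen_ball
      (convex_ball (0 : ℝ) T).isPreconnected ?_ ?_ (Metric.mem_ball_self hT0)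
      (hysum 0 (by simpa using hT0.le)) (by simp [hT])
    · have htT : |t| ≤ T := by rw [hT]; linarith
      have e1 : ∑' n, g' n t = A t (∑' n, lin_ode_y A x0 n t) := by
        have hs1 : Summable fun n => g' (n + 1) t := (A t).summable (hysum t htT)
        have hs2 : Summable fun n => g' n t := (summable_nat_add_iff 1).1 hs1
        rw [hs2.tsum_eq_zero_add, (A t).map_tsum (hysum t htT)]
        show (0 : E) + ∑' n, A t (lin_ode_y A x0 n t) = _
        rw [zero_add]
      rw [e1] at hder
      exact hder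
    · intro n s _
      cases n with
      | zero => exact hasDerivAt_const s x0
      | succ n => exact lin_ode_der A hA x0 n s
    · intro n s hs
      have hs' : |s| ≤ T := by
        have := mem_ball_zero_iff.1 hs
        rw [Real.norm_eq_abs] at this
        exact this.le
      cases n with
      | zero => show ‖(0 : E)‖ ≤ 0; simp
      | succ n =>
        show ‖A s (lin_ode_y A x0 n s)‖ ≤ K * ((K * T) ^ n / (n.factorial : ℝ) * ‖x0‖)
        calc ‖A s (lin_ode_y A x0 n s)‖ ≤ ‖A s‖ * ‖lin_ode_y A x0 n s‖ := (A s).le_opNorm _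
          _ ≤ _ := mul_le_mul (hM' s hs') (hb' n s hs') (norm_nonneg _) hM0


end

end Pool.Agent.T2h22
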