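import Pool.Agent.T2h22.Polar

set_option autoImplicit false

open MeasureTheory Set Filter Topology Metric

namespace Pool.Agent.T2h22

/-- rotated gradient field -/
noncomputable def UU (κ : ℝ) (p q : ℂ → ℝ) (z : ℂ) : ℂ := ⟨-(κ * q z), κ * p z⟩

theorem abs_mul_le'' {a b c d : ℝ} (ha : |a| ≤ c) (hb : |b| ≤ d) : |a * b| ≤ c * d := by
  rw [abs_mul]; exact mul_le_mul ha hb (abs_nonneg _) ((abs_nonneg _).trans ha)

theorem im_div_ev {X : ℂ} {ρ θ : ℝ} (hρ : 0 < ρ) :
    ρ * (X / (ρ * ev θ)).im = X.im * Real.cos θ - X.re * Real.sin θ := by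
  have h1 : (ev θ) * (⟨Real.cos θ, -Real.sin θ⟩ : ℂ) = 1 := by
    apply Complex.ext
    · simp [ev]; nlinarith [Real.cos_sq_add_sin_sq θ]
    · simp [ev]; ring
  have h2 : ev θ ≠ 0 := fun h => by rw [h, zero_mul] at h1; exact zero_ne_one h1
  have h3 : (ρ : ℂ) ≠ 0 := by exact_mod_cast hρ.ne'
  have h4 : X / (ρ * ev θ) = X * (⟨Real.cos θ, -Real.sin θ⟩ : ℂ) / ρ := by
    rw [div_eq_div_iff (mul_ne_zero h3 h2) h3]
    calc X * ρ = X * ρ * (ev θ * (⟨Real.cos θ, -Real.sin θ⟩ : ℂ)) := by rw [h1, mul_one]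
      _ = _ := by ring
  rw [h4, Complex.div_ofReal_im]
  field_simp
  simp
  ring

variable {C κ : ℝ} {Ψ p q : ℂ → ℝ}

/-- The integral over the disc of the angular velocity of a pair with one member fixed. -/
theorem pair_formula (hd : ∀ z ∈ ball (0 : ℂ) 1, HasFDerivAt Ψ (lin (p z) (q z)) z)
    (cp : ContinuousOn p (ball (0 : ℂ) 1)) (cq : ContinuousOn q (ball (0 : ℂ) 1))
    (bp : ∀ z ∈ ball (0 : ℂ) 1, |p z| ≤ C) (bq : ∀ z ∈ ball (0 : ℂ) 1, |q z| ≤ C)
    (bc : ∀ b ∈ sphere (0 : ℂ) 1, Tendsto Ψ (𝓝[ball (0 : ℂ) 1] b) (𝓝 0))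
    {z : ℂ} (hz : z ∈ ball (0 : ℂ) 1) :
    ∫ w in ball (0 : ℂ) 1, ((UU κ p q w - UU κ p q z) / (w - z)).im =
      κ * (Real.pi * (z.re * p z + z.im * q z) - 2 * Real.pi * Ψ z) := by
  have hC : 0 ≤ C := (abs_nonneg _).trans (bp z hz)
  set f : ℂ → ℝ := fun w => ((UU κ p q w - UU κ p q z) / (w - z)).im with hf
  -- the function in polar coordinates
  set D : ℂ → ℝ → ℝ := fun w θ => κ * (p w * Real.cos θ + q w * Real.sin θ) with hD
  set O : Set (ℝ × ℝ) := {x | z + x.1 * ev x.2 ∈ ball (0 : ℂ) 1} with hO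
  have cpos : Continuous fun x : ℝ × ℝ => z + x.1 * ev x.2 :=
    continuous_const.add ((Complex.continuous_ofReal.comp continuous_fst).mul
      (cont_ev.comp continuous_snd))
  have oO : IsOpen O := isOpen_ball.preimage cpos
  set H : ℝ × ℝ → ℝ := O.indicator fun x => D (z + x.1 * ev x.2) x.2 - D z x.2 with hH
  have hmH : Measurable H := by
    have hc : ContinuousOn (fun x : ℝ × ℝ => D (z + x.1 * ev x.2) x.2 - D z x.2) O := by
      have m : MapsTo (fun x : ℝ × ℝ => z + x.1 * ev x.2) O (ball (0 : ℂ) 1) := fun x hx => hx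
      have c1 := cp.comp cpos.continuousOn m
      have c2 := cq.comp cpos.continuousOn m
      have c3 : Continuous fun x : ℝ × ℝ => Real.cos x.2 := by fun_prop
      have c4 : Continuous fun x : ℝ × ℝ => Real.sin x.2 := by fun_prop
      refine ContinuousOn.sub (continuousOn_const.mul ((c1.mul c3.continuousOn).add
        (c2.mul c4.continuousOn))) ?_
      simp only [hD]
      fun_prop
    refine measurable_of_isOpen fun s hs => ?_
    by_cases h0 : (0 : ℝ) ∈ s
    · have : H ⁻¹' s = (O ∩ (fun x : ℝ × ℝ => D (z + x.1 * ev x.2) x.2 - D z x.2) ⁻¹' s) ∪ Oᶜ := by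
        ext x
        by_cases hx : x ∈ O
        · simp only [hH, mem_preimage, indicator_of_mem hx, mem_union, mem_inter_iff, mem_compl_iff,
            hx, true_and, not_true_eq_false, or_false]
        · simp only [hH, mem_preimage, indicator_of_notMem hx, mem_union, mem_inter_iff,
            mem_compl_iff, hx, false_and, not_false_eq_true, or_true, h0]
      rw [this]
      exact (hc.isOpen_inter_preimage oO hs).measurableSet.union oO.measurableSet.compl
    · have : H ⁻¹' s = (O ∩ (fun x : ℝ × ℝ => D (z + x.1 * ev x.2) x.2 - D z x.2) ⁻¹' s) := by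
        ext x
        by_cases hx : x ∈ O
        · simp only [hH, mem_preimage, indicator_of_mem hx, mem_inter_iff, hx, true_and]
        · simp only [hH, mem_preimage, indicator_of_notMem hx, mem_inter_iff, hx, false_and, h0]
      rw [this]
      exact (hc.isOpen_inter_preimage oO hs).measurableSet
  have hDb : ∀ w ∈ ball (0 : ℂ) 1, ∀ θ, |D w θ| ≤ |κ| * (2 * C) := by
    intro w hw θ
    simp only [hD]
    rw [abs_mul]
    refine mul_le_mul_of_nonneg_left ?_ (abs_nonneg _)
    have h1 : |p w * Real.cos θ| ≤ C * 1 := abs_mul_le'' (bp w hw) (Real.abs_cos_le_one θ)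
    have h2 : |q w * Real.sin θ| ≤ C * 1 := abs_mul_le'' (bq w hw) (Real.abs_sin_le_one θ)
    linarith [abs_add_le (p w * Real.cos θ) (q w * Real.sin θ)]
  have hHb : ∀ x, |H x| ≤ |κ| * (4 * C) := by
    intro x
    by_cases hx : x ∈ O
    · simp only [hH, indicator_of_mem hx]
      have h1 := hDb _ hx x.2
      have h2 := hDb _ hz x.2
      linarith [abs_sub (D (z + x.1 * ev x.2) x.2) (D z x.2)]
    · simp only [hH, indicator_of_notMem hx, abs_zero]; positivity
  have hHint : IntegrableOn H (Ioi (0 : ℝ) ×ˢ Ioo (-Real.pi) Real.pi) := by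
    have h1 : IntegrableOn H (Ioo (0 : ℝ) 2 ×ˢ Ioo (-Real.pi) Real.pi) := by
      have hfin : volume (Ioo (0 : ℝ) 2 ×ˢ Ioo (-Real.pi) Real.pi) < ⊤ := by
        rw [Measure.volume_eq_prod, Measure.prod_prod, Real.volume_Ioo, Real.volume_Ioo]
        exact ENNReal.mul_lt_top ENNReal.ofReal_lt_top ENNReal.ofReal_lt_top
      have : IsFiniteMeasure (volume.restrict (Ioo (0 : ℝ) 2 ×ˢ Ioo (-Real.pi) Real.pi)) :=
        ⟨by rw [Measure.restrict_apply_univ]; exact hfin⟩
      exact Integrable.of_bound hmH.aestronglyMeasurable (|κ| * (4 * C))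
        (Eventually.of_forall fun x => hHb x)
    refine h1.of_forall_sdiff_eq_zero (measurableSet_Ioi.prod measurableSet_Ioo) ?_
    rintro ⟨ρ, θ⟩ ⟨hx, hx'⟩
    simp only [hH]
    refine indicator_of_notMem (fun hmem => hx' ?_) _
    refine ⟨⟨hx.1, ?_⟩, hx.2⟩
    have h3 : ‖z + ρ * ev θ‖ < 1 := mem_ball_zero_iff.1 hmem
    have h4 : ‖(ρ : ℂ) * ev θ‖ = ρ := by
      rw [norm_mul, ev_norm, mul_one, Complex.norm_real, Real.norm_of_nonneg (le_of_lt hx.1)]
    have h5 : ‖(ρ : ℂ) * ev θ‖ ≤ ‖z + ρ * ev θ‖ + ‖z‖ := by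
      have := norm_sub_le (z + ρ * ev θ) z
      rwa [add_sub_cancel_left] at this
    have h6 := mem_ball_zero_iff.1 hz
    simp only
    linarith
  -- passage to polar coordinates
  have e1 : ∫ w in ball (0 : ℂ) 1, f w =
      ∫ x in Ioi (0 : ℝ) ×ˢ Ioo (-Real.pi) Real.pi, H x := by
    rw [← integral_indicator measurableSet_ball,
      ← integral_add_left_eq_self _ z, ← Complex.integral_comp_polarCoord_symm, polarCoord_target]
    refine setIntegral_congr_fun (measurableSet_Ioi.prod measurableSet_Ioo) ?_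
    rintro ⟨ρ, θ⟩ hx
    simp only [polar_symm, smul_eq_mul]
    by_cases hmem : z + ρ * ev θ ∈ ball (0 : ℂ) 1
    · have hmem' : (ρ, θ) ∈ O := hmem
      simp only [hH, indicator_of_mem hmem, indicator_of_mem hmem', hf, add_sub_cancel_left]
      rw [im_div_ev hx.1]
      simp only [UU, Complex.sub_im, Complex.sub_re, hD]
      ring
    · have hmem' : (ρ, θ) ∉ O := hmem
      simp only [hH, indicator_of_notMem hmem, indicator_of_notMem hmem', mul_zero]
  -- Fubini
  have e2 : ∫ x in Ioi (0 : ℝ) ×ˢ Ioo (-Real.pi) Real.pi, H x =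
      ∫ θ in Ioo (-Real.pi) Real.pi, ∫ ρ in Ioi (0 : ℝ), H (ρ, θ) := by
    rw [IntegrableOn, Measure.volume_eq_prod, ← Measure.prod_restrict] at hHint
    rw [Measure.volume_eq_prod, ← Measure.prod_restrict, integral_prod_symm _ hHint]
  -- the radial integral
  have e3 : ∀ θ, ∫ ρ in Ioi (0 : ℝ), H (ρ, θ) = -(κ * Ψ z) - RR z θ * D z θ := by
    intro θ
    have hR := RR_pos hz θ
    have h1 : ∫ ρ in Ioi (0 : ℝ), H (ρ, θ) =
        ∫ ρ in (0 : ℝ)..(RR z θ), (D (z + ρ * ev θ) θ - D z θ) := by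
      rw [intervalIntegral.integral_of_le hR.le, integral_Ioc_eq_integral_Ioo,
        ← integral_indicator measurableSet_Ioi, ← integral_indicator measurableSet_Ioo]
      congr 1
      funext ρ
      by_cases hρ : ρ ∈ Ioi (0 : ℝ)
      · by_cases hρ' : ρ < RR z θ
        · have hm : (ρ, θ) ∈ O := (mem_ray hz (le_of_lt hρ) θ).2 hρ'
          rw [indicator_of_mem hρ, indicator_of_mem (show ρ ∈ Ioo 0 (RR z θ) from ⟨hρ, hρ'⟩)]
          simp only [hH, indicator_of_mem hm]
        · have hm : (ρ, θ) ∉ O := fun h => hρ' ((mem_ray hz (le_of_lt hρ) θ).1 h)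
          rw [indicator_of_mem hρ, indicator_of_notMem (fun h => hρ' h.2)]
          simp only [hH, indicator_of_notMem hm]
      · rw [indicator_of_notMem hρ, indicator_of_notMem (fun h => hρ h.1)]
    have hmem : ∀ ρ ∈ Ioo 0 (RR z θ), z + ρ * ev θ ∈ ball (0 : ℂ) 1 := fun ρ hρ =>
      (mem_ray hz hρ.1.le θ).2 hρ.2
    have cray : Continuous fun ρ : ℝ => z + (ρ : ℂ) * ev θ := by fun_prop
    have hcD : ContinuousOn (fun ρ : ℝ => D (z + ρ * ev θ) θ) (Ioo 0 (RR z θ)) := by
      have m : MapsTo (fun ρ : ℝ => z + (ρ : ℂ) * ev θ) (Ioo 0 (RR z θ)) (ball (0 : ℂ) 1) := hmem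
      exact continuousOn_const.mul (((cp.comp cray.continuousOn m).mul continuousOn_const).add
        ((cq.comp cray.continuousOn m).mul continuousOn_const))
    have hiD : IntervalIntegrable (fun ρ : ℝ => D (z + ρ * ev θ) θ) volume 0 (RR z θ) := by
      rw [intervalIntegrable_iff_integrableOn_Ioo_of_le hR.le]
      have : IsFiniteMeasure (volume.restrict (Ioo 0 (RR z θ))) :=
        ⟨by rw [Measure.restrict_apply_univ]; exact measure_Ioo_lt_top⟩
      refine Integrable.of_bound (hcD.aestronglyMeasurable measurableSet_Ioo) (|κ| * (2 * C)) ?_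
      rw [ae_restrict_iff' measurableSet_Ioo]
      exact Eventually.of_forall fun ρ hρ => hDb _ (hmem ρ hρ) θ
    have hFTC : ∫ ρ in (0 : ℝ)..(RR z θ), D (z + ρ * ev θ) θ = 0 - κ * Ψ z := by
      refine intervalIntegral.integral_eq_sub_of_hasDerivAt_of_tendsto
        (f := fun ρ : ℝ => κ * Ψ (z + ρ * ev θ)) hR ?_ hiD ?_ ?_
      · intro ρ hρ
        have h2 : HasDerivAt (fun s : ℝ => z + (s : ℂ) * ev θ) (ev θ) ρ := by
          simpa using ((Complex.ofRealCLM.hasDerivAt (x := ρ)).mul_const (ev θ)).const_add z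
        have h3 := (hd _ (hmem ρ hρ)).comp_hasDerivAt ρ h2
        have h4 := h3.const_mul κ
        simp only [lin_apply] at h4
        exact h4
      · have h2 : Tendsto (fun ρ : ℝ => κ * Ψ (z + ρ * ev θ)) (𝓝 0) (𝓝 (κ * Ψ (z + ((0:ℝ) : ℂ) * ev θ))) := by
          refine Tendsto.const_mul _ ?_
          refine Tendsto.comp (g := Ψ) ?_ (cray.tendsto 0)
          have : z + ((0:ℝ) : ℂ) * ev θ ∈ ball (0 : ℂ) 1 := by simpa using hz
          exact (hd _ this).continuousAt
        simp only [Complex.ofReal_zero, zero_mul, add_zero] at h2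
        exact h2.mono_left nhdsWithin_le_nhds
      · have h2 := bc _ (sphere_ray hz θ)
        have h3 : Tendsto (fun ρ : ℝ => z + (ρ : ℂ) * ev θ) (𝓝[<] (RR z θ))
            (𝓝[ball (0 : ℂ) 1] (z + RR z θ * ev θ)) := by
          rw [tendsto_nhdsWithin_iff]
          refine ⟨(cray.tendsto _).mono_left nhdsWithin_le_nhds, ?_⟩
          filter_upwards [Ioo_mem_nhdsLT hR] with ρ hρ using hmem ρ hρ
        have := (h2.comp h3).const_mul κ
        simpa using this
    rw [h1, intervalIntegral.integral_sub hiD intervalIntegrable_const, hFTC,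
      intervalIntegral.integral_const]
    simp
  rw [e1, e2]
  simp only [e3]
  rw [← integral_Ioc_eq_integral_Ioo, ← intervalIntegral.integral_of_le (by linarith [Real.pi_pos])]
  have c1 : Continuous fun θ => κ * p z * (RR z θ * Real.cos θ) :=
    continuous_const.mul ((cont_RR z).mul Real.continuous_cos)
  have c2 : Continuous fun θ => κ * q z * (RR z θ * Real.sin θ) :=
    continuous_const.mul ((cont_RR z).mul Real.continuous_sin)
  have h0 : ∀ θ, -(κ * Ψ z) - RR z θ * D z θ = -(κ * Ψ z) - (κ * p z * (RR z θ * Real.cos θ) +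
      κ * q z * (RR z θ * Real.sin θ)) := fun θ => by simp only [hD]; ring
  have c3 : Continuous fun θ => κ * p z * (RR z θ * Real.cos θ) + κ * q z * (RR z θ * Real.sin θ) :=
    c1.add c2
  simp only [h0]
  rw [intervalIntegral.integral_sub intervalIntegrable_const (c3.intervalIntegrable _ _),
    intervalIntegral.integral_add (c1.intervalIntegrable _ _) (c2.intervalIntegrable _ _),
    intervalIntegral.integral_const_mul, intervalIntegral.integral_const_mul, int_RR_cos,
    int_RR_sin, intervalIntegral.integral_const]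
  simp only [smul_eq_mul]
  ring

end Pool.Agent.T2h22
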