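import Pool.Agent.T2h22.Transfer

set_option autoImplicit false

open MeasureTheory Set Filter Topology Metric

namespace Pool.Agent.T2h22

/-! ### an explicit test function -/

noncomputable def w0 (z : ℂ) : ℝ := 1 - z.re ^ 2 - z.im ^ 2
noncomputable def χ0 (k : ℝ) (z : ℂ) : ℝ := k * (w0 z) ^ 2
noncomputable def χx (k : ℝ) (z : ℂ) : ℝ := k * (-4 * z.re * w0 z)
noncomputable def χy (k : ℝ) (z : ℂ) : ℝ := k * (-4 * z.im * w0 z)
noncomputable def χxx (k : ℝ) (z : ℂ) : ℝ := k * (-4 * w0 z + 8 * z.re ^ 2)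
noncomputable def χxy (k : ℝ) (z : ℂ) : ℝ := k * (8 * z.re * z.im)
noncomputable def χyy (k : ℝ) (z : ℂ) : ℝ := k * (-4 * w0 z + 8 * z.im ^ 2)

theorem hre (z : ℂ) : HasFDerivAt (fun z : ℂ => z.re) Complex.reCLM z := Complex.reCLM.hasFDerivAt
theorem him (z : ℂ) : HasFDerivAt (fun z : ℂ => z.im) Complex.imCLM z := Complex.imCLM.hasFDerivAt

theorem hasFDerivAt_w0 (z : ℂ) : HasFDerivAt w0 (lin (-2 * z.re) (-2 * z.im)) z := by
  have h1 := (((hasFDerivAt_const (1 : ℝ) z).sub ((hre z).pow 2)).sub ((him z).pow 2))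
  refine h1.congr_fderiv ?_
  ext v
  simp [lin]
  ring

theorem w0_mem {z : ℂ} (hz : z ∈ ball (0 : ℂ) 1) : 0 < w0 z ∧ w0 z ≤ 1 := by
  have h1 := normSq_mk'' z
  have h2 : ‖z‖ < 1 := mem_ball_zero_iff.1 hz
  have h3 : ‖z‖ ^ 2 < 1 := by rw [sq_lt_one_iff₀ (norm_nonneg _)]; exact h2
  constructor
  · rw [w0]; linarith
  · rw [w0]; nlinarith [sq_nonneg z.re, sq_nonneg z.im]

theorem abs_re_le_one {z : ℂ} (hz : z ∈ ball (0 : ℂ) 1) : |z.re| ≤ 1 :=
  (Complex.abs_re_le_norm z).trans (mem_ball_zero_iff.1 hz).le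

theorem abs_im_le_one {z : ℂ} (hz : z ∈ ball (0 : ℂ) 1) : |z.im| ≤ 1 :=
  (Complex.abs_im_le_norm z).trans (mem_ball_zero_iff.1 hz).le

theorem continuous_w0 : Continuous w0 := by unfold w0; fun_prop

theorem chi_c2 (k : ℝ) : C2 (12 * |k|) (χ0 k) (χx k) (χy k) (χxx k) (χxy k) (χyy k) where
  d0 z _ := by
    have h1 := ((hasFDerivAt_w0 z).pow 2).const_mul k
    refine h1.congr_fderiv ?_
    ext v
    simp [lin, χx, χy]
    ring
  d1 z _ := by
    have h1 := ((((hre z).const_mul (-4)).mul (hasFDerivAt_w0 z))).const_mul k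
    refine h1.congr_fderiv ?_
    ext v
    simp [lin, χxx, χxy]
    ring
  d2 z _ := by
    have h1 := ((((him z).const_mul (-4)).mul (hasFDerivAt_w0 z))).const_mul k
    refine h1.congr_fderiv ?_
    ext v
    simp [lin, χyy, χxy]
    ring
  cxx := by
    have := continuous_w0
    unfold χxx; exact Continuous.continuousOn (by fun_prop)
  cyy := by
    have := continuous_w0
    unfold χyy; exact Continuous.continuousOn (by fun_prop)
  bx z hz := by
    rw [χx, abs_mul, mul_comm]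
    refine mul_le_mul_of_nonneg_right ?_ (abs_nonneg _)
    rw [abs_mul, abs_mul, abs_of_pos (w0_mem hz).1]
    have h1 := abs_re_le_one hz
    have h2 := w0_mem hz
    have h3 : |(-4 : ℝ)| = 4 := by norm_num
    rw [h3]
    nlinarith [abs_nonneg z.re]
  by' z hz := by
    rw [χy, abs_mul, mul_comm]
    refine mul_le_mul_of_nonneg_right ?_ (abs_nonneg _)
    rw [abs_mul, abs_mul, abs_of_pos (w0_mem hz).1]
    have h1 := abs_im_le_one hz
    have h2 := w0_mem hz
    have h3 : |(-4 : ℝ)| = 4 := by norm_num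
    rw [h3]
    nlinarith [abs_nonneg z.im]
  bxx z hz := by
    rw [χxx, abs_mul, mul_comm]
    refine mul_le_mul_of_nonneg_right ?_ (abs_nonneg _)
    have h1 := abs_re_le_one hz
    have h2 := w0_mem hz
    have h3 : z.re ^ 2 ≤ 1 := (sq_le_one_iff_abs_le_one _).2 h1
    rw [abs_le]
    constructor <;> nlinarith [sq_nonneg z.re]
  byy z hz := by
    rw [χyy, abs_mul, mul_comm]
    refine mul_le_mul_of_nonneg_right ?_ (abs_nonneg _)
    have h1 := abs_im_le_one hz
    have h2 := w0_mem hz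
    have h3 : z.im ^ 2 ≤ 1 := (sq_le_one_iff_abs_le_one _).2 h1
    rw [abs_le]
    constructor <;> nlinarith [sq_nonneg z.im]
  bc b hb := by
    have h1 : χ0 k b = 0 := by
      have := normSq_mk'' b
      rw [mem_sphere_zero_iff_norm.1 hb] at this
      rw [χ0, w0, show (1 : ℝ) - b.re ^ 2 - b.im ^ 2 = 0 by linarith]; simp
    have h2 : Continuous (χ0 k) := by
      have := continuous_w0
      unfold χ0; fun_prop
    have := (h2.tendsto b).mono_left (nhdsWithin_le_nhds (s := ball (0 : ℂ) 1))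
    rwa [h1] at this

/-- the weighted Laplacian of the test function -/
noncomputable def LL (A B k : ℝ) (z : ℂ) : ℝ := A * χxx k z + B * χyy k z

theorem LL_smul (A B k : ℝ) (z : ℂ) : LL A B k z = k * LL A B 1 z := by
  simp only [LL, χxx, χyy]; ring

theorem LL_mean (A B k : ℝ) : ∫ z in ball (0 : ℂ) 1, LL A B k z = 0 := by
  have c := chi_c2 k
  have i1 : IntegrableOn (χxx k) (ball (0 : ℂ) 1) := integrableOn_ball c.cxx c.bxx
  have i2 : IntegrableOn (χyy k) (ball (0 : ℂ) 1) := integrableOn_ball c.cyy c.byy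
  have hb : ∀ (f : ℂ → ℝ), Continuous f → (∀ b ∈ sphere (0 : ℂ) 1, f b = 0) →
      ∀ b ∈ sphere (0 : ℂ) 1, Tendsto f (𝓝[ball (0 : ℂ) 1] b) (𝓝 0) := fun f hf h0 b hb => by
    have := (hf.tendsto b).mono_left (nhdsWithin_le_nhds (s := ball (0 : ℂ) 1))
    rwa [h0 b hb] at this
  have hw : ∀ b ∈ sphere (0 : ℂ) 1, w0 b = 0 := fun b hb => by
    have := normSq_mk'' b
    rw [mem_sphere_zero_iff_norm.1 hb] at this
    rw [w0]; linarith
  have hc := continuous_w0
  have e1 : ∫ z in ball (0 : ℂ) 1, χxx k z = 0 :=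
    integral_ball_dx one_pos (h := χx k) (fun z hz => dx_of (c.d1 z hz)) i1
      (hb _ (by unfold χx; fun_prop) fun b hb => by rw [χx, hw b hb]; ring)
  have e2 : ∫ z in ball (0 : ℂ) 1, χyy k z = 0 :=
    integral_ball_dy one_pos (h := χy k) (fun z hz => dy_of (c.d2 z hz)) i2
      (hb _ (by unfold χy; fun_prop) fun b hb => by rw [χy, hw b hb]; ring)
  simp only [LL]
  rw [integral_add (i1.const_mul A) (i2.const_mul B), integral_const_mul, integral_const_mul,
    e1, e2]
  ring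

theorem integrableOn_LL (A B k : ℝ) : IntegrableOn (LL A B k) (ball (0 : ℂ) 1) := by
  have c := chi_c2 k
  have i1 : IntegrableOn (χxx k) (ball (0 : ℂ) 1) := integrableOn_ball c.cxx c.bxx
  have i2 : IntegrableOn (χyy k) (ball (0 : ℂ) 1) := integrableOn_ball c.cyy c.byy
  exact (i1.const_mul A).add (i2.const_mul B)

/-- A vanishing Dirichlet integral. -/
theorem eq_zero_of_dirichlet {A B : ℝ} (hA : 0 < A) (hB : 0 < B) {f g : ℂ → ℝ} {C : ℝ}
    (hf : ContinuousOn f (ball (0 : ℂ) 1)) (hg : ContinuousOn g (ball (0 : ℂ) 1))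
    (bf : ∀ z ∈ ball (0 : ℂ) 1, |f z| ≤ C) (bg : ∀ z ∈ ball (0 : ℂ) 1, |g z| ≤ C)
    (h0 : ∫ z in ball (0 : ℂ) 1, (A * (f z * f z) + B * (g z * g z)) = 0) :
    ∀ z ∈ ball (0 : ℂ) 1, f z = 0 ∧ g z = 0 := by
  have hi : IntegrableOn (fun z => A * (f z * f z) + B * (g z * g z)) (ball (0 : ℂ) 1) :=
    ((integrableOn_ball (hf.mul hf) fun z hz => abs_mul_le' (bf z hz) (bf z hz)).const_mul A).add
      ((integrableOn_ball (hg.mul hg) fun z hz => abs_mul_le' (bg z hz) (bg z hz)).const_mul B)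
  have h1 := (setIntegral_eq_zero_iff_of_nonneg_ae (Eventually.of_forall fun z => by
    have := mul_self_nonneg (f z); have := mul_self_nonneg (g z)
    simp only [Pi.zero_apply]; positivity) hi).1 h0
  have h2 : EqOn (fun z => A * (f z * f z) + B * (g z * g z)) (fun _ => 0) (ball (0 : ℂ) 1) :=
    Measure.eqOn_open_of_ae_eq h1 isOpen_ball
      ((continuousOn_const.mul (hf.mul hf)).add (continuousOn_const.mul (hg.mul hg)))
      continuousOn_const
  intro z hz
  have h3 := h2 hz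
  simp only at h3
  have a1 := mul_self_nonneg (f z)
  have a2 := mul_self_nonneg (g z)
  have b1 : f z * f z = 0 := by nlinarith
  have b2 : g z * g z = 0 := by nlinarith
  exact ⟨mul_self_eq_zero.1 b1, mul_self_eq_zero.1 b2⟩

/-- Three stream functions whose weighted Laplacians are in arithmetic progression, with difference
the weighted Laplacian of the test function, do not have the same energy. -/
theorem three_energies {A B : ℝ} (hA : 0 < A) (hB : 0 < B) {k : ℝ} (hk : k ≠ 0)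
    {C0 C1 C2' : ℝ} {F0 F0x F0y F0xx F0xy F0yy F1 F1x F1y F1xx F1xy F1yy
      F2 F2x F2y F2xx F2xy F2yy : ℂ → ℝ}
    (h0 : C2 C0 F0 F0x F0y F0xx F0xy F0yy) (h1 : C2 C1 F1 F1x F1y F1xx F1xy F1yy)
    (h2 : C2 C2' F2 F2x F2y F2xx F2xy F2yy)
    (e1 : ∀ z ∈ ball (0 : ℂ) 1, A * F1xx z + B * F1yy z = A * F0xx z + B * F0yy z + LL A B k z)
    (e2 : ∀ z ∈ ball (0 : ℂ) 1, A * F2xx z + B * F2yy z = A * F0xx z + B * F0yy z - LL A B k z)
    {e : ℝ} (g0 : ∫ z in ball (0 : ℂ) 1, (A * (F0x z) ^ 2 + B * (F0y z) ^ 2) = e)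
    (g1 : ∫ z in ball (0 : ℂ) 1, (A * (F1x z) ^ 2 + B * (F1y z) ^ 2) = e)
    (g2 : ∫ z in ball (0 : ℂ) 1, (A * (F2x z) ^ 2 + B * (F2y z) ^ 2) = e) : False := by
  have c := chi_c2 k
  -- sum
  have hW := (h1.add h2).sub (h0.add h0)
  have gW := hW.green hW A B
  have zW : ∫ z in ball (0 : ℂ) 1, (F1 z + F2 z - (F0 z + F0 z)) *
      (A * (F1xx z + F2xx z - (F0xx z + F0xx z)) + B * (F1yy z + F2yy z - (F0yy z + F0yy z))) = 0 := by
    rw [← integral_zero ℂ ℝ (μ := volume.restrict (ball (0 : ℂ) 1))]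
    refine setIntegral_congr_fun measurableSet_ball fun z hz => ?_
    have a := e1 z hz
    have b := e2 z hz
    have : A * (F1xx z + F2xx z - (F0xx z + F0xx z)) + B * (F1yy z + F2yy z - (F0yy z + F0yy z)) = 0 := by
      linear_combination a + b
    rw [this, mul_zero]
  rw [zW, neg_zero] at gW
  have rW := eq_zero_of_dirichlet hA hB hW.contx hW.conty hW.bx hW.by' gW
  -- difference
  have hU := (h1.sub h2).sub (c.add c)
  have gU := hU.green hU A B
  have zU : ∫ z in ball (0 : ℂ) 1, (F1 z - F2 z - (χ0 k z + χ0 k z)) *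
      (A * (F1xx z - F2xx z - (χxx k z + χxx k z)) + B * (F1yy z - F2yy z - (χyy k z + χyy k z))) = 0 := by
    rw [← integral_zero ℂ ℝ (μ := volume.restrict (ball (0 : ℂ) 1))]
    refine setIntegral_congr_fun measurableSet_ball fun z hz => ?_
    have a := e1 z hz
    have b := e2 z hz
    rw [LL] at a b
    have : A * (F1xx z - F2xx z - (χxx k z + χxx k z)) + B * (F1yy z - F2yy z - (χyy k z + χyy k z)) = 0 := by
      linear_combination a - b
    rw [this, mul_zero]
  rw [zU, neg_zero] at gU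
  have rU := eq_zero_of_dirichlet hA hB hU.contx hU.conty hU.bx hU.by' gU
  -- the energies
  have i : ∀ {f g : ℂ → ℝ} {C : ℝ}, ContinuousOn f (ball (0 : ℂ) 1) → ContinuousOn g (ball (0 : ℂ) 1) →
      (∀ z ∈ ball (0 : ℂ) 1, |f z| ≤ C) → (∀ z ∈ ball (0 : ℂ) 1, |g z| ≤ C) →
      IntegrableOn (fun z => A * (f z) ^ 2 + B * (g z) ^ 2) (ball (0 : ℂ) 1) := by
    intro f g C cf cg bf bg
    simp only [sq]
    exact ((integrableOn_ball (cf.mul cf) fun z hz => abs_mul_le' (bf z hz) (bf z hz)).const_mul A).add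
      ((integrableOn_ball (cg.mul cg) fun z hz => abs_mul_le' (bg z hz) (bg z hz)).const_mul B)
  have i0 := i h0.contx h0.conty h0.bx h0.by'
  have i1 := i h1.contx h1.conty h1.bx h1.by'
  have i2 := i h2.contx h2.conty h2.bx h2.by'
  have hs : ∫ z in ball (0 : ℂ) 1, (A * (χx k z * χx k z) + B * (χy k z * χy k z)) = 0 := by
    have a1 : ∫ z in ball (0 : ℂ) 1, (((A * (F1x z) ^ 2 + B * (F1y z) ^ 2) +
        (A * (F2x z) ^ 2 + B * (F2y z) ^ 2)) - 2 * (A * (F0x z) ^ 2 + B * (F0y z) ^ 2)) = 0 := by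
      have t1 := integral_sub (i1.add i2) (i0.const_mul 2)
      have t2 := integral_add i1 i2
      simp only [Pi.add_apply] at t1
      rw [t1, t2, integral_const_mul, g0, g1, g2]
      ring
    have a2 : ∫ z in ball (0 : ℂ) 1, (((A * (F1x z) ^ 2 + B * (F1y z) ^ 2) +
        (A * (F2x z) ^ 2 + B * (F2y z) ^ 2)) - 2 * (A * (F0x z) ^ 2 + B * (F0y z) ^ 2)) =
        ∫ z in ball (0 : ℂ) 1, 2 * (A * (χx k z * χx k z) + B * (χy k z * χy k z)) := by
      refine setIntegral_congr_fun measurableSet_ball fun z hz => ?_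
      obtain ⟨p1, p2⟩ := rW z hz
      obtain ⟨q1, q2⟩ := rU z hz
      have s1 : F1x z = F0x z + χx k z := by linarith
      have s2 : F2x z = F0x z - χx k z := by linarith
      have s3 : F1y z = F0y z + χy k z := by linarith
      have s4 : F2y z = F0y z - χy k z := by linarith
      rw [s1, s2, s3, s4]
      ring
    rw [a2, integral_const_mul] at a1
    linarith
  have hz := eq_zero_of_dirichlet hA hB c.contx c.conty c.bx c.by' hs (1 / 2 : ℝ)
    (by rw [mem_ball_zero_iff, Complex.norm_real]; norm_num)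
  have := hz.1
  rw [χx, w0, Complex.ofReal_re, Complex.ofReal_im] at this
  apply hk
  nlinarith

end Pool.Agent.T2h22
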