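import Pool.Agent.T2h22.Green

set_option autoImplicit false

open MeasureTheory Set Filter Topology Metric

namespace Pool.Agent.T2h22

/-- unit vector of angle `θ` -/
noncomputable def ev (θ : ℝ) : ℂ := ⟨Real.cos θ, Real.sin θ⟩

theorem ev_norm (θ : ℝ) : ‖ev θ‖ = 1 := by
  have h : ‖ev θ‖ ^ 2 = 1 := by
    rw [ev, normSq_mk', Real.cos_sq_add_sin_sq]
  have h0 := norm_nonneg (ev θ)
  nlinarith

theorem cont_ev : Continuous ev := by
  have : ev = fun θ : ℝ => (Real.cos θ : ℂ) + (Real.sin θ : ℂ) * Complex.I := by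
    funext θ; apply Complex.ext <;> simp [ev, Complex.cos_ofReal_re, Complex.sin_ofReal_re]
  rw [this]; fun_prop

theorem polar_symm (p : ℝ × ℝ) : Complex.polarCoord.symm p = (p.1 : ℂ) * ev p.2 := by
  rw [Complex.polarCoord_symm_apply]
  congr 1
  apply Complex.ext <;> simp [ev, Complex.cos_ofReal_re, Complex.sin_ofReal_re]

/-- the quantity `z · e(θ)` -/
noncomputable def bb (z : ℂ) (θ : ℝ) : ℝ := z.re * Real.cos θ + z.im * Real.sin θ

noncomputable def SS (z : ℂ) (θ : ℝ) : ℝ := √(bb z θ ^ 2 + (1 - ‖z‖ ^ 2))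

/-- distance to the unit circle in direction `θ` -/
noncomputable def RR (z : ℂ) (θ : ℝ) : ℝ := -bb z θ + SS z θ

theorem cont_bb (z : ℂ) : Continuous (bb z) := by unfold bb; fun_prop
theorem cont_SS (z : ℂ) : Continuous (SS z) := by
  unfold SS; exact Real.continuous_sqrt.comp (((cont_bb z).pow 2).add continuous_const)
theorem cont_RR (z : ℂ) : Continuous (RR z) := by
  unfold RR; exact (cont_bb z).neg.add (cont_SS z)

theorem norm_sq_add (z : ℂ) (ρ θ : ℝ) :
    ‖z + ρ * ev θ‖ ^ 2 = ‖z‖ ^ 2 + 2 * ρ * bb z θ + ρ ^ 2 := by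
  have h1 := normSq_mk' (z + ρ * ev θ).re (z + ρ * ev θ).im
  have h2 := normSq_mk' z.re z.im
  have e1 : (⟨(z + ρ * ev θ).re, (z + ρ * ev θ).im⟩ : ℂ) = z + ρ * ev θ := rfl
  have e2 : (⟨z.re, z.im⟩ : ℂ) = z := rfl
  rw [e1] at h1
  rw [e2] at h2
  rw [h1, h2]
  simp only [ev, Complex.add_re, Complex.add_im, Complex.mul_re, Complex.mul_im, Complex.ofReal_re,
    Complex.ofReal_im, zero_mul, sub_zero, add_zero, bb]
  nlinarith [Real.cos_sq_add_sin_sq θ]

theorem RR_pos {z : ℂ} (hz : z ∈ ball (0 : ℂ) 1) (θ : ℝ) : 0 < RR z θ := by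
  have h1 : 0 < 1 - ‖z‖ ^ 2 := by
    have := mem_ball_zero_iff.1 hz
    nlinarith [norm_nonneg z]
  have : |bb z θ| < SS z θ := by
    rw [SS, ← Real.sqrt_sq_eq_abs]
    exact Real.sqrt_lt_sqrt (sq_nonneg _) (by linarith)
  rw [RR]
  linarith [le_abs_self (bb z θ)]

theorem mem_ray {z : ℂ} (hz : z ∈ ball (0 : ℂ) 1) {ρ : ℝ} (hρ : 0 ≤ ρ) (θ : ℝ) :
    z + ρ * ev θ ∈ ball (0 : ℂ) 1 ↔ ρ < RR z θ := by
  have h1 : 0 < 1 - ‖z‖ ^ 2 := by
    have := mem_ball_zero_iff.1 hz
    nlinarith [norm_nonneg z]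
  have hS : SS z θ ^ 2 = bb z θ ^ 2 + (1 - ‖z‖ ^ 2) := Real.sq_sqrt (by positivity)
  have hS0 : 0 ≤ SS z θ := Real.sqrt_nonneg _
  have hbS : |bb z θ| < SS z θ := by
    rw [SS, ← Real.sqrt_sq_eq_abs]
    exact Real.sqrt_lt_sqrt (sq_nonneg _) (by linarith)
  rw [mem_ball_zero_iff, ← sq_lt_sq₀ (norm_nonneg _) zero_le_one, norm_sq_add, one_pow, RR]
  have hb1 := neg_abs_le (bb z θ)
  constructor
  · intro h
    have h2 : (ρ + bb z θ) ^ 2 < SS z θ ^ 2 := by rw [hS]; nlinarith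
    have := abs_lt_of_sq_lt_sq h2 hS0
    linarith [(abs_lt.1 this).2]
  · intro h
    have h2 : (ρ + bb z θ) ^ 2 < SS z θ ^ 2 := by
      apply sq_lt_sq'
      · linarith
      · linarith
    rw [hS] at h2
    nlinarith

theorem sphere_ray {z : ℂ} (hz : z ∈ ball (0 : ℂ) 1) (θ : ℝ) :
    z + RR z θ * ev θ ∈ sphere (0 : ℂ) 1 := by
  have h1 : 0 < 1 - ‖z‖ ^ 2 := by
    have := mem_ball_zero_iff.1 hz
    nlinarith [norm_nonneg z]
  have hS : SS z θ ^ 2 = bb z θ ^ 2 + (1 - ‖z‖ ^ 2) := Real.sq_sqrt (by positivity)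
  rw [mem_sphere_zero_iff_norm]
  have : ‖z + RR z θ * ev θ‖ ^ 2 = 1 := by
    rw [norm_sq_add, RR]
    nlinarith
  nlinarith [norm_nonneg (z + RR z θ * ev θ)]

/-- antiperiodic functions integrate to zero -/
theorem integral_antiperiodic {f : ℝ → ℝ} (hc : Continuous f) (hf : ∀ θ, f (θ + Real.pi) = -f θ) :
    ∫ θ in (-Real.pi)..Real.pi, f θ = 0 := by
  rw [← intervalIntegral.integral_add_adjacent_intervals (b := 0)
    (hc.intervalIntegrable _ _) (hc.intervalIntegrable _ _)]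
  have h1 : ∫ θ in (0 : ℝ)..Real.pi, f θ = ∫ θ in (-Real.pi)..0, f (θ + Real.pi) := by
    rw [intervalIntegral.integral_comp_add_right]
    simp
  rw [h1]
  simp only [hf]
  rw [intervalIntegral.integral_neg]
  ring

theorem bb_add_pi (z : ℂ) (θ : ℝ) : bb z (θ + Real.pi) = -bb z θ := by
  simp [bb, Real.cos_add_pi, Real.sin_add_pi]; ring

theorem SS_add_pi (z : ℂ) (θ : ℝ) : SS z (θ + Real.pi) = SS z θ := by
  simp [SS, bb_add_pi]

theorem int_RR_cos (z : ℂ) : ∫ θ in (-Real.pi)..Real.pi, RR z θ * Real.cos θ = -(Real.pi * z.re) := by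
  have h0 : ∀ θ, RR z θ * Real.cos θ = -(z.re * Real.cos θ ^ 2) - z.im * (Real.sin θ * Real.cos θ) +
      SS z θ * Real.cos θ := fun θ => by simp only [RR, bb]; ring
  simp only [h0]
  have c1 : Continuous fun θ : ℝ => -(z.re * Real.cos θ ^ 2) := by fun_prop
  have c2 : Continuous fun θ : ℝ => z.im * (Real.sin θ * Real.cos θ) := by fun_prop
  have c3 : Continuous fun θ : ℝ => SS z θ * Real.cos θ := (cont_SS z).mul Real.continuous_cos
  have c4 : Continuous fun θ : ℝ => -(z.re * Real.cos θ ^ 2) - z.im * (Real.sin θ * Real.cos θ) :=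
    c1.sub c2
  rw [intervalIntegral.integral_add (c4.intervalIntegrable _ _) (c3.intervalIntegrable _ _),
    intervalIntegral.integral_sub (c1.intervalIntegrable _ _) (c2.intervalIntegrable _ _),
    integral_antiperiodic c3 (fun θ => by rw [SS_add_pi, Real.cos_add_pi]; ring)]
  rw [intervalIntegral.integral_neg, intervalIntegral.integral_const_mul,
    intervalIntegral.integral_const_mul, integral_cos_sq, integral_sin_mul_cos₁]
  simp
  ring

theorem int_RR_sin (z : ℂ) : ∫ θ in (-Real.pi)..Real.pi, RR z θ * Real.sin θ = -(Real.pi * z.im) := by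
  have h0 : ∀ θ, RR z θ * Real.sin θ = -(z.im * Real.sin θ ^ 2) - z.re * (Real.sin θ * Real.cos θ) +
      SS z θ * Real.sin θ := fun θ => by simp only [RR, bb]; ring
  simp only [h0]
  have c1 : Continuous fun θ : ℝ => -(z.im * Real.sin θ ^ 2) := by fun_prop
  have c2 : Continuous fun θ : ℝ => z.re * (Real.sin θ * Real.cos θ) := by fun_prop
  have c3 : Continuous fun θ : ℝ => SS z θ * Real.sin θ := (cont_SS z).mul Real.continuous_sin
  have c4 : Continuous fun θ : ℝ => -(z.im * Real.sin θ ^ 2) - z.re * (Real.sin θ * Real.cos θ) :=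
    c1.sub c2
  rw [intervalIntegral.integral_add (c4.intervalIntegrable _ _) (c3.intervalIntegrable _ _),
    intervalIntegral.integral_sub (c1.intervalIntegrable _ _) (c2.intervalIntegrable _ _),
    integral_antiperiodic c3 (fun θ => by rw [SS_add_pi, Real.sin_add_pi]; ring)]
  rw [intervalIntegral.integral_neg, intervalIntegral.integral_const_mul,
    intervalIntegral.integral_const_mul, integral_sin_sq, integral_sin_mul_cos₁]
  simp
  ring

end Pool.Agent.T2h22
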