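import Pool.Agent.T2h22.Profile1
import Pool.Agent.T2h22.Assemble
import Pool.Agent.T2h22.Defs3

set_option autoImplicit false

open MeasureTheory Set Filter Topology Metric

namespace Pool.Agent.T2h22

section
variable {α : ℝ} {r t : ℕ → ℝ} {x : ℕ → ℂ}

theorem prof1_bd (hα : 0 < α) (hα1 : α < 1) (y : ℂ) : ‖prof1 α y‖ ≤ 8 := by
  rw [prof1, innerSL_apply_norm]; exact vec1_bd hα hα1 y

theorem pots_term_bd (hα : 0 < α) (hα1 : α < 1) (hr0 : ∀ j, 0 < r j) (hr1 : ∀ j, r j ≤ 1)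
    (hrh : ∀ j, (r j) ^ α ≤ (1 / 2) ^ (j + 1)) (ht : ∀ j, |t j| ≤ 1) (z : ℂ) (i : ℕ) :
    ‖t i * ((r i) ^ (1 + α) * pot1 α ((z - x i) / r i))‖ ≤ (1 / 2) ^ i := by
  have hp := hr0 i
  have e : (r i) ^ (1 + α) = (r i) ^ α * r i := by rw [add_comm, Real.rpow_add_one hp.ne']
  have h1 : (r i) ^ (1 + α) ≤ (1 / 2) ^ (i + 1) := by
    rw [e]
    exact (mul_le_of_le_one_right (by positivity) (hr1 i)).trans (hrh i)
  rw [norm_mul, norm_mul, Real.norm_eq_abs, Real.norm_eq_abs, Real.norm_eq_abs,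
    abs_of_nonneg (by positivity : 0 ≤ (r i) ^ (1 + α))]
  calc |t i| * ((r i) ^ (1 + α) * |pot1 α ((z - x i) / r i)|) ≤ 1 * ((1 / 2) ^ (i + 1) * 2) := by
        refine mul_le_mul (ht i) ?_ (by positivity) zero_le_one
        exact mul_le_mul h1 (pot1_bd hα hα1 _) (abs_nonneg _) (by positivity)
    _ = _ := by ring

theorem pots_bd (hα : 0 < α) (hα1 : α < 1) (hr0 : ∀ j, 0 < r j) (hr1 : ∀ j, r j ≤ 1)
    (hrh : ∀ j, (r j) ^ α ≤ (1 / 2) ^ (j + 1)) (ht : ∀ j, |t j| ≤ 1) (z : ℂ) :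
    ‖pots α r x t z‖ ≤ 2 :=
  tsum_of_norm_bounded hasSum_geometric_two (pots_term_bd hα hα1 hr0 hr1 hrh ht z)

theorem hasFDerivAt_pots (hα : 0 < α) (hα1 : α < 1) (hr0 : ∀ j, 0 < r j) (hr1 : ∀ j, r j ≤ 1)
    (hrh : ∀ j, (r j) ^ α ≤ (1 / 2) ^ (j + 1)) (ht : ∀ j, |t j| ≤ 1) (z : ℂ) :
    HasFDerivAt (pots α r x t) (cusps α (prof1 α) r x t z) z := by
  have hu : Summable fun i : ℕ => (8 : ℝ) * (1 / 2) * (1 / 2) ^ i :=
    summable_geometric_two.mul_left _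
  exact hasFDerivAt_tsum hu (fun i z => pots_term hα hα1 (hr0 i) (x i) z)
    (fun i z => cusps_term_le (prof1_bd hα hα1) hr0 hrh ht z i)
    (Summable.of_norm_bounded summable_geometric_two
      (pots_term_bd hα hα1 hr0 hr1 hrh ht (0 : ℂ))) z

end

namespace FlowData

variable {Ω : Set ℂ} {u : ℝ → ℂ → ℂ} {Du : ℝ → ℂ → (ℂ →L[ℝ] ℂ)} {φ : ℝ → ℂ → ℂ}
  (h : FlowData Ω u Du φ)

include h

/-- When the gradient of the velocity is Lipschitz, so is the derivative of the flow. -/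
theorem dphi_lip {x : ℂ} (hx : x ∈ Ω) {T L2 : ℝ} (hT : 0 ≤ T) (hL20 : 0 ≤ L2)
    (hL2 : ∀ s ∈ Icc 0 T, ∀ z ∈ Ω, ∀ w ∈ Ω, ‖Du s z - Du s w‖ ≤ L2 * ‖z - w‖) :
    ∃ C : ℝ, 0 ≤ C ∧ ∀ y ∈ Ω, ∀ t ∈ Icc 0 T,
      ‖fderiv ℝ (φ t) y - fderiv ℝ (φ t) x‖ ≤ C * ‖y - x‖ := by
  obtain ⟨L, hL0, hL⟩ := h.bD T
  set K : ℝ := L + 1 with hK
  have hK0 : 0 < K := by linarith
  have hKL : ∀ s ∈ Icc 0 T, ∀ z ∈ Ω, ‖Du s z‖ ≤ K := fun s hs z hz =>
    (hL s hs z hz).trans (by linarith)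
  obtain ⟨B, hB⟩ := (isCompact_Icc (a := (0:ℝ)) (b := T)).exists_bound_of_continuousOn
    ((h.dphi_contt hx).mono Icc_subset_Ici_self)
  have hB0 : 0 ≤ B := (norm_nonneg _).trans (hB 0 ⟨le_rfl, hT⟩)
  set E : ℝ := Real.exp (K * T) with hE
  have hE0 : 0 < E := Real.exp_pos _
  refine ⟨L2 * E * B / K * E, by positivity, fun y hyΩ t ht => ?_⟩
  have hdist : ∀ s ∈ Icc 0 T, ‖φ s y - φ s x‖ ≤ E * ‖y - x‖ := by
    intro s hs
    have h1 := h.lip hK0.le hKL hyΩ hx hs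
    have h2 : Real.exp (K * s) ≤ Real.exp (K * T) :=
      Real.exp_le_exp.2 (mul_le_mul_of_nonneg_left hs.2 hK0.le)
    exact h1.trans (mul_le_mul_of_nonneg_right h2 (norm_nonneg _))
  have hgr := norm_le_gronwallBound_of_norm_deriv_right_le (δ := 0) (K := K)
    (ε := L2 * (E * ‖y - x‖) * B) (a := 0) (b := T)
    (f := fun s => fderiv ℝ (φ s) y - fderiv ℝ (φ s) x)
    (f' := fun s => (Du s (φ s y)).comp (fderiv ℝ (φ s) y) - (Du s (φ s x)).comp (fderiv ℝ (φ s) x))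
    (((h.dphi_contt hyΩ).mono Icc_subset_Ici_self).sub ((h.dphi_contt hx).mono Icc_subset_Ici_self))
    (fun s hs => (((h.dphi_ode hyΩ hs.1).mono (Ici_subset_Ici.2 hs.1)).sub
      ((h.dphi_ode hx hs.1).mono (Ici_subset_Ici.2 hs.1))))
    (by simp only [h.dphi_zero hyΩ, h.dphi_zero hx, sub_self, norm_zero, le_refl])
    (by
      intro s hs
      have hs' := Ico_subset_Icc_self hs
      have e : (Du s (φ s y)).comp (fderiv ℝ (φ s) y) - (Du s (φ s x)).comp (fderiv ℝ (φ s) x) =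
          (Du s (φ s y)).comp (fderiv ℝ (φ s) y - fderiv ℝ (φ s) x) +
          (Du s (φ s y) - Du s (φ s x)).comp (fderiv ℝ (φ s) x) := by
        ext v; simp
      rw [e]
      refine (norm_add_le _ _).trans (add_le_add ?_ ?_)
      · refine (ContinuousLinearMap.opNorm_comp_le _ _).trans ?_
        exact mul_le_mul_of_nonneg_right (hKL s hs' _ (h.mem s hs.1 y hyΩ)) (norm_nonneg _)
      · refine (ContinuousLinearMap.opNorm_comp_le _ _).trans ?_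
        have h1 := hL2 s hs' _ (h.mem s hs.1 y hyΩ) _ (h.mem s hs.1 x hx)
        have h2 := hB s hs'
        refine mul_le_mul (h1.trans ?_) h2 (norm_nonneg _) (by positivity)
        exact mul_le_mul_of_nonneg_left (hdist s hs') hL20) t ht
  rw [gronwallBound_of_K_ne_0 hK0.ne'] at hgr
  simp only [zero_mul, zero_add, sub_zero] at hgr
  refine hgr.trans ?_
  have h5 : L2 * (E * ‖y - x‖) * B / K * (Real.exp (K * t) - 1) ≤
      L2 * (E * ‖y - x‖) * B / K * E := by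
    refine mul_le_mul_of_nonneg_left ?_ (by positivity)
    have : Real.exp (K * t) ≤ Real.exp (K * T) :=
      Real.exp_le_exp.2 (mul_le_mul_of_nonneg_left ht.2 hK0.le)
    linarith
  refine h5.trans (le_of_eq ?_)
  ring

end FlowData


theorem DU_sub (κ a b d a' b' d' : ℝ) : DU κ a b d - DU κ a' b' d' = DU κ (a - a') (b - b') (d - d') := by
  simp only [DU]
  ext v
  simp
  ring

namespace IsEulerSolution3

variable {M : Set ℂ} {ω ψ : ℝ → ℂ → ℝ} {Φ : ℝ → ℂ → ℂ} (h : IsEulerSolution3 M ω ψ Φ)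
include h

theorem diff_D2 (hM : IsOpen M) {t : ℝ} (ht : 0 ≤ t) {z : ℂ} (hz : z ∈ M) :
    DifferentiableAt ℝ (fderiv ℝ (fderiv ℝ (ψ t))) z := by
  have h1 : ContDiffAt ℝ 2 (fderiv ℝ (ψ t)) z :=
    ((h.smooth3 t ht).contDiffAt (hM.mem_nhds hz)).fderiv_right (by norm_num)
  have h2 : ContDiffAt ℝ 1 (fderiv ℝ (fderiv ℝ (ψ t))) z := h1.fderiv_right (by norm_num)
  exact h2.differentiableAt (by norm_num)

theorem diff_ω (hM : IsOpen M) {t : ℝ} (ht : 0 ≤ t) {z : ℂ} (hz : z ∈ M) :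
    DifferentiableAt ℝ (ω t) z := by
  have h1 := h.diff_D2 hM ht hz
  have h2 : ∀ v w : ℂ, DifferentiableAt ℝ (fun z => D2 (ψ t) z v w) z := fun v w =>
    (h1.clm_apply (differentiableAt_const v)).clm_apply (differentiableAt_const w)
  refine ((h2 1 1).add (h2 Complex.I Complex.I)).congr_of_eventuallyEq ?_
  filter_upwards [hM.mem_nhds hz] with w hw
  rw [← h.poisson t ht w hw, laplacian_eq_D2]
  rfl

theorem lipDu (T : ℝ) : ∃ L2 : ℝ, 0 ≤ L2 ∧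
    ∀ s ∈ Icc 0 T, ∀ z ∈ M, ∀ w ∈ M,
      ‖DU 1 (D2 (ψ s) z 1 1) (D2 (ψ s) z 1 Complex.I) (D2 (ψ s) z Complex.I Complex.I) -
        DU 1 (D2 (ψ s) w 1 1) (D2 (ψ s) w 1 Complex.I) (D2 (ψ s) w Complex.I Complex.I)‖ ≤
        L2 * ‖z - w‖ := by
  obtain ⟨C, hC⟩ := h.lip2 T
  refine ⟨max C 0 * (‖E1‖ + ‖E2‖ + ‖E3‖ + ‖E4‖), by positivity, fun s hs z hz w hw => ?_⟩
  have h1 : ‖fderiv ℝ (fderiv ℝ (ψ s)) z - fderiv ℝ (fderiv ℝ (ψ s)) w‖ ≤ max C 0 * ‖z - w‖ :=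
    (hC s hs z hz w hw).trans (mul_le_mul_of_nonneg_right (le_max_left _ _) (norm_nonneg _))
  have h2 : ∀ v u : ℂ, ‖v‖ = 1 → ‖u‖ = 1 → |D2 (ψ s) z v u - D2 (ψ s) w v u| ≤ max C 0 * ‖z - w‖ := by
    intro v u hv hu
    have h3 := (fderiv ℝ (fderiv ℝ (ψ s)) z - fderiv ℝ (fderiv ℝ (ψ s)) w).le_opNorm₂ v u
    rw [hv, hu, mul_one, mul_one] at h3
    exact h3.trans h1
  rw [DU_sub]
  refine (DU_norm (h2 1 1 (by simp) (by simp)) (h2 1 Complex.I (by simp) (by simp))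
    (h2 Complex.I Complex.I (by simp) (by simp))).trans (le_of_eq ?_)
  rw [abs_one]; ring

end IsEulerSolution3

end Pool.Agent.T2h22
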