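import Pool.Agent.T2h22.Profile

set_option autoImplicit false

open Set Filter Topology Metric

namespace Pool.Agent.T2h22

/-- The vector profile: the gradient of a radial function behaving like `|y| ^ (1 + α)`. -/
noncomputable def vec1 (α : ℝ) (y : ℂ) : ℂ := ((1 + α) * max 0 (‖y‖ ^ (α - 1) - 1)) • y

theorem vec1_zero (α : ℝ) : vec1 α 0 = 0 := by simp [vec1]

theorem vec1_supp {α : ℝ} (hα1 : α < 1) (y : ℂ) (hy : 1 ≤ ‖y‖) : vec1 α y = 0 := by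
  have : ‖y‖ ^ (α - 1) ≤ 1 := Real.rpow_le_one_of_one_le_of_nonpos hy (by linarith)
  rw [vec1, max_eq_left (by linarith)]; simp

theorem vec1_in {α : ℝ} (hα1 : α < 1) {y : ℂ} (h0 : y ≠ 0) (hy : ‖y‖ ≤ 1) :
    vec1 α y = (1 + α) • ((‖y‖ ^ (α - 1) - 1) • y) := by
  have h1 : 1 ≤ ‖y‖ ^ (α - 1) :=
    Real.one_le_rpow_of_pos_of_le_one_of_nonpos (norm_pos_iff.2 h0) hy (by linarith)
  rw [vec1, max_eq_right (by linarith), smul_smul]

theorem norm_vec1_in {α : ℝ} (hα : 0 < α) (hα1 : α < 1) {y : ℂ} (h0 : y ≠ 0) (hy : ‖y‖ ≤ 1) :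
    ‖vec1 α y‖ = (1 + α) * (‖y‖ ^ α - ‖y‖) := by
  have hp : 0 < ‖y‖ := norm_pos_iff.2 h0
  have h1 : 1 ≤ ‖y‖ ^ (α - 1) :=
    Real.one_le_rpow_of_pos_of_le_one_of_nonpos hp hy (by linarith)
  rw [vec1_in hα1 h0 hy, norm_smul, norm_smul, Real.norm_of_nonneg (by linarith),
    Real.norm_of_nonneg (by linarith)]
  have : ‖y‖ ^ α = ‖y‖ ^ (α - 1) * ‖y‖ := by rw [← Real.rpow_add_one hp.ne', sub_add_cancel]
  rw [this]; ring

/-- mixed estimate: one point inside, one outside. -/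
theorem vec1_mixed {α : ℝ} (hα : 0 < α) (hα1 : α < 1) {y w : ℂ} (hw : ‖w‖ ≤ 1) (hy : 1 ≤ ‖y‖) :
    ‖vec1 α y - vec1 α w‖ ≤ 2 * (1 - ‖w‖) ∧ 1 - ‖w‖ ≤ ‖y - w‖ := by
  constructor
  · rw [vec1_supp hα1 y hy, zero_sub, norm_neg]
    rcases eq_or_ne w 0 with rfl | h0
    · rw [vec1_zero]; simp
    rw [norm_vec1_in hα hα1 h0 hw]
    have h1 : ‖w‖ ^ α ≤ 1 := Real.rpow_le_one (norm_nonneg _) hw hα.le
    have h2 : 0 ≤ 1 - ‖w‖ := by linarith
    nlinarith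
  · have := norm_sub_norm_le y w
    linarith

/-- both points inside, the second one closer to the origin. -/
theorem vec1_inside {α : ℝ} (hα : 0 < α) (hα1 : α < 1) {y w : ℂ} (h0 : y ≠ 0) (hy : ‖y‖ ≤ 1)
    (hwy : ‖w‖ ≤ ‖y‖) : ‖vec1 α y - vec1 α w‖ ≤ 4 * ‖y‖ ^ (α - 1) * ‖y - w‖ := by
  have hp : 0 < ‖y‖ := norm_pos_iff.2 h0
  have h1 : 1 ≤ ‖y‖ ^ (α - 1) :=
    Real.one_le_rpow_of_pos_of_le_one_of_nonpos hp hy (by linarith)
  have hpα : 0 < ‖y‖ ^ (α - 1) := by linarith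
  rcases eq_or_ne w 0 with rfl | hw0
  · rw [vec1_zero, sub_zero, sub_zero, norm_vec1_in hα hα1 h0 hy]
    have e : ‖y‖ ^ α = ‖y‖ ^ (α - 1) * ‖y‖ := by rw [← Real.rpow_add_one hp.ne', sub_add_cancel]
    have h2 : 0 ≤ ‖y‖ ^ (α - 1) * ‖y‖ := by positivity
    rw [e]
    nlinarith
  have hwp : 0 < ‖w‖ := norm_pos_iff.2 hw0
  have hw1 : ‖w‖ ≤ 1 := hwy.trans hy
  have e : vec1 α y - vec1 α w = (1 + α) • ((‖y‖ ^ (α - 1) - 1) • (y - w) +
      (‖y‖ ^ (α - 1) - ‖w‖ ^ (α - 1)) • w) := by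
    rw [vec1_in hα1 h0 hy, vec1_in hα1 hw0 hw1, ← smul_sub]
    congr 1
    simp only [smul_sub, sub_smul]
    abel
  have h2 : ‖y‖ ^ (α - 1) ≤ ‖w‖ ^ (α - 1) := Real.rpow_le_rpow_of_nonpos hwp hwy (by linarith)
  have h3 : ‖(‖y‖ ^ (α - 1) - ‖w‖ ^ (α - 1)) • w‖ = (‖w‖ ^ (α - 1) - ‖y‖ ^ (α - 1)) * ‖w‖ := by
    rw [norm_smul, Real.norm_eq_abs, abs_of_nonpos (by linarith)]; ring
  -- the key scalar inequality
  have h4 : (‖w‖ ^ (α - 1) - ‖y‖ ^ (α - 1)) * ‖w‖ ≤ ‖y‖ ^ (α - 1) * (‖y‖ - ‖w‖) := by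
    have e1 : ‖w‖ ^ (α - 1) * ‖w‖ = ‖w‖ ^ α := by
      rw [← Real.rpow_add_one hwp.ne', sub_add_cancel]
    have e2 : ‖y‖ ^ (α - 1) * ‖y‖ = ‖y‖ ^ α := by
      rw [← Real.rpow_add_one hp.ne', sub_add_cancel]
    have e3 : ‖w‖ ^ α ≤ ‖y‖ ^ α := Real.rpow_le_rpow (norm_nonneg _) hwy hα.le
    nlinarith
  have h5 : ‖y‖ - ‖w‖ ≤ ‖y - w‖ := norm_sub_norm_le y w
  have h6 : ‖(‖y‖ ^ (α - 1) - 1) • (y - w)‖ ≤ ‖y‖ ^ (α - 1) * ‖y - w‖ := by
    rw [norm_smul, Real.norm_of_nonneg (by linarith)]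
    exact mul_le_mul_of_nonneg_right (by linarith) (norm_nonneg _)
  rw [e, norm_smul, Real.norm_of_nonneg (by linarith)]
  have h7 : ‖(‖y‖ ^ (α - 1) - 1) • (y - w) + (‖y‖ ^ (α - 1) - ‖w‖ ^ (α - 1)) • w‖ ≤
      2 * (‖y‖ ^ (α - 1) * ‖y - w‖) := by
    refine (norm_add_le _ _).trans ?_
    rw [h3]
    have := mul_le_mul_of_nonneg_left h5 hpα.le
    linarith
  calc (1 + α) * _ ≤ 2 * (2 * (‖y‖ ^ (α - 1) * ‖y - w‖)) := by
        refine mul_le_mul (by linarith) h7 (norm_nonneg _) (by norm_num)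
    _ = _ := by ring

theorem vec1_bd {α : ℝ} (hα : 0 < α) (hα1 : α < 1) (y : ℂ) : ‖vec1 α y‖ ≤ 8 := by
  rcases le_or_gt 1 ‖y‖ with hy | hy
  · rw [vec1_supp hα1 y hy]; simp
  rcases eq_or_ne y 0 with rfl | h0
  · rw [vec1_zero]; simp
  rw [norm_vec1_in hα hα1 h0 hy.le]
  have h1 : ‖y‖ ^ α ≤ 1 := Real.rpow_le_one (norm_nonneg _) hy.le hα.le
  nlinarith [norm_nonneg y]

theorem vec1_holder_aux {α : ℝ} (hα : 0 < α) (hα1 : α < 1) {y w : ℂ} (hwy : ‖w‖ ≤ ‖y‖) :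
    ‖vec1 α y - vec1 α w‖ ≤ 8 * ‖y - w‖ ^ α := by
  rcases eq_or_ne y w with rfl | hne
  · simp only [sub_self, norm_zero]; positivity
  have hp : 0 < ‖y - w‖ := norm_pos_iff.2 (sub_ne_zero.2 hne)
  rcases le_or_gt 1 ‖w‖ with hw | hw
  · rw [vec1_supp hα1 y (hw.trans hwy), vec1_supp hα1 w hw, sub_self, norm_zero]; positivity
  rcases le_or_gt 1 ‖y‖ with hy | hy
  · obtain ⟨h1, h2⟩ := vec1_mixed hα hα1 hw.le hy
    have h3 : 0 < 1 - ‖w‖ := by linarith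
    have h4 : 1 - ‖w‖ ≤ (1 - ‖w‖) ^ α := by
      calc 1 - ‖w‖ = (1 - ‖w‖) ^ (1 : ℝ) := (Real.rpow_one _).symm
        _ ≤ (1 - ‖w‖) ^ α := Real.rpow_le_rpow_of_exponent_ge h3 (by linarith [norm_nonneg w]) hα1.le
    have h5 : (1 - ‖w‖) ^ α ≤ ‖y - w‖ ^ α := Real.rpow_le_rpow h3.le h2 hα.le
    have h6 : 0 ≤ ‖y - w‖ ^ α := by positivity
    linarith
  · have hy0 : y ≠ 0 := by
      rintro rfl
      apply hne
      rw [norm_zero] at hwy
      exact (norm_le_zero_iff.1 hwy).symm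
    have hyp : 0 < ‖y‖ := norm_pos_iff.2 hy0
    refine (vec1_inside hα hα1 hy0 hy.le hwy).trans ?_
    have h1 : ‖y - w‖ = ‖y - w‖ ^ (1 - α) * ‖y - w‖ ^ α := by
      rw [← Real.rpow_add hp]; simp
    have h2 : ‖y - w‖ ^ (1 - α) ≤ (2 * ‖y‖) ^ (1 - α) :=
      Real.rpow_le_rpow hp.le ((norm_sub_le _ _).trans (by linarith)) (by linarith)
    have h3 : (2 * ‖y‖) ^ (1 - α) = 2 ^ (1 - α) * ‖y‖ ^ (1 - α) :=
      Real.mul_rpow (by norm_num) hyp.le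
    have h4 : (2:ℝ) ^ (1 - α) ≤ 2 := by
      calc (2:ℝ) ^ (1 - α) ≤ 2 ^ (1:ℝ) :=
            Real.rpow_le_rpow_of_exponent_le (by norm_num) (by linarith)
        _ = 2 := Real.rpow_one 2
    have h5 : ‖y‖ ^ (α - 1) * ‖y‖ ^ (1 - α) = 1 := by
      rw [← Real.rpow_add hyp]; simp
    have hq : 0 ≤ ‖y - w‖ ^ α := by positivity
    calc 4 * ‖y‖ ^ (α - 1) * ‖y - w‖ = 4 * ‖y‖ ^ (α - 1) * (‖y - w‖ ^ (1 - α) * ‖y - w‖ ^ α) := by
          rw [← h1]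
      _ ≤ 4 * ‖y‖ ^ (α - 1) * (2 ^ (1 - α) * ‖y‖ ^ (1 - α) * ‖y - w‖ ^ α) := by
          rw [← h3]; gcongr
      _ = 4 * 2 ^ (1 - α) * (‖y‖ ^ (α - 1) * ‖y‖ ^ (1 - α)) * ‖y - w‖ ^ α := by ring
      _ = 4 * 2 ^ (1 - α) * ‖y - w‖ ^ α := by rw [h5, mul_one]
      _ ≤ 4 * 2 * ‖y - w‖ ^ α := by gcongr
      _ = _ := by ring

theorem vec1_holder {α : ℝ} (hα : 0 < α) (hα1 : α < 1) (y w : ℂ) :
    ‖vec1 α y - vec1 α w‖ ≤ 8 * ‖y - w‖ ^ α := by
  rcases le_total ‖w‖ ‖y‖ with h | h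
  · exact vec1_holder_aux hα hα1 h
  · rw [norm_sub_rev, norm_sub_rev y w]; exact vec1_holder_aux hα hα1 h

theorem vec1_lip_aux {α : ℝ} (hα : 0 < α) (hα1 : α < 1) {d : ℝ} (hd : 0 < d) {y w : ℂ}
    (hwy : ‖w‖ ≤ ‖y‖) (hw : d ≤ ‖w‖) :
    ‖vec1 α y - vec1 α w‖ ≤ 8 * d ^ (α - 1) * ‖y - w‖ := by
  have hdp : 0 < d ^ (α - 1) := by positivity
  rcases le_or_gt 1 ‖w‖ with hw1 | hw1
  · rw [vec1_supp hα1 y (hw1.trans hwy), vec1_supp hα1 w hw1, sub_self, norm_zero]; positivity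
  rcases le_or_gt 1 ‖y‖ with hy | hy
  · obtain ⟨h1, h2⟩ := vec1_mixed hα hα1 hw1.le hy
    have h3 : 1 ≤ d ^ (α - 1) :=
      Real.one_le_rpow_of_pos_of_le_one_of_nonpos hd (by linarith) (by linarith)
    have h4 := norm_nonneg (y - w)
    nlinarith
  · have hy0 : y ≠ 0 := by
      rintro rfl
      rw [norm_zero] at hwy
      linarith
    refine (vec1_inside hα hα1 hy0 hy.le hwy).trans ?_
    have h1 : ‖y‖ ^ (α - 1) ≤ d ^ (α - 1) :=
      Real.rpow_le_rpow_of_nonpos hd (hw.trans hwy) (by linarith)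
    have h2 := norm_nonneg (y - w)
    have h3 : ‖y‖ ^ (α - 1) * ‖y - w‖ ≤ d ^ (α - 1) * ‖y - w‖ := mul_le_mul_of_nonneg_right h1 h2
    have h4 : 0 ≤ d ^ (α - 1) * ‖y - w‖ := by positivity
    nlinarith

theorem vec1_lip {α : ℝ} (hα : 0 < α) (hα1 : α < 1) (d : ℝ) (hd : 0 < d) (y w : ℂ)
    (hy : d ≤ ‖y‖) (hw : d ≤ ‖w‖) : ‖vec1 α y - vec1 α w‖ ≤ 8 * d ^ (α - 1) * ‖y - w‖ := by
  rcases le_total ‖w‖ ‖y‖ with h | h
  · exact vec1_lip_aux hα hα1 hd h hw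
  · rw [norm_sub_rev, norm_sub_rev y w]; exact vec1_lip_aux hα hα1 hd h hy

/-! ### the potential -/

noncomputable def gg (α s : ℝ) : ℝ := (1 + α) * max 0 (|s| ^ α - |s|)

theorem gg_cont {α : ℝ} (hα : 0 < α) : Continuous (gg α) := by
  unfold gg
  have : Continuous fun s : ℝ => |s| ^ α := by
    exact Continuous.rpow_const continuous_abs fun s => Or.inr hα.le
  fun_prop

noncomputable def pot0 (α s : ℝ) : ℝ := ∫ u in (1:ℝ)..s, gg α u

theorem hasDerivAt_pot0 {α : ℝ} (hα : 0 < α) (s : ℝ) : HasDerivAt (pot0 α) (gg α s) s :=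
  intervalIntegral.integral_hasDerivAt_right ((gg_cont hα).intervalIntegrable _ _)
    ((gg_cont hα).stronglyMeasurableAtFilter _ _) (gg_cont hα).continuousAt

theorem gg_bd {α : ℝ} (hα : 0 < α) (hα1 : α < 1) {s : ℝ} (h0 : 0 ≤ s) (h1 : s ≤ 1) :
    |gg α s| ≤ 2 := by
  have h2 : |s| ^ α ≤ 1 := by rw [abs_of_nonneg h0]; exact Real.rpow_le_one h0 h1 hα.le
  have h3 : 0 ≤ max 0 (|s| ^ α - |s|) := le_max_left _ _
  have h4 : max 0 (|s| ^ α - |s|) ≤ 1 := max_le zero_le_one (by linarith [abs_nonneg s])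
  rw [gg, abs_of_nonneg (by positivity)]
  nlinarith

theorem gg_zero {α : ℝ} (hα1 : α < 1) {s : ℝ} (h1 : 1 ≤ s) : gg α s = 0 := by
  have h2 : |s| ^ α ≤ |s| := by
    rw [abs_of_nonneg (by linarith)]
    calc s ^ α ≤ s ^ (1:ℝ) := Real.rpow_le_rpow_of_exponent_le h1 hα1.le
      _ = s := Real.rpow_one s
  rw [gg, max_eq_left (by linarith), mul_zero]

theorem pot0_bd {α : ℝ} (hα : 0 < α) (hα1 : α < 1) {s : ℝ} (h0 : 0 ≤ s) : |pot0 α s| ≤ 2 := by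
  rcases le_or_gt s 1 with h1 | h1
  · have := intervalIntegral.norm_integral_le_of_norm_le_const (a := (1:ℝ)) (b := s) (f := gg α)
      (C := 2) fun u hu => by
        rw [uIoc_of_ge h1] at hu
        exact gg_bd hα hα1 (h0.trans hu.1.le) hu.2
    rw [Real.norm_eq_abs] at this
    refine this.trans ?_
    rw [abs_sub_comm, abs_of_nonneg (by linarith)]
    linarith
  · have : pot0 α s = 0 := by
      rw [pot0, intervalIntegral.integral_congr (g := fun _ => 0)]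
      · simp
      · intro u hu
        rw [uIcc_of_le h1.le] at hu
        exact gg_zero hα1 hu.1
    rw [this]; simp

/-- the potential of the vector profile -/
noncomputable def pot1 (α : ℝ) (y : ℂ) : ℝ := pot0 α ‖y‖

theorem pot1_bd {α : ℝ} (hα : 0 < α) (hα1 : α < 1) (y : ℂ) : |pot1 α y| ≤ 2 :=
  pot0_bd hα hα1 (norm_nonneg _)

theorem hasFDerivAt_pot1 {α : ℝ} (hα : 0 < α) (hα1 : α < 1) (y : ℂ) :
    HasFDerivAt (pot1 α) (innerSL ℝ (vec1 α y)) y := by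
  rcases eq_or_ne y 0 with rfl | h0
  · rw [vec1_zero, map_zero]
    have h1 := hasDerivAt_pot0 hα 0
    have hg : gg α 0 = 0 := by rw [gg, abs_zero, Real.zero_rpow hα.ne']; simp
    rw [hg, hasDerivAt_iff_isLittleO_nhds_zero] at h1
    rw [hasFDerivAt_iff_isLittleO_nhds_zero]
    have h2 := h1.comp_tendsto (k := fun v : ℂ => ‖v‖) (g := fun h : ℝ => h)
      (by simpa using (continuous_norm (E := ℂ)).tendsto 0)
    refine Asymptotics.IsLittleO.of_norm_right (h2.congr_left fun v => ?_)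
    simp [pot1]
  · have hp : 0 < ‖y‖ := norm_pos_iff.2 h0
    have hn : HasFDerivAt (fun z : ℂ => ‖z‖) ((1 / ‖y‖) • innerSL ℝ y) y := by
      have h1 := (hasStrictFDerivAt_norm_sq y).hasFDerivAt.sqrt (by positivity)
      have e : (fun z : ℂ => √(‖z‖ ^ 2)) = fun z => ‖z‖ := by
        funext z; rw [Real.sqrt_sq (norm_nonneg _)]
      rw [e] at h1
      refine h1.congr_fderiv ?_
      rw [Real.sqrt_sq (norm_nonneg _)]
      ext v
      simp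
      field_simp
    have h2 := (hasDerivAt_pot0 hα ‖y‖).comp_hasFDerivAt y hn
    refine h2.congr_fderiv ?_
    rw [smul_smul, ← map_smul]
    congr 1
    rw [vec1, gg, abs_of_pos hp]
    congr 1
    have e : ‖y‖ ^ α = ‖y‖ ^ (α - 1) * ‖y‖ := by rw [← Real.rpow_add_one hp.ne', sub_add_cancel]
    have e2 : ‖y‖ ^ α - ‖y‖ = (‖y‖ ^ (α - 1) - 1) * ‖y‖ := by rw [e]; ring
    rw [e2]
    rcases le_total (‖y‖ ^ (α - 1)) 1 with h | h
    · rw [max_eq_left (by nlinarith), max_eq_left (by linarith)]; ring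
    · rw [max_eq_right (by nlinarith), max_eq_right (by linarith)]; field_simp

/-- the covector profile -/
noncomputable def prof1 (α : ℝ) (y : ℂ) : ℂ →L[ℝ] ℝ := innerSL ℝ (vec1 α y)

theorem prof1_sub (α : ℝ) (y w : ℂ) : ‖prof1 α y - prof1 α w‖ = ‖vec1 α y - vec1 α w‖ := by
  rw [prof1, prof1, ← map_sub, innerSL_apply_norm]

theorem prof1_cusp {α : ℝ} (hα : 0 < α) (hα1 : α < 1) : ∃ ρ0 : ℝ, 0 < ρ0 ∧ ∀ e : ℂ, ‖e‖ = 1 →
    ∀ h : ℝ, 0 < h → h < ρ0 →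
    |ContinuousLinearMap.apply ℝ ℝ e (prof1 α (h * e) - prof1 α 0) - (1 + α) * h ^ α| ≤
      |1 + α| / 16 * h ^ α := by
  have t2 : Tendsto (fun q : ℝ => q ^ (1 - α)) (𝓝[>] 0) (𝓝 0) := by
    have := (Real.continuousAt_rpow_const 0 (1 - α) (Or.inr (by linarith))).tendsto
    rw [Real.zero_rpow (by linarith)] at this
    exact this.mono_left nhdsWithin_le_nhds
  have e3 := t2.eventually (ge_mem_nhds (show (0:ℝ) < 1 / 16 by norm_num))
  obtain ⟨δ, hδ, hδ'⟩ := mem_nhdsGT_iff_exists_Ioo_subset.1 e3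
  have hδ0 : 0 < δ := hδ
  refine ⟨min δ 1, lt_min hδ0 one_pos, fun e he h h0 hh => ?_⟩
  have h1 : h < 1 := hh.trans_le (min_le_right _ _)
  have h2 : h ^ (1 - α) ≤ 1 / 16 := hδ' ⟨h0, hh.trans_le (min_le_left _ _)⟩
  have hn : ‖(h : ℂ) * e‖ = h := by
    rw [norm_mul, he, mul_one, Complex.norm_real, Real.norm_of_nonneg h0.le]
  have hne : (h : ℂ) * e ≠ 0 := by
    intro h3
    rw [h3, norm_zero] at hn
    linarith
  have hap : ContinuousLinearMap.apply ℝ ℝ e (prof1 α (h * e) - prof1 α 0) =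
      (1 + α) * (h ^ α - h) := by
    rw [ContinuousLinearMap.apply_apply, prof1, prof1, vec1_zero, map_zero, sub_zero,
      vec1_in hα1 hne (by rw [hn]; exact h1.le), hn, innerSL_apply_apply, real_inner_smul_left,
      real_inner_smul_left]
    have h4 : inner ℝ ((h : ℂ) * e) e = h := by
      have : (h : ℂ) * e = h • e := by rw [Complex.real_smul]
      rw [this, real_inner_smul_left, real_inner_self_eq_norm_sq, he]; ring
    rw [h4]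
    have e5 : h ^ α = h ^ (α - 1) * h := by rw [← Real.rpow_add_one h0.ne', sub_add_cancel]
    rw [e5]; ring
  rw [hap, abs_of_pos (by linarith : 0 < 1 + α)]
  have e6 : (1 + α) * (h ^ α - h) - (1 + α) * h ^ α = -((1 + α) * h) := by ring
  rw [e6, abs_neg, abs_of_pos (by positivity)]
  have h7 : h = h ^ (1 - α) * h ^ α := by rw [← Real.rpow_add h0]; simp
  have hq : 0 ≤ h ^ α := by positivity
  calc (1 + α) * h = (1 + α) * (h ^ (1 - α) * h ^ α) := by rw [← h7]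
    _ ≤ (1 + α) * (1 / 16 * h ^ α) := by gcongr
    _ = _ := by ring

/-- the superposition of potentials -/
noncomputable def pots (α : ℝ) (r : ℕ → ℝ) (x : ℕ → ℂ) (t : ℕ → ℝ) (z : ℂ) : ℝ :=
  ∑' i, t i * ((r i) ^ (1 + α) * pot1 α ((z - x i) / r i))

theorem pots_term {α : ℝ} (hα : 0 < α) (hα1 : α < 1) {r t : ℝ} (hr : 0 < r) (x z : ℂ) :
    HasFDerivAt (fun z : ℂ => t * (r ^ (1 + α) * pot1 α ((z - x) / r)))
      (t • bump α (prof1 α) r x z) z := by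
  have h1 : HasFDerivAt (fun z : ℂ => (z - x) / (r : ℂ)) ((r⁻¹ : ℝ) • ContinuousLinearMap.id ℝ ℂ) z := by
    have h2 := ((hasFDerivAt_id (𝕜 := ℝ) z).sub_const x).const_smul (r⁻¹ : ℝ)
    refine h2.congr_of_eventuallyEq (Eventually.of_forall fun w => ?_)
    simp only [Pi.smul_apply, id_eq, Complex.real_smul, Complex.ofReal_inv]
    rw [div_eq_inv_mul]
  have h3 := (((hasFDerivAt_pot1 hα hα1 ((z - x) / r)).comp z h1).const_mul (r ^ (1 + α))).const_mul t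
  refine h3.congr_fderiv ?_
  rw [bump, prof1]
  ext v
  simp only [smul_apply, ContinuousLinearMap.comp_apply, smul_eq_mul,
    ContinuousLinearMap.id_apply, map_smul]
  have e : r ^ (1 + α) = r ^ α * r := by rw [add_comm, Real.rpow_add_one hr.ne']
  rw [e]
  field_simp

end Pool.Agent.T2h22
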