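import Pool.Agent.T2h22.Polar

set_option autoImplicit false

open MeasureTheory Set Filter Topology Metric

namespace Pool.Agent.T2h22

theorem riesz_bound {p : ℂ} (hp : p ∈ ball (0 : ℂ) 1) :
    ∫⁻ y in ball (0 : ℂ) 1, ENNReal.ofReal (‖p - y‖⁻¹) ≤ ENNReal.ofReal (4 * Real.pi) := by
  have hsub : ball (0 : ℂ) 1 ⊆ ball p 2 := by
    intro y hy
    rw [mem_ball, dist_eq_norm]
    have h1 := mem_ball_zero_iff.1 hy
    have h2 := mem_ball_zero_iff.1 hp
    linarith [norm_sub_le y p]
  calc ∫⁻ y in ball (0 : ℂ) 1, ENNReal.ofReal (‖p - y‖⁻¹)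
      ≤ ∫⁻ y in ball p 2, ENNReal.ofReal (‖p - y‖⁻¹) := lintegral_mono_set hsub
    _ = ∫⁻ y : ℂ, (ball (0 : ℂ) 2).indicator (fun y => ENNReal.ofReal (‖y‖⁻¹)) (y - p) := by
        rw [← lintegral_indicator measurableSet_ball]
        refine lintegral_congr fun y => ?_
        by_cases hy : y ∈ ball p 2
        · have hy' : y - p ∈ ball (0 : ℂ) 2 := by
            rw [mem_ball_zero_iff, ← dist_eq_norm]; exact hy
          rw [indicator_of_mem hy, indicator_of_mem hy', norm_sub_rev]
        · have hy' : y - p ∉ ball (0 : ℂ) 2 := by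
            rw [mem_ball_zero_iff, ← dist_eq_norm]; exact hy
          rw [indicator_of_notMem hy, indicator_of_notMem hy']
    _ = ∫⁻ y : ℂ, (ball (0 : ℂ) 2).indicator (fun y => ENNReal.ofReal (‖y‖⁻¹)) y :=
        lintegral_sub_right_eq_self _ p
    _ = ∫⁻ x in Ioi (0 : ℝ) ×ˢ Ioo (-Real.pi) Real.pi, (Ioo (0:ℝ) 2 ×ˢ univ).indicator 1 x := by
        rw [← Complex.lintegral_comp_polarCoord_symm, polarCoord_target]
        refine setLIntegral_congr_fun (measurableSet_Ioi.prod measurableSet_Ioo) ?_
        rintro ⟨ρ, θ⟩ hx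
        have hρ : 0 < ρ := hx.1
        simp only [polar_symm, smul_eq_mul]
        have hn : ‖(ρ : ℂ) * ev θ‖ = ρ := by
          rw [norm_mul, ev_norm, mul_one, Complex.norm_real, Real.norm_of_nonneg hρ.le]
        by_cases h2 : ρ < 2
        · rw [indicator_of_mem (by rw [mem_ball_zero_iff, hn]; exact h2),
            indicator_of_mem (show (ρ, θ) ∈ Ioo (0:ℝ) 2 ×ˢ univ from ⟨⟨hρ, h2⟩, mem_univ _⟩), hn,
            ← ENNReal.ofReal_mul hρ.le, mul_inv_cancel₀ hρ.ne']
          simp
        · rw [indicator_of_notMem (by rw [mem_ball_zero_iff, hn]; exact h2),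
            indicator_of_notMem (fun h => h2 h.1.2), mul_zero]
    _ = ENNReal.ofReal (4 * Real.pi) := by
        rw [lintegral_indicator_one (measurableSet_Ioo.prod MeasurableSet.univ),
          Measure.restrict_apply (measurableSet_Ioo.prod MeasurableSet.univ), prod_inter_prod,
          univ_inter, inter_eq_left.2 (fun x hx => hx.1), Measure.volume_eq_prod,
          Measure.prod_prod, Real.volume_Ioo, Real.volume_Ioo, ← ENNReal.ofReal_mul (by norm_num)]
        congr 1
        ring

/-- The segment from `x` to `x'`. -/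
def Seg (x x' : ℂ) : Set ℂ := (fun τ : ℝ => x + (τ : ℂ) * (x' - x)) '' Icc 0 1

theorem isClosed_Seg (x x' : ℂ) : IsClosed (Seg x x') :=
  (isCompact_Icc.image (by fun_prop)).isClosed

theorem volume_Seg (x x' : ℂ) : volume (Seg x x') = 0 := by
  rcases eq_or_ne x x' with rfl | hne
  · have : Seg x x ⊆ {x} := by
      rintro _ ⟨τ, _, rfl⟩; simp
    exact measure_mono_null this (by simp)
  · -- contained in an affine line
    set s : AffineSubspace ℝ ℂ := AffineSubspace.mk' x (Submodule.span ℝ {x' - x}) with hs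
    have hsub : Seg x x' ⊆ s := by
      rintro _ ⟨τ, _, rfl⟩
      rw [hs, SetLike.mem_coe, AffineSubspace.mem_mk', vsub_eq_sub, add_sub_cancel_left]
      rw [Submodule.mem_span_singleton]
      exact ⟨τ, by simp⟩
    refine measure_mono_null hsub (Measure.addHaar_affineSubspace volume s ?_)
    intro htop
    have h1 : s.direction = ⊤ := by rw [htop]; exact AffineSubspace.direction_top ℝ ℂ ℂ
    rw [hs, AffineSubspace.direction_mk'] at h1
    have h2 := congrArg (fun W : Submodule ℝ ℂ => Module.finrank ℝ W) h1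
    simp only [finrank_top, Complex.finrank_real_complex] at h2
    have h3 := finrank_span_le_card (R := ℝ) ({x' - x} : Set ℂ)
    simp at h3
    omega

end Pool.Agent.T2h22
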