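import Pool.Agent.T2h22.Cusp

set_option autoImplicit false

open Set Filter Topology Metric

namespace Pool.Agent.T2h22

section
variable {E : Type} [NormedAddCommGroup E] [NormedSpace ℝ E] [CompleteSpace E] {α C : ℝ} {G : ℂ → E}

/-- Superposition of rescaled profiles. -/
noncomputable def cusps (α : ℝ) (G : ℂ → E) (r : ℕ → ℝ) (x : ℕ → ℂ) (t : ℕ → ℝ) (z : ℂ) : E :=
  ∑' i, t i • bump α G (r i) (x i) z

variable {r t : ℕ → ℝ} {x : ℕ → ℂ}

omit [CompleteSpace E] in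
theorem cusps_term_le (hb : ∀ y, ‖G y‖ ≤ C) (hr0 : ∀ j, 0 < r j)
    (hrh : ∀ j, (r j) ^ α ≤ (1 / 2) ^ (j + 1)) (ht : ∀ j, |t j| ≤ 1) (z : ℂ) (i : ℕ) :
    ‖t i • bump α G (r i) (x i) z‖ ≤ C * (1 / 2) * (1 / 2) ^ i := by
  have hC : 0 ≤ C := (norm_nonneg _).trans (hb 0)
  rw [norm_smul, Real.norm_eq_abs]
  calc |t i| * ‖bump α G (r i) (x i) z‖ ≤ 1 * (C * (r i) ^ α) :=
        mul_le_mul (ht i) (bump_bd (α := α) hb (hr0 i) (x i) z) (norm_nonneg _) zero_le_one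
    _ ≤ 1 * (C * (1 / 2) ^ (i + 1)) := by
        rw [one_mul, one_mul]; exact mul_le_mul_of_nonneg_left (hrh i) hC
    _ = _ := by ring

theorem cusps_summable (hb : ∀ y, ‖G y‖ ≤ C) (hr0 : ∀ j, 0 < r j)
    (hrh : ∀ j, (r j) ^ α ≤ (1 / 2) ^ (j + 1)) (ht : ∀ j, |t j| ≤ 1) (z : ℂ) :
    Summable fun i => t i • bump α G (r i) (x i) z :=
  Summable.of_norm_bounded (summable_geometric_two.mul_left _) (cusps_term_le hb hr0 hrh ht z)

omit [CompleteSpace E] in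
theorem cusps_bd (hb : ∀ y, ‖G y‖ ≤ C) (hr0 : ∀ j, 0 < r j)
    (hrh : ∀ j, (r j) ^ α ≤ (1 / 2) ^ (j + 1)) (ht : ∀ j, |t j| ≤ 1) (z : ℂ) :
    ‖cusps α G r x t z‖ ≤ C := by
  have h := (hasSum_geometric_two.mul_left (C * (1 / 2)))
  have := tsum_of_norm_bounded h (cusps_term_le (x := x) hb hr0 hrh ht z)
  calc ‖cusps α G r x t z‖ ≤ C * (1 / 2) * 2 := this
    _ = C := by ring

theorem cusps_holder (hb : ∀ y, ‖G y‖ ≤ C) (hr0 : ∀ j, 0 < r j)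
    (hrh : ∀ j, (r j) ^ α ≤ (1 / 2) ^ (j + 1)) (ht : ∀ j, |t j| ≤ 1) {K : ℝ}
    (hK : ∀ (s : Finset ℕ) (z w : ℂ),
        ∑ i ∈ s, ‖bump α G (r i) (x i) z - bump α G (r i) (x i) w‖ ≤ K * ‖z - w‖ ^ α) (z w : ℂ) :
    ‖cusps α G r x t z - cusps α G r x t w‖ ≤ K * ‖z - w‖ ^ α := by
  have sz := (cusps_summable (x := x) hb hr0 hrh ht z).hasSum
  have sw := (cusps_summable (x := x) hb hr0 hrh ht w).hasSum
  refine le_of_tendsto ((sz.sub sw).norm) (Eventually.of_forall fun s => ?_)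
  refine (norm_sum_le _ _).trans ((Finset.sum_le_sum fun i _ => ?_).trans (hK s z w))
  rw [← smul_sub, norm_smul, Real.norm_eq_abs]
  exact mul_le_of_le_one_left (norm_nonneg _) (ht i)

theorem cusps_near (hb : ∀ y, ‖G y‖ ≤ C) (hr0 : ∀ j, 0 < r j)
    (hrh : ∀ j, (r j) ^ α ≤ (1 / 2) ^ (j + 1)) (ht : ∀ j, |t j| ≤ 1) {K : ℝ} {j : ℕ} {z w : ℂ}
    (hK : ∀ s : Finset ℕ, j ∉ s →
        ∑ i ∈ s, ‖bump α G (r i) (x i) z - bump α G (r i) (x i) w‖ ≤ K) :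
    ‖cusps α G r x t z - cusps α G r x t w -
      t j • (bump α G (r j) (x j) z - bump α G (r j) (x j) w)‖ ≤ K := by
  have sz := (cusps_summable (x := x) hb hr0 hrh ht z).hasSum
  have sw := (cusps_summable (x := x) hb hr0 hrh ht w).hasSum
  have h1 := (((sz.sub sw).sub_const (t j • (bump α G (r j) (x j) z - bump α G (r j) (x j) w))).norm)
  refine le_of_tendsto h1 ?_
  filter_upwards [eventually_ge_atTop {j}] with s hs
  have hj : j ∈ s := Finset.singleton_subset_iff.1 hs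
  rw [← Finset.add_sum_erase s _ hj, ← smul_sub, add_sub_cancel_left]
  refine (norm_sum_le _ _).trans ((Finset.sum_le_sum fun i _ => ?_).trans
    (hK (s.erase j) (Finset.notMem_erase j s)))
  rw [← smul_sub, norm_smul, Real.norm_eq_abs]
  exact mul_le_of_le_one_left (norm_nonneg _) (ht i)

end

/-- Choice of the coefficients. -/
theorem exists_coeff {E : Type} [NormedAddCommGroup E] [NormedSpace ℝ E] [CompleteSpace E]
    {α C σ ρ0 : ℝ} {G : ℂ → E} {ℓ : ℂ → E →L[ℝ] ℝ}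
    (hα : 0 < α) (hα1 : α < 1) (hC : 0 < C) (hsupp : ∀ y, 1 ≤ ‖y‖ → G y = 0)
    (hb : ∀ y, ‖G y‖ ≤ C) (hh : ∀ y w, ‖G y - G w‖ ≤ C * ‖y - w‖ ^ α)
    (hl : ∀ d, 0 < d → ∀ y w, d ≤ ‖y‖ → d ≤ ‖w‖ → ‖G y - G w‖ ≤ C * d ^ (α - 1) * ‖y - w‖)
    (hσ : σ ≠ 0) (hρ : 0 < ρ0) (hℓ : ∀ e, ‖e‖ = 1 → ‖ℓ e‖ ≤ 1)
    (hcusp : ∀ e : ℂ, ‖e‖ = 1 → ∀ h : ℝ, 0 < h → h < ρ0 →
      |ℓ e (G (h * e) - G 0) - σ * h ^ α| ≤ |σ| / 16 * h ^ α)
    {x : ℕ → ℂ} (hx : Function.Injective x) {e : ℕ → ℂ} (he : ∀ j, ‖e j‖ = 1) :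
    ∃ r : ℕ → ℝ, (∀ j, 0 < r j) ∧ (∀ j, r j ≤ 1) ∧ (∀ j, (r j) ^ α ≤ (1 / 2) ^ (j + 1)) ∧
      (∀ t : ℕ → ℝ, (∀ j, |t j| ≤ 1) → (∀ z, ‖cusps α G r x t z‖ ≤ C) ∧
        ∀ z w, ‖cusps α G r x t z - cusps α G r x t w‖ ≤ 6 * C * ‖z - w‖ ^ α) ∧
      ∀ (F : ℂ → E) (c0 : ℝ), 0 < c0 → ∃ t : ℕ → ℝ, (∀ j, |t j| ≤ 1) ∧
        ∀ j, ∀ δ > 0, ∃ h : ℝ, 0 < h ∧ h < δ ∧ c0 * |σ| / 16 * h ^ α ≤
          |ℓ (e j) ((F (x j + h * e j) + c0 • cusps α G r x t (x j + h * e j)) -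
            (F (x j) + c0 • cusps α G r x t (x j)))| := by
  have hσ0 : 0 < |σ| := abs_pos.2 hσ
  obtain ⟨r, hr0, hr1, hrh, hH, hN⟩ := exists_radii hα hα1 hC hsupp hb hh hl hx
    (show 0 < |σ| / 8 by positivity)
  refine ⟨r, hr0, hr1, hrh, fun t ht => ⟨cusps_bd hb hr0 hrh ht, cusps_holder hb hr0 hrh ht hH⟩, ?_⟩
  intro F c0 hc0
  have key : ∀ j, ∃ t : ℝ, |t| ≤ 1 ∧ ∀ δ > 0, ∃ h : ℝ, 0 < h ∧ h < δ ∧
      c0 * |σ| / 4 * h ^ α ≤ |ℓ (e j) (F (x j + h * e j) - F (x j)) + c0 * t * σ * h ^ α| := by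
    intro j
    by_contra hcon
    push Not at hcon
    obtain ⟨δ0, hδ0, h0⟩ := hcon 0 (by simp)
    obtain ⟨δ1, hδ1, h1⟩ := hcon 1 (by simp)
    have hm : 0 < min δ0 δ1 / 2 := by have := lt_min hδ0 hδ1; linarith
    set h : ℝ := min δ0 δ1 / 2 with hh
    have hl0 : h < δ0 := by have := min_le_left δ0 δ1; linarith
    have hl1 : h < δ1 := by have := min_le_right δ0 δ1; linarith
    have a0 := h0 h hm hl0
    have a1 := h1 h hm hl1
    have hhα : 0 < h ^ α := by positivity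
    have e1 : |c0 * σ * h ^ α| = c0 * |σ| * h ^ α := by
      rw [abs_mul, abs_mul, abs_of_pos hc0, abs_of_pos hhα]
    have e2 : |c0 * σ * h ^ α| ≤ |ℓ (e j) (F (x j + h * e j) - F (x j)) + c0 * 0 * σ * h ^ α| +
        |ℓ (e j) (F (x j + h * e j) - F (x j)) + c0 * 1 * σ * h ^ α| := by
      have e6 : c0 * σ * h ^ α = (ℓ (e j) (F (x j + h * e j) - F (x j)) + c0 * 1 * σ * h ^ α) -
          (ℓ (e j) (F (x j + h * e j) - F (x j)) + c0 * 0 * σ * h ^ α) := by ring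
      have e7 : |c0 * σ * h ^ α| ≤ |ℓ (e j) (F (x j + h * e j) - F (x j)) + c0 * 1 * σ * h ^ α| +
        |ℓ (e j) (F (x j + h * e j) - F (x j)) + c0 * 0 * σ * h ^ α| := by
        rw [e6]
        exact abs_sub _ _
      linarith
    have e3 : 0 < c0 * |σ| * h ^ α := by positivity
    nlinarith
  choose t ht1 ht using key
  refine ⟨t, ht1, fun j δ hδ => ?_⟩
  obtain ⟨δ', hδ', hN'⟩ := hN j
  have hrj := hr0 j
  obtain ⟨h, hh0, hhδ, hlow⟩ := ht j (min δ (min δ' (ρ0 * r j)))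
    (lt_min hδ (lt_min hδ' (by positivity)))
  have hδ1 : h < δ := hhδ.trans_le (min_le_left _ _)
  have hδ2 : h < δ' := hhδ.trans_le ((min_le_right _ _).trans (min_le_left _ _))
  have hδ3 : h < ρ0 * r j := hhδ.trans_le ((min_le_right _ _).trans (min_le_right _ _))
  have hej := he j
  have hv0 : (h : ℂ) * e j ≠ 0 := by
    intro h0
    have : ‖(h : ℂ) * e j‖ = 0 := by rw [h0, norm_zero]
    rw [norm_mul, hej, mul_one, Complex.norm_real, Real.norm_of_nonneg hh0.le] at this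
    linarith
  have hvn : ‖(h : ℂ) * e j‖ = h := by
    rw [norm_mul, hej, mul_one, Complex.norm_real, Real.norm_of_nonneg hh0.le]
  have hnear := cusps_near (x := x) (t := t) (K := |σ| / 8 * h ^ α) (j := j) (z := x j + h * e j)
    (w := x j) hb hr0 hrh ht1 fun s hs => by
      have := hN' (h * e j) hv0 (by rw [hvn]; exact hδ2) s hs
      rwa [hvn] at this
  have hbj : |ℓ (e j) (bump α G (r j) (x j) (x j + h * e j) - bump α G (r j) (x j) (x j)) -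
      σ * h ^ α| ≤ |σ| / 16 * h ^ α := by
    rw [bump, bump, ← smul_sub, add_sub_cancel_left, sub_self, zero_div, map_smul, smul_eq_mul]
    have h3 : (h : ℂ) * e j / (r j : ℂ) = ((h / r j : ℝ) : ℂ) * e j := by
      push_cast; ring
    have h4 := hcusp (e j) hej (h / r j) (by positivity) (by rw [div_lt_iff₀ hrj]; exact hδ3)
    rw [Real.div_rpow hh0.le hrj.le] at h4
    rw [h3]
    have hrα : 0 < (r j) ^ α := by positivity
    have h5 : (r j) ^ α * ℓ (e j) (G (((h / r j : ℝ) : ℂ) * e j) - G 0) - σ * h ^ α =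
        (r j) ^ α * (ℓ (e j) (G (((h / r j : ℝ) : ℂ) * e j) - G 0) - σ * (h ^ α / (r j) ^ α)) := by
      field_simp
    rw [h5, abs_mul, abs_of_pos hrα]
    calc (r j) ^ α * |ℓ (e j) (G (((h / r j : ℝ) : ℂ) * e j) - G 0) - σ * (h ^ α / (r j) ^ α)| ≤
          (r j) ^ α * (|σ| / 16 * (h ^ α / (r j) ^ α)) := mul_le_mul_of_nonneg_left h4 hrα.le
      _ = _ := by field_simp
  refine ⟨h, hh0, hδ1, ?_⟩
  set R : E := cusps α G r x t (x j + h * e j) - cusps α G r x t (x j) -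
      t j • (bump α G (r j) (x j) (x j + h * e j) - bump α G (r j) (x j) (x j)) with hR
  have e1 : (F (x j + h * e j) + c0 • cusps α G r x t (x j + h * e j)) -
            (F (x j) + c0 • cusps α G r x t (x j)) = (F (x j + h * e j) - F (x j)) +
      c0 • (R + t j • (bump α G (r j) (x j) (x j + h * e j) - bump α G (r j) (x j) (x j))) := by
    rw [hR, sub_add_cancel, smul_sub]
    abel
  rw [e1, map_add, map_smul, map_add, map_smul]
  have hR1 : |ℓ (e j) R| ≤ |σ| / 8 * h ^ α := by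
    have := (ℓ (e j)).le_opNorm R
    rw [Real.norm_eq_abs] at this
    refine this.trans ?_
    calc ‖ℓ (e j)‖ * ‖R‖ ≤ 1 * (|σ| / 8 * h ^ α) :=
          mul_le_mul (hℓ _ hej) hnear (norm_nonneg _) zero_le_one
      _ = _ := one_mul _
  set b : ℝ := ℓ (e j) (bump α G (r j) (x j) (x j + h * e j) - bump α G (r j) (x j) (x j)) with hb'
  have e2 : ℓ (e j) (F (x j + h * e j) - F (x j)) + c0 • (ℓ (e j) R + t j • b) =
      (ℓ (e j) (F (x j + h * e j) - F (x j)) + c0 * t j * σ * h ^ α) -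
        (-(c0 * (ℓ (e j) R + t j * (b - σ * h ^ α)))) := by
    simp only [smul_eq_mul]; ring
  rw [e2]
  have e3 := abs_sub_abs_le_abs_sub
    (ℓ (e j) (F (x j + h * e j) - F (x j)) + c0 * t j * σ * h ^ α)
    (-(c0 * (ℓ (e j) R + t j * (b - σ * h ^ α))))
  have e4 : |-(c0 * (ℓ (e j) R + t j * (b - σ * h ^ α)))| ≤
      c0 * (|σ| / 8 * h ^ α + |σ| / 16 * h ^ α) := by
    rw [abs_neg, abs_mul, abs_of_pos hc0]
    refine mul_le_mul_of_nonneg_left ((abs_add_le _ _).trans (add_le_add hR1 ?_)) hc0.le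
    rw [abs_mul]
    exact (mul_le_of_le_one_left (abs_nonneg _) (ht1 j)).trans hbj
  have e5 : c0 * |σ| / 4 * h ^ α = c0 * |σ| / 16 * h ^ α + c0 * (|σ| / 8 * h ^ α + |σ| / 16 * h ^ α) := by
    ring
  linarith

end Pool.Agent.T2h22
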