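import Mathlib

set_option autoImplicit false

open MeasureTheory Set Filter Topology Metric

namespace Pool.Agent.T2h22

theorem mk_eq (x y : ℝ) : Complex.measurableEquivRealProd.symm (x, y) = (⟨x, y⟩ : ℂ) := rfl

theorem normSq_mk' (x y : ℝ) : ‖(⟨x, y⟩ : ℂ)‖ ^ 2 = x ^ 2 + y ^ 2 := by
  rw [← Complex.normSq_eq_norm_sq, Complex.normSq_mk]; ring

theorem mem_ball_mk {r : ℝ} (hr : 0 < r) (x y : ℝ) :
    (⟨x, y⟩ : ℂ) ∈ ball (0 : ℂ) r ↔ x ^ 2 + y ^ 2 < r ^ 2 := by
  rw [mem_ball_zero_iff, ← normSq_mk', sq_lt_sq₀ (norm_nonneg _) hr.le]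

/-- The integral over a disc of the `x`-derivative of a function vanishing on the boundary. -/
theorem integral_ball_dx {r : ℝ} (hr : 0 < r) {h h' : ℂ → ℝ}
    (hd : ∀ z ∈ ball (0 : ℂ) r, HasDerivAt (fun s : ℝ => h (z + s)) (h' z) 0)
    (hi : IntegrableOn h' (ball (0 : ℂ) r))
    (hb : ∀ b ∈ sphere (0 : ℂ) r, Tendsto h (𝓝[ball (0 : ℂ) r] b) (𝓝 0)) :
    ∫ z in ball (0 : ℂ) r, h' z = 0 := by
  have e := Complex.volume_preserving_equiv_real_prod.symm
  rw [← integral_indicator measurableSet_ball]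
  rw [← e.integral_comp Complex.measurableEquivRealProd.symm.measurableEmbedding]
  have hint : Integrable (fun p : ℝ × ℝ =>
      (ball (0:ℂ) r).indicator h' (Complex.measurableEquivRealProd.symm p)) :=
    (e.integrable_comp_emb Complex.measurableEquivRealProd.symm.measurableEmbedding).2
      (hi.integrable_indicator measurableSet_ball)
  rw [Measure.volume_eq_prod] at hint ⊢
  rw [integral_prod_symm _ hint]
  apply integral_eq_zero_of_ae
  filter_upwards [hint.prod_left_ae] with y hy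
  simp only [Pi.zero_apply]
  simp only [mk_eq] at hy ⊢
  by_cases hyr : y ^ 2 < r ^ 2
  · set s : ℝ := √(r ^ 2 - y ^ 2) with hs
    have hs2 : s ^ 2 = r ^ 2 - y ^ 2 := Real.sq_sqrt (by linarith)
    have hs0 : 0 < s := Real.sqrt_pos.2 (by linarith)
    have hmem : ∀ x : ℝ, (⟨x, y⟩ : ℂ) ∈ ball (0 : ℂ) r ↔ x ∈ Ioo (-s) s := by
      intro x
      rw [mem_ball_mk hr, mem_Ioo, ← abs_lt, ← sq_lt_sq₀ (abs_nonneg x) hs0.le, sq_abs, hs2]
      constructor <;> intro h <;> linarith
    have hind : (fun x : ℝ => (ball (0:ℂ) r).indicator h' (⟨x, y⟩ : ℂ)) =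
        (Ioo (-s) s).indicator (fun x : ℝ => h' ⟨x, y⟩) := by
      funext x
      by_cases hx : x ∈ Ioo (-s) s
      · rw [indicator_of_mem hx, indicator_of_mem ((hmem x).2 hx)]
      · rw [indicator_of_notMem hx, indicator_of_notMem (fun h => hx ((hmem x).1 h))]
    rw [hind] at hy ⊢
    rw [integral_indicator measurableSet_Ioo, ← integral_Ioc_eq_integral_Ioo,
      ← intervalIntegral.integral_of_le (by linarith : -s ≤ s)]
    have hy' : IntervalIntegrable (fun x : ℝ => h' ⟨x, y⟩) volume (-s) s := by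
      rw [intervalIntegrable_iff_integrableOn_Ioo_of_le (by linarith)]
      exact (integrable_indicator_iff measurableSet_Ioo).1 hy
    have hder : ∀ x ∈ Ioo (-s) s, HasDerivAt (fun x : ℝ => h ⟨x, y⟩) (h' ⟨x, y⟩) x := by
      intro x hx
      have h1 := hd _ ((hmem x).2 hx)
      have h2 : HasDerivAt (fun s : ℝ => h ((⟨x, y⟩ : ℂ) + s)) (h' ⟨x, y⟩) (x - x) := by
        rw [sub_self]; exact h1
      have h3 := HasDerivAt.comp (h := fun t => t - x) x h2 ((hasDerivAt_id x).sub_const x)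
      rw [mul_one] at h3
      refine h3.congr_of_eventuallyEq (Eventually.of_forall fun t => ?_)
      simp only [Function.comp, id]
      congr 1
      apply Complex.ext <;> simp
    have hcont : Continuous (fun x : ℝ => (⟨x, y⟩ : ℂ)) := by
      have : (fun x : ℝ => (⟨x, y⟩ : ℂ)) = fun x : ℝ => (x : ℂ) + y * Complex.I := by
        funext x; apply Complex.ext <;> simp
      rw [this]; fun_prop
    have hsph : ∀ x : ℝ, x ^ 2 = s ^ 2 → (⟨x, y⟩ : ℂ) ∈ sphere (0 : ℂ) r := by
      intro x hx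
      rw [mem_sphere_zero_iff_norm]
      have : ‖(⟨x, y⟩ : ℂ)‖ ^ 2 = r ^ 2 := by rw [normSq_mk', hx, hs2]; ring
      exact (sq_eq_sq₀ (norm_nonneg _) hr.le).1 this
    have ta : Tendsto (fun x : ℝ => h ⟨x, y⟩) (𝓝[>] (-s)) (𝓝 0) := by
      refine (hb _ (hsph (-s) (by ring))).comp ?_
      rw [tendsto_nhdsWithin_iff]
      refine ⟨(hcont.tendsto _).mono_left nhdsWithin_le_nhds, ?_⟩
      filter_upwards [Ioo_mem_nhdsGT (by linarith : -s < s)] with x hx using (hmem x).2 hx
    have tb : Tendsto (fun x : ℝ => h ⟨x, y⟩) (𝓝[<] s) (𝓝 0) := by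
      refine (hb _ (hsph s rfl)).comp ?_
      rw [tendsto_nhdsWithin_iff]
      refine ⟨(hcont.tendsto _).mono_left nhdsWithin_le_nhds, ?_⟩
      filter_upwards [Ioo_mem_nhdsLT (by linarith : -s < s)] with x hx using (hmem x).2 hx
    rw [intervalIntegral.integral_eq_sub_of_hasDerivAt_of_tendsto (by linarith) hder hy' ta tb,
      sub_zero]
  · have hind : (fun x : ℝ => (ball (0:ℂ) r).indicator h' (⟨x, y⟩ : ℂ)) = fun _ => 0 := by
      funext x
      refine indicator_of_notMem (fun h => hyr ?_) _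
      have := (mem_ball_mk hr x y).1 h
      nlinarith [sq_nonneg x]
    rw [hind, integral_zero]

/-- The integral over a disc of the `y`-derivative of a function vanishing on the boundary. -/
theorem integral_ball_dy {r : ℝ} (hr : 0 < r) {h h' : ℂ → ℝ}
    (hd : ∀ z ∈ ball (0 : ℂ) r, HasDerivAt (fun s : ℝ => h (z + s * Complex.I)) (h' z) 0)
    (hi : IntegrableOn h' (ball (0 : ℂ) r))
    (hb : ∀ b ∈ sphere (0 : ℂ) r, Tendsto h (𝓝[ball (0 : ℂ) r] b) (𝓝 0)) :
    ∫ z in ball (0 : ℂ) r, h' z = 0 := by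
  let R : ℂ ≃ₗᵢ[ℝ] ℂ := rotation ⟨Complex.I, mem_sphere_zero_iff_norm.2 (by simp)⟩
  have hR : ∀ z, R z = Complex.I * z := fun z => rfl
  have hpre : R ⁻¹' (ball (0 : ℂ) r) = ball (0 : ℂ) r := by
    ext z; simp [hR]
  have hmp : MeasurePreserving R volume volume := R.measurePreserving
  have hemb : MeasurableEmbedding R := R.toHomeomorph.measurableEmbedding
  have h1 := hmp.setIntegral_preimage_emb hemb h' (ball (0 : ℂ) r)
  rw [hpre] at h1
  rw [← h1]
  refine integral_ball_dx hr (h := fun z => h (R z)) ?_ ?_ ?_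
  · intro z hz
    have := hd (R z) (by simpa [hR] using hz)
    refine this.congr_of_eventuallyEq (Eventually.of_forall fun t => ?_)
    simp only [hR]; congr 1; ring
  · have := (hmp.integrableOn_comp_preimage hemb (f := h') (s := ball (0 : ℂ) r)).2 hi
    rwa [hpre] at this
  · intro b hb'
    refine (hb (R b) (by simpa [hR] using hb')).comp ?_
    rw [tendsto_nhdsWithin_iff]
    refine ⟨(R.continuous.tendsto _).mono_left nhdsWithin_le_nhds, ?_⟩
    filter_upwards [self_mem_nhdsWithin] with z hz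
    simpa [hR] using hz

end Pool.Agent.T2h22
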