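import Pool.Agent.T2h22.Flow2

set_option autoImplicit false

open MeasureTheory Set Filter Topology Metric

namespace Pool.Agent.T2h22

/-- Fubini for a continuous function on a rectangle. -/
theorem swap_rect {G : ℝ → ℝ → ℂ} {a b c d : ℝ} (hab : a ≤ b) (hcd : c ≤ d)
    (hG : ContinuousOn (fun p : ℝ × ℝ => G p.1 p.2) (Icc a b ×ˢ Icc c d)) :
    ∫ s in a..b, ∫ τ in c..d, G s τ = ∫ τ in c..d, ∫ s in a..b, G s τ := by
  rw [intervalIntegral.integral_of_le hab, intervalIntegral.integral_of_le hcd]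
  simp only [intervalIntegral.integral_of_le hab, intervalIntegral.integral_of_le hcd]
  refine integral_integral_swap ?_
  have h1 : IntegrableOn (fun p : ℝ × ℝ => G p.1 p.2) (Icc a b ×ˢ Icc c d) :=
    hG.integrableOn_compact (isCompact_Icc.prod isCompact_Icc)
  have h2 := h1.mono_set (prod_mono (Ioc_subset_Icc_self (a := a) (b := b))
    (Ioc_subset_Icc_self (a := c) (b := d)))
  rwa [IntegrableOn, Measure.volume_eq_prod, ← Measure.prod_restrict] at h2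

namespace FlowData

variable {Ω : Set ℂ} {u : ℝ → ℂ → ℂ} {Du : ℝ → ℂ → (ℂ →L[ℝ] ℂ)} {φ : ℝ → ℂ → ℂ}
  (h : FlowData Ω u Du φ)

include h

theorem winding_identity (hinj : ∀ s, 0 ≤ s → InjOn (φ s) Ω) {t : ℝ} (ht : 0 ≤ t) {x x' y : ℂ}
    (hx : x ∈ Ω) (hx' : x' ∈ Ω) (hy : y ∈ Ω)
    (hne : ∀ τ ∈ Icc (0:ℝ) 1, x + (τ : ℂ) * (x' - x) ≠ y) :
    ∫ s in (0:ℝ)..t, ((u s (φ s x') - u s (φ s y)) / (φ s x' - φ s y) -
        (u s (φ s x) - u s (φ s y)) / (φ s x - φ s y)) =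
      ∫ τ in (0:ℝ)..1, (fderiv ℝ (φ t) (x + (τ : ℂ) * (x' - x)) (x' - x) /
        (φ t (x + (τ : ℂ) * (x' - x)) - φ t y) - (x' - x) / (x + (τ : ℂ) * (x' - x) - y)) := by
  set v := x' - x with hv
  set X : ℝ → ℂ := fun τ => x + (τ : ℂ) * v with hX
  have hXc : Continuous X := by simp only [hX]; fun_prop
  have hXd : ∀ τ, HasDerivAt X v τ := fun τ =>
    (((Complex.ofRealCLM.hasDerivAt (x := τ)).mul_const v).const_add x).congr_deriv (by simp)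
  have hXm : ∀ τ ∈ Icc (0:ℝ) 1, X τ ∈ Ω := by
    intro τ hτ
    have := h.cvx hx hx' (a := 1 - τ) (b := τ) (by linarith [hτ.2]) hτ.1 (by ring)
    have e : (1 - τ) • x + τ • x' = X τ := by
      simp only [hX, hv, Complex.real_smul]; push_cast; ring
    rwa [e] at this
  have hX0 : X 0 = x := by simp [hX]
  have hX1 : X 1 = x' := by simp [hX, hv]
  have hne' : ∀ s, 0 ≤ s → ∀ τ ∈ Icc (0:ℝ) 1, φ s (X τ) - φ s y ≠ 0 := by
    intro s hs τ hτ h0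
    exact hne τ hτ (hinj s hs (hXm τ hτ) hy (sub_eq_zero.1 h0))
  set b : ℝ → ℝ → ℂ := fun s τ => (u s (φ s (X τ)) - u s (φ s y)) / (φ s (X τ) - φ s y) with hb
  set e : ℝ → ℝ → ℂ := fun s τ => fderiv ℝ (φ s) (X τ) v / (φ s (X τ) - φ s y) with he
  set G : ℝ → ℝ → ℂ := fun s τ =>
    (Du s (φ s (X τ)) (fderiv ℝ (φ s) (X τ) v) * (φ s (X τ) - φ s y) -
      (u s (φ s (X τ)) - u s (φ s y)) * fderiv ℝ (φ s) (X τ) v) / (φ s (X τ) - φ s y) ^ 2 with hG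
  -- continuity on the rectangle
  set R : Set (ℝ × ℝ) := Icc 0 t ×ˢ Icc (0:ℝ) 1 with hR
  have m1 : MapsTo (fun p : ℝ × ℝ => (p.1, X p.2)) R (Ici (0:ℝ) ×ˢ Ω) := fun p hp =>
    ⟨hp.1.1, hXm _ hp.2⟩
  have m2 : MapsTo (fun p : ℝ × ℝ => (p.1, y)) R (Ici (0:ℝ) ×ˢ Ω) := fun p hp => ⟨hp.1.1, hy⟩
  have c0 : ContinuousOn (fun p : ℝ × ℝ => (p.1, X p.2)) R := by fun_prop
  have c0' : ContinuousOn (fun p : ℝ × ℝ => (p.1, y)) R := by fun_prop
  have c1 : ContinuousOn (fun p : ℝ × ℝ => φ p.1 (X p.2)) R := h.phi_cont.comp c0 m1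
  have c1' : ContinuousOn (fun p : ℝ × ℝ => φ p.1 y) R := h.phi_cont.comp c0' m2
  have c2 : ContinuousOn (fun p : ℝ × ℝ => fderiv ℝ (φ p.1) (X p.2) v) R :=
    ContinuousOn.clm_apply (h.dphi_cont.comp c0 m1) continuousOn_const
  have c3 : ContinuousOn (fun p : ℝ × ℝ => u p.1 (φ p.1 (X p.2))) R :=
    h.cu.comp (continuousOn_fst.prodMk c1) fun p hp => ⟨hp.1.1, h.mem _ hp.1.1 _ (hXm _ hp.2)⟩
  have c3' : ContinuousOn (fun p : ℝ × ℝ => u p.1 (φ p.1 y)) R :=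
    h.cu.comp (continuousOn_fst.prodMk c1') fun p hp => ⟨hp.1.1, h.mem _ hp.1.1 _ hy⟩
  have c4 : ContinuousOn (fun p : ℝ × ℝ => Du p.1 (φ p.1 (X p.2))) R :=
    h.cD.comp (continuousOn_fst.prodMk c1) fun p hp => ⟨hp.1.1, h.mem _ hp.1.1 _ (hXm _ hp.2)⟩
  have cG : ContinuousOn (fun p : ℝ × ℝ => G p.1 p.2) R := by
    refine ContinuousOn.div (((ContinuousOn.clm_apply c4 c2).mul (c1.sub c1')).sub
      ((c3.sub c3').mul c2)) ((c1.sub c1').pow 2) ?_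
    intro p hp
    exact pow_ne_zero 2 (hne' _ hp.1.1 _ hp.2)
  have ce : ContinuousOn (fun p : ℝ × ℝ => e p.1 p.2) R :=
    ContinuousOn.div c2 (c1.sub c1') fun p hp => hne' _ hp.1.1 _ hp.2
  -- the `τ` derivative
  have d1 : ∀ s ∈ Icc 0 t, ∀ τ ∈ Icc (0:ℝ) 1, HasDerivAt (b s) (G s τ) τ := by
    intro s hs τ hτ
    have a1 : HasDerivAt (fun τ => φ s (X τ)) (fderiv ℝ (φ s) (X τ) v) τ :=
      (h.dphi (hXm τ hτ) hs.1).comp_hasDerivAt τ (hXd τ)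
    have a2 : HasDerivAt (fun τ => u s (φ s (X τ))) (Du s (φ s (X τ)) (fderiv ℝ (φ s) (X τ) v)) τ :=
      (h.du s hs.1 _ (h.mem s hs.1 _ (hXm τ hτ))).comp_hasDerivAt τ a1
    have := (a2.sub_const (u s (φ s y))).div (a1.sub_const (φ s y)) (hne' s hs.1 τ hτ)
    exact this
  have f1 : ∀ s ∈ Icc 0 t, ∫ τ in (0:ℝ)..1, G s τ = b s 1 - b s 0 := by
    intro s hs
    refine intervalIntegral.integral_eq_sub_of_hasDerivAt (fun τ hτ => ?_) ?_
    · rw [uIcc_of_le zero_le_one] at hτ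
      exact d1 s hs τ hτ
    · refine ContinuousOn.intervalIntegrable ?_
      rw [uIcc_of_le zero_le_one]
      exact cG.comp (f := fun τ => (s, τ)) (by fun_prop) fun τ hτ => ⟨hs, hτ⟩
  -- the `s` derivative
  have f2 : ∀ τ ∈ Icc (0:ℝ) 1, ∫ s in (0:ℝ)..t, G s τ = e t τ - e 0 τ := by
    intro τ hτ
    refine intervalIntegral.integral_eq_sub_of_hasDeriv_right_of_le ht (f := fun s => e s τ) ?_ ?_ ?_
    · exact ce.comp (f := fun s => (s, τ)) (by fun_prop) fun s hs => ⟨hs, hτ⟩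
    · intro s hs
      have a1 := (h.dphi_ode (hXm τ hτ) hs.1.le).clm_apply (hasDerivWithinAt_const s (Ici 0) v)
      simp only [ContinuousLinearMap.comp_apply, map_zero, add_zero] at a1
      have a2 := (h.ode _ (hXm τ hτ) s hs.1.le).sub (h.ode _ hy s hs.1.le)
      have a3 := a1.div a2 (hne' s hs.1.le τ hτ)
      refine (a3.mono (fun r hr => ?_)).congr_deriv ?_
      · exact hs.1.le.trans (le_of_lt hr)
      · simp only [hG, Pi.sub_apply]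
        ring
    · refine ContinuousOn.intervalIntegrable ?_
      rw [uIcc_of_le ht]
      exact cG.comp (f := fun s => (s, τ)) (by fun_prop) fun s hs => ⟨hs, hτ⟩
  have hsw := swap_rect ht zero_le_one cG
  have e1 : ∫ s in (0:ℝ)..t, ∫ τ in (0:ℝ)..1, G s τ = ∫ s in (0:ℝ)..t, (b s 1 - b s 0) := by
    refine intervalIntegral.integral_congr fun s hs => ?_
    rw [uIcc_of_le ht] at hs
    exact f1 s hs
  have e2 : ∫ τ in (0:ℝ)..1, ∫ s in (0:ℝ)..t, G s τ = ∫ τ in (0:ℝ)..1, (e t τ - e 0 τ) := by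
    refine intervalIntegral.integral_congr fun τ hτ => ?_
    rw [uIcc_of_le zero_le_one] at hτ
    exact f2 τ hτ
  rw [e1, e2] at hsw
  have e3 : ∫ s in (0:ℝ)..t, ((u s (φ s x') - u s (φ s y)) / (φ s x' - φ s y) -
        (u s (φ s x) - u s (φ s y)) / (φ s x - φ s y)) = ∫ s in (0:ℝ)..t, (b s 1 - b s 0) := by
    simp only [hb, hX0, hX1]
  rw [e3, hsw]
  refine intervalIntegral.integral_congr fun τ hτ => ?_
  rw [uIcc_of_le zero_le_one] at hτ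
  simp only [he]
  rw [h.dphi_zero (hXm τ hτ), h.init _ (hXm τ hτ), h.init _ hy]
  simp [hX]

theorem winding_bound (htr : ∀ t, 0 ≤ t → ∀ z ∈ Ω, (Du t z 1).re + (Du t z Complex.I).im = 0)
    (hbij : ∀ s, 0 ≤ s → BijOn (φ s) Ω Ω) {t : ℝ} (ht : 0 ≤ t) {K : ℝ}
    (hK : ∀ x ∈ Ω, ‖fderiv ℝ (φ t) x‖ ≤ K) {x x' y : ℂ}
    (hx : x ∈ Ω) (hx' : x' ∈ Ω) (hy : y ∈ Ω)
    (hne : ∀ τ ∈ Icc (0:ℝ) 1, x + (τ : ℂ) * (x' - x) ≠ y) :
    ‖∫ s in (0:ℝ)..t, ((u s (φ s x') - u s (φ s y)) / (φ s x' - φ s y) -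
        (u s (φ s x) - u s (φ s y)) / (φ s x - φ s y))‖ ≤
      ∫ τ in (0:ℝ)..1, (K ^ 2 + 1) * ‖x' - x‖ * ‖x + (τ : ℂ) * (x' - x) - y‖⁻¹ := by
  rw [h.winding_identity (fun s hs => (hbij s hs).injOn) ht hx hx' hy hne]
  have hK0 : 0 ≤ K := (norm_nonneg _).trans (hK x hx)
  have hXm : ∀ τ ∈ Icc (0:ℝ) 1, x + (τ : ℂ) * (x' - x) ∈ Ω := by
    intro τ hτ
    have := h.cvx hx hx' (a := 1 - τ) (b := τ) (by linarith [hτ.2]) hτ.1 (by ring)
    have e : (1 - τ) • x + τ • x' = x + (τ : ℂ) * (x' - x) := by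
      simp only [Complex.real_smul]; push_cast; ring
    rwa [e] at this
  refine intervalIntegral.norm_integral_le_of_norm_le zero_le_one ?_ ?_
  · refine Eventually.of_forall fun τ hτ => ?_
    have hτ' := Ioc_subset_Icc_self hτ
    set z := x + (τ : ℂ) * (x' - x) with hz
    have hzy : 0 < ‖z - y‖ := norm_pos_iff.2 (sub_ne_zero.2 (hne τ hτ'))
    have h1 := h.inv_lip htr ht (hbij t ht) hK (hXm τ hτ') hy
    have hpos : 0 < ‖φ t z - φ t y‖ := by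
      refine norm_pos_iff.2 (sub_ne_zero.2 fun h0 => hne τ hτ' ?_)
      exact (hbij t ht).injOn (hXm τ hτ') hy h0
    have h2 : ‖fderiv ℝ (φ t) z (x' - x) / (φ t z - φ t y)‖ ≤ K ^ 2 * ‖x' - x‖ * ‖z - y‖⁻¹ := by
      rw [norm_div, div_le_iff₀ hpos]
      have h3 : ‖fderiv ℝ (φ t) z (x' - x)‖ ≤ K * ‖x' - x‖ :=
        (ContinuousLinearMap.le_opNorm _ _).trans
          (mul_le_mul_of_nonneg_right (hK z (hXm τ hτ')) (norm_nonneg _))
      have h4 : 1 ≤ K * ‖φ t z - φ t y‖ * ‖z - y‖⁻¹ := by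
        rw [← div_eq_mul_inv, le_div_iff₀ hzy, one_mul]; exact h1
      calc ‖fderiv ℝ (φ t) z (x' - x)‖ ≤ K * ‖x' - x‖ * 1 := by rw [mul_one]; exact h3
        _ ≤ K * ‖x' - x‖ * (K * ‖φ t z - φ t y‖ * ‖z - y‖⁻¹) :=
          mul_le_mul_of_nonneg_left h4 (by positivity)
        _ = _ := by ring
    have h5 : ‖(x' - x) / (z - y)‖ = ‖x' - x‖ * ‖z - y‖⁻¹ := by
      rw [norm_div, div_eq_mul_inv]
    calc _ ≤ ‖fderiv ℝ (φ t) z (x' - x) / (φ t z - φ t y)‖ + ‖(x' - x) / (z - y)‖ := norm_sub_le _ _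
      _ ≤ K ^ 2 * ‖x' - x‖ * ‖z - y‖⁻¹ + ‖x' - x‖ * ‖z - y‖⁻¹ := by rw [h5]; linarith
      _ = _ := by ring
  · refine ContinuousOn.intervalIntegrable ?_
    rw [uIcc_of_le zero_le_one]
    refine ContinuousOn.mul continuousOn_const (ContinuousOn.inv₀ (by fun_prop) ?_)
    intro τ hτ
    exact norm_ne_zero_iff.2 (sub_ne_zero.2 (hne τ hτ))

end FlowData

end Pool.Agent.T2h22
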