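import Pool.Agent.T2h22.JB
import Pool.Agent.T2h22.Pair
import Pool.Agent.T2h22.Wind
import Pool.Agent.T2h22.Riesz

set_option autoImplicit false

open MeasureTheory Set Filter Topology Metric

namespace Pool.Agent.T2h22

section
variable {C C' : ℝ} {F Fx Fy Fxx Fxy Fyy G Gx Gy Gxx Gxy Gyy : ℂ → ℝ}

theorem lin_add (a b a' b' : ℝ) : lin a b + lin a' b' = lin (a + a') (b + b') := by
  ext w; simp; ring

theorem C2.add (h : C2 C F Fx Fy Fxx Fxy Fyy) (g : C2 C' G Gx Gy Gxx Gxy Gyy) :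
    C2 (C + C') (fun z => F z + G z) (fun z => Fx z + Gx z) (fun z => Fy z + Gy z)
      (fun z => Fxx z + Gxx z) (fun z => Fxy z + Gxy z) (fun z => Fyy z + Gyy z) where
  d0 z hz := by rw [← lin_add]; exact (h.d0 z hz).add (g.d0 z hz)
  d1 z hz := by rw [← lin_add]; exact (h.d1 z hz).add (g.d1 z hz)
  d2 z hz := by rw [← lin_add]; exact (h.d2 z hz).add (g.d2 z hz)
  cxx := h.cxx.add g.cxx
  cyy := h.cyy.add g.cyy
  bx z hz := (abs_add_le _ _).trans (add_le_add (h.bx z hz) (g.bx z hz))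
  by' z hz := (abs_add_le _ _).trans (add_le_add (h.by' z hz) (g.by' z hz))
  bxx z hz := (abs_add_le _ _).trans (add_le_add (h.bxx z hz) (g.bxx z hz))
  byy z hz := (abs_add_le _ _).trans (add_le_add (h.byy z hz) (g.byy z hz))
  bc b hb := by simpa using (h.bc b hb).add (g.bc b hb)

theorem C2.sub (h : C2 C F Fx Fy Fxx Fxy Fyy) (g : C2 C' G Gx Gy Gxx Gxy Gyy) :
    C2 (C + C') (fun z => F z - G z) (fun z => Fx z - Gx z) (fun z => Fy z - Gy z)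
      (fun z => Fxx z - Gxx z) (fun z => Fxy z - Gxy z) (fun z => Fyy z - Gyy z) where
  d0 z hz := by rw [← lin_sub]; exact (h.d0 z hz).sub (g.d0 z hz)
  d1 z hz := by rw [← lin_sub]; exact (h.d1 z hz).sub (g.d1 z hz)
  d2 z hz := by rw [← lin_sub]; exact (h.d2 z hz).sub (g.d2 z hz)
  cxx := h.cxx.sub g.cxx
  cyy := h.cyy.sub g.cyy
  bx z hz := (abs_sub _ _).trans (add_le_add (h.bx z hz) (g.bx z hz))
  by' z hz := (abs_sub _ _).trans (add_le_add (h.by' z hz) (g.by' z hz))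
  bxx z hz := (abs_sub _ _).trans (add_le_add (h.bxx z hz) (g.bxx z hz))
  byy z hz := (abs_sub _ _).trans (add_le_add (h.byy z hz) (g.byy z hz))
  bc b hb := by simpa using (h.bc b hb).sub (g.bc b hb)

end

/-- elementary matrices -/
noncomputable def E1 : ℂ →L[ℝ] ℂ := Complex.reCLM.smulRight (1 : ℂ)
noncomputable def E2 : ℂ →L[ℝ] ℂ := Complex.imCLM.smulRight (1 : ℂ)
noncomputable def E3 : ℂ →L[ℝ] ℂ := Complex.reCLM.smulRight Complex.I
noncomputable def E4 : ℂ →L[ℝ] ℂ := Complex.imCLM.smulRight Complex.I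

/-- derivative of the velocity field -/
noncomputable def DU (κ a b d : ℝ) : ℂ →L[ℝ] ℂ :=
  (-(κ * b)) • E1 + (-(κ * d)) • E2 + (κ * a) • E3 + (κ * b) • E4

theorem hasFDerivAt_UU {κ a b d : ℝ} {p q : ℂ → ℝ} {z : ℂ} (hp : HasFDerivAt p (lin a b) z)
    (hq : HasFDerivAt q (lin b d) z) : HasFDerivAt (UU κ p q) (DU κ a b d) z := by
  have h1 := ((hq.const_mul κ).neg).smul_const (1 : ℂ)
  have h2 := (hp.const_mul κ).smul_const Complex.I
  refine ((h1.add h2).congr_fderiv ?_).congr_of_eventuallyEq (Eventually.of_forall fun w => ?_)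
  · ext v
    simp [DU, E1, E2, E3, E4, lin]
    ring
  · apply Complex.ext <;> simp [UU]

theorem DU_trace (κ a b d : ℝ) : (DU κ a b d 1).re + (DU κ a b d Complex.I).im = 0 := by
  simp [DU, E1, E2, E3, E4]

theorem DU_norm {κ a b d C : ℝ} (ha : |a| ≤ C) (hb : |b| ≤ C) (hd : |d| ≤ C) :
    ‖DU κ a b d‖ ≤ |κ| * C * (‖E1‖ + ‖E2‖ + ‖E3‖ + ‖E4‖) := by
  have h1 : ∀ {x : ℝ}, |x| ≤ C → |κ * x| ≤ |κ| * C := fun {x} hx => by
    rw [abs_mul]; exact mul_le_mul_of_nonneg_left hx (abs_nonneg _)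
  have hn : ∀ {x : ℝ} (E : ℂ →L[ℝ] ℂ), |x| ≤ C → ‖(κ * x) • E‖ ≤ |κ| * C * ‖E‖ := fun {x} E hx => by
    rw [norm_smul, Real.norm_eq_abs]; exact mul_le_mul_of_nonneg_right (h1 hx) (norm_nonneg _)
  have hn' : ∀ {x : ℝ} (E : ℂ →L[ℝ] ℂ), |x| ≤ C → ‖(-(κ * x)) • E‖ ≤ |κ| * C * ‖E‖ :=
    fun {x} E hx => by
      rw [norm_smul, norm_neg, Real.norm_eq_abs]
      exact mul_le_mul_of_nonneg_right (h1 hx) (norm_nonneg _)
  rw [DU]
  refine (norm_add_le _ _).trans ?_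
  have h2 := hn E4 hb
  have h3 : ‖(-(κ * b)) • E1 + (-(κ * d)) • E2 + (κ * a) • E3‖ ≤
      |κ| * C * ‖E1‖ + |κ| * C * ‖E2‖ + |κ| * C * ‖E3‖ :=
    (norm_add_le _ _).trans (add_le_add ((norm_add_le _ _).trans (add_le_add (hn' E1 hb) (hn' E2 hd)))
      (hn E3 ha))
  linarith

/-- Solutions of the generalized Euler equation on the unit disc. -/
structure DiscSol (A B κ : ℝ) (Ψ p q pxx pxy pyy ω : ℝ → ℂ → ℝ) (φ : ℝ → ℂ → ℂ) : Prop where
  c2 : ∀ T : ℝ, ∃ C : ℝ, 0 ≤ C ∧ ∀ t ∈ Icc 0 T,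
    C2 C (Ψ t) (p t) (q t) (pxx t) (pxy t) (pyy t) ∧ ∀ z ∈ ball (0 : ℂ) 1, |pxy t z| ≤ C
  cΨ : ContinuousOn (fun x : ℝ × ℂ => Ψ x.1 x.2) (Ici (0:ℝ) ×ˢ ball (0 : ℂ) 1)
  cp : ContinuousOn (fun x : ℝ × ℂ => p x.1 x.2) (Ici (0:ℝ) ×ˢ ball (0 : ℂ) 1)
  cq : ContinuousOn (fun x : ℝ × ℂ => q x.1 x.2) (Ici (0:ℝ) ×ˢ ball (0 : ℂ) 1)
  cxx : ContinuousOn (fun x : ℝ × ℂ => pxx x.1 x.2) (Ici (0:ℝ) ×ˢ ball (0 : ℂ) 1)
  cxy : ContinuousOn (fun x : ℝ × ℂ => pxy x.1 x.2) (Ici (0:ℝ) ×ˢ ball (0 : ℂ) 1)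
  cyy : ContinuousOn (fun x : ℝ × ℂ => pyy x.1 x.2) (Ici (0:ℝ) ×ˢ ball (0 : ℂ) 1)
  vort : ∀ t, 0 ≤ t → ∀ z ∈ ball (0 : ℂ) 1, ω t z = A * pxx t z + B * pyy t z
  init : ∀ z ∈ ball (0 : ℂ) 1, φ 0 z = z
  bij : ∀ t, 0 ≤ t → BijOn (φ t) (ball (0 : ℂ) 1) (ball (0 : ℂ) 1)
  ode : ∀ z ∈ ball (0 : ℂ) 1, ∀ t, 0 ≤ t →
    HasDerivWithinAt (fun s => φ s z) (UU κ (p t) (q t) (φ t z)) (Ici 0) t
  trans : ∀ t, 0 ≤ t → ∀ z ∈ ball (0 : ℂ) 1, ω t (φ t z) = ω 0 z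

namespace DiscSol

variable {A B κ : ℝ} {Ψ p q pxx pxy pyy ω : ℝ → ℂ → ℝ} {φ : ℝ → ℂ → ℂ}

theorem flow (h : DiscSol A B κ Ψ p q pxx pxy pyy ω φ) :
    FlowData (ball (0 : ℂ) 1) (fun t => UU κ (p t) (q t))
      (fun t z => DU κ (pxx t z) (pxy t z) (pyy t z)) φ where
  opn := isOpen_ball
  cvx := convex_ball _ _
  du t ht z hz := by
    obtain ⟨C, _, hC⟩ := h.c2 t
    have := (hC t ⟨ht, le_rfl⟩).1
    exact hasFDerivAt_UU (this.d1 z hz) (this.d2 z hz)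
  cu := by
    have h1 : ContinuousOn (fun x : ℝ × ℂ => ((-(κ * q x.1 x.2) : ℝ) : ℂ) +
        ((κ * p x.1 x.2 : ℝ) : ℂ) * Complex.I) (Ici (0:ℝ) ×ˢ ball (0 : ℂ) 1) :=
      (Complex.continuous_ofReal.comp_continuousOn (continuousOn_const.mul h.cq).neg).add
        ((Complex.continuous_ofReal.comp_continuousOn (continuousOn_const.mul h.cp)).mul
          continuousOn_const)
    refine h1.congr fun x _ => ?_
    apply Complex.ext <;> simp [UU]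
  cD := by
    unfold DU
    exact ((((continuousOn_const.mul h.cxy).neg.smul continuousOn_const).add
      ((continuousOn_const.mul h.cyy).neg.smul continuousOn_const)).add
      ((continuousOn_const.mul h.cxx).smul continuousOn_const)).add
      ((continuousOn_const.mul h.cxy).smul continuousOn_const)
  bD T := by
    obtain ⟨C, hC0, hC⟩ := h.c2 T
    refine ⟨|κ| * C * (‖E1‖ + ‖E2‖ + ‖E3‖ + ‖E4‖), by positivity, fun t ht z hz => ?_⟩
    exact DU_norm ((hC t ht).1.bxx z hz) ((hC t ht).2 z hz) ((hC t ht).1.byy z hz)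
  init := h.init
  mem t ht z hz := (h.bij t ht).mapsTo hz
  ode := h.ode

theorem trace (_h : DiscSol A B κ Ψ p q pxx pxy pyy ω φ) : ∀ t, 0 ≤ t → ∀ z ∈ ball (0 : ℂ) 1,
    (DU κ (pxx t z) (pxy t z) (pyy t z) 1).re +
      (DU κ (pxx t z) (pxy t z) (pyy t z) Complex.I).im = 0 :=
  fun _ _ _ _ => DU_trace _ _ _ _

theorem cov (h : DiscSol A B κ Ψ p q pxx pxy pyy ω φ) {t : ℝ} (ht : 0 ≤ t) (f : ℂ → ℝ) :
    ∫ x in ball (0 : ℂ) 1, f (φ t x) = ∫ x in ball (0 : ℂ) 1, f x :=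
  h.flow.integral_comp h.trace ht (h.bij t ht) f

/-- The energy. -/
noncomputable def energy (A B : ℝ) (p q : ℝ → ℂ → ℝ) (t : ℝ) : ℝ :=
  ∫ z in ball (0 : ℂ) 1, (A * (p t z) ^ 2 + B * (q t z) ^ 2)

theorem bd_ω (h : DiscSol A B κ Ψ p q pxx pxy pyy ω φ) : ∃ M : ℝ, 0 ≤ M ∧ ∀ t, 0 ≤ t →
    ∀ z ∈ ball (0 : ℂ) 1, |ω t z| ≤ M := by
  obtain ⟨C, hC0, hC⟩ := h.c2 0
  refine ⟨|A| * C + |B| * C, by positivity, fun t ht z hz => ?_⟩
  obtain ⟨w, hw, rfl⟩ := (h.bij t ht).surjOn hz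
  rw [h.trans t ht w hw, h.vort 0 le_rfl w hw]
  have := (hC 0 ⟨le_rfl, le_rfl⟩).1
  refine (abs_add_le _ _).trans ?_
  rw [abs_mul, abs_mul]
  exact add_le_add (mul_le_mul_of_nonneg_left (this.bxx w hw) (abs_nonneg _))
    (mul_le_mul_of_nonneg_left (this.byy w hw) (abs_nonneg _))

theorem contω (h : DiscSol A B κ Ψ p q pxx pxy pyy ω φ) {t : ℝ} (ht : 0 ≤ t) :
    ContinuousOn (ω t) (ball (0 : ℂ) 1) := by
  obtain ⟨C, _, hC⟩ := h.c2 t
  have := (hC t ⟨ht, le_rfl⟩).1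
  refine ((continuousOn_const.mul this.cxx).add (continuousOn_const.mul this.cyy)).congr
    fun z hz => h.vort t ht z hz

theorem mean (h : DiscSol A B κ Ψ p q pxx pxy pyy ω φ) {t : ℝ} (ht : 0 ≤ t) :
    ∫ z in ball (0 : ℂ) 1, ω t z = ∫ z in ball (0 : ℂ) 1, ω 0 z := by
  rw [← h.cov ht (ω t)]
  exact setIntegral_congr_fun measurableSet_ball fun x hx => h.trans t ht x hx

/-- The increment of the energy. -/
theorem energy_sub (h : DiscSol A B κ Ψ p q pxx pxy pyy ω φ) {s t : ℝ} (hs : 0 ≤ s) (ht : 0 ≤ t) :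
    energy A B p q s - energy A B p q t =
      -∫ x in ball (0 : ℂ) 1, ω 0 x * ((Ψ s (φ s x) + Ψ t (φ s x)) - (Ψ s (φ t x) + Ψ t (φ t x))) := by
  obtain ⟨C, hC0, hC⟩ := h.c2 (max s t)
  have cs := (hC s ⟨hs, le_max_left _ _⟩).1
  have ct := (hC t ⟨ht, le_max_right _ _⟩).1
  obtain ⟨M, hM0, hM⟩ := h.bd_ω
  have G := (cs.add ct).green (cs.sub ct) A B
  have iE : ∀ {r : ℝ}, C2 C (Ψ r) (p r) (q r) (pxx r) (pxy r) (pyy r) →
      IntegrableOn (fun z => A * (p r z) ^ 2 + B * (q r z) ^ 2) (ball (0 : ℂ) 1) := by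
    intro r cr
    refine integrableOn_ball (C := |A| * (C * C) + |B| * (C * C))
      ((continuousOn_const.mul (cr.contx.pow 2)).add (continuousOn_const.mul (cr.conty.pow 2)))
      fun z hz => ?_
    refine (abs_add_le _ _).trans ?_
    rw [abs_mul A, abs_mul B, sq, sq]
    exact add_le_add (mul_le_mul_of_nonneg_left (abs_mul_le' (cr.bx z hz) (cr.bx z hz)) (abs_nonneg _))
      (mul_le_mul_of_nonneg_left (abs_mul_le' (cr.by' z hz) (cr.by' z hz)) (abs_nonneg _))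
  have e1 : energy A B p q s - energy A B p q t =
      ∫ z in ball (0 : ℂ) 1, (A * ((p s z + p t z) * (p s z - p t z)) +
        B * ((q s z + q t z) * (q s z - q t z))) := by
    rw [energy, energy, ← integral_sub (iE cs) (iE ct)]
    congr 1; funext z; ring
  rw [e1, G]
  congr 1
  -- the vorticity form
  have cF : ContinuousOn (fun z => Ψ s z + Ψ t z) (ball (0 : ℂ) 1) := cs.cont.add ct.cont
  have bF : ∀ z ∈ ball (0 : ℂ) 1, |Ψ s z + Ψ t z| ≤ 2 * C + 2 * C := fun z hz =>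
    (abs_add_le _ _).trans (add_le_add (cs.bd hz) (ct.bd hz))
  have is : ∀ {r : ℝ}, 0 ≤ r → IntegrableOn (fun z => (Ψ s z + Ψ t z) * ω r z) (ball (0 : ℂ) 1) :=
    fun {r} hr => integrableOn_ball (cF.mul (h.contω hr)) fun z hz => abs_mul_le' (bF z hz) (hM r hr z hz)
  have e2 : ∫ z in ball (0 : ℂ) 1, (Ψ s z + Ψ t z) * (A * (pxx s z - pxx t z) +
      B * (pyy s z - pyy t z)) = (∫ z in ball (0 : ℂ) 1, (Ψ s z + Ψ t z) * ω s z) -
      ∫ z in ball (0 : ℂ) 1, (Ψ s z + Ψ t z) * ω t z := by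
    rw [← integral_sub (is hs) (is ht)]
    refine setIntegral_congr_fun measurableSet_ball fun z hz => ?_
    rw [h.vort s hs z hz, h.vort t ht z hz]
    ring
  have e3 : ∀ {r : ℝ}, 0 ≤ r → ∫ z in ball (0 : ℂ) 1, (Ψ s z + Ψ t z) * ω r z =
      ∫ x in ball (0 : ℂ) 1, ω 0 x * (Ψ s (φ r x) + Ψ t (φ r x)) := by
    intro r hr
    rw [← h.cov hr (fun z => (Ψ s z + Ψ t z) * ω r z)]
    refine setIntegral_congr_fun measurableSet_ball fun x hx => ?_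
    rw [h.trans r hr x hx]
    ring
  have i3 : ∀ {r : ℝ}, 0 ≤ r → IntegrableOn (fun x => ω 0 x * (Ψ s (φ r x) + Ψ t (φ r x)))
      (ball (0 : ℂ) 1) := by
    intro r hr
    have m : MapsTo (φ r) (ball (0 : ℂ) 1) (ball (0 : ℂ) 1) := (h.bij r hr).mapsTo
    have cφ : ContinuousOn (φ r) (ball (0 : ℂ) 1) := fun z hz =>
      (h.flow.dphi hz hr).continuousAt.continuousWithinAt
    exact integrableOn_ball ((h.contω le_rfl).mul (cF.comp cφ m)) fun z hz =>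
      abs_mul_le' (hM 0 le_rfl z hz) (bF _ (m hz))
  rw [e2, e3 hs, e3 ht, ← integral_sub (i3 hs) (i3 ht)]
  congr 1
  funext x
  ring

/-- Increments of `Ψ` along trajectories. -/
theorem incr (h : DiscSol A B κ Ψ p q pxx pxy pyy ω φ) {r s t : ℝ} (ht : 0 ≤ t) (hts : t ≤ s)
    (hr : 0 ≤ r) {x : ℂ} (hx : x ∈ ball (0 : ℂ) 1) {ε : ℝ}
    (hb : ∀ τ ∈ Icc t s, |p r (φ τ x) * (-(κ * q τ (φ τ x))) + q r (φ τ x) * (κ * p τ (φ τ x)) +
      (p t (φ τ x) * (-(κ * q τ (φ τ x))) + q t (φ τ x) * (κ * p τ (φ τ x)))| ≤ ε) :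
    |(Ψ r (φ s x) + Ψ t (φ s x)) - (Ψ r (φ t x) + Ψ t (φ t x))| ≤ ε * (s - t) := by
  have hder : ∀ {r : ℝ}, 0 ≤ r → ∀ τ ∈ Icc t s, HasDerivWithinAt (fun τ => Ψ r (φ τ x))
      (p r (φ τ x) * (-(κ * q τ (φ τ x))) + q r (φ τ x) * (κ * p τ (φ τ x))) (Ici 0) τ := by
    intro r hr τ hτ
    obtain ⟨C, _, hC⟩ := h.c2 r
    have hτ0 : 0 ≤ τ := ht.trans hτ.1
    have h1 := ((hC r ⟨hr, le_rfl⟩).1.d0 _ (h.flow.mem τ hτ0 x hx)).comp_hasDerivWithinAt τ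
      (h.ode x hx τ hτ0)
    simp only [lin_apply, UU] at h1
    exact h1
  have hder2 : ∀ τ ∈ Icc t s, HasDerivWithinAt (fun τ => Ψ r (φ τ x) + Ψ t (φ τ x))
      (p r (φ τ x) * (-(κ * q τ (φ τ x))) + q r (φ τ x) * (κ * p τ (φ τ x)) +
      (p t (φ τ x) * (-(κ * q τ (φ τ x))) + q t (φ τ x) * (κ * p τ (φ τ x)))) (Ici 0) τ :=
    fun τ hτ => (hder hr τ hτ).add (hder ht τ hτ)
  have := norm_image_sub_le_of_norm_deriv_right_le_segment
    (f := fun τ => Ψ r (φ τ x) + Ψ t (φ τ x)) (a := t) (b := s) (C := ε)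
    (fun τ hτ => ((hder2 τ hτ).continuousWithinAt).mono (fun y hy => ht.trans hy.1))
    (fun τ hτ => (hder2 τ (Ico_subset_Icc_self hτ)).mono (Ici_subset_Ici.2 (ht.trans hτ.1)))
    (fun τ hτ => hb τ (Ico_subset_Icc_self hτ)) s ⟨hts, le_rfl⟩
  exact this

/-- Conservation of energy. -/
theorem energy_const (h : DiscSol A B κ Ψ p q pxx pxy pyy ω φ) {T : ℝ} (hT : 0 ≤ T) :
    energy A B p q T = energy A B p q 0 := by
  obtain ⟨C, hC0, hC⟩ := h.c2 (T + 1)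
  obtain ⟨M, hM0, hM⟩ := h.bd_ω
  have bpq : ∀ t ∈ Icc 0 (T + 1), ∀ z ∈ ball (0 : ℂ) 1, |p t z| ≤ C ∧ |q t z| ≤ C := fun t ht z hz =>
    ⟨(hC t ht).1.bx z hz, (hC t ht).1.by' z hz⟩
  have hbd : ∀ s ∈ Icc 0 (T + 1), ∀ t ∈ Icc 0 (T + 1), t ≤ s → ∀ x ∈ ball (0 : ℂ) 1,
      |(Ψ s (φ s x) + Ψ t (φ s x)) - (Ψ s (φ t x) + Ψ t (φ t x))| ≤ 4 * (|κ| * (C * C)) * (s - t) := by
    intro s hs t ht hts x hx
    refine h.incr ht.1 hts hs.1 hx fun τ hτ => ?_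
    have hτ' : τ ∈ Icc 0 (T + 1) := ⟨ht.1.trans hτ.1, hτ.2.trans hs.2⟩
    have hm := h.flow.mem τ hτ'.1 x hx
    have k : ∀ {a b : ℝ}, |a| ≤ C → |b| ≤ C → |a * (κ * b)| ≤ |κ| * (C * C) := fun {a b} ha hb => by
      rw [mul_left_comm, abs_mul]
      exact mul_le_mul_of_nonneg_left (abs_mul_le' ha hb) (abs_nonneg _)
    have k' : ∀ {a b : ℝ}, |a| ≤ C → |b| ≤ C → |a * (-(κ * b))| ≤ |κ| * (C * C) :=
      fun {a b} ha hb => by rw [mul_neg, abs_neg]; exact k ha hb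
    have t1 := k' (bpq s hs _ hm).1 (bpq τ hτ' _ hm).2
    have t2 := k (bpq s hs _ hm).2 (bpq τ hτ' _ hm).1
    have t3 := k' (bpq t ht _ hm).1 (bpq τ hτ' _ hm).2
    have t4 := k (bpq t ht _ hm).2 (bpq τ hτ' _ hm).1
    have u1 := (abs_add_le (p s (φ τ x) * (-(κ * q τ (φ τ x)))) (q s (φ τ x) * (κ * p τ (φ τ x))))
    have u2 := (abs_add_le (p t (φ τ x) * (-(κ * q τ (φ τ x)))) (q t (φ τ x) * (κ * p τ (φ τ x))))
    refine (abs_add_le _ _).trans ?_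
    linarith
  set V : ℝ := volume.real (ball (0 : ℂ) 1) with hV
  have hV0 : 0 ≤ V := measureReal_nonneg
  have hlip : ∀ s ∈ Icc 0 (T + 1), ∀ t ∈ Icc 0 (T + 1), t ≤ s →
      |energy A B p q s - energy A B p q t| ≤ M * (4 * (|κ| * (C * C))) * V * (s - t) := by
    intro s hs t ht hts
    rw [h.energy_sub hs.1 ht.1, abs_neg]
    have := norm_setIntegral_le_of_norm_le_const (μ := (volume : Measure ℂ)) (s := ball (0 : ℂ) 1)
      (f := fun x => ω 0 x * ((Ψ s (φ s x) + Ψ t (φ s x)) - (Ψ s (φ t x) + Ψ t (φ t x))))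
      (C := M * (4 * (|κ| * (C * C)) * (s - t))) measure_ball_lt_top
      (fun x hx => abs_mul_le' (hM 0 le_rfl x hx) (hbd s hs t ht hts x hx))
    rw [Real.norm_eq_abs] at this
    refine this.trans (le_of_eq ?_)
    rw [← hV]; ring
  have hcont : ContinuousOn (energy A B p q) (Icc 0 T) := by
    have : LipschitzOnWith (Real.toNNReal (M * (4 * (|κ| * (C * C))) * V)) (energy A B p q) (Icc 0 T) := by
      refine LipschitzOnWith.of_dist_le_mul fun s hs t ht => ?_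
      rw [Real.dist_eq, Real.dist_eq, Real.coe_toNNReal _ (by positivity)]
      have hs' : s ∈ Icc 0 (T + 1) := ⟨hs.1, hs.2.trans (by linarith)⟩
      have ht' : t ∈ Icc 0 (T + 1) := ⟨ht.1, ht.2.trans (by linarith)⟩
      rcases le_total t s with hts | hts
      · rw [abs_of_nonneg (by linarith : 0 ≤ s - t)]
        exact hlip s hs' t ht' hts
      · rw [abs_sub_comm, abs_sub_comm s t, abs_of_nonneg (by linarith : 0 ≤ t - s)]
        exact hlip t ht' s hs' hts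
    exact this.continuousOn
  refine constant_of_has_deriv_right_zero hcont (fun t ht => ?_) T ⟨hT, le_rfl⟩
  -- the right derivative vanishes
  rw [← hasDerivWithinAt_Ioi_iff_Ici, hasDerivWithinAt_iff_tendsto_slope' (by simp)]
  have ht' : t ∈ Icc 0 (T + 1) := ⟨ht.1, by linarith [ht.2]⟩
  have hsm : ∀ᶠ s in 𝓝[>] t, s ∈ Ioo t (T + 1) := Ioo_mem_nhdsGT (by linarith [ht.2])
  have hlim : Tendsto (fun s => ∫ x in ball (0 : ℂ) 1, ω 0 x *
      ((s - t)⁻¹ * ((Ψ s (φ s x) + Ψ t (φ s x)) - (Ψ s (φ t x) + Ψ t (φ t x))))) (𝓝[>] t)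
      (𝓝 (∫ x in ball (0 : ℂ) 1, (0 : ℝ))) := by
    refine tendsto_integral_filter_of_dominated_convergence
      (fun _ => M * (4 * (|κ| * (C * C)))) ?_ ?_ ?_ ?_
    · filter_upwards [hsm] with s hs
      have hs' : s ∈ Icc 0 (T + 1) := ⟨ht.1.trans hs.1.le, hs.2.le⟩
      have cφ : ∀ {r : ℝ}, 0 ≤ r → ContinuousOn (φ r) (ball (0 : ℂ) 1) := fun {r} hr z hz =>
        (h.flow.dphi hz hr).continuousAt.continuousWithinAt
      have cF : ContinuousOn (fun z => Ψ s z + Ψ t z) (ball (0 : ℂ) 1) :=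
        (hC s hs').1.cont.add (hC t ht').1.cont
      refine ContinuousOn.aestronglyMeasurable ?_ measurableSet_ball
      exact (h.contω le_rfl).mul (continuousOn_const.mul
        ((cF.comp (cφ hs'.1) (h.bij s hs'.1).mapsTo).sub (cF.comp (cφ ht'.1) (h.bij t ht'.1).mapsTo)))
    · filter_upwards [hsm] with s hs
      have hs' : s ∈ Icc 0 (T + 1) := ⟨ht.1.trans hs.1.le, hs.2.le⟩
      rw [ae_restrict_iff' measurableSet_ball]
      refine Eventually.of_forall fun x hx => abs_mul_le' (hM 0 le_rfl x hx) ?_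
      have h0 : 0 < s - t := by linarith [hs.1]
      rw [abs_mul, abs_inv, abs_of_pos h0, inv_mul_le_iff₀ h0]
      have := hbd s hs' t ht' hs.1.le x hx
      linarith
    · exact integrableOn_const measure_ball_lt_top.ne
    · rw [ae_restrict_iff' measurableSet_ball]
      refine Eventually.of_forall fun x hx => ?_
      suffices hs : Tendsto (fun s => (s - t)⁻¹ * ((Ψ s (φ s x) + Ψ t (φ s x)) -
          (Ψ s (φ t x) + Ψ t (φ t x)))) (𝓝[>] t) (𝓝 0) by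
        simpa using hs.const_mul (ω 0 x)
      -- continuity of the integrand
      have cφx : ContinuousOn (fun τ => φ τ x) (Ici 0) := h.flow.contt hx
      have mφ : ∀ τ ∈ Ici (0:ℝ), φ τ x ∈ ball (0 : ℂ) 1 := fun τ hτ => h.flow.mem τ hτ x hx
      have c1 : ContinuousOn (fun a : ℝ × ℝ => (a.1, φ a.2 x)) (Ici 0 ×ˢ Ici 0) :=
        continuousOn_fst.prodMk (cφx.comp continuousOn_snd fun a ha => ha.2)
      have c2 : ContinuousOn (fun a : ℝ × ℝ => (a.2, φ a.2 x)) (Ici 0 ×ˢ Ici 0) :=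
        continuousOn_snd.prodMk (cφx.comp continuousOn_snd fun a ha => ha.2)
      have c3 : ContinuousOn (fun a : ℝ × ℝ => (t, φ a.2 x)) (Ici 0 ×ˢ Ici 0) :=
        continuousOn_const.prodMk (cφx.comp continuousOn_snd fun a ha => ha.2)
      have m1 : MapsTo (fun a : ℝ × ℝ => (a.1, φ a.2 x)) (Ici 0 ×ˢ Ici 0)
        (Ici (0:ℝ) ×ˢ ball (0 : ℂ) 1) := fun a ha => ⟨ha.1, mφ _ ha.2⟩
      have m2 : MapsTo (fun a : ℝ × ℝ => (a.2, φ a.2 x)) (Ici 0 ×ˢ Ici 0)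
        (Ici (0:ℝ) ×ˢ ball (0 : ℂ) 1) := fun a ha => ⟨ha.2, mφ _ ha.2⟩
      have m3 : MapsTo (fun a : ℝ × ℝ => (t, φ a.2 x)) (Ici 0 ×ˢ Ici 0)
        (Ici (0:ℝ) ×ˢ ball (0 : ℂ) 1) := fun a ha => ⟨ht.1, mφ _ ha.2⟩
      set D : ℝ × ℝ → ℝ := fun a => p a.1 (φ a.2 x) * (-(κ * q a.2 (φ a.2 x))) +
        q a.1 (φ a.2 x) * (κ * p a.2 (φ a.2 x)) +
        (p t (φ a.2 x) * (-(κ * q a.2 (φ a.2 x))) + q t (φ a.2 x) * (κ * p a.2 (φ a.2 x))) with hD
      have cD : ContinuousOn D (Ici 0 ×ˢ Ici 0) :=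
        (((h.cp.comp c1 m1).mul (continuousOn_const.mul (h.cq.comp c2 m2)).neg).add
          ((h.cq.comp c1 m1).mul (continuousOn_const.mul (h.cp.comp c2 m2)))).add
        (((h.cp.comp c3 m3).mul (continuousOn_const.mul (h.cq.comp c2 m2)).neg).add
          ((h.cq.comp c3 m3).mul (continuousOn_const.mul (h.cp.comp c2 m2))))
      have hD0 : D (t, t) = 0 := by simp only [hD]; ring
      rw [Metric.tendsto_nhdsWithin_nhds]
      intro ε hε
      have := (Metric.continuousWithinAt_iff.1 (cD (t, t) ⟨ht.1, ht.1⟩)) (ε / 2) (half_pos hε)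
      obtain ⟨δ, hδ, hδ'⟩ := this
      refine ⟨δ, hδ, fun {s} hs hsd => ?_⟩
      have hs0 : t < s := hs
      have h0 : 0 < s - t := by linarith
      have h1 := h.incr (r := s) (s := s) ht.1 hs0.le (ht.1.trans hs0.le) hx (ε := ε / 2) (by
        intro τ hτ
        have h2 := hδ' (x := (s, τ)) ⟨ht.1.trans hs0.le, ht.1.trans hτ.1⟩ (by
          rw [Prod.dist_eq, max_lt_iff]
          refine ⟨hsd, lt_of_le_of_lt ?_ hsd⟩
          rw [Real.dist_eq, Real.dist_eq, abs_of_nonneg (by linarith [hτ.1]), abs_of_pos h0]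
          linarith [hτ.2])
        rw [hD0, dist_zero_right, Real.norm_eq_abs] at h2
        exact h2.le)
      rw [dist_zero_right, Real.norm_eq_abs, abs_mul, abs_inv, abs_of_pos h0, inv_mul_lt_iff₀ h0]
      refine h1.trans_lt ?_
      nlinarith
  rw [integral_zero] at hlim
  have hlim2 := hlim.neg
  rw [neg_zero] at hlim2
  refine hlim2.congr' ?_
  filter_upwards [hsm] with s hs
  rw [slope_def_field, h.energy_sub (ht.1.trans hs.1.le) ht.1, neg_div, div_eq_inv_mul,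
    ← integral_const_mul]
  congr 2
  funext x
  ring

end DiscSol

end Pool.Agent.T2h22
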