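import Pool.Agent.T2h22.Green

set_option autoImplicit false

open MeasureTheory Set Filter Topology Metric

namespace Pool.Agent.T2h22

/-- `F` is twice differentiable on the unit disc with the listed (continuous, bounded) partial
derivatives and tends to zero at the boundary. -/
structure C2 (C : ℝ) (F Fx Fy Fxx Fxy Fyy : ℂ → ℝ) : Prop where
  d0 : ∀ z ∈ ball (0 : ℂ) 1, HasFDerivAt F (lin (Fx z) (Fy z)) z
  d1 : ∀ z ∈ ball (0 : ℂ) 1, HasFDerivAt Fx (lin (Fxx z) (Fxy z)) z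
  d2 : ∀ z ∈ ball (0 : ℂ) 1, HasFDerivAt Fy (lin (Fxy z) (Fyy z)) z
  cxx : ContinuousOn Fxx (ball (0 : ℂ) 1)
  cyy : ContinuousOn Fyy (ball (0 : ℂ) 1)
  bx : ∀ z ∈ ball (0 : ℂ) 1, |Fx z| ≤ C
  by' : ∀ z ∈ ball (0 : ℂ) 1, |Fy z| ≤ C
  bxx : ∀ z ∈ ball (0 : ℂ) 1, |Fxx z| ≤ C
  byy : ∀ z ∈ ball (0 : ℂ) 1, |Fyy z| ≤ C
  bc : ∀ b ∈ sphere (0 : ℂ) 1, Tendsto F (𝓝[ball (0 : ℂ) 1] b) (𝓝 0)

theorem smul_lin (c a b : ℝ) : c • lin a b = lin (c * a) (c * b) := by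
  simp [lin, smul_smul]

theorem norm_lin_le {a b C : ℝ} (ha : |a| ≤ C) (hb : |b| ≤ C) : ‖lin a b‖ ≤ 2 * C := by
  have hC : 0 ≤ C := (abs_nonneg _).trans ha
  refine ContinuousLinearMap.opNorm_le_bound _ (by positivity) fun z => ?_
  rw [lin_apply, Real.norm_eq_abs]
  have h1 : |a * z.re| ≤ C * ‖z‖ := by
    rw [abs_mul]; exact mul_le_mul ha (Complex.abs_re_le_norm z) (abs_nonneg _) hC
  have h2 : |b * z.im| ≤ C * ‖z‖ := by
    rw [abs_mul]; exact mul_le_mul hb (Complex.abs_im_le_norm z) (abs_nonneg _) hC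
  linarith [abs_add_le (a * z.re) (b * z.im)]

section
variable {C : ℝ} {F Fx Fy Fxx Fxy Fyy : ℂ → ℝ}

theorem C2.nonneg (h : C2 C F Fx Fy Fxx Fxy Fyy) : 0 ≤ C :=
  (abs_nonneg _).trans (h.bx 0 (mem_ball_self one_pos))

theorem C2.lip (h : C2 C F Fx Fy Fxx Fxy Fyy) {z w : ℂ} (hz : z ∈ ball (0 : ℂ) 1)
    (hw : w ∈ ball (0 : ℂ) 1) : |F w - F z| ≤ 2 * C * ‖w - z‖ :=
  (convex_ball (0 : ℂ) 1).norm_image_sub_le_of_norm_hasFDerivWithin_le
    (f := F) (f' := fun z => lin (Fx z) (Fy z))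
    (fun x hx => (h.d0 x hx).hasFDerivWithinAt) (fun x hx => norm_lin_le (h.bx x hx) (h.by' x hx))
    hz hw

theorem C2.cont (h : C2 C F Fx Fy Fxx Fxy Fyy) : ContinuousOn F (ball (0 : ℂ) 1) :=
  fun z hz => (h.d0 z hz).continuousAt.continuousWithinAt

theorem C2.contx (h : C2 C F Fx Fy Fxx Fxy Fyy) : ContinuousOn Fx (ball (0 : ℂ) 1) :=
  fun z hz => (h.d1 z hz).continuousAt.continuousWithinAt

theorem C2.conty (h : C2 C F Fx Fy Fxx Fxy Fyy) : ContinuousOn Fy (ball (0 : ℂ) 1) :=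
  fun z hz => (h.d2 z hz).continuousAt.continuousWithinAt

/-- `F` is bounded by a multiple of the distance to the boundary. -/
theorem C2.bd_dist (h : C2 C F Fx Fy Fxx Fxy Fyy) {z : ℂ} (hz : z ∈ ball (0 : ℂ) 1) :
    |F z| ≤ 2 * C * (1 - ‖z‖) := by
  -- a boundary point
  obtain ⟨b, hb, hzb⟩ : ∃ b ∈ sphere (0 : ℂ) 1, ‖b - z‖ = 1 - ‖z‖ := by
    rcases eq_or_ne z 0 with rfl | h0
    · exact ⟨1, by simp, by simp⟩
    · refine ⟨z / ‖z‖, by simp [h0], ?_⟩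
      have hn : 0 < ‖z‖ := norm_pos_iff.2 h0
      have e : z / ‖z‖ - z = z / ‖z‖ * ((1 - ‖z‖ : ℝ) : ℂ) := by
        have : (‖z‖ : ℂ) ≠ 0 := by exact_mod_cast hn.ne'
        push_cast; field_simp
      rw [e, norm_mul, Complex.norm_real, norm_div, Complex.norm_real, norm_norm,
        div_self hn.ne', one_mul, Real.norm_of_nonneg]
      have := mem_ball_zero_iff.1 hz
      linarith
  have : (𝓝[ball (0 : ℂ) 1] b).NeBot := by
    rw [← mem_closure_iff_nhdsWithin_neBot, closure_ball _ one_ne_zero]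
    exact sphere_subset_closedBall hb
  have t1 : Tendsto (fun w => |F w - F z|) (𝓝[ball (0 : ℂ) 1] b) (𝓝 |0 - F z|) :=
    ((h.bc b hb).sub_const _).abs
  have t2 : Tendsto (fun w => 2 * C * ‖w - z‖) (𝓝[ball (0 : ℂ) 1] b) (𝓝 (2 * C * ‖b - z‖)) :=
    (Continuous.tendsto (by fun_prop) b).mono_left nhdsWithin_le_nhds
  have := le_of_tendsto_of_tendsto t1 t2 (by
    filter_upwards [self_mem_nhdsWithin] with w hw using h.lip hz hw)
  rwa [zero_sub, abs_neg, hzb] at this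

theorem C2.bd (h : C2 C F Fx Fy Fxx Fxy Fyy) {z : ℂ} (hz : z ∈ ball (0 : ℂ) 1) :
    |F z| ≤ 2 * C := by
  have := h.bd_dist hz
  nlinarith [norm_nonneg z, h.nonneg]

/-- Green's identity for two functions on the unit disc. -/
theorem C2.green (h : C2 C F Fx Fy Fxx Fxy Fyy) {C' : ℝ} {G Gx Gy Gxx Gxy Gyy : ℂ → ℝ}
    (g : C2 C' G Gx Gy Gxx Gxy Gyy) (A B : ℝ) :
    ∫ z in ball (0 : ℂ) 1, (A * (Fx z * Gx z) + B * (Fy z * Gy z)) =
      -∫ z in ball (0 : ℂ) 1, F z * (A * Gxx z + B * Gyy z) := by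
  have hs : ∀ {c a b : ℝ} {z : ℂ} {H : ℂ → ℝ}, HasFDerivAt H (lin a b) z →
      HasFDerivAt (fun z => c * H z) (lin (c * a) (c * b)) z := by
    intro c a b z H hH
    rw [← smul_lin]
    exact hH.const_mul c
  set K := max (2 * C) (max C ((|A| + |B|) * C')) with hK
  have hC := h.nonneg
  have hC' := g.nonneg
  have k1 : 2 * C ≤ K := le_max_left _ _
  have k2 : C ≤ K := (le_max_left _ _).trans (le_max_right _ _)
  have k3 : (|A| + |B|) * C' ≤ K := (le_max_right _ _).trans (le_max_right _ _)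
  have kA : ∀ {x : ℝ}, |x| ≤ C' → |A * x| ≤ K := fun {x} hx => by
    rw [abs_mul]
    refine le_trans ?_ k3
    nlinarith [abs_nonneg A, abs_nonneg B, mul_le_mul_of_nonneg_left hx (abs_nonneg A)]
  have kB : ∀ {x : ℝ}, |x| ≤ C' → |B * x| ≤ K := fun {x} hx => by
    rw [abs_mul]
    refine le_trans ?_ k3
    nlinarith [abs_nonneg A, abs_nonneg B, mul_le_mul_of_nonneg_left hx (abs_nonneg B)]
  have := T2h22.green (r := 1) (C := K) one_pos h.d0
    (G1 := fun z => A * Gx z) (G1x := fun z => A * Gxx z) (G1y := fun z => A * Gxy z)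
    (G2 := fun z => B * Gy z) (G2x := fun z => B * Gxy z) (G2y := fun z => B * Gyy z)
    (fun z hz => hs (g.d1 z hz)) (fun z hz => hs (g.d2 z hz)) h.contx h.conty
    (continuousOn_const.mul g.cxx) (continuousOn_const.mul g.cyy)
    (fun z hz => (h.bd hz).trans k1) (fun z hz => (h.bx z hz).trans k2)
    (fun z hz => (h.by' z hz).trans k2) (fun z hz => kA (g.bx z hz)) (fun z hz => kB (g.by' z hz))
    (fun z hz => kA (g.bxx z hz)) (fun z hz => kB (g.byy z hz)) h.bc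
  rw [← this]
  congr 1
  funext z
  ring

end

end Pool.Agent.T2h22
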