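import Pool.Agent.T2h22.Core
import Pool.Agent.T2h22.Defs

set_option autoImplicit false

open MeasureTheory Set Filter Topology Metric

namespace Pool.Agent.T2h22

theorem E1_apply (z : ℂ) : E1 z = ⟨z.re, 0⟩ := by apply Complex.ext <;> simp [E1]
theorem E4_apply (z : ℂ) : E4 z = ⟨0, z.im⟩ := by apply Complex.ext <;> simp [E4]

/-- the diagonal linear map -/
noncomputable def diag (a b : ℝ) : ℂ →L[ℝ] ℂ := a • E1 + b • E4

theorem diag_apply (a b : ℝ) (z : ℂ) : diag a b z = ⟨a * z.re, b * z.im⟩ := by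
  apply Complex.ext <;> simp [diag, E1_apply, E4_apply]

/-- as an equivalence -/
noncomputable def diagE {a b : ℝ} (ha : 0 < a) (hb : 0 < b) : ℂ ≃L[ℝ] ℂ :=
  ContinuousLinearEquiv.equivOfInverse (diag a b) (diag (1 / a) (1 / b))
    (fun z => by
      rw [diag_apply, diag_apply]; apply Complex.ext <;> simp <;> field_simp)
    (fun z => by
      rw [diag_apply, diag_apply]; apply Complex.ext <;> simp <;> field_simp)

theorem diagE_apply {a b : ℝ} (ha : 0 < a) (hb : 0 < b) (z : ℂ) : diagE ha hb z = diag a b z := rfl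

theorem diag_inv {a b : ℝ} (ha : 0 < a) (hb : 0 < b) (z : ℂ) :
    diag (1 / a) (1 / b) (diag a b z) = z := by
  rw [diag_apply, diag_apply]; apply Complex.ext <;> simp <;> field_simp

theorem diag_inv' {a b : ℝ} (ha : 0 < a) (hb : 0 < b) (z : ℂ) :
    diag a b (diag (1 / a) (1 / b) z) = z := by
  rw [diag_apply, diag_apply]; apply Complex.ext <;> simp <;> field_simp

theorem mem_ellipse_iff {a b : ℝ} (ha : 0 < a) (hb : 0 < b) {z : ℂ} :
    diag a b z ∈ Ellipse a b ↔ z ∈ ball (0 : ℂ) 1 := by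
  rw [Ellipse, mem_ofPred_eq, diag_apply, mem_ball_zero_iff]
  simp only
  rw [mul_div_cancel_left₀ _ ha.ne', mul_div_cancel_left₀ _ hb.ne', normSq_mk'',
    sq_lt_one_iff₀ (norm_nonneg _)]

theorem image_ellipse {a b : ℝ} (ha : 0 < a) (hb : 0 < b) :
    diagE ha hb '' ball (0 : ℂ) 1 = Ellipse a b := by
  ext z
  constructor
  · rintro ⟨w, hw, rfl⟩
    exact (mem_ellipse_iff ha hb).2 hw
  · intro hz
    refine ⟨diag (1 / a) (1 / b) z, ?_, diag_inv' ha hb z⟩
    rw [← mem_ellipse_iff ha hb, diag_inv' ha hb]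
    exact hz

theorem isOpen_ellipse {a b : ℝ} (ha : 0 < a) (hb : 0 < b) : IsOpen (Ellipse a b) := by
  rw [← image_ellipse ha hb]
  exact (diagE ha hb).toHomeomorph.isOpenMap _ isOpen_ball

theorem convex_ellipse {a b : ℝ} (ha : 0 < a) (hb : 0 < b) : Convex ℝ (Ellipse a b) := by
  rw [← image_ellipse ha hb]
  exact (convex_ball (0 : ℂ) 1).linear_image (diag a b).toLinearMap

theorem frontier_ellipse {a b : ℝ} (ha : 0 < a) (hb : 0 < b) {z : ℂ}
    (hz : z ∈ sphere (0 : ℂ) 1) : diag a b z ∈ frontier (Ellipse a b) := by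
  rw [← image_ellipse ha hb]
  have := (diagE ha hb).toHomeomorph.image_frontier (ball (0 : ℂ) 1)
  have h2 : (diagE ha hb).toHomeomorph '' ball (0 : ℂ) 1 = diagE ha hb '' ball (0 : ℂ) 1 := rfl
  rw [← h2, ← this, frontier_ball _ one_ne_zero]
  exact ⟨z, hz, rfl⟩

/-! ### second derivatives -/

/-- the matrix entries of the second derivative -/
noncomputable def D2 (ψ : ℂ → ℝ) (z v w : ℂ) : ℝ := fderiv ℝ (fderiv ℝ ψ) z v w

theorem abs_D2_le {ψ : ℂ → ℝ} {z v w : ℂ} {C : ℝ} (hC : ‖fderiv ℝ (fderiv ℝ ψ) z‖ ≤ C)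
    (hv : ‖v‖ = 1) (hw : ‖w‖ = 1) : |D2 ψ z v w| ≤ C := by
  have h1 := (fderiv ℝ (fderiv ℝ ψ) z).le_opNorm₂ v w
  rw [hv, hw, mul_one, mul_one] at h1
  exact h1.trans hC

theorem abs_D1_le {ψ : ℂ → ℝ} {z v : ℂ} {C : ℝ} (hC : ‖fderiv ℝ ψ z‖ ≤ C)
    (hv : ‖v‖ = 1) : |fderiv ℝ ψ z v| ≤ C := by
  have h1 := (fderiv ℝ ψ z).le_opNorm v
  rw [hv, mul_one] at h1
  exact h1.trans hC

section
variable {M : Set ℂ} (hM : IsOpen M) {ψ : ℂ → ℝ} (hψ : ContDiffOn ℝ 2 ψ M) {z : ℂ} (hz : z ∈ M)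
include hM hψ hz

theorem hasFDerivAt_psi : HasFDerivAt ψ (fderiv ℝ ψ z) z :=
  ((hψ.contDiffAt (hM.mem_nhds hz)).differentiableAt (by norm_num)).hasFDerivAt

theorem hasFDerivAt_dpsi : HasFDerivAt (fderiv ℝ ψ) (fderiv ℝ (fderiv ℝ ψ) z) z := by
  have h1 : ContDiffAt ℝ 1 (fderiv ℝ ψ) z :=
    (hψ.contDiffAt (hM.mem_nhds hz)).fderiv_right (by norm_num)
  exact (h1.differentiableAt (by norm_num)).hasFDerivAt

theorem D2_symm (v w : ℂ) : D2 ψ z v w = D2 ψ z w v := by
  have := (hψ.contDiffAt (hM.mem_nhds hz)).isSymmSndFDerivAt (by simp)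
  exact this v w

end

theorem laplacian_eq_D2 (ψ : ℂ → ℝ) (z : ℂ) :
    Laplacian.laplacian ψ z = D2 ψ z 1 1 + D2 ψ z Complex.I Complex.I := by
  rw [InnerProductSpace.laplacian_eq_iteratedFDeriv_complexPlane, D2, D2]
  simp [iteratedFDeriv_two_apply]

theorem perpGrad_eq (ψ : ℂ → ℝ) (z : ℂ) :
    perpGrad ψ z = UU 1 (fun z => fderiv ℝ ψ z 1) (fun z => fderiv ℝ ψ z Complex.I) z := by
  simp [perpGrad, UU]

theorem clm_eq_lin (L : ℂ →L[ℝ] ℝ) : L = lin (L 1) (L Complex.I) := by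
  ext v
  rw [lin_apply]
  have : v = v.re • (1 : ℂ) + v.im • Complex.I := by apply Complex.ext <;> simp
  conv_lhs => rw [this, map_add, map_smul, map_smul, smul_eq_mul, smul_eq_mul]
  ring

namespace IsEulerSolution

variable {M : Set ℂ} {ω ψ : ℝ → ℂ → ℝ} {Φ : ℝ → ℂ → ℂ} (h : IsEulerSolution M ω ψ Φ)
include h

theorem mem {t : ℝ} (ht : 0 ≤ t) {z : ℂ} (hz : z ∈ M) : Φ t z ∈ M := (h.bij t ht).mapsTo hz

/-- The flow on a convex domain. -/
theorem flowData (hM : IsOpen M) (hc : Convex ℝ M) :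
    FlowData M (fun t => perpGrad (ψ t))
      (fun t z => DU 1 (D2 (ψ t) z 1 1) (D2 (ψ t) z 1 Complex.I) (D2 (ψ t) z Complex.I Complex.I))
      Φ where
  opn := hM
  cvx := hc
  du t ht z hz := by
    have h1 : perpGrad (ψ t) = UU 1 (fun z => fderiv ℝ (ψ t) z 1)
        (fun z => fderiv ℝ (ψ t) z Complex.I) := funext fun w => perpGrad_eq _ w
    rw [h1]
    have h2 := hasFDerivAt_dpsi hM (h.smooth t ht) hz
    have h3 := fun v : ℂ => h2.clm_apply (hasFDerivAt_const v z)
    refine hasFDerivAt_UU ((h3 1).congr_fderiv ?_) ((h3 Complex.I).congr_fderiv ?_)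
    · refine (clm_eq_lin _).trans ?_
      congr 1
      · simp [D2]
      · simp only [ContinuousLinearMap.comp_zero, zero_add, ContinuousLinearMap.flip_apply]
        exact D2_symm hM (h.smooth t ht) hz _ _
    · refine (clm_eq_lin _).trans ?_
      congr 1
      · simp [D2]
      · simp [D2]
  cu := by
    have c1 : ContinuousOn (fun x : ℝ × ℂ => fderiv ℝ (ψ x.1) x.2 1) (Ici (0 : ℝ) ×ˢ M) :=
      h.cont1.clm_apply continuousOn_const
    have c2 : ContinuousOn (fun x : ℝ × ℂ => fderiv ℝ (ψ x.1) x.2 Complex.I) (Ici (0 : ℝ) ×ˢ M) :=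
      h.cont1.clm_apply continuousOn_const
    have h1 : ContinuousOn (fun x : ℝ × ℂ => ((-(fderiv ℝ (ψ x.1) x.2 Complex.I) : ℝ) : ℂ) +
        ((fderiv ℝ (ψ x.1) x.2 1 : ℝ) : ℂ) * Complex.I) (Ici (0 : ℝ) ×ˢ M) :=
      (Complex.continuous_ofReal.comp_continuousOn c2.neg).add
        ((Complex.continuous_ofReal.comp_continuousOn c1).mul continuousOn_const)
    refine h1.congr fun x _ => ?_
    apply Complex.ext <;> simp [perpGrad]
  cD := by
    have c : ∀ v w : ℂ, ContinuousOn (fun x : ℝ × ℂ => D2 (ψ x.1) x.2 v w) (Ici (0 : ℝ) ×ˢ M) :=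
      fun v w => (h.cont2.clm_apply continuousOn_const).clm_apply continuousOn_const
    unfold DU
    exact ((((continuousOn_const.mul (c _ _)).neg.smul continuousOn_const).add
      ((continuousOn_const.mul (c _ _)).neg.smul continuousOn_const)).add
      ((continuousOn_const.mul (c _ _)).smul continuousOn_const)).add
      ((continuousOn_const.mul (c _ _)).smul continuousOn_const)
  bD T := by
    obtain ⟨C, hC⟩ := h.bounded T
    refine ⟨|1| * max C 0 * (‖E1‖ + ‖E2‖ + ‖E3‖ + ‖E4‖), by positivity, fun t ht z hz => ?_⟩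
    have h1 := ((hC t ht z hz).2).trans (le_max_left C 0)
    exact DU_norm (abs_D2_le h1 (by simp) (by simp)) (abs_D2_le h1 (by simp) (by simp))
      (abs_D2_le h1 (by simp) (by simp))
  init := h.start
  mem t ht z hz := h.mem ht hz
  ode := h.flow

theorem trace : ∀ t, 0 ≤ t → ∀ z ∈ M,
    (DU 1 (D2 (ψ t) z 1 1) (D2 (ψ t) z 1 Complex.I) (D2 (ψ t) z Complex.I Complex.I) 1).re +
    (DU 1 (D2 (ψ t) z 1 1) (D2 (ψ t) z 1 Complex.I) (D2 (ψ t) z Complex.I Complex.I)
      Complex.I).im = 0 := fun t _ z _ => by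
  have := h.start
  exact DU_trace _ _ _ _

/-- The flow preserves area infinitesimally. -/
theorem jac_one (hM : IsOpen M) (hc : Convex ℝ M) {t : ℝ} (ht : 0 ≤ t) {x : ℂ} (hx : x ∈ M) :
    jac (fderiv ℝ (Φ t) x) = 1 := (h.flowData hM hc).jac_one h.trace hx ht

omit h in
theorem half {M : Set ℂ} (hM : IsOpen M) {f : ℂ → ℝ} (hf : ContDiffOn ℝ 2 f M) {a b : ℝ} {z : ℂ}
    (hz : diag a b z ∈ M) :
    HasFDerivAt (fun z => f (diag a b z)) (lin (a * fderiv ℝ f (diag a b z) 1)
      (b * fderiv ℝ f (diag a b z) Complex.I)) z ∧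
    HasFDerivAt (fun z => a * fderiv ℝ f (diag a b z) 1) (lin (a ^ 2 * D2 f (diag a b z) 1 1)
      (a * b * D2 f (diag a b z) 1 Complex.I)) z ∧
    HasFDerivAt (fun z => b * fderiv ℝ f (diag a b z) Complex.I)
      (lin (a * b * D2 f (diag a b z) 1 Complex.I) (b ^ 2 * D2 f (diag a b z) Complex.I Complex.I))
      z := by
  have e1 : diag a b 1 = a • (1 : ℂ) := by rw [diag_apply]; apply Complex.ext <;> simp
  have e2 : diag a b Complex.I = b • Complex.I := by rw [diag_apply]; apply Complex.ext <;> simp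
  have k : ∀ (v w : ℂ) (c : ℝ), fderiv ℝ (fderiv ℝ f) (diag a b z) (c • v) w =
      c * D2 f (diag a b z) v w := fun v w c => by
    rw [map_smul]; rfl
  have hd := (diag a b).hasFDerivAt (x := z)
  have h2 := (hasFDerivAt_dpsi hM hf hz).comp z hd
  refine ⟨((hasFDerivAt_psi hM hf hz).comp z hd).congr_fderiv ((clm_eq_lin _).trans ?_),
    ((h2.clm_apply (hasFDerivAt_const 1 z)).const_mul a).congr_fderiv ((clm_eq_lin _).trans ?_),
    ((h2.clm_apply (hasFDerivAt_const Complex.I z)).const_mul b).congr_fderiv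
      ((clm_eq_lin _).trans ?_)⟩
  · congr 1
    · rw [ContinuousLinearMap.comp_apply, e1, map_smul, smul_eq_mul]
    · rw [ContinuousLinearMap.comp_apply, e2, map_smul, smul_eq_mul]
  · congr 1
    · simp only [smul_apply, ContinuousLinearMap.comp_zero, zero_add,
        ContinuousLinearMap.flip_apply, ContinuousLinearMap.comp_apply, e1, k, smul_eq_mul]
      ring
    · have := D2_symm hM hf hz 1 Complex.I
      rw [this]
      simp only [smul_apply, ContinuousLinearMap.comp_zero, zero_add,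
        ContinuousLinearMap.flip_apply, ContinuousLinearMap.comp_apply, e2, k, smul_eq_mul]
      ring
  · congr 1
    · simp only [smul_apply, ContinuousLinearMap.comp_zero, zero_add,
        ContinuousLinearMap.flip_apply, ContinuousLinearMap.comp_apply, e1, k, smul_eq_mul]
      ring
    · simp only [smul_apply, ContinuousLinearMap.comp_zero, zero_add,
        ContinuousLinearMap.flip_apply, ContinuousLinearMap.comp_apply, e2, k, smul_eq_mul]
      ring

omit h in
/-- Transfer of a solution on the ellipse to the unit disc. -/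
theorem toDisc {a b : ℝ} (ha : 0 < a) (hb : 0 < b) {ω ψ : ℝ → ℂ → ℝ} {Φ : ℝ → ℂ → ℂ}
    (h : IsEulerSolution (Ellipse a b) ω ψ Φ) :
    DiscSol (1 / a ^ 2) (1 / b ^ 2) (1 / (a * b)) (fun t z => ψ t (diag a b z))
      (fun t z => a * fderiv ℝ (ψ t) (diag a b z) 1)
      (fun t z => b * fderiv ℝ (ψ t) (diag a b z) Complex.I)
      (fun t z => a ^ 2 * D2 (ψ t) (diag a b z) 1 1)
      (fun t z => a * b * D2 (ψ t) (diag a b z) 1 Complex.I)
      (fun t z => b ^ 2 * D2 (ψ t) (diag a b z) Complex.I Complex.I)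
      (fun t z => ω t (diag a b z)) (fun t z => diag (1 / a) (1 / b) (Φ t (diag a b z))) := by
  have hM := isOpen_ellipse ha hb
  have hm : ∀ z ∈ ball (0 : ℂ) 1, diag a b z ∈ Ellipse a b := fun z hz => (mem_ellipse_iff ha hb).2 hz
  have hm' : ∀ z ∈ Ellipse a b, diag (1 / a) (1 / b) z ∈ ball (0 : ℂ) 1 := fun z hz => by
    rw [← mem_ellipse_iff ha hb, diag_inv' ha hb]; exact hz
  have cS : ContinuousOn (fun x : ℝ × ℂ => (x.1, diag a b x.2)) (Ici (0 : ℝ) ×ˢ ball (0 : ℂ) 1) :=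
    (continuous_fst.prodMk ((diag a b).continuous.comp continuous_snd)).continuousOn
  have mS : MapsTo (fun x : ℝ × ℂ => (x.1, diag a b x.2)) (Ici (0 : ℝ) ×ˢ ball (0 : ℂ) 1)
    (Ici (0 : ℝ) ×ˢ Ellipse a b) := fun x hx => ⟨hx.1, hm _ hx.2⟩
  have c1 : ∀ v : ℂ, ContinuousOn (fun x : ℝ × ℂ => fderiv ℝ (ψ x.1) (diag a b x.2) v)
      (Ici (0 : ℝ) ×ˢ ball (0 : ℂ) 1) := fun v =>
    (h.cont1.comp cS mS).clm_apply continuousOn_const
  have c2 : ∀ v w : ℂ, ContinuousOn (fun x : ℝ × ℂ => D2 (ψ x.1) (diag a b x.2) v w)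
      (Ici (0 : ℝ) ×ˢ ball (0 : ℂ) 1) := fun v w =>
    ((h.cont2.comp cS mS).clm_apply continuousOn_const).clm_apply continuousOn_const
  refine ⟨?_, h.cont0.comp cS mS, continuousOn_const.mul (c1 _), continuousOn_const.mul (c1 _),
    continuousOn_const.mul (c2 _ _), continuousOn_const.mul (c2 _ _),
    continuousOn_const.mul (c2 _ _), ?_, ?_, ?_, ?_, ?_⟩
  · intro T
    obtain ⟨C, hC⟩ := h.bounded T
    set K : ℝ := (a + b + a ^ 2 + a * b + b ^ 2) * max C 0 with hK
    have hC0 : 0 ≤ max C 0 := le_max_right _ _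
    have ka : ∀ {k x : ℝ}, 0 ≤ k → k ≤ a + b + a ^ 2 + a * b + b ^ 2 → |x| ≤ max C 0 →
        |k * x| ≤ K := fun {k x} hk hk' hx => by
      rw [abs_mul, abs_of_nonneg hk]
      exact mul_le_mul hk' hx (abs_nonneg _) (by positivity)
    have a2 : 0 ≤ a ^ 2 := by positivity
    have b2 : 0 ≤ b ^ 2 := by positivity
    have ab : 0 ≤ a * b := by positivity
    refine ⟨K, by positivity, fun t ht => ⟨⟨fun z hz => (half hM (h.smooth t ht.1) (hm z hz)).1,
      fun z hz => (half hM (h.smooth t ht.1) (hm z hz)).2.1,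
      fun z hz => (half hM (h.smooth t ht.1) (hm z hz)).2.2, ?_, ?_,
      fun z hz => ?_, fun z hz => ?_, fun z hz => ?_, fun z hz => ?_, ?_⟩, fun z hz => ?_⟩⟩
    · exact continuousOn_const.mul ((c2 1 1).comp (f := fun z : ℂ => (t, z))
        (Continuous.prodMk_right t).continuousOn fun z hz => ⟨ht.1, hz⟩)
    · exact continuousOn_const.mul ((c2 Complex.I Complex.I).comp (f := fun z : ℂ => (t, z))
        (Continuous.prodMk_right t).continuousOn fun z hz => ⟨ht.1, hz⟩)
    · exact ka ha.le (by linarith) ((abs_D1_le (hC t ht _ (hm z hz)).1 (by simp)).trans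
        (le_max_left _ _))
    · exact ka hb.le (by linarith) ((abs_D1_le (hC t ht _ (hm z hz)).1 (by simp)).trans
        (le_max_left _ _))
    · exact ka a2 (by linarith) ((abs_D2_le (hC t ht _ (hm z hz)).2 (by simp) (by simp)).trans
        (le_max_left _ _))
    · exact ka b2 (by linarith) ((abs_D2_le (hC t ht _ (hm z hz)).2 (by simp) (by simp)).trans
        (le_max_left _ _))
    · intro z hz
      have h1 := h.boundary t ht.1 _ (frontier_ellipse ha hb hz)
      refine h1.comp (tendsto_nhdsWithin_iff.2 ⟨?_, ?_⟩)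
      · exact ((diag a b).continuous.tendsto z).mono_left nhdsWithin_le_nhds
      · filter_upwards [self_mem_nhdsWithin] with w hw using hm w hw
    · exact ka ab (by linarith) ((abs_D2_le (hC t ht _ (hm z hz)).2 (by simp) (by simp)).trans
        (le_max_left _ _))
  · intro t ht z hz
    rw [← h.poisson t ht _ (hm z hz), laplacian_eq_D2]
    field_simp
  · intro z hz
    rw [h.start _ (hm z hz), diag_inv ha hb]
  · intro t ht
    have b1 : BijOn (diag a b) (ball (0 : ℂ) 1) (Ellipse a b) := by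
      refine ⟨fun z hz => hm z hz, fun z _ w _ hzw => ?_, fun z hz => ?_⟩
      · rw [← diag_inv ha hb z, ← diag_inv ha hb w, hzw]
      · exact ⟨_, hm' z hz, diag_inv' ha hb z⟩
    have b2 : BijOn (diag (1 / a) (1 / b)) (Ellipse a b) (ball (0 : ℂ) 1) := by
      refine ⟨fun z hz => hm' z hz, fun z _ w _ hzw => ?_, fun z hz => ?_⟩
      · rw [← diag_inv' ha hb z, ← diag_inv' ha hb w, hzw]
      · exact ⟨_, hm z hz, diag_inv ha hb z⟩
    exact b2.comp ((h.bij t ht).comp b1)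
  · intro z hz t ht
    have h1 := (diag (1 / a) (1 / b)).hasFDerivAt.comp_hasDerivWithinAt t
      (h.flow _ (hm z hz) t ht)
    refine h1.congr_deriv ?_
    rw [diag_apply, UU, diag_inv' ha hb]
    apply Complex.ext
    · simp only [perpGrad]
      field_simp
    · simp only [perpGrad]
      field_simp
  · intro t ht z hz
    rw [diag_inv' ha hb]
    exact h.transport t ht _ (hm z hz)

end IsEulerSolution

end Pool.Agent.T2h22
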